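import Pool.Agent.P.MP_c18ddb_co.X.Acc

/-! The colours inside the four cliques. -/

namespace Pool.Agent.P.MP_c18ddb_co.X

open Finset

theorem StepB_avg {V : Type} (A B : Finset V) (e f k : V → V → ℝ) (h : V → ℝ)
    (H : ∀ y ∈ A, ∀ y' ∈ A, ∀ z ∈ B, e y y' ≤ f y y' + h z + k y z + k y' z) :
    (B.card : ℝ) * ∑ y ∈ A, ∑ y' ∈ A, e y y' ≤ (B.card : ℝ) * ∑ y ∈ A, ∑ y' ∈ A, f y y' +
      (A.card : ℝ) * (A.card * ∑ z ∈ B, h z) + 2 * (A.card * ∑ y ∈ A, ∑ z ∈ B, k y z) := by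
  have h1 : ∑ y ∈ A, ∑ y' ∈ A, ∑ _z ∈ B, e y y' ≤
      ∑ y ∈ A, ∑ y' ∈ A, ∑ z ∈ B, (f y y' + h z + k y z + k y' z) :=
    sum_le_sum fun y hy => sum_le_sum fun y' hy' => sum_le_sum fun z hz => H y hy y' hy' z hz
  simp only [sum_add_distrib, sum_const, nsmul_eq_mul, ← mul_sum] at h1
  linarith

theorem StepB_part {V : Type} [Fintype V] [DecidableEq V] (c : V → V → Bool) (D : V → V → ℝ)
    (hC : Cov c D) (r : Fin 6 → V) (π : V → Fin 6) (δ : ℝ) (h0 : 0 ≤ δ) (h1 : δ ≤ 1 / 100)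
    (hr : ∀ a b, a ≠ b → a ≠ 5 → b ≠ 5 → c (r a) (r b) = tc a b)
    (hπ : ∀ y a, a ≠ 5 → π y ≠ 5 → a ≠ π y → c (r a) y = tc a (π y))
    (hη : ∀ a b, a ≠ b → a ≠ 5 → b ≠ 5 → D (r a) (r b) ≤ δ)
    (hdeg : ∀ v, ∑ y, D v y ≤ (3 / 7 + δ) * Fintype.card V)
    (hq : ∀ i, ((sz i : ℝ) / 14 - δ) * Fintype.card V ≤ ps π i)
    (hoff : ∀ a, a ≠ 5 →
      ∑ y ∈ univ.filter (fun y => π y ≠ a ∧ π y ≠ 5), D (r a) y ≤ δ * Fintype.card V)
    (hD : ∑ p ∈ (univ : Finset (V × V)).filter (fun p => π p.1 ≠ π p.2 ∧ π p.1 ≠ 5 ∧ π p.2 ≠ 5),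
      D p.1 p.2 ≤ δ * (Fintype.card V : ℝ) ^ 2)
    (hW : (cnt (univ : Finset (V × V)) (fun p => Wr π c p.1 p.2 ∧ π p.1 ≠ π p.2) : ℝ) ≤
      δ * (Fintype.card V : ℝ) ^ 2)
    (hT : (cnt univ (fun y => π y ≠ 0 ∧ π y ≠ 5 ∧ c (r (π y)) y ≠ tc (π y) (π y)) : ℝ) ≤
      δ * Fintype.card V) (i j : Fin 6) (s : Bool) (i0 : i ≠ 0) (i5 : i ≠ 5) (j0 : j ≠ 0)
    (j5 : j ≠ 5) (ij : i ≠ j) (si : sz i = 3) (sj : sz j = 3) (t1 : tc 0 i = s)
    (t2 : tc i j = !s) (t3 : tc j i = !s) (t4 : tc j j = !s) :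
    (cnt (univ : Finset (V × V)) (fun p => π p.1 = i ∧ π p.2 = i ∧ c p.1 p.2 ≠ s) : ℝ) ≤
      115 * δ * (Fintype.card V : ℝ) ^ 2 := by
  classical
  set n : ℝ := (Fintype.card V : ℝ) with hn
  set A := univ.filter fun v => π v = i with hA
  set B := univ.filter fun v => π v = j with hB
  have mA : ∀ y ∈ A, π y = i := fun y hy => (mem_filter.1 hy).2
  have mB : ∀ y ∈ B, π y = j := fun y hy => (mem_filter.1 hy).2
  have nn := hC.D_nonneg
  have npos : 0 < n := by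
    have : Nonempty V := ⟨r 0⟩
    rw [hn]
    exact_mod_cast Fintype.card_pos
  have qA : (3 / 14 - δ) * n ≤ A.card := by simpa only [si, Nat.cast_ofNat, ps] using hq i
  have qB : (3 / 14 - δ) * n ≤ B.card := by simpa only [sj, Nat.cast_ofNat, ps] using hq j
  have uA : (A.card : ℝ) ≤ n := by rw [hn]; exact_mod_cast card_le_univ A
  have uB : (B.card : ℝ) ≤ n := by rw [hn]; exact_mod_cast card_le_univ B
  have pA : (0 : ℝ) ≤ A.card := Nat.cast_nonneg _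
  have H := StepB_avg A B (fun y y' => if c y y' ≠ s then 1 else 0)
    (fun y y' => D y y' - 2 + (D (r 0) y + D (r j) y) + (D (r 0) y' + D (r j) y'))
    (fun y z => D y z + 3 * if Wr π c y z ∧ π y ≠ π z then 1 else 0)
    (fun z => D (r j) z + D (r i) z - 2 + δ +
      3 * if π z ≠ 0 ∧ π z ≠ 5 ∧ c (r (π z)) z ≠ tc (π z) (π z) then 1 else 0) (by
    intro y hy y' hy' z hz
    have a1 := mA y hy
    have a2 := mA y' hy'
    have a3 := mB z hz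
    have c0 : ∀ u, π u = i → c (r 0) u = s := fun u hu => by
      rw [hπ u 0 (by decide) (hu ▸ i5) (hu ▸ i0.symm), hu, t1]
    have cj : ∀ u, π u = i → c (r j) u = !s := fun u hu => by
      rw [hπ u j j5 (hu ▸ i5) (hu ▸ ij.symm), hu, t3]
    have ci : c (r i) z = !s := by rw [hπ z i i5 (a3 ▸ j5) (a3 ▸ ij), a3, t2]
    have cw : ∀ u, π u = i → ¬ (Wr π c u z ∧ π u ≠ π z) → c u z = !s := fun u hu hw => by
      have b1 : π u ≠ π z := by rw [hu, a3]; exact ij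
      by_contra b2
      exact hw ⟨⟨fun e => b1 (e ▸ rfl), hu ▸ i5, a3 ▸ j5, fun e => i0 (hu ▸ e.1),
        by rwa [hu, a3, t2]⟩, b1⟩
    have ct : ¬ (π z ≠ 0 ∧ π z ≠ 5 ∧ c (r (π z)) z ≠ tc (π z) (π z)) → c (r j) z = !s :=
      fun hw => by
        by_contra b2
        exact hw ⟨a3 ▸ j0, a3 ▸ j5, by rwa [a3, t4]⟩
    have ns : c y y' ≠ s → c y y' = !s := fun h => Bool.eq_not_iff.2 h
    have X : 2 ≤ D y y' + (D (r 0) y + D (r j) y) + (D (r 0) y' + D (r j) y') := by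
      by_cases h : c y y' = s
      · linarith [hC.k3 s (r 0) y y' (c0 y a1) (c0 y' a2) h, nn (r j) y, nn (r j) y']
      · linarith [hC.k3 (!s) (r j) y y' (cj y a1) (cj y' a2) (ns h), nn (r 0) y, nn (r 0) y']
    have Y : c (r j) z = !s → 2 ≤ D (r j) z + D (r i) z + δ := fun h => by
      linarith [hC.k3 (!s) (r j) (r i) z (by rw [hr j i ij.symm j5 i5, t3]) h ci,
        hη j i ij.symm j5 i5]
    have Z : c y y' = !s → c y z = !s → c y' z = !s → c (r j) z = !s →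
        5 ≤ D (r j) y + D (r j) y' + D y y' + D (r j) z + D y z + D y' z := fun b1 b2 b3 b4 =>
      hC.k4 (!s) (r j) y y' z (cj y a1) (cj y' a2) b1 b4 b2 b3
    have p1 := nn y z
    have p2 := nn y' z
    have p3 := nn (r j) z
    have p4 := nn (r i) z
    have p5 := nn (r 0) y
    have p6 := nn (r 0) y'
    split_ifs with b1 b2 b3 b4 b5 b6 b7 b8 b9 b10 b11 b12 b13 b14
    all_goals first
      | linarith
      | linarith [Y (ct ‹_›)]
      | linarith [Z (ns b1) (cw y a1 ‹_›) (cw y' a2 ‹_›) (ct ‹_›)])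
  have off : ∀ (a b : Fin 6) (E : Finset V), (∀ y ∈ E, π y = b) → a ≠ 5 → b ≠ 5 → b ≠ a →
      ∑ y ∈ E, D (r a) y ≤ δ * n := fun a b E hE a5 b5 ba =>
    (sum_le_sum_of_subset_of_nonneg (fun y hy => mem_filter.2 ⟨mem_univ _,
      (hE y hy).symm ▸ ba, (hE y hy).symm ▸ b5⟩) fun y _ _ => nn _ _).trans (hoff a a5)
  have deg : ∀ (v : V) (E : Finset V), ∑ y ∈ E, D v y ≤ (3 / 7 + δ) * n := fun v E =>
    (sum_le_sum_of_subset_of_nonneg (subset_univ E) fun y _ _ => nn _ _).trans (hdeg v)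
  have s1 : ∑ y ∈ A, ∑ y' ∈ A,
      (D y y' - 2 + (D (r 0) y + D (r j) y) + (D (r 0) y' + D (r j) y')) ≤ 7 * δ * n ^ 2 := by
    have b1 : ∑ y ∈ A, ∑ y' ∈ A, D y y' ≤ A.card * ((3 / 7 + δ) * n) := by
      rw [← nsmul_eq_mul]
      exact sum_le_card_nsmul _ _ _ fun y _ => deg y A
    have b2 := off 0 i A mA (by decide) i5 i0
    have b3 := off j i A mA j5 i5 ij
    simp only [sum_add_distrib, sum_sub_distrib, sum_const, nsmul_eq_mul, ← mul_sum]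
    have b4 := mul_le_mul_of_nonneg_left b2 pA
    have b5 := mul_le_mul_of_nonneg_left b3 pA
    have b6 := mul_le_mul_of_nonneg_left qA pA
    have b7 := mul_le_mul_of_nonneg_right uA (mul_nonneg h0 npos.le)
    nlinarith
  have s2 : ∑ z ∈ B, (D (r j) z + D (r i) z - 2 + δ +
      3 * if π z ≠ 0 ∧ π z ≠ 5 ∧ c (r (π z)) z ≠ tc (π z) (π z) then (1 : ℝ) else 0) ≤
      8 * δ * n := by
    have b1 := deg (r j) B
    have b2 := off i j B mB i5 j5 ij.symm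
    have b3 : (cnt B (fun z => π z ≠ 0 ∧ π z ≠ 5 ∧ c (r (π z)) z ≠ tc (π z) (π z)) : ℝ) ≤ δ * n :=
      le_trans (Nat.cast_le.2 (cnt_mono fun a _ h => ⟨mem_univ a, h⟩)) hT
    rw [cnt_eq, card_filter] at b3
    push_cast at b3
    simp only [sum_add_distrib, sum_sub_distrib, sum_const, nsmul_eq_mul, ← mul_sum]
    have b4 := mul_le_mul_of_nonneg_right uB h0
    nlinarith
  have s3 : ∑ y ∈ A, ∑ z ∈ B, (D y z + 3 * if Wr π c y z ∧ π y ≠ π z then (1 : ℝ) else 0) ≤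
      4 * δ * n ^ 2 := by
    have b1 : ∑ p ∈ A ×ˢ B, D p.1 p.2 ≤ δ * n ^ 2 := by
      refine (sum_le_sum_of_subset_of_nonneg (fun p hp => mem_filter.2 ⟨mem_univ _, ?_⟩)
        fun p _ _ => nn _ _).trans hD
      rw [mA _ (mem_product.1 hp).1, mB _ (mem_product.1 hp).2]
      exact ⟨ij, i5, j5⟩
    have b3 : (cnt (A ×ˢ B) (fun p => Wr π c p.1 p.2 ∧ π p.1 ≠ π p.2) : ℝ) ≤ δ * n ^ 2 :=
      le_trans (Nat.cast_le.2 (cnt_mono fun a _ h => ⟨mem_univ a, h⟩)) hW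
    rw [cnt_eq, card_filter] at b3
    push_cast at b3
    rw [sum_product] at b1 b3
    simp only [sum_add_distrib, ← mul_sum]
    linarith
  have s4 : (cnt (univ : Finset (V × V)) (fun p => π p.1 = i ∧ π p.2 = i ∧ c p.1 p.2 ≠ s) : ℝ) ≤
      ∑ y ∈ A, ∑ y' ∈ A, if c y y' ≠ s then (1 : ℝ) else 0 := by
    refine le_trans (Nat.cast_le.2 (cnt_mono (t := A ×ˢ A) (q := fun p => c p.1 p.2 ≠ s)
      fun p _ h => ⟨mem_product.2 ⟨mem_filter.2 ⟨mem_univ _, h.1⟩,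
        mem_filter.2 ⟨mem_univ _, h.2.1⟩⟩, h.2.2⟩)) ?_
    rw [cnt_eq, card_filter]
    push_cast
    rw [sum_product]
  refine s4.trans ?_
  have p0 : (0 : ℝ) ≤ ∑ y ∈ A, ∑ y' ∈ A, if c y y' ≠ s then (1 : ℝ) else 0 :=
    le_trans (Nat.cast_nonneg _) s4
  generalize (∑ y ∈ A, ∑ y' ∈ A, if c y y' ≠ s then (1 : ℝ) else 0) = N at H p0 ⊢
  have pB : n / 5 ≤ B.card := by nlinarith
  have d0 : 0 ≤ δ * n := mul_nonneg h0 npos.le
  have e1 : (B.card : ℝ) * ∑ y ∈ A, ∑ y' ∈ A,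
      (D y y' - 2 + (D (r 0) y + D (r j) y) + (D (r 0) y' + D (r j) y')) ≤ n * (7 * δ * n ^ 2) :=
    (mul_le_mul_of_nonneg_left s1 (Nat.cast_nonneg _)).trans
      (mul_le_mul_of_nonneg_right uB (by positivity))
  have e2 := (mul_le_mul_of_nonneg_left ((mul_le_mul_of_nonneg_left s2 pA).trans
    (mul_le_mul_of_nonneg_right uA (by positivity))) pA).trans
    (mul_le_mul_of_nonneg_right uA (by positivity))
  have e3 := (mul_le_mul_of_nonneg_left s3 pA).trans (mul_le_mul_of_nonneg_right uA (by positivity))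
  have e4 := mul_le_mul_of_nonneg_right pB p0
  refine le_of_mul_le_mul_left ?_ npos
  nlinarith

theorem stepB {V : Type} [Fintype V] [DecidableEq V] (c : V → V → Bool) (D : V → V → ℝ)
    (hC : Cov c D) (r : Fin 6 → V) (π : V → Fin 6) (δ : ℝ) (h0 : 0 ≤ δ) (h1 : δ ≤ 1 / 100)
    (hr : ∀ a b, a ≠ b → a ≠ 5 → b ≠ 5 → c (r a) (r b) = tc a b)
    (hπ : ∀ y a, a ≠ 5 → π y ≠ 5 → a ≠ π y → c (r a) y = tc a (π y))
    (hη : ∀ a b, a ≠ b → a ≠ 5 → b ≠ 5 → D (r a) (r b) ≤ δ)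
    (hdeg : ∀ v, ∑ y, D v y ≤ (3 / 7 + δ) * Fintype.card V)
    (hq : ∀ i, ((sz i : ℝ) / 14 - δ) * Fintype.card V ≤ ps π i)
    (hoff : ∀ a, a ≠ 5 →
      ∑ y ∈ univ.filter (fun y => π y ≠ a ∧ π y ≠ 5), D (r a) y ≤ δ * Fintype.card V)
    (hD : ∑ p ∈ (univ : Finset (V × V)).filter (fun p => π p.1 ≠ π p.2 ∧ π p.1 ≠ 5 ∧ π p.2 ≠ 5),
      D p.1 p.2 ≤ δ * (Fintype.card V : ℝ) ^ 2)
    (hW : (cnt (univ : Finset (V × V)) (fun p => Wr π c p.1 p.2 ∧ π p.1 ≠ π p.2) : ℝ) ≤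
      δ * (Fintype.card V : ℝ) ^ 2)
    (hT : (cnt univ (fun y => π y ≠ 0 ∧ π y ≠ 5 ∧ c (r (π y)) y ≠ tc (π y) (π y)) : ℝ) ≤
      δ * Fintype.card V) :
    Gd (1000 * δ) π c := by
  have P := StepB_part c D hC r π δ h0 h1 hr hπ hη hdeg hq hoff hD hW hT
  have p1 := P 1 3 true (by decide) (by decide) (by decide) (by decide) (by decide) rfl rfl rfl
    rfl rfl rfl
  have p2 := P 2 1 false (by decide) (by decide) (by decide) (by decide) (by decide) rfl rfl rfl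
    rfl rfl rfl
  have p3 := P 3 4 false (by decide) (by decide) (by decide) (by decide) (by decide) rfl rfl rfl
    rfl rfl rfl
  have p4 := P 4 2 true (by decide) (by decide) (by decide) (by decide) (by decide) rfl rfl rfl
    rfl rfl rfl
  refine ⟨?_, fun i => le_trans (mul_le_mul_of_nonneg_right (by linarith) (Nat.cast_nonneg _))
    (hq i)⟩
  have o : ∀ p q : V × V → Prop, cnt univ (fun a => p a ∨ q a) ≤ cnt univ p + cnt univ q :=
    fun p q => cnt_le_add fun a ha h => h.imp (fun h => ⟨ha, h⟩) fun h => ⟨ha, h⟩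
  have h : wrN π c ≤ cnt (univ : Finset (V × V)) (fun p => Wr π c p.1 p.2 ∧ π p.1 ≠ π p.2) +
      (cnt (univ : Finset (V × V)) (fun p => π p.1 = 1 ∧ π p.2 = 1 ∧ c p.1 p.2 ≠ true) +
      (cnt (univ : Finset (V × V)) (fun p => π p.1 = 2 ∧ π p.2 = 2 ∧ c p.1 p.2 ≠ false) +
      (cnt (univ : Finset (V × V)) (fun p => π p.1 = 3 ∧ π p.2 = 3 ∧ c p.1 p.2 ≠ false) +
      cnt (univ : Finset (V × V)) (fun p => π p.1 = 4 ∧ π p.2 = 4 ∧ c p.1 p.2 ≠ true)))) := by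
    refine le_trans (cnt_mono fun p hp h => ⟨hp, ?_⟩) ((o _ _).trans (Nat.add_le_add_left
      ((o _ _).trans (Nat.add_le_add_left ((o _ _).trans (Nat.add_le_add_left (o _ _) _)) _)) _))
    by_cases e : π p.1 = π p.2
    · refine .inr ?_
      obtain ⟨-, a1, -, a2, a3⟩ := h
      rw [← e] at a2 a3 ⊢
      generalize π p.1 = i at a1 a2 a3
      generalize c p.1 p.2 = s at a3
      revert i s
      decide
    · exact .inl ⟨h, e⟩
  have h' := (Nat.cast_le (α := ℝ)).2 h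
  push_cast at h'
  have : 0 ≤ δ * (Fintype.card V : ℝ) ^ 2 := by positivity
  nlinarith

end Pool.Agent.P.MP_c18ddb_co.X
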