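import Pool.Agent.P.MP_c18ddb_co.X.Defs
import Pool.Agent.P.MP_c18ddb_co.Q.Frac
import Pool.Agent.P.MP_c18ddb_co.Q.Pack

/-! Accounting for packings. -/

namespace Pool.Agent.P.MP_c18ddb_co.X

open Finset Q

variable {V : Type} [Fintype V] [DecidableEq V]

theorem Acc_tc : ∀ i j : Fin 6, tc i j = tc j i := by decide

theorem Acc_d0 (i j : Fin 6) : d0 i j = d0 j i := by
  unfold d0
  by_cases h : i = j
  · rw [h]
  · rw [if_neg h, if_neg (Ne.symm h)]

omit [Fintype V] in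
theorem Acc_off (D : V → V → ℝ) (K : Finset V) :
    ∑ p ∈ K.offDiag, D p.1 p.2 = ∑ x ∈ K, ∑ y ∈ K, D x y - ∑ x ∈ K, D x x := by
  rw [← sum_product', ← diag_union_offDiag, sum_union (disjoint_diag_offDiag K), sum_diag]
  ring

omit [Fintype V] in
theorem Acc_ins {D : V → V → ℝ} (hD : ∀ u v, D u v = D v u) {K : Finset V} {a : V}
    (ha : a ∉ K) : ∑ p ∈ (insert a K).offDiag, D p.1 p.2 =
      2 * ∑ y ∈ K, D a y + ∑ p ∈ K.offDiag, D p.1 p.2 := by
  simp only [Acc_off, sum_insert ha, sum_add_distrib, fun x => hD x a]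
  ring

omit [Fintype V] in
theorem Acc_three {D : V → V → ℝ} (hD : ∀ u v, D u v = D v u) {a b d : V} (h1 : a ≠ b)
    (h2 : a ≠ d) (h3 : b ≠ d) : ∑ p ∈ ({a, b, d} : Finset V).offDiag, D p.1 p.2 =
      2 * (D a b + D a d + D b d) := by
  rw [Acc_ins hD (by simp [h1, h2]), Acc_ins hD (by simp [h3]), sum_pair h3]
  simp
  ring

omit [Fintype V] in
theorem Acc_four {D : V → V → ℝ} (hD : ∀ u v, D u v = D v u) {a b d e : V} (h1 : a ≠ b)
    (h2 : a ≠ d) (h3 : b ≠ d) (h4 : a ≠ e) (h5 : b ≠ e) (h6 : d ≠ e) :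
    ∑ p ∈ ({a, b, d, e} : Finset V).offDiag, D p.1 p.2 =
      2 * (D a b + D a d + D b d + D a e + D b e + D d e) := by
  rw [Acc_ins hD (by simp [h1, h2, h4]), Acc_three hD h3 h5 h6, sum_insert (by simp [h3, h5]),
    sum_pair h6]
  ring

theorem Wr.symm {π : V → Fin 6} {c : V → V → Bool} (hc : ∀ u v, c u v = c v u) {u v : V}
    (h : Wr π c u v) : Wr π c v u :=
  ⟨h.1.symm, h.2.2.1, h.2.1, fun h1 => h.2.2.2.1 h1.symm, by
    rw [hc, Acc_tc]; exact h.2.2.2.2⟩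

theorem Gd.mono {ε ε' : ℝ} {π : V → Fin 6} {c : V → V → Bool} (h : Gd ε π c) (hε : ε ≤ ε') :
    Gd ε' π c :=
  ⟨h.1.trans (mul_le_mul_of_nonneg_right hε (by positivity)), fun i =>
    (mul_le_mul_of_nonneg_right (by linarith) (Nat.cast_nonneg _)).trans (h.2 i)⟩

/-- changing the partition and the colours only at the vertices of `B` -/
theorem Gd.change {ε η : ℝ} {π π' : V → Fin 6} {c c' : V → V → Bool} (h : Gd ε π c)
    (B : Finset V) (hπ : ∀ v, v ∉ B → π' v = π v)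
    (hc : ∀ u v, u ∉ B → v ∉ B → u ≠ v → c' u v = c u v)
    (hB : 2 * (B.card : ℝ) ≤ η * Fintype.card V) : Gd (ε + η) π' c' := by
  have hn : (0 : ℝ) ≤ Fintype.card V := Nat.cast_nonneg _
  have hb : (0 : ℝ) ≤ B.card := Nat.cast_nonneg _
  refine ⟨?_, fun i => ?_⟩
  · have h1 : wrN π' c' ≤ wrN π c + cnt (B ×ˢ univ ∪ univ ×ˢ B) fun _ : V × V => True := by
      refine cnt_le_add fun p _ hp => ?_
      by_cases h1 : p.1 ∈ B
      · exact Or.inr ⟨by simp [h1], trivial⟩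
      by_cases h2 : p.2 ∈ B
      · exact Or.inr ⟨by simp [h2], trivial⟩
      refine Or.inl ⟨mem_univ _, ?_⟩
      unfold Wr at hp ⊢
      rw [hπ _ h1, hπ _ h2, hc _ _ h1 h2 hp.1] at hp
      exact hp
    have h2 := (cnt_le_card (B ×ˢ univ ∪ univ ×ˢ B) fun _ : V × V => True).trans
      (card_union_le _ _)
    rw [card_product, card_product, card_univ] at h2
    have h3 : (wrN π' c' : ℝ) ≤ wrN π c + (B.card * Fintype.card V + Fintype.card V * B.card) := by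
      exact_mod_cast h1.trans (Nat.add_le_add_left h2 _)
    have h4 := mul_le_mul_of_nonneg_right hB hn
    nlinarith [h.1]
  · have h1 : ps π i ≤ ps π' i + B.card := by
      refine le_trans (card_le_card fun v hv => ?_) (card_union_le _ _)
      by_cases h1 : v ∈ B
      · exact mem_union_right _ h1
      · exact mem_union_left _ (mem_filter.2 ⟨mem_univ _, (hπ v h1).trans (mem_filter.1 hv).2⟩)
    have h2 : (ps π i : ℝ) ≤ ps π' i + B.card := by exact_mod_cast h1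
    nlinarith [h.2 i]

theorem wrN_eq (π : V → Fin 6) (c : V → V → Bool) :
    wrN π c = ∑ u, cnt univ (Wr π c u) := by
  classical
  simp only [wrN, cnt_eq, card_filter]
  exact Fintype.sum_prod_type _

theorem Close.mono {ε ε' : ℝ} {c : V → V → Bool} (h : Close ε c) (hε : ε ≤ ε') : Close ε' c :=
  h.imp fun _ h => h.mono hε

/-- closeness only depends on the colours of pairs of different vertices -/
theorem Close.congr {ε : ℝ} {c c' : V → V → Bool} (h : Close ε c)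
    (hc : ∀ u v, u ≠ v → c' u v = c u v) : Close ε c' := by
  obtain ⟨π, h⟩ := h
  refine ⟨π, ?_⟩
  simpa using h.change (η := 0) (π' := π) ∅ (fun _ _ => rfl) (fun u v _ _ => hc u v) (by simp)

theorem Close.equiv {W : Type} [Fintype W] {ε : ℝ} {c : V → V → Bool} (h : Close ε c)
    (e : W ≃ V) : Close ε (fun u v => c (e u) (e v)) := by
  classical
  obtain ⟨π, h1, h2⟩ := h
  have h3 : wrN (fun w => π (e w)) (fun u v => c (e u) (e v)) = wrN π c := by
    rw [wrN, wrN, cnt_eq, cnt_eq]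
    refine card_equiv (e.prodCongr e) fun p => ?_
    simp [Wr]
  refine ⟨fun w => π (e w), ?_, fun i => ?_⟩
  · rw [h3, Fintype.card_congr e]
    exact h1
  · have h4 : ps (fun w => π (e w)) i = ps π i := card_equiv e fun w => by simp
    rw [h4, Fintype.card_congr e]
    exact h2 i

theorem ps_sum (π : V → Fin 6) : ∑ i, ps π i = Fintype.card V :=
  (card_eq_sum_card_fiberwise (s := univ) (f := π) fun _ _ => mem_univ _).symm

theorem mem_Cl {c : V → V → Bool} {K : Finset V} (h3 : 3 ≤ K.card) (h5 : K.card ≤ 5) (s : Bool)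
    (h : ∀ u ∈ K, ∀ v ∈ K, u ≠ v → c u v = s) : K ∈ Cl c univ := by
  classical
  exact mem_filter.2 ⟨mem_powerset.2 (subset_univ _), h3, h5, s, h⟩

theorem Pk.union {c : V → V → Bool} {M N : Finset (Finset V)} (hM : Pk c M) (hN : Pk c N)
    (h : ∀ K ∈ N, ∀ x ∈ K, ∀ y ∈ K, x ≠ y → ¬ Cv M x y) : Pk c (M ∪ N) ∧ Disjoint M N := by
  classical
  refine ⟨⟨union_subset hM.1 hN.1, fun K hK L hL x y hxy h1 h2 h3 h4 => ?_⟩,
    disjoint_left.2 fun K hK hK' => ?_⟩
  · rcases mem_union.1 hK with hK | hK <;> rcases mem_union.1 hL with hL | hL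
    · exact hM.2 K hK L hL x y hxy h1 h2 h3 h4
    · exact absurd ⟨K, hK, h1, h2⟩ (h L hL x h3 y h4 hxy)
    · exact absurd ⟨L, hL, h3, h4⟩ (h K hK x h1 y h2 hxy)
    · exact hN.2 K hK L hL x y hxy h1 h2 h3 h4
  · have h3 : 3 ≤ K.card := (mem_filter.1 (hN.1 hK')).2.1
    obtain ⟨x, hx, y, hy, hxy⟩ := one_lt_card.1 (show 1 < K.card by omega)
    exact h K hK' x hx y hy hxy ⟨K, hK, hx, hy⟩

theorem Acc_Fv (π : V → Fin 6) :
    ∑ p ∈ (univ : Finset V).offDiag, (d0 (π p.1) (π p.2) : ℝ) = 2 * Fv π := by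
  have h1 : ∀ f : Fin 6 → ℝ, ∑ x, f (π x) = ∑ i, ps π i * f i := fun f => by
    rw [← sum_fiberwise' univ π f]
    simp [ps]
  have h2 : ∀ i, ∑ y, (d0 i (π y) : ℝ) = ps π i * d0 i i := fun i => by
    rw [h1 fun j => d0 i j, sum_eq_single i (fun j _ hj => by simp [d0, hj.symm]) (by simp)]
  rw [Acc_off fun x y => (d0 (π x) (π y) : ℝ)]
  simp only [h2]
  rw [h1 fun i => ps π i * d0 i i, h1 fun i => d0 i i, ← sum_sub_distrib, Fv, Nat.cast_sum,
    mul_sum]
  refine sum_congr rfl fun i _ => ?_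
  rw [Nat.cast_mul, Nat.cast_choose_two]
  ring

/-- if all pairs inside the parts are covered, the dual weights add up to at least `Fv` -/
theorem acc_Fv (π : V → Fin 6) {M : Finset (Finset V)}
    (h : ∀ x y, x ≠ y → π x = π y → π x ≠ 5 → Cv M x y) : (Fv π : ℝ) ≤ ∑ K ∈ M, dK π K := by
  have h1 : ∀ K : Finset V, ∑ p ∈ K.offDiag, (d0 (π p.1) (π p.2) : ℝ) =
      ∑ p ∈ (univ : Finset V).offDiag,
        if p ∈ K.offDiag then (d0 (π p.1) (π p.2) : ℝ) else 0 := fun K => by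
    rw [sum_ite_mem, inter_eq_right.2 (offDiag_mono (subset_univ K))]
  have h2 : ∑ p ∈ (univ : Finset V).offDiag, (d0 (π p.1) (π p.2) : ℝ) ≤
      ∑ K ∈ M, ∑ p ∈ K.offDiag, (d0 (π p.1) (π p.2) : ℝ) := by
    rw [sum_congr rfl fun K _ => h1 K, sum_comm]
    refine sum_le_sum fun p hp => ?_
    have h0 : ∀ K ∈ M, (0 : ℝ) ≤ if p ∈ K.offDiag then (d0 (π p.1) (π p.2) : ℝ) else 0 :=
      fun K _ => by positivity
    by_cases h3 : d0 (π p.1) (π p.2) = 0
    · simp [h3]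
    have h4 : π p.1 = π p.2 := by
      by_contra h4
      exact h3 (if_neg h4)
    obtain ⟨K, hK, h5⟩ := h p.1 p.2 (mem_offDiag.1 hp).2.2 h4 fun h5 => h3 (by
      rw [← h4, h5]; rfl)
    refine le_trans ?_ (single_le_sum h0 hK)
    rw [if_pos (mem_offDiag.2 ⟨h5.1, h5.2, (mem_offDiag.1 hp).2.2⟩)]
  rw [Acc_Fv] at h2
  simp only [dK]
  rw [← sum_div]
  linarith

theorem Pk.cp_le {G : SimpleGraph V} {M : Finset (Finset V)} (h : Pk (col G) M) :
    (cp G : ℝ) + cp Gᶜ ≤ ((Fintype.card V).choose 2 : ℝ) - ∑ K ∈ M, Q.val K := by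
  refine cp_add_le G M h.1 fun K hK L hL hKL => disjoint_left.2 fun e h1 h2 => hKL ?_
  rw [mem_powersetCard] at h1 h2
  obtain ⟨x, y, hxy, rfl⟩ := card_eq_two.1 h1.2
  exact h.2 K hK L hL x y hxy (h1.1 (by simp)) (h1.1 (by simp)) (h2.1 (by simp)) (h2.1 (by simp))

theorem Acc_one {c : V → V → Bool} {D : V → V → ℝ} (hD : Cov c D) {K : Finset V}
    (hK : K ∈ Cl c univ) : 2 * Q.val K ≤ ∑ p ∈ K.offDiag, D p.1 p.2 := by
  classical
  obtain ⟨-, g3, g5, s, hs⟩ := mem_filter.1 hK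
  have g4 : ∀ L : Finset V, L.card = 4 → ∃ a b d e, a ≠ b ∧ a ≠ d ∧ b ≠ d ∧ a ≠ e ∧ b ≠ e ∧
      d ≠ e ∧ L = {a, b, d, e} := fun L hL => by
    obtain ⟨a, T, ha, rfl, hT⟩ := card_eq_succ.1 hL
    obtain ⟨b, d, e, h1, h2, h3, rfl⟩ := card_eq_three.1 hT
    simp only [mem_insert, mem_singleton, not_or] at ha
    exact ⟨a, b, d, e, ha.1, ha.2.1, h1, ha.2.2, h2, h3, rfl⟩
  unfold Q.val
  obtain h | h | h : K.card = 3 ∨ K.card = 4 ∨ K.card = 5 := by omega
  · rw [h]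
    obtain ⟨a, b, d, h1, h2, h3, rfl⟩ := card_eq_three.1 h
    have := hD.k3 s a b d (hs _ (by simp) _ (by simp) h1) (hs _ (by simp) _ (by simp) h2)
      (hs _ (by simp) _ (by simp) h3)
    rw [Acc_three hD.D_symm h1 h2 h3]
    norm_num [Nat.choose]
    linarith
  · rw [h]
    obtain ⟨a, b, d, e, h1, h2, h3, h4, h5, h6, rfl⟩ := g4 K h
    have := hD.k4 s a b d e (hs _ (by simp) _ (by simp) h1) (hs _ (by simp) _ (by simp) h2)
      (hs _ (by simp) _ (by simp) h3) (hs _ (by simp) _ (by simp) h4)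
      (hs _ (by simp) _ (by simp) h5) (hs _ (by simp) _ (by simp) h6)
    rw [Acc_four hD.D_symm h1 h2 h3 h4 h5 h6]
    norm_num [Nat.choose]
    linarith
  · rw [h]
    obtain ⟨f, T, hf, rfl, hT⟩ := card_eq_succ.1 h
    obtain ⟨a, b, d, e, h1, h2, h3, h4, h5, h6, rfl⟩ := g4 T hT
    have h7 := hf
    simp only [mem_insert, mem_singleton, not_or] at h7
    have := hD.k5 s f a b d e (hs _ (by simp) _ (by simp) h7.1) (hs _ (by simp) _ (by simp) h7.2.1)
      (hs _ (by simp) _ (by simp) h1) (hs _ (by simp) _ (by simp) h7.2.2.1)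
      (hs _ (by simp) _ (by simp) h2) (hs _ (by simp) _ (by simp) h3)
      (hs _ (by simp) _ (by simp) h7.2.2.2) (hs _ (by simp) _ (by simp) h4)
      (hs _ (by simp) _ (by simp) h5) (hs _ (by simp) _ (by simp) h6)
    rw [Acc_ins hD.D_symm hf, Acc_four hD.D_symm h1 h2 h3 h4 h5 h6,
      sum_insert (by simp [h1, h2, h4]), sum_insert (by simp [h3, h5]), sum_pair h6]
    norm_num [Nat.choose]
    linarith

/-- weak duality -/
theorem Pk.dual {c : V → V → Bool} {D : V → V → ℝ} {M : Finset (Finset V)} (h : Pk c M)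
    (hD : Cov c D) : 2 * ∑ K ∈ M, Q.val K ≤ ∑ u, ∑ v, D u v := by
  rw [mul_sum, ← Fintype.sum_prod_type']
  refine (sum_le_sum fun K hK => Acc_one hD (h.1 hK)).trans ?_
  rw [← sum_biUnion]
  · exact sum_le_sum_of_subset_of_nonneg (subset_univ _) fun p _ _ => hD.D_nonneg _ _
  · refine fun K hK L hL hKL => disjoint_left.2 fun p h1 h2 => hKL ?_
    rw [mem_offDiag] at h1 h2
    exact h.2 K hK L hL p.1 p.2 h1.2.2 h1.1 h1.2.1 h2.1 h2.2.1

/-- the number of vertices joined to `x` by a covered pair -/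
theorem cnt_Cv_le {M : Finset (Finset V)} (h4 : ∀ K ∈ M, K.card ≤ 4) (x : V) (s : Finset V) :
    cnt s (fun y => y ≠ x ∧ Cv M x y) ≤ 3 * cnt M fun K => x ∈ K := by
  rw [cnt_eq M, mul_comm]
  refine (cnt_le_of_subset (t := (M.filter fun K => x ∈ K).biUnion fun K => K.erase x)
    fun y _ hy => ?_).trans (card_biUnion_le_card_mul _ _ _ fun K hK => ?_)
  · obtain ⟨h1, K, hK, h2, h3⟩ := hy
    exact mem_biUnion.2 ⟨K, mem_filter.2 ⟨hK, h2⟩, mem_erase.2 ⟨h1, h3⟩⟩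
  · have := h4 K (mem_filter.1 hK).1
    rw [card_erase_of_mem (mem_filter.1 hK).2]
    omega

theorem dK_pair (π : V → Fin 6) {a b d : V} (h1 : a ≠ b) (h2 : a ≠ d) (h3 : b ≠ d) :
    dK π {a, b, d} = (d0 (π a) (π b) : ℝ) + d0 (π a) (π d) + d0 (π b) (π d) := by
  rw [dK, Acc_three (D := fun x y => (d0 (π x) (π y) : ℝ)) (fun _ _ => by rw [Acc_d0]) h1 h2 h3]
  ring

theorem dK_four (π : V → Fin 6) {a b d e : V} (h1 : a ≠ b) (h2 : a ≠ d) (h3 : b ≠ d)
    (h4 : a ≠ e) (h5 : b ≠ e) (h6 : d ≠ e) :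
    dK π {a, b, d, e} = (d0 (π a) (π b) : ℝ) + d0 (π a) (π d) + d0 (π b) (π d) +
      d0 (π a) (π e) + d0 (π b) (π e) + d0 (π d) (π e) := by
  rw [dK, Acc_four (D := fun x y => (d0 (π x) (π y) : ℝ)) (fun _ _ => by rw [Acc_d0])
    h1 h2 h3 h4 h5 h6]
  ring

end Pool.Agent.P.MP_c18ddb_co.X
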