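import Pool.Agent.P.MP_c18ddb_co.X.Defs

/-! The two clique partition numbers of a template graph. -/

namespace Pool.Agent.P.MP_c18ddb_co.X

open Finset

/-- dual weight of part sizes -/
def FF (e a b c d : ℕ) : ℕ :=
  3 * e.choose 2 + 2 * a.choose 2 + 2 * b.choose 2 + 2 * c.choose 2 + 2 * d.choose 2

/-- value for the graph; `h` is the number of edges inside the centre -/
def PP (e a b c d h : ℕ) : ℤ :=
  (e : ℤ) * a + a * b + b * c + c * d + d * e - (a.choose 2 : ℕ) - (d.choose 2 : ℕ) - 2 * h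

/-- value for the complement -/
def QQ (e a b c d h : ℕ) : ℤ :=
  (e : ℤ) * b + e * c + a * c + a * d + b * d - (b.choose 2 : ℕ) - (c.choose 2 : ℕ) -
    2 * ((e.choose 2 : ℕ) - (h : ℤ))

/-- number of ordered adjacent pairs inside the centre -/
noncomputable def hE {V : Type} [Fintype V] (π : V → Fin 6) (G : SimpleGraph V) : ℕ :=
  cnt (univ : Finset (V × V)) fun p => π p.1 = 0 ∧ π p.2 = 0 ∧ G.Adj p.1 p.2

end Pool.Agent.P.MP_c18ddb_co.X
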