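import Pool.Agent.P.MP_c18ddb_co.X.ArDefs

/-! Optimisation over the part sizes: upper bounds. -/

namespace Pool.Agent.P.MP_c18ddb_co.X

theorem Arith_ch (x : ℕ) : 2 * ((x.choose 2 : ℕ) : ℤ) = x * (x - 1) := by
  induction x with
  | zero => simp
  | succ x ih =>
    rw [Nat.choose_succ_succ', Nat.choose_one_right]
    push_cast
    linarith

theorem Arith_FF (e a b c d : ℕ) : 2 * (FF e a b c d : ℤ) =
    3 * (e * (e - 1)) + 2 * (a * (a - 1) + b * (b - 1) + c * (c - 1) + d * (d - 1)) := by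
  unfold FF
  push_cast
  linarith [Arith_ch e, Arith_ch a, Arith_ch b, Arith_ch c, Arith_ch d]

theorem Arith_Sn (k r : ℕ) (hr : r < 14) :
    Sn (14 * k + r) = 56 * k ^ 2 + 8 * k * (r + 1) + Sn r := by
  have e : 2 * (14 * k + r) * (14 * k + r + 2) =
      2 * r * (r + 2) + 7 * (56 * k ^ 2 + 8 * k * (r + 1)) := by ring
  unfold Sn
  rw [e, Nat.add_mul_div_left _ _ (by norm_num), Nat.mul_add_mod]
  generalize 56 * k ^ 2 + 8 * k * (r + 1) = X
  interval_cases r <;> simp <;> omega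

theorem Arith_t (x j : ℤ) : 0 ≤ (x - j) * (x - j - 1) := by
  rcases le_or_gt x j with h | h
  · exact mul_nonneg_of_nonpos_of_nonpos (by linarith) (by linarith)
  · exact mul_nonneg (by linarith) (by linarith)

theorem Arith_two {x j : ℤ} (h : (x - j) * (x - j - 1) ≤ 0) : x = j ∨ x = j + 1 := by
  rcases mul_eq_zero.1 (le_antisymm h (Arith_t x j)) with k | k
  exacts [.inl (by linarith), .inr (by linarith)]

theorem Arith_core (e a b c d : ℤ) (r : ℕ) (hr : r < 14) (hs : e + a + b + c + d = r) :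
    (r : ℤ) * (r - 1) ≤ 3 * (e * (e - 1)) +
      2 * (a * (a - 1) + b * (b - 1) + c * (c - 1) + d * (d - 1)) + 2 * Sn r := by
  interval_cases r <;> norm_num [Sn] at hs ⊢ <;>
    linarith [Arith_t e 0, Arith_t e 1, Arith_t e 2, Arith_t a 0, Arith_t a 1, Arith_t a 2,
      Arith_t b 0, Arith_t b 1, Arith_t b 2, Arith_t c 0, Arith_t c 1, Arith_t c 2,
      Arith_t d 0, Arith_t d 1, Arith_t d 2]

theorem Arith_mod (m k e a b c d h D : ℤ) (r : ℕ) (hs : e + a + b + c + d = r)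
    (H : (r : ℤ) * (r - 1) = 3 * (e * (e - 1)) +
      2 * (a * (a - 1) + b * (b - 1) + c * (c - 1) + d * (d - 1)) + 2 * Sn r)
    (hk : (k = 2 * m ∧ (r = 8 ∨ r = 10)) ∨
      (k = 2 * m + 1 ∧ (r = 0 ∨ r = 1 ∨ r = 4 ∨ r = 5 ∨ r = 9 ∨ r = 11)))
    (hD : 2 * D = 8 * (k ^ 2 - h) + 4 * k * (2 * (e + b + c - a - d) - 1) +
      (2 * (e * a + a * b + b * c + c * d + d * e - e * b - e * c - a * c - a * d - b * d) -
        a * (a - 1) - d * (d - 1) + b * (b - 1) + c * (c - 1) + 2 * (e * (e - 1)))) :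
    D % 4 = 2 := by
  generalize k ^ 2 - h = X at hD
  have key : ∀ i j : ℤ, (e - j) * (e - j - 1) + ((a - i) * (a - i - 1) + (b - i) * (b - i - 1) +
      (c - i) * (c - i - 1) + (d - i) * (d - i - 1)) ≤ 0 →
      (e = j ∨ e = j + 1) ∧ (a = i ∨ a = i + 1) ∧ (b = i ∨ b = i + 1) ∧ (c = i ∨ c = i + 1) ∧
        (d = i ∨ d = i + 1) := fun i j k => by
    have h1 := Arith_t e j
    have h2 := Arith_t a i
    have h3 := Arith_t b i
    have h4 := Arith_t c i
    have h5 := Arith_t d i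
    exact ⟨Arith_two (by linarith), Arith_two (by linarith), Arith_two (by linarith),
      Arith_two (by linarith), Arith_two (by linarith)⟩
  have e0 := Arith_t e 0
  have e1 := Arith_t e 1
  have e2 := Arith_t e 2
  rcases hk with ⟨rfl, rfl | rfl⟩ | ⟨rfl, rfl | rfl | rfl | rfl | rfl | rfl⟩ <;>
    norm_num [Sn] at hs H
  · obtain ⟨rfl | rfl, rfl | rfl, rfl | rfl, rfl | rfl, rfl | rfl⟩ := key 1 1 (by linarith) <;>
      omega
  · obtain ⟨rfl | rfl, rfl | rfl, rfl | rfl, rfl | rfl, rfl | rfl⟩ := key 2 1 (by linarith) <;>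
      omega
  · obtain ⟨rfl | rfl, rfl | rfl, rfl | rfl, rfl | rfl, rfl | rfl⟩ := key 0 0 (by linarith) <;>
      omega
  · obtain ⟨rfl | rfl, rfl | rfl, rfl | rfl, rfl | rfl, rfl | rfl⟩ := key 0 0 (by linarith) <;>
      omega
  · obtain ⟨rfl | rfl, rfl | rfl, rfl | rfl, rfl | rfl, rfl | rfl⟩ := key 0 0 (by linarith) <;>
      omega
  · obtain ⟨rfl | rfl, rfl | rfl, rfl | rfl, rfl | rfl, rfl | rfl⟩ := key 0 0 (by linarith) <;>
      omega
  · obtain ⟨rfl | rfl, rfl | rfl, rfl | rfl, rfl | rfl, rfl | rfl⟩ := key 1 1 (by linarith) <;>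
      omega
  · obtain ⟨rfl | rfl, rfl | rfl, rfl | rfl, rfl | rfl, rfl | rfl⟩ := key 2 1 (by linarith) <;>
      omega

theorem PP_add_QQ (e a b c d h : ℕ) :
    PP e a b c d h + QQ e a b c d h = ((e + a + b + c + d).choose 2 : ℕ) - (FF e a b c d : ℤ) := by
  have h1 := Arith_FF e a b c d
  have h2 := Arith_ch (e + a + b + c + d)
  unfold PP QQ
  push_cast at h2 ⊢
  linarith [Arith_ch e, Arith_ch a, Arith_ch b, Arith_ch c, Arith_ch d]

theorem ar0 (e a b c d : ℕ) :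
    (3 * ((e : ℝ) + a + b + c + d) ^ 2 - 15 * ((e : ℝ) + a + b + c + d)) / 14 - 1 / 28 ≤
      FF e a b c d := by
  have h1 : 2 * (FF e a b c d : ℝ) =
      3 * (e * (e - 1)) + 2 * (a * (a - 1) + b * (b - 1) + c * (c - 1) + d * (d - 1)) := by
    exact_mod_cast Arith_FF e a b c d
  obtain ⟨μ, hμ⟩ : ∃ μ : ℝ, μ = (6 * ((e : ℝ) + a + b + c + d) - 15) / 14 := ⟨_, rfl⟩
  have h2 := sq_nonneg (3 * (e : ℝ) - 3 / 2 - μ)
  have h3 := sq_nonneg (2 * (a : ℝ) - 1 - μ)
  have h4 := sq_nonneg (2 * (b : ℝ) - 1 - μ)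
  have h5 := sq_nonneg (2 * (c : ℝ) - 1 - μ)
  have h6 := sq_nonneg (2 * (d : ℝ) - 1 - μ)
  rw [hμ] at h2 h3 h4 h5 h6
  linarith

theorem Sn_ge (n : ℕ) : (2 * (n : ℝ) ^ 2 + 4 * n) / 7 - 2 ≤ Sn n := by
  have h1 : 2 * n * (n + 2) ≤ 7 * Sn n + 14 := by
    unfold Sn
    generalize 2 * n * (n + 2) = X
    split_ifs <;> omega
  have h2 : 2 * (n : ℝ) * (n + 2) ≤ 7 * Sn n + 14 := by exact_mod_cast h1
  linarith

theorem ar1 (e a b c d : ℕ) :
    (e + a + b + c + d).choose 2 ≤ FF e a b c d + Sn (e + a + b + c + d) := by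
  have h1 := Arith_FF e a b c d
  have h2 := Arith_ch (e + a + b + c + d)
  have h0 := Nat.div_add_mod (e + a + b + c + d) 14
  have hr := Nat.mod_lt (e + a + b + c + d) (by norm_num : 0 < 14)
  generalize (e + a + b + c + d) / 14 = k, (e + a + b + c + d) % 14 = r at h0 hr
  have h3 := Arith_Sn k r hr
  rw [h0] at h3
  zify at h0 h3 ⊢
  have h4 := Arith_core (e - 2 * k) (a - 3 * k) (b - 3 * k) (c - 3 * k) (d - 3 * k) r hr
    (by linarith)
  push_cast at h2
  have h5 : (r : ℤ) = e + a + b + c + d - 14 * k := by linarith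
  rw [h5] at h3 h4
  linarith

theorem ar2 (e a b c d h : ℕ)
    (H : (e + a + b + c + d).choose 2 = FF e a b c d + Sn (e + a + b + c + d)) :
    PP e a b c d h * QQ e a b c d h + (en (e + a + b + c + d) : ℤ) ≤
      ((Sn (e + a + b + c + d) ^ 2 / 4 : ℕ) : ℤ) := by
  have h6 := PP_add_QQ e a b c d h
  have h7 : PP e a b c d h + QQ e a b c d h = Sn (e + a + b + c + d) := by
    rw [h6, H]; push_cast; ring
  have h8 : (PP e a b c d h - QQ e a b c d h) ^ 2 + 4 * (PP e a b c d h * QQ e a b c d h) =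
      ((Sn (e + a + b + c + d) ^ 2 : ℕ) : ℤ) := by
    push_cast; rw [← h7]; ring
  suffices 4 * (en (e + a + b + c + d) : ℤ) ≤ (PP e a b c d h - QQ e a b c d h) ^ 2 by omega
  unfold en
  split_ifs with h9
  swap
  · simpa using sq_nonneg _
  have h1 := Arith_FF e a b c d
  have h2 := Arith_ch (e + a + b + c + d)
  have h0 := Nat.div_add_mod (e + a + b + c + d) 14
  have hr := Nat.mod_lt (e + a + b + c + d) (by norm_num : 0 < 14)
  generalize (e + a + b + c + d) / 14 = k, (e + a + b + c + d) % 14 = r at h0 hr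
  have h3 := Arith_Sn k r hr
  rw [h0] at h3
  simp only [Finset.mem_insert, Finset.mem_singleton] at h9
  have h4 := Arith_mod (k / 2) k (e - 2 * k) (a - 3 * k) (b - 3 * k) (c - 3 * k) (d - 3 * k) h
    (PP e a b c d h - QQ e a b c d h) r (by omega) (by
      zify at h0 h3 H
      push_cast at h2
      have h5 : (r : ℤ) = e + a + b + c + d - 14 * k := by linarith
      rw [h5] at h3 ⊢
      linarith) (by omega) (by
      unfold PP QQ
      linarith [Arith_ch e, Arith_ch a, Arith_ch b, Arith_ch c, Arith_ch d])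
  generalize PP e a b c d h - QQ e a b c d h = D at h4 ⊢
  rcases (by omega : 2 ≤ D ∨ D ≤ -2) with k | k <;> push_cast <;> nlinarith

end Pool.Agent.P.MP_c18ddb_co.X
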