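import Pool.Agent.P.MP_c18ddb_co.X.ArDefs

/-! Optimisation over the part sizes: the extremal choices. -/

namespace Pool.Agent.P.MP_c18ddb_co.X

theorem Arith3_two (x : ℕ) : 2 * ((x.choose 2 : ℕ) : ℤ) = x * (x - 1) := by
  induction x with
  | zero => simp
  | succ x ih =>
    rw [Nat.choose_succ_succ' x 1, Nat.choose_one_right]
    push_cast
    linarith

theorem Arith3_c4 (k x : ℕ) :
    (((4 * k + x).choose 2 : ℕ) : ℤ) = 8 * k ^ 2 + (4 * x - 2) * k + (x.choose 2 : ℕ) := by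
  have h1 := Arith3_two (4 * k + x)
  have h2 := Arith3_two x
  push_cast at h1
  linarith

theorem Arith3_c6 (k x : ℕ) :
    (((6 * k + x).choose 2 : ℕ) : ℤ) = 18 * k ^ 2 + (6 * x - 3) * k + (x.choose 2 : ℕ) := by
  have h1 := Arith3_two (6 * k + x)
  have h2 := Arith3_two x
  push_cast at h1
  linarith

theorem Arith3_Sn (k r : ℕ) (hr : 2 ≤ r) :
    (Sn (28 * k + r) : ℤ) = 224 * k ^ 2 + (16 * r + 16) * k + Sn r := by
  have h1 : 2 * (28 * k + r) * (28 * k + r + 2) =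
      7 * (224 * k ^ 2 + (16 * r + 16) * k) + 2 * r * (r + 2) := by ring
  have h2 : (28 * k + r) % 14 = r % 14 := by omega
  have h3 : 1 ≤ 2 * r * (r + 2) / 7 := (Nat.le_div_iff_mul_le (by norm_num)).2 (by nlinarith)
  have h4 : Sn (28 * k + r) = 224 * k ^ 2 + (16 * r + 16) * k + Sn r := by
    unfold Sn
    rw [h1, Nat.mul_add_div (by norm_num), h2]
    split_ifs <;> omega
  rw [h4]
  push_cast
  ring

theorem Arith3_en (k r : ℕ) : en (28 * k + r) = en r := by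
  unfold en
  rw [show (28 * k + r) % 28 = r % 28 by omega]

theorem Arith3_fin {P Q δ ε : ℤ} {S : ℕ} (h1 : P + Q = S) (h2 : P - Q = δ) (h3 : 4 * ε ≤ δ ^ 2)
    (h4 : δ ^ 2 < 4 * ε + 4) : P * Q + ε = ((S ^ 2 / 4 : ℕ) : ℤ) := by
  have h5 : (S : ℤ) ^ 2 = 4 * (P * Q) + δ ^ 2 := by rw [← h1, ← h2]; ring
  push_cast
  rw [h5]
  omega

theorem Arith3_gen (k e a b c d h₁ h₀ : ℕ)
    (H : 2 ≤ e + a + b + c + d ∧ h₁ + 2 ≤ 4 * e ∧ h₀ ≤ e.choose 2 ∧
      h₁ + 2 * a + 2 * d + 1 = 2 * e + 2 * b + 2 * c ∧ 0 ≤ PP e a b c d h₀ ∧ 0 ≤ QQ e a b c d h₀ ∧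
      PP e a b c d h₀ + QQ e a b c d h₀ = Sn (e + a + b + c + d) ∧
      4 * (en (e + a + b + c + d) : ℤ) ≤ (PP e a b c d h₀ - QQ e a b c d h₀) ^ 2 ∧
      (PP e a b c d h₀ - QQ e a b c d h₀) ^ 2 < 4 * (en (e + a + b + c + d) : ℤ) + 4) :
    ∃ e' a' b' c' d' h : ℕ, e' + a' + b' + c' + d' = 28 * k + (e + a + b + c + d) ∧
      h ≤ e'.choose 2 ∧ 0 ≤ PP e' a' b' c' d' h ∧ 0 ≤ QQ e' a' b' c' d' h ∧
      PP e' a' b' c' d' h + QQ e' a' b' c' d' h = Sn (28 * k + (e + a + b + c + d)) ∧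
      PP e' a' b' c' d' h * QQ e' a' b' c' d' h + (en (28 * k + (e + a + b + c + d)) : ℤ) =
        ((Sn (28 * k + (e + a + b + c + d)) ^ 2 / 4 : ℕ) : ℤ) := by
  obtain ⟨a1, a2, a3, a4, a5, a6, a7, a8, a9⟩ := H
  have b4 : (h₁ : ℤ) = 2 * e + 2 * b + 2 * c - 2 * a - 2 * d - 1 := by omega
  have hP : PP (4 * k + e) (6 * k + a) (6 * k + b) (6 * k + c) (6 * k + d)
      (4 * k ^ 2 + h₁ * k + h₀) =
      PP e a b c d h₀ + (112 * k ^ 2 + (8 * (e + a + b + c + d) + 8) * k) := by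
    unfold PP
    rw [Arith3_c6, Arith3_c6]
    push_cast
    rw [b4]
    ring
  have hQ : QQ (4 * k + e) (6 * k + a) (6 * k + b) (6 * k + c) (6 * k + d)
      (4 * k ^ 2 + h₁ * k + h₀) =
      QQ e a b c d h₀ + (112 * k ^ 2 + (8 * (e + a + b + c + d) + 8) * k) := by
    unfold QQ
    rw [Arith3_c6, Arith3_c6, Arith3_c4]
    push_cast
    rw [b4]
    ring
  have hS : PP (4 * k + e) (6 * k + a) (6 * k + b) (6 * k + c) (6 * k + d)
      (4 * k ^ 2 + h₁ * k + h₀) + QQ (4 * k + e) (6 * k + a) (6 * k + b) (6 * k + c) (6 * k + d)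
      (4 * k ^ 2 + h₁ * k + h₀) = Sn (28 * k + (e + a + b + c + d)) := by
    rw [hP, hQ, Arith3_Sn k _ a1, ← a7]
    push_cast
    ring
  refine ⟨4 * k + e, 6 * k + a, 6 * k + b, 6 * k + c, 6 * k + d, 4 * k ^ 2 + h₁ * k + h₀,
    by ring, ?_, by rw [hP]; positivity, by rw [hQ]; positivity, hS, ?_⟩
  · have b1 := Arith3_c4 k e
    have b2 : (h₁ : ℤ) ≤ 4 * e - 2 := by omega
    have b3 := mul_le_mul_of_nonneg_right b2 (Int.natCast_nonneg k)
    have b5 : ((4 * k ^ 2 + h₁ * k + h₀ : ℕ) : ℤ) ≤ ((4 * k + e).choose 2 : ℕ) := by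
      have b6 : (h₀ : ℤ) ≤ (e.choose 2 : ℕ) := by exact_mod_cast a3
      rw [b1]
      push_cast
      linarith [sq_nonneg (k : ℤ)]
    exact_mod_cast b5
  · rw [Arith3_en]
    exact Arith3_fin hS (by rw [hP, hQ]; ring) a8 a9

theorem ar3 : ∃ n0 : ℕ, ∀ n, n0 ≤ n → ∃ e a b c d h : ℕ, e + a + b + c + d = n ∧ h ≤ e.choose 2 ∧
    0 ≤ PP e a b c d h ∧ 0 ≤ QQ e a b c d h ∧ PP e a b c d h + QQ e a b c d h = Sn n ∧
    PP e a b c d h * QQ e a b c d h + (en n : ℤ) = ((Sn n ^ 2 / 4 : ℕ) : ℤ) := by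
  refine ⟨56, fun n hn => ?_⟩
  obtain ⟨k, r, h1, h2, rfl⟩ : ∃ k r : ℕ, 56 ≤ r ∧ r < 84 ∧ n = 28 * k + r :=
    ⟨(n - 56) / 28, 56 + (n - 56) % 28, by omega, by omega, by omega⟩
  interval_cases r
  · exact Arith3_gen k 8 12 12 12 12 15 14 (by decide)
  · exact Arith3_gen k 8 12 12 13 12 17 18 (by decide)
  · exact Arith3_gen k 8 12 13 13 12 19 22 (by decide)
  · exact Arith3_gen k 8 12 13 13 13 17 18 (by decide)
  · exact Arith3_gen k 9 12 13 13 13 19 22 (by decide)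
  · exact Arith3_gen k 9 13 13 13 13 17 18 (by decide)
  · exact Arith3_gen k 9 13 13 14 13 19 22 (by decide)
  · exact Arith3_gen k 9 13 13 14 14 17 18 (by decide)
  · exact Arith3_gen k 9 13 14 14 14 19 22 (by decide)
  · exact Arith3_gen k 9 14 14 14 14 17 18 (by decide)
  · exact Arith3_gen k 10 14 14 14 14 19 22 (by decide)
  · exact Arith3_gen k 10 14 14 14 15 17 18 (by decide)
  · exact Arith3_gen k 10 14 14 15 15 19 23 (by decide)
  · exact Arith3_gen k 10 14 15 15 15 21 27 (by decide)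
  · exact Arith3_gen k 10 15 15 15 15 19 22 (by decide)
  · exact Arith3_gen k 10 15 15 15 16 17 18 (by decide)
  · exact Arith3_gen k 10 15 15 16 16 19 23 (by decide)
  · exact Arith3_gen k 10 15 16 16 16 21 28 (by decide)
  · exact Arith3_gen k 10 16 16 16 16 19 22 (by decide)
  · exact Arith3_gen k 11 16 16 16 16 21 27 (by decide)
  · exact Arith3_gen k 11 16 16 16 17 19 22 (by decide)
  · exact Arith3_gen k 11 16 16 17 17 21 28 (by decide)
  · exact Arith3_gen k 11 16 17 17 17 23 33 (by decide)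
  · exact Arith3_gen k 11 17 17 17 17 21 27 (by decide)
  · exact Arith3_gen k 12 17 17 17 17 23 33 (by decide)
  · exact Arith3_gen k 12 17 17 17 18 21 27 (by decide)
  · exact Arith3_gen k 12 17 17 18 18 23 33 (by decide)
  · exact Arith3_gen k 12 17 18 18 18 25 39 (by decide)

end Pool.Agent.P.MP_c18ddb_co.X
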