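import Pool.Agent.P.MP_c18ddb_co.X.Sub

/-! Labels and the construction of a completion problem. -/

namespace Pool.Agent.P.MP_c18ddb_co.X

open Finset

theorem Lab_rank {V : Type} [Fintype V] (π : V → Fin 6) : ∃ r : V → ℕ, ∀ (i : Fin 6)
    (q : ℕ → Prop) [DecidablePred q],
    cnt univ (fun v => π v = i ∧ q (r v)) = ((range (ps π i)).filter q).card := by
  classical
  have h : ∀ i : Fin 6, ∃ r : V → ℕ, Set.BijOn r {v | π v = i} {k | k < ps π i} := by
    intro i
    let S : Finset V := univ.filter fun v => π v = i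
    have hS : ∀ v, v ∈ S ↔ π v = i := fun v => by simp [S]
    refine ⟨fun v => if h : v ∈ S then (S.equivFin ⟨v, h⟩).val else 0, ?_, ?_, ?_⟩
    · intro v hv
      have hv' : v ∈ S := (hS v).2 hv
      simp only [dif_pos hv', Set.mem_ofPred_eq]
      exact (S.equivFin ⟨v, hv'⟩).isLt
    · intro u hu v hv huv
      have hu' : u ∈ S := (hS u).2 hu
      have hv' : v ∈ S := (hS v).2 hv
      simp only [dif_pos hu', dif_pos hv'] at huv
      have := S.equivFin.injective (Fin.ext huv)
      exact congrArg Subtype.val this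
    · intro k hk
      have hk' : k < S.card := hk
      refine ⟨(S.equivFin.symm ⟨k, hk'⟩).val, (hS _).1 (S.equivFin.symm ⟨k, hk'⟩).2, ?_⟩
      simp only [dif_pos (S.equivFin.symm ⟨k, hk'⟩).2, Subtype.coe_eta, Equiv.apply_symm_apply]
  choose r hr using h
  refine ⟨fun v => r (π v) v, fun i q _ => ?_⟩
  rw [cnt_eq]
  refine card_nbij (fun v => r i v) ?_ ?_ ?_
  · intro v hv
    simp only [coe_filter, mem_univ, true_and, Set.mem_ofPred_eq] at hv
    simp only [coe_filter, mem_range, Set.mem_ofPred_eq]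
    refine ⟨(hr i).1 hv.1, ?_⟩
    have := hv.2
    rwa [hv.1] at this
  · intro u hu v hv huv
    simp only [coe_filter, mem_univ, true_and, Set.mem_ofPred_eq] at hu hv
    exact (hr i).2.1 hu.1 hv.1 huv
  · intro k hk
    simp only [coe_filter, mem_range, Set.mem_ofPred_eq] at hk
    obtain ⟨v, hv, hvk⟩ := (hr i).2.2 hk.1
    have hv' : π v = i := hv
    refine ⟨v, ?_, hvk⟩
    simp only [coe_filter, mem_univ, true_and, Set.mem_ofPred_eq]
    refine ⟨hv', ?_⟩
    rw [hv', hvk]
    exact hk.2

theorem Lab_res (n c : ℕ) (hc : c < 10000) :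
    n ≤ 10000 * ((range n).filter fun k => k % 10000 = c).card + 10000 ∧
      10000 * ((range n).filter fun k => k % 10000 = c).card ≤ n + 10000 := by
  have h := Nat.count_modEq_card n (r := 10000) (by norm_num) c
  rw [Nat.count_eq_card_filter_range] at h
  have e : ((range n).filter fun k => k % 10000 = c) =
      (range n).filter fun k => k ≡ c [MOD 10000] := by
    refine filter_congr fun k _ => ?_
    unfold Nat.ModEq
    rw [Nat.mod_eq_of_lt hc]
  rw [e, h]
  split_ifs <;> omega

theorem Lab_sz {i : Fin 6} (hi : sz i = 3) : i ≠ 0 ∧ i ≠ 5 := by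
  revert hi
  revert i
  decide

theorem Lab_par (x p : ℕ) :
    ((univ : Finset (Fin 100)).filter fun b => (x + b.val) % 2 = p % 2).card ≤ 50 := by
  have h0 : ((univ : Finset (Fin 100)).filter fun b => b.val % 2 = 0).card = 50 := by decide
  have h1 : ((univ : Finset (Fin 100)).filter fun b => b.val % 2 = 1).card = 50 := by decide
  rcases Nat.mod_two_eq_zero_or_one (x + p) with h | h
  · rw [← h0]
    refine card_le_card fun b hb => ?_
    simp only [mem_filter, mem_univ, true_and] at hb ⊢
    omega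
  · rw [← h1]
    refine card_le_card fun b hb => ?_
    simp only [mem_filter, mem_univ, true_and] at hb ⊢
    omega

theorem Lab_cnt {V : Type} [Fintype V] [DecidableEq V] (π : V → Fin 6) (i : Fin 6)
    (q : V → Prop) :
    cnt (univ.filter fun v => π v = i) q = cnt univ fun v => π v = i ∧ q v :=
  le_antisymm (cnt_mono fun _ ha hq => ⟨mem_univ _, (mem_filter.1 ha).2, hq⟩)
    (cnt_mono fun _ ha hq => ⟨mem_filter.2 ⟨ha, hq.1⟩, hq.2⟩)

theorem Lab_nok {V : Type} [Fintype V] [DecidableEq V] (s : Finset V) (fb : V → Prop) (u : V)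
    (p : V → Prop) (h : ∀ v, p v → v = u ∨ fb v) : cnt s p ≤ cnt univ fb + 1 := by
  have h1 : cnt s p ≤ cnt univ fb + cnt {u} (fun _ => True) :=
    cnt_le_add fun v _ hv => by
      rcases h v hv with h | h
      · exact Or.inr ⟨mem_singleton.2 h, trivial⟩
      · exact Or.inl ⟨mem_univ _, h⟩
  have h2 := cnt_le_card ({u} : Finset V) (fun _ => True)
  rw [card_singleton] at h2
  omega

theorem exists_lab {V : Type} [Fintype V] (π : V → Fin 6) : ∃ l1 l2 : V → Fin 100, ∀ i a b,
    ps π i ≤ 10000 * cnt univ (fun v => π v = i ∧ l1 v = a ∧ l2 v = b) + 10000 ∧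
      10000 * cnt univ (fun v => π v = i ∧ l1 v = a ∧ l2 v = b) ≤ ps π i + 10000 := by
  obtain ⟨r, hr⟩ := Lab_rank π
  refine ⟨fun v => ⟨r v % 100, Nat.mod_lt _ (by norm_num)⟩,
    fun v => ⟨r v / 100 % 100, Nat.mod_lt _ (by norm_num)⟩, fun i a b => ?_⟩
  have ha := a.isLt
  have hb := b.isLt
  have h := hr i (fun k => k % 10000 = a.val + 100 * b.val)
  have e : (fun v => π v = i ∧ (⟨r v % 100, Nat.mod_lt _ (by norm_num)⟩ : Fin 100) = a ∧
      (⟨r v / 100 % 100, Nat.mod_lt _ (by norm_num)⟩ : Fin 100) = b) =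
      fun v => π v = i ∧ r v % 10000 = a.val + 100 * b.val := by
    funext v
    simp only [Fin.ext_iff, eq_iff_iff]
    refine and_congr_right fun _ => ?_
    omega
  have h2 := Lab_res (ps π i) (a.val + 100 * b.val) (by omega)
  rw [← h] at h2
  rw [e]
  exact h2

/-- the completion problem for the parts `i` and `j`, the colour `col` and the parity `par` -/
theorem exists_sub {V : Type} [Fintype V] [DecidableEq V] (π : V → Fin 6) (c : V → V → Bool)
    (hc : ∀ u v, c u v = c v u) (fb : V → V → Prop) (hs : ∀ u v, fb u v → fb v u) (t : ℕ)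
    (hd : ∀ v, π v ≠ 5 → cnt univ (fb v) + 1 ≤ t) (l1 l2 : V → Fin 100)
    (hl : ∀ i a b, sz i * NN t ≤ cnt univ (fun v => π v = i ∧ l1 v = a ∧ l2 v = b) + t ∧
      (i ≠ 5 → cnt univ (fun v => π v = i ∧ l1 v = a ∧ l2 v = b) ≤ sz i * NN t + t))
    (i j : Fin 6) (hi : sz i = 3) (hj : sz j = 3) (hij : i ≠ j) (col : Bool) (par : ℕ) :
    ∃ s : Sub V t, (∀ v, v ∈ s.P ↔ π v = i) ∧ (∀ v, v ∈ s.Q ↔ π v = j) ∧
      (∀ v, v ∈ s.E ↔ π v = 0) ∧ (∀ u v, s.ok u v ↔ u ≠ v ∧ ¬ fb u v) ∧
      ∀ u v, s.H u v ↔ π u = 0 ∧ π v = 0 ∧ u ≠ v ∧ c u v = col ∧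
        ((l2 u).val + (l2 v).val) % 2 = par % 2 := by
  classical
  obtain ⟨hi0, hi5⟩ := Lab_sz hi
  obtain ⟨hj0, hj5⟩ := Lab_sz hj
  have dj : ∀ a b : Fin 6, a ≠ b →
      Disjoint (univ.filter fun v => π v = a) (univ.filter fun v => π v = b) := by
    intro a b hab
    rw [disjoint_left]
    intro v h1 h2
    exact hab ((mem_filter.1 h1).2.symm.trans (mem_filter.1 h2).2)
  have h05 : (0 : Fin 6) ≠ 5 := by decide
  have hs0 : sz 0 = 2 := rfl
  refine ⟨{ P := univ.filter fun v => π v = i
            Q := univ.filter fun v => π v = j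
            E := univ.filter fun v => π v = 0
            ok := fun u v => u ≠ v ∧ ¬ fb u v
            H := fun u v => π u = 0 ∧ π v = 0 ∧ u ≠ v ∧ c u v = col ∧
              ((l2 u).val + (l2 v).val) % 2 = par % 2
            l1 := l1
            l2 := l2
            dPQ := dj _ _ hij
            dPE := dj _ _ hi0
            dQE := dj _ _ hj0
            ok_symm := fun x y h => ⟨h.1.symm, fun h' => h.2 (hs _ _ h')⟩
            ok_irr := fun x h => h.1 rfl
            H_symm := fun x y h => ⟨h.2.1, h.1, h.2.2.1.symm, (hc y x).trans h.2.2.2.1, by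
              rw [Nat.add_comm]
              exact h.2.2.2.2⟩
            H_mem := fun x y h => ⟨mem_filter.2 ⟨mem_univ _, h.1⟩,
              mem_filter.2 ⟨mem_univ _, h.2.1⟩, h.2.2.1⟩
            szP := fun a b => by
              rw [Lab_cnt, ← hi]
              exact ⟨(hl i a b).1, (hl i a b).2 hi5⟩
            szQ := fun a b => by
              rw [Lab_cnt, ← hj]
              exact ⟨(hl j a b).1, (hl j a b).2 hj5⟩
            szE := fun a b => by
              rw [Lab_cnt, ← hs0]
              exact ⟨(hl 0 a b).1, (hl 0 a b).2 h05⟩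
            nokP := fun u hu => ?_
            nokW := fun w hw => ?_
            degH := fun e a => ?_ }, ?_, ?_, ?_, ?_, ?_⟩
  · have h5 : π u ≠ 5 := by
      rw [(mem_filter.1 hu).2]
      exact hi5
    refine le_trans (Lab_nok _ (fb u) u _ fun v hv => ?_) (hd u h5)
    by_cases h : v = u
    · exact Or.inl h
    · refine Or.inr ?_
      by_contra h'
      exact hv ⟨fun e => h e.symm, h'⟩
  · have h5 : π w ≠ 5 := by
      rcases mem_union.1 hw with h | h
      · rw [(mem_filter.1 h).2]
        exact hj5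
      · rw [(mem_filter.1 h).2]
        exact h05
    refine le_trans (Lab_nok _ (fb w) w _ fun v hv => ?_) (hd w h5)
    by_cases h : v = w
    · exact Or.inl h
    · refine Or.inr ?_
      by_contra h'
      exact hv ⟨h, fun h'' => h' (hs _ _ h'')⟩
  · rw [cnt_eq]
    let B : Finset (Fin 100) := univ.filter fun b => ((l2 e).val + b.val) % 2 = par % 2
    have hB : B.card ≤ 50 := Lab_par _ _
    have h1 := card_le_mul_card_image_of_maps_to (f := l2) (t := B)
      (s := (univ.filter fun v => π v = 0).filter fun v => (π e = 0 ∧ π v = 0 ∧ e ≠ v ∧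
        c e v = col ∧ ((l2 e).val + (l2 v).val) % 2 = par % 2) ∧ l1 v = a)
      (fun v hv => mem_filter.2 ⟨mem_univ _, (mem_filter.1 hv).2.1.2.2.2.2⟩) (2 * NN t + t)
      (fun b _ => by
        refine le_trans ?_ ((hl 0 a b).2 h05)
        rw [cnt_eq]
        refine card_le_card fun v hv => ?_
        have h := mem_filter.1 hv
        have h' := mem_filter.1 h.1
        exact mem_filter.2 ⟨mem_univ _, h'.2.1.2.1, h'.2.2, h.2⟩)
    refine le_trans h1 ?_
    calc (2 * NN t + t) * B.card ≤ (2 * NN t + t) * 50 := Nat.mul_le_mul_left _ hB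
      _ ≤ 100 * (NN t + t) := by omega
  · intro v
    simp
  · intro v
    simp
  · intro v
    simp
  · intro u v
    exact Iff.rfl
  · intro u v
    exact Iff.rfl

end Pool.Agent.P.MP_c18ddb_co.X
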