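import Pool.Agent.P.MP_c18ddb_co.X.SubMain
import Pool.Agent.P.MP_c18ddb_co.X.Lab

/-! The completion lemma: all allowed pairs inside the parts are covered without loss. -/

namespace Pool.Agent.P.MP_c18ddb_co.X

open Finset Q

/-- the part whose inside pairs are covered by the problem `q` -/
def CL4_i (q : Fin 4) : Fin 6 := ![1, 4, 2, 3] q

/-- the partner part of the problem `q` -/
def CL4_j (q : Fin 4) : Fin 6 := ![2, 3, 4, 1] q

/-- the colour of the problem `q` -/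
def CL4_c (q : Fin 4) : Bool := ![true, true, false, false] q

/-- the parity of the problem `q` -/
def CL4_p (q : Fin 4) : ℕ := ![0, 1, 0, 1] q

/-- the types of pairs used by the problem `q` -/
def CL4_T (q : Fin 4) (a b : Fin 6) (s : Bool) (r : ℕ) : Prop :=
  (a = CL4_i q ∧ (b = CL4_i q ∨ b = CL4_j q ∨ b = 0)) ∨ (b = CL4_i q ∧ (a = CL4_j q ∨ a = 0)) ∨
    (a = 0 ∧ b = 0 ∧ s = CL4_c q ∧ r = CL4_p q)

instance CL4_dec (q : Fin 4) (a b : Fin 6) (s : Bool) (r : ℕ) : Decidable (CL4_T q a b s r) := by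
  unfold CL4_T
  infer_instance

theorem CL4_uniq : ∀ (q q' : Fin 4) (a b : Fin 6) (s : Bool) (r : Fin 2),
    CL4_T q a b s r.val → CL4_T q' a b s r.val → q = q' := by
  decide +kernel

theorem CL4_col : ∀ (q : Fin 4) (a b : Fin 6) (s : Bool) (r : Fin 2), CL4_T q a b s r.val →
    s = CL4_c q ∨ (a ≠ 5 ∧ b ≠ 5 ∧ ¬ (a = 0 ∧ b = 0) ∧ tc a b = CL4_c q) := by
  decide +kernel

theorem CL4_facts : ∀ q : Fin 4, sz (CL4_i q) = 3 ∧ sz (CL4_j q) = 3 ∧ CL4_i q ≠ CL4_j q ∧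
    CL4_p q % 2 = CL4_p q ∧ d0 (CL4_i q) (CL4_i q) = 2 ∧ d0 (CL4_i q) (CL4_j q) = 0 ∧
    d0 (CL4_i q) 0 = 0 ∧ d0 0 0 = 3 := by
  decide +kernel

theorem CL4_ex0 : ∀ (s : Bool) (r : Fin 2), ∃ q, s = CL4_c q ∧ r.val = CL4_p q := by
  decide +kernel

theorem CL4_ex1 : ∀ a : Fin 6, a ≠ 5 → a ≠ 0 → ∃ q, a = CL4_i q := by
  decide +kernel

theorem CL4_sz : ∀ a : Fin 6, (a = 5 ∧ sz a = 0) ∨ (a ≠ 5 ∧ (sz a = 2 ∨ sz a = 3)) := by
  decide +kernel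

theorem CL4_shape {V : Type} [Fintype V] [DecidableEq V] {π : V → Fin 6} {c : V → V → Bool}
    {fb : V → V → Prop} (hc : ∀ u v, c u v = c v u) (hs : ∀ u v, fb u v → fb v u)
    (hw : ∀ u v, Wr π c u v → fb u v) (h0 : ∀ u v, π u = 0 → π v = 0 → ¬ fb u v) {t : ℕ}
    {l2 : V → Fin 100} {q : Fin 4} {s : Sub V t} (hP : ∀ v, v ∈ s.P ↔ π v = CL4_i q)
    (hQ : ∀ v, v ∈ s.Q ↔ π v = CL4_j q) (hE : ∀ v, v ∈ s.E ↔ π v = 0)
    (hok : ∀ u v, s.ok u v ↔ u ≠ v ∧ ¬ fb u v)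
    (hH : ∀ u v, s.H u v ↔ π u = 0 ∧ π v = 0 ∧ u ≠ v ∧ c u v = CL4_c q ∧
      ((l2 u).val + (l2 v).val) % 2 = CL4_p q % 2) {K : Finset V} (hK : s.Shape K) :
    K ∈ Cl c univ ∧ dK π K ≤ Q.val K ∧ ∀ x ∈ K, ∀ y ∈ K, x ≠ y → ¬ fb x y ∧
      CL4_T q (π x) (π y) (c x y) (((l2 x).val + (l2 y).val) % 2) := by
  obtain ⟨f1, f2, f3, f4, f5, f6, f7, f8⟩ := CL4_facts q
  obtain ⟨u, u', w, w', rfl, hu, hu', h1, h2, h3, h4, h5, h6⟩ := hK
  rw [hP] at hu hu'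
  rw [hok] at h1 h2 h3 h4 h5
  have hw2 : (π w = CL4_j q ∨ π w = 0) ∧ (π w' = CL4_j q ∨ π w' = 0) := by
    rcases h6 with ⟨rfl, h6⟩ | h6
    · rw [mem_union, hQ, hE] at h6
      exact ⟨h6, h6⟩
    · rw [hH] at h6
      exact ⟨Or.inr h6.1, Or.inr h6.2.1⟩
  have hpair : ∀ x ∈ ({u, u', w, w'} : Finset V), ∀ y ∈ ({u, u', w, w'} : Finset V), x ≠ y →
      ¬ fb x y ∧ CL4_T q (π x) (π y) (c x y) (((l2 x).val + (l2 y).val) % 2) := by
    intro x hx y hy hxy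
    simp only [mem_insert, mem_singleton] at hx hy
    rcases hx with rfl | rfl | rfl | rfl <;> rcases hy with rfl | rfl | rfl | rfl
    · exact absurd rfl hxy
    · exact ⟨h1.2, Or.inl ⟨hu, Or.inl hu'⟩⟩
    · exact ⟨h2.2, Or.inl ⟨hu, Or.inr hw2.1⟩⟩
    · exact ⟨h4.2, Or.inl ⟨hu, Or.inr hw2.2⟩⟩
    · exact ⟨fun h => h1.2 (hs _ _ h), Or.inl ⟨hu', Or.inl hu⟩⟩
    · exact absurd rfl hxy
    · exact ⟨h3.2, Or.inl ⟨hu', Or.inr hw2.1⟩⟩
    · exact ⟨h5.2, Or.inl ⟨hu', Or.inr hw2.2⟩⟩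
    · exact ⟨fun h => h2.2 (hs _ _ h), Or.inr (Or.inl ⟨hu, hw2.1⟩)⟩
    · exact ⟨fun h => h3.2 (hs _ _ h), Or.inr (Or.inl ⟨hu', hw2.1⟩)⟩
    · exact absurd rfl hxy
    · rcases h6 with ⟨h6, -⟩ | h6
      · exact absurd h6 hxy
      · rw [hH] at h6
        exact ⟨h0 _ _ h6.1 h6.2.1, Or.inr (Or.inr ⟨h6.1, h6.2.1, h6.2.2.2.1, h6.2.2.2.2.trans f4⟩)⟩
    · exact ⟨fun h => h4.2 (hs _ _ h), Or.inr (Or.inl ⟨hu, hw2.2⟩)⟩
    · exact ⟨fun h => h5.2 (hs _ _ h), Or.inr (Or.inl ⟨hu', hw2.2⟩)⟩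
    · rcases h6 with ⟨h6, -⟩ | h6
      · exact absurd h6.symm hxy
      · rw [hH] at h6
        refine ⟨h0 _ _ h6.2.1 h6.1, Or.inr (Or.inr ⟨h6.2.1, h6.1, ?_, ?_⟩)⟩
        · rw [hc]
          exact h6.2.2.2.1
        · rw [add_comm]
          exact h6.2.2.2.2.trans f4
    · exact absurd rfl hxy
  have hmono : ∀ x ∈ ({u, u', w, w'} : Finset V), ∀ y ∈ ({u, u', w, w'} : Finset V), x ≠ y →
      c x y = CL4_c q := by
    intro x hx y hy hxy
    obtain ⟨g1, g2⟩ := hpair x hx y hy hxy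
    rcases CL4_col q _ _ _ ⟨_, Nat.mod_lt _ two_pos⟩ g2 with g | ⟨g3, g4, g5, g6⟩
    · exact g
    · by_contra hne
      exact g1 (hw x y ⟨hxy, g3, g4, g5, by rw [g6]; exact hne⟩)
  have hz : ∀ z, (π z = CL4_j q ∨ π z = 0) → d0 (CL4_i q) (π z) = 0 := by
    rintro z (h | h)
    · rw [h, f6]
    · rw [h, f7]
  rcases h6 with ⟨rfl, -⟩ | h6
  · have e : ({u, u', w, w} : Finset V) = {u, u', w} := by simp
    have hcard : ({u, u', w, w} : Finset V).card = 3 := by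
      rw [e]
      exact card_eq_three.2 ⟨u, u', w, h1.1, h2.1, h3.1, rfl⟩
    refine ⟨mem_Cl (by omega) (by omega) _ hmono, ?_, hpair⟩
    rw [Q.val, hcard, e, dK_pair π h1.1 h2.1 h3.1, hu, hu', f5, hz w hw2.1]
    norm_num [Nat.choose]
  · rw [hH] at h6
    have hcard : ({u, u', w, w'} : Finset V).card = 4 := by
      rw [card_insert_of_notMem (by simp [h1.1, h2.1, h4.1]),
        card_insert_of_notMem (by simp [h3.1, h5.1]), card_pair h6.2.2.1]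
    refine ⟨mem_Cl (by omega) (by omega) _ hmono, ?_, hpair⟩
    rw [Q.val, hcard, dK_four π h1.1 h2.1 h3.1 h4.1 h5.1 h6.2.2.1, hu, hu', h6.1, h6.2.1, f5, f7,
      f8]
    norm_num [Nat.choose]

theorem CL4_num {n t p k z : ℕ} (ht : 10000000000 ≤ t) (h1 : 140000000000000 * t ≤ n)
    (h2 : n < 140000000000000 * (t + 1)) (hz : z = 2 ∨ z = 3)
    (h3 : |(p : ℝ) - (z : ℝ) / 14 * n| ≤ 1 / 1000000000000000 * n)
    (h4 : p ≤ 10000 * k + 10000) (h5 : 10000 * k ≤ p + 10000) :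
    z * NN t ≤ k + t ∧ k ≤ z * NN t + t := by
  obtain ⟨h6, h7⟩ := abs_le.1 h3
  unfold NN
  rcases hz with rfl | rfl
  · have g1 : 14000000000000000 * p ≤ 2000000000000014 * n := by
      have : (14000000000000000 : ℝ) * p ≤ 2000000000000014 * n := by
        push_cast at h7
        linarith
      exact_mod_cast this
    have g2 : 1999999999999986 * n ≤ 14000000000000000 * p := by
      have : (1999999999999986 : ℝ) * n ≤ 14000000000000000 * p := by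
        push_cast at h6
        linarith
      exact_mod_cast this
    omega
  · have g1 : 14000000000000000 * p ≤ 3000000000000014 * n := by
      have : (14000000000000000 : ℝ) * p ≤ 3000000000000014 * n := by
        push_cast at h7
        linarith
      exact_mod_cast this
    have g2 : 2999999999999986 * n ≤ 14000000000000000 * p := by
      have : (2999999999999986 : ℝ) * n ≤ 14000000000000000 * p := by
        push_cast at h6
        linarith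
      exact_mod_cast this
    omega

theorem cl4 : ∃ τ : ℝ, 0 < τ ∧ ∃ n0 : ℕ, ∀ (V : Type) [Fintype V] [DecidableEq V]
    (π : V → Fin 6) (c : V → V → Bool) (fb : V → V → Prop), n0 ≤ Fintype.card V →
    (∀ u v, c u v = c v u) → (∀ u v, fb u v → fb v u) → (∀ u v, Wr π c u v → fb u v) →
    (∀ u v, π u = 0 → π v = 0 → ¬ fb u v) →
    (∀ v, π v ≠ 5 → (cnt univ (fb v) : ℝ) ≤ τ * Fintype.card V) →
    (∀ i, i ≠ 5 → |(ps π i : ℝ) - (sz i : ℝ) / 14 * Fintype.card V| ≤ τ * Fintype.card V) →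
    ∃ M : Finset (Finset V), Pk c M ∧ (∀ K ∈ M, ∀ u ∈ K, ∀ v ∈ K, u ≠ v → ¬ fb u v) ∧
      (∀ K ∈ M, dK π K ≤ Q.val K) ∧
      ∀ x y, x ≠ y → π x = π y → π x ≠ 5 → ¬ fb x y → Cv M x y := by
  obtain ⟨t0, hmain⟩ := sub_main
  refine ⟨1 / 1000000000000000, by norm_num, 140000000000000 * (t0 + 10000000000), ?_⟩
  intro V _ _ π c fb hn hc hs hw h0 hd hp
  obtain ⟨t, ht⟩ : ∃ t, t = Fintype.card V / 140000000000000 := ⟨_, rfl⟩
  have h1 : 140000000000000 * t ≤ Fintype.card V := by omega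
  have h2 : Fintype.card V < 140000000000000 * (t + 1) := by omega
  have h3 : t0 + 10000000000 ≤ t := by omega
  have hd' : ∀ v, π v ≠ 5 → cnt univ (fb v) + 1 ≤ t := by
    intro v hv
    have g : 1000000000000000 * cnt univ (fb v) ≤ Fintype.card V := by
      have g1 := hd v hv
      have : (1000000000000000 : ℝ) * cnt univ (fb v) ≤ Fintype.card V := by linarith
      exact_mod_cast this
    omega
  obtain ⟨l1, l2, hl⟩ := exists_lab π
  have hl' : ∀ i a b, sz i * NN t ≤ cnt univ (fun v => π v = i ∧ l1 v = a ∧ l2 v = b) + t ∧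
      (i ≠ 5 → cnt univ (fun v => π v = i ∧ l1 v = a ∧ l2 v = b) ≤ sz i * NN t + t) := by
    intro i a b
    rcases CL4_sz i with ⟨g1, g2⟩ | ⟨g1, g2⟩
    · refine ⟨?_, fun h => absurd g1 h⟩
      rw [g2, zero_mul]
      exact Nat.zero_le _
    · have g := CL4_num (by omega) h1 h2 g2 (hp i g1) (hl i a b).1 (hl i a b).2
      exact ⟨g.1, fun _ => g.2⟩
  have hex : ∀ q : Fin 4, ∃ M : Finset (Finset V), Lin M ∧
      (∀ K ∈ M, K ∈ Cl c univ ∧ dK π K ≤ Q.val K ∧ ∀ x ∈ K, ∀ y ∈ K, x ≠ y → ¬ fb x y ∧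
        CL4_T q (π x) (π y) (c x y) (((l2 x).val + (l2 y).val) % 2)) ∧
      (∀ x y, x ≠ y → ¬ fb x y → π x = CL4_i q → π y = CL4_i q → Cv M x y) ∧
      ∀ x y, x ≠ y → π x = 0 → π y = 0 → c x y = CL4_c q →
        ((l2 x).val + (l2 y).val) % 2 = CL4_p q → Cv M x y := by
    intro q
    obtain ⟨f1, f2, f3, f4, -⟩ := CL4_facts q
    obtain ⟨s, hP, hQ, hE, hok, hH⟩ := exists_sub π c hc fb hs t hd' l1 l2 hl' (CL4_i q) (CL4_j q)
      f1 f2 f3 (CL4_c q) (CL4_p q)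
    obtain ⟨M, g1, g2, g3⟩ := hmain t (by omega) V s
    refine ⟨M, g2, fun K hK => CL4_shape hc hs hw h0 hP hQ hE hok hH (g1 K hK), ?_, ?_⟩
    · intro x y hxy hf hx hy
      exact g3 x y (Or.inl ⟨(hP x).2 hx, (hP y).2 hy, (hok x y).2 ⟨hxy, hf⟩⟩)
    · intro x y hxy hx hy e1 e2
      exact g3 x y (Or.inr ((hH x y).2 ⟨hx, hy, hxy, e1, e2.trans f4.symm⟩))
  choose M hlin hsh hcv1 hcv0 using hex
  have hup : ∀ q x y, Cv (M q) x y → Cv (univ.biUnion M) x y := by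
    rintro q x y ⟨K, hK, hx⟩
    exact ⟨K, mem_biUnion.2 ⟨q, mem_univ q, hK⟩, hx⟩
  refine ⟨univ.biUnion M, ⟨fun K hK => ?_, ?_⟩, fun K hK u hu v hv huv => ?_, fun K hK => ?_, ?_⟩
  · obtain ⟨q, -, hq⟩ := mem_biUnion.1 hK
    exact (hsh q K hq).1
  · intro K hK L hL x y hxy g1 g2 g3 g4
    obtain ⟨q, -, hq⟩ := mem_biUnion.1 hK
    obtain ⟨q', -, hq'⟩ := mem_biUnion.1 hL
    have e : q = q' := CL4_uniq q q' _ _ _ ⟨_, Nat.mod_lt _ two_pos⟩
      ((hsh q K hq).2.2 x g1 y g2 hxy).2 ((hsh q' L hq').2.2 x g3 y g4 hxy).2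
    subst e
    exact hlin q K hq L hq' x y hxy g1 g2 g3 g4
  · obtain ⟨q, -, hq⟩ := mem_biUnion.1 hK
    exact ((hsh q K hq).2.2 u hu v hv huv).1
  · obtain ⟨q, -, hq⟩ := mem_biUnion.1 hK
    exact (hsh q K hq).2.1
  · intro x y hxy e h5 hf
    by_cases hx : π x = 0
    · obtain ⟨q, g1, g2⟩ := CL4_ex0 (c x y) ⟨((l2 x).val + (l2 y).val) % 2, Nat.mod_lt _ two_pos⟩
      exact hup q x y (hcv0 q x y hxy hx (e ▸ hx) g1 g2)
    · obtain ⟨q, g⟩ := CL4_ex1 (π x) h5 hx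
      exact hup q x y (hcv1 q x y hxy hf g (e ▸ g))

end Pool.Agent.P.MP_c18ddb_co.X
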