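import Pool.Agent.P.MP_c18ddb_co.X.Kind
import Pool.Agent.P.MP_c18ddb_co.X.Acc

/-! Cleaning a partition. -/

namespace Pool.Agent.P.MP_c18ddb_co.X

open Finset

theorem Clean_bad {V : Type} [Fintype V] [DecidableEq V] (α β : ℝ) (hα : 0 < α)
    (π : V → Fin 6) (c : V → V → Bool)
    (h : (wrN π c : ℝ) ≤ α * β * (Fintype.card V : ℝ) ^ 2) :
    (cnt univ (fun v => α * Fintype.card V < (cnt univ (Wr π c v) : ℝ)) : ℝ) ≤
      β * Fintype.card V := by
  classical
  rcases Nat.eq_zero_or_pos (Fintype.card V) with h0 | h0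
  · have h1 := cnt_le_card (univ : Finset V)
      (fun v => α * Fintype.card V < (cnt univ (Wr π c v) : ℝ))
    rw [card_univ] at h1
    rw [Nat.le_zero.1 (h1.trans h0.le), h0]
    simp
  · have hn : (0 : ℝ) < Fintype.card V := by exact_mod_cast h0
    rw [cnt_eq]
    set B := univ.filter (fun v => α * Fintype.card V < (cnt univ (Wr π c v) : ℝ)) with hB
    have h1 : (B.card : ℝ) * (α * Fintype.card V) ≤ ∑ v ∈ B, (cnt univ (Wr π c v) : ℝ) := by
      have := card_nsmul_le_sum B (fun v => (cnt univ (Wr π c v) : ℝ)) (α * Fintype.card V)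
        (fun v hv => (mem_filter.1 hv).2.le)
      simpa [nsmul_eq_mul] using this
    have h2 : ∑ v ∈ B, (cnt univ (Wr π c v) : ℝ) ≤ ∑ v, (cnt univ (Wr π c v) : ℝ) :=
      sum_le_sum_of_subset_of_nonneg (subset_univ _) fun _ _ _ => Nat.cast_nonneg _
    have h3 : (wrN π c : ℝ) = ∑ v, (cnt univ (Wr π c v) : ℝ) := by
      rw [wrN_eq]
      push_cast
      rfl
    have h4 : (B.card : ℝ) * (α * Fintype.card V) ≤ (β * Fintype.card V) * (α * Fintype.card V) := by
      nlinarith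
    exact le_of_mul_le_mul_right h4 (mul_pos hα hn)

theorem Clean_hi {V : Type} [Fintype V] [DecidableEq V] (η : ℝ) (π : V → Fin 6)
    (h : ∀ i, ((sz i : ℝ) / 14 - η) * Fintype.card V ≤ ps π i) (i : Fin 6) :
    (ps π i : ℝ) ≤ ((sz i : ℝ) / 14 + 5 * η) * Fintype.card V := by
  have h1 : ∑ k, (ps π k : ℝ) = Fintype.card V := by
    rw [← ps_sum π]
    push_cast
    rfl
  have h0 := h 0
  have h1' := h 1
  have h2 := h 2
  have h3 := h 3
  have h4 := h 4
  have h5 := h 5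
  rw [Fin.sum_univ_six] at h1
  have e0 : (sz 0 : ℝ) = 2 := by simp [sz]
  have e1 : (sz 1 : ℝ) = 3 := by simp [sz]
  have e2 : (sz 2 : ℝ) = 3 := by simp [sz]
  have e3 : (sz 3 : ℝ) = 3 := by simp [sz]
  have e4 : (sz 4 : ℝ) = 3 := by simp [sz]
  have e5 : (sz 5 : ℝ) = 0 := by simp [sz]
  rw [e0] at h0
  rw [e1] at h1'
  rw [e2] at h2
  rw [e3] at h3
  rw [e4] at h4
  rw [e5] at h5
  have key : ∀ j : Fin 6, j = 0 ∨ j = 1 ∨ j = 2 ∨ j = 3 ∨ j = 4 ∨ j = 5 := by decide
  rcases key i with rfl | rfl | rfl | rfl | rfl | rfl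
  · rw [e0]; linarith
  · rw [e1]; linarith
  · rw [e2]; linarith
  · rw [e3]; linarith
  · rw [e4]; linarith
  · rw [e5]; linarith

theorem clean {V : Type} [Fintype V] [DecidableEq V] (θ α : ℝ) (hθ : 0 ≤ θ) (hα : 0 < α)
    (hα1 : α ≤ 1 / 5) (c : V → V → Bool) (hc : ∀ u v, c u v = c v u) (h : Close (α ^ 2) c) :
    ∃ π U, Cln θ α c π U := by
  classical
  obtain ⟨π0, hw, hs⟩ := h
  have hn : (0 : ℝ) ≤ Fintype.card V := Nat.cast_nonneg _
  set U : Finset V := univ.filter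
    (fun v => π0 v ≠ 5 ∧ (cnt univ (Wr π0 c v) : ℝ) ≤ α * Fintype.card V) with hU
  have hbad := Clean_bad α α hα π0 c (by rw [← sq]; exact hw)
  have h5 : (ps π0 5 : ℝ) ≤ α * Fintype.card V := by
    have h1 := Clean_hi (α ^ 2) π0 hs 5
    have e5 : (sz 5 : ℝ) = 0 := by simp [sz]
    rw [e5] at h1
    have h2 : 5 * α ^ 2 ≤ α := by nlinarith
    nlinarith
  have hout : ((univ \ U).card : ℝ) ≤ 2 * α * Fintype.card V := by
    have h1 : (univ \ U).card ≤ ps π0 5 +
        cnt univ (fun v => α * Fintype.card V < (cnt univ (Wr π0 c v) : ℝ)) := by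
      rw [cnt_eq, ps]
      refine le_trans (card_le_card fun v hv => ?_) (card_union_le _ _)
      have hv' : v ∉ U := (mem_sdiff.1 hv).2
      rw [hU, mem_filter] at hv'
      by_cases h1 : π0 v = 5
      · exact mem_union_left _ (mem_filter.2 ⟨mem_univ _, h1⟩)
      · refine mem_union_right _ (mem_filter.2 ⟨mem_univ _, ?_⟩)
        by_contra h2
        exact hv' ⟨mem_univ _, h1, not_lt.1 h2⟩
    have h2 : ((univ \ U).card : ℝ) ≤ ps π0 5 +
        cnt univ (fun v => α * Fintype.card V < (cnt univ (Wr π0 c v) : ℝ)) := by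
      exact_mod_cast h1
    linarith
  have hex : ∀ v, ∃ j : Fin 6, (v ∈ U → j = π0 v) ∧ (v ∉ U → j ≠ 5 →
      (cnt U (fun u => ¬ (j = 0 ∧ π0 u = 0) ∧ c v u ≠ tc j (π0 u)) : ℝ) < θ * Fintype.card V) ∧
      (v ∉ U → j = 5 → ∀ k : Fin 6, k ≠ 5 → θ * Fintype.card V ≤
        (cnt U (fun u => ¬ (k = 0 ∧ π0 u = 0) ∧ c v u ≠ tc k (π0 u)) : ℝ)) := by
    intro v
    by_cases hv : v ∈ U
    · exact ⟨π0 v, fun _ => rfl, fun h => absurd hv h, fun h => absurd hv h⟩
    · by_cases hj : ∃ j : Fin 6, j ≠ 5 ∧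
          (cnt U (fun u => ¬ (j = 0 ∧ π0 u = 0) ∧ c v u ≠ tc j (π0 u)) : ℝ) < θ * Fintype.card V
      · obtain ⟨j, hj1, hj2⟩ := hj
        exact ⟨j, fun h => absurd h hv, fun _ _ => hj2, fun _ h => absurd h hj1⟩
      · refine ⟨5, fun h => absurd h hv, fun _ h => absurd rfl h, fun _ _ k hk => ?_⟩
        by_contra h1
        exact hj ⟨k, hk, not_le.1 h1⟩
  choose π hπ1 hπ2 hπ3 using hex
  have hU1 : ∀ u ∈ U, π0 u ≠ 5 := fun u hu => (mem_filter.1 hu).2.1
  have hU2 : ∀ u ∈ U, (cnt univ (Wr π0 c u) : ℝ) ≤ α * Fintype.card V :=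
    fun u hu => (mem_filter.1 hu).2.2
  have hwU : ∀ u ∈ U, (cnt U (Wr π c u) : ℝ) ≤ α * Fintype.card V := by
    intro u hu
    refine le_trans ?_ (hU2 u hu)
    have : cnt U (Wr π c u) ≤ cnt univ (Wr π0 c u) := by
      refine cnt_mono fun a ha hp => ⟨mem_univ _, ?_⟩
      unfold Wr at hp ⊢
      rw [hπ1 u hu, hπ1 a ha] at hp
      exact hp
    exact_mod_cast this
  have hlo : ∀ i, ((sz i : ℝ) / 14 - 7 * α) * Fintype.card V ≤ cnt U fun u => π u = i := by
    intro i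
    have h1 : ps π0 i ≤ (cnt U fun u => π u = i) + (univ \ U).card := by
      rw [cnt_eq, ps]
      refine le_trans (card_le_card fun v hv => ?_) (card_union_le _ _)
      by_cases hvU : v ∈ U
      · exact mem_union_left _ (mem_filter.2 ⟨hvU, by rw [hπ1 v hvU]; exact (mem_filter.1 hv).2⟩)
      · exact mem_union_right _ (mem_sdiff.2 ⟨mem_univ _, hvU⟩)
    have h2 : (ps π0 i : ℝ) ≤ (cnt U fun u => π u = i) + (univ \ U).card := by
      exact_mod_cast h1
    have h3 := hs i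
    have h4 : α ^ 2 ≤ α := by nlinarith
    have h6 : α ^ 2 * Fintype.card V ≤ α * Fintype.card V := mul_le_mul_of_nonneg_right h4 hn
    have h7 : 0 ≤ α * Fintype.card V := mul_nonneg hα.le hn
    nlinarith
  have hαn : 0 ≤ α * Fintype.card V := mul_nonneg hα.le hn
  have hθn : 0 ≤ θ * Fintype.card V := mul_nonneg hθ hn
  refine ⟨π, U, ⟨fun u hu => ?_, by linarith, hwU, fun v => ?_, fun x hx j hj => ?_, hlo,
    fun i => ?_⟩⟩
  · rw [hπ1 u hu]
    exact hU1 u hu
  · have h1 : cnt univ (Wr π c v) ≤ cnt U (Wr π c v) + (univ \ U).card := by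
      rw [cnt_eq, cnt_eq]
      refine le_trans (card_le_card fun a ha => ?_) (card_union_le _ _)
      by_cases haU : a ∈ U
      · exact mem_union_left _ (mem_filter.2 ⟨haU, (mem_filter.1 ha).2⟩)
      · exact mem_union_right _ (mem_sdiff.2 ⟨mem_univ _, haU⟩)
    have h2 : (cnt univ (Wr π c v) : ℝ) ≤ cnt U (Wr π c v) + (univ \ U).card := by
      exact_mod_cast h1
    by_cases hv : v ∈ U
    · have := hwU v hv
      linarith
    · by_cases h5' : π v = 5
      · have h3 : cnt U (Wr π c v) ≤ (∅ : Finset V).card :=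
          cnt_le_of_subset fun a _ hp => absurd h5' hp.2.1
        have h4 : (cnt U (Wr π c v) : ℝ) ≤ 0 := by
          rw [card_empty] at h3
          exact_mod_cast h3
        linarith
      · have h3 := hπ2 v hv h5'
        have h4 : cnt U (Wr π c v) ≤
            cnt U (fun u => ¬ (π v = 0 ∧ π0 u = 0) ∧ c v u ≠ tc (π v) (π0 u)) := by
          refine cnt_mono fun a ha hp => ⟨ha, ?_⟩
          rw [← hπ1 a ha]
          exact ⟨hp.2.2.2.1, hp.2.2.2.2⟩
        have h6 : (cnt U (Wr π c v) : ℝ) ≤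
            cnt U (fun u => ¬ (π v = 0 ∧ π0 u = 0) ∧ c v u ≠ tc (π v) (π0 u)) := by
          exact_mod_cast h4
        linarith
  · have hxU : x ∉ U := fun hxU => hU1 x hxU (by rw [← hπ1 x hxU]; exact hx)
    refine le_trans (hπ3 x hxU hx j hj) ?_
    have h4 : cnt U (fun u => ¬ (j = 0 ∧ π0 u = 0) ∧ c x u ≠ tc j (π0 u)) ≤
        cnt U (fun u => ¬ (j = 0 ∧ π u = 0) ∧ c x u ≠ tc j (π u)) := by
      refine cnt_mono fun a ha hp => ⟨ha, ?_⟩
      rw [hπ1 a ha]
      exact hp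
    exact_mod_cast h4
  · have h1 : ∀ k, ((sz k : ℝ) / 14 - 7 * α) * Fintype.card V ≤ ps π k := by
      intro k
      refine le_trans (hlo k) ?_
      have : (cnt U fun u => π u = k) ≤ ps π k := by
        rw [ps]
        exact cnt_le_of_subset fun a _ hp => mem_filter.2 ⟨mem_univ _, hp⟩
      exact_mod_cast this
    have := Clean_hi (7 * α) π h1 i
    linarith

end Pool.Agent.P.MP_c18ddb_co.X
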