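import Pool.Agent.P.MP_c18ddb_co.X.ArDefs
import Pool.Agent.P.MP_c18ddb_co.Q.Pack
import Pool.Agent.P.MP_c18ddb_co.Q.Frac

/-! Construction of template graphs. -/

namespace Pool.Agent.P.MP_c18ddb_co.X

open Finset Q

theorem Cons_card (n a b : ℕ) (hb : b ≤ n) :
    ((univ : Finset (Fin n)).filter fun v => a ≤ v.val ∧ v.val < b).card = b - a := by
  rw [← Nat.card_Ico a b]
  refine card_bij (fun v _ => v.val) (fun v hv => by simpa using hv) (fun u _ v _ h => Fin.ext h)
    fun x hx => ?_
  rw [mem_Ico] at hx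
  exact ⟨⟨x, hx.2.trans_le hb⟩, by simpa using hx, rfl⟩

theorem cons (e a b c d h : ℕ) (hh : h ≤ e.choose 2) (n : ℕ) (hn : e + a + b + c + d = n) :
    ∃ (π : Fin n → Fin 6) (G : SimpleGraph (Fin n)), (∀ v, π v ≠ 5) ∧
      (∀ u v, ¬ Wr π (col G) u v) ∧ ps π 0 = e ∧ ps π 1 = a ∧ ps π 2 = b ∧ ps π 3 = c ∧
      ps π 4 = d ∧ hE π G = 2 * h := by
  classical
  let π : Fin n → Fin 6 := fun v => if v.val < e then 0 else if v.val < e + a then 1
    else if v.val < e + a + b then 2 else if v.val < e + a + b + c then 3 else 4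
  have hp : ∀ (i : Fin 6) (x y : ℕ), y ≤ n → (∀ v : Fin n, π v = i ↔ x ≤ v.val ∧ v.val < y) →
      ps π i = y - x := fun i x y hy H => by
    rw [ps, filter_congr fun v _ => H v, Cons_card n x y hy]
  have h0 : ps π 0 = e := hp 0 0 e (by omega) fun v => by
    simp only [π]; split_ifs <;> simp <;> omega
  have h1 := hp 1 e (e + a) (by omega) fun v => by
    simp only [π]; split_ifs <;> simp <;> omega
  have h2 := hp 2 (e + a) (e + a + b) (by omega) fun v => by
    simp only [π]; split_ifs <;> simp <;> omega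
  have h3 := hp 3 (e + a + b) (e + a + b + c) (by omega) fun v => by
    simp only [π]; split_ifs <;> simp <;> omega
  have h4 := hp 4 (e + a + b + c) n le_rfl fun v => by
    have := v.2
    simp only [π]; split_ifs <;> simp <;> omega
  have h5 : ∀ v, π v ≠ 5 := fun v => by
    simp only [π]; split_ifs <;> decide
  obtain ⟨S, hS, hc⟩ := exists_subset_card_eq
    (s := (univ.filter fun v => π v = 0).powersetCard 2) (n := h) (by
      rw [card_powersetCard]
      exact (congrArg (Nat.choose · 2) h0).symm ▸ hh)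
  have ht : ∀ i j, tc i j = tc j i := by decide
  let G : SimpleGraph (Fin n) :=
    { Adj := fun u v => u ≠ v ∧ if π u = 0 ∧ π v = 0 then {u, v} ∈ S else tc (π u) (π v) = true
      symm := ⟨fun u v H => ⟨H.1.symm, by
        simpa only [and_comm (a := π v = 0), pair_comm v u, ht (π v)] using H.2⟩⟩
      loopless := ⟨fun u H => H.1 rfl⟩ }
  refine ⟨π, G, h5, fun u v H => H.2.2.2.2 ?_, h0, by omega, by omega, by omega, by omega, ?_⟩
  · have e1 : G.Adj u v ↔ tc (π u) (π v) = true :=
      (and_iff_right H.1).trans (by rw [if_neg H.2.2.2.1])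
    simp [col, e1]
  · have e1 := frac_offDiag (univ.filter fun v => π v = 0) fun K => if K ∈ S then 1 else 0
    rw [sum_boole, sum_boole, filter_mem_eq_inter, inter_eq_right.2 hS, hc] at e1
    rw [hE, cnt_eq]
    refine Eq.trans (congrArg card ?_) (by exact_mod_cast e1)
    ext p
    simp only [mem_filter, mem_univ, true_and, mem_offDiag]
    constructor
    · rintro ⟨k1, k2, k3, k4⟩
      rw [if_pos ⟨k1, k2⟩] at k4
      exact ⟨⟨k1, k2, k3⟩, k4⟩
    · rintro ⟨⟨k1, k2, k3⟩, k4⟩
      exact ⟨k1, k2, k3, (if_pos ⟨k1, k2⟩).mpr k4⟩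

end Pool.Agent.P.MP_c18ddb_co.X
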