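import Pool.Agent.P.MP_c18ddb_co.Q.Defs

/-! Exact value of `M n`: common definitions. Parts: `0` centre, `1, 4` red cliques,
`2, 3` blue cliques, `5` exceptional vertices. -/

namespace Pool.Agent.P.MP_c18ddb_co.X

open Finset Q

/-- colour of the template between two parts (`true` is red) -/
def tc (i j : Fin 6) : Bool :=
  ![![true, true, false, false, true, false], ![true, true, true, false, false, false],
    ![false, true, false, true, false, false], ![false, false, true, false, true, false],
    ![true, false, false, true, true, false], ![false, false, false, false, false, false]] i j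

/-- dual weight of a pair -/
def d0 (i j : Fin 6) : ℕ := if i = j then ![3, 2, 2, 2, 2, 0] i else 0

/-- ideal size of a part in units of `n / 14` -/
def sz (i : Fin 6) : ℕ := ![2, 3, 3, 3, 3, 0] i

/-- number of elements of `s` with property `p` -/
noncomputable def cnt {α : Type} (s : Finset α) (p : α → Prop) : ℕ :=
  (@Finset.filter α p (Classical.decPred p) s).card

theorem cnt_eq {α : Type} (s : Finset α) (p : α → Prop) [DecidablePred p] :
    cnt s p = (s.filter p).card := by
  unfold cnt
  congr

theorem cnt_le_card {α : Type} (s : Finset α) (p : α → Prop) : cnt s p ≤ s.card := by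
  classical
  rw [cnt_eq]
  exact card_filter_le _ _

theorem cnt_mono {α : Type} {s t : Finset α} {p q : α → Prop}
    (h : ∀ a ∈ s, p a → a ∈ t ∧ q a) : cnt s p ≤ cnt t q := by
  classical
  rw [cnt_eq, cnt_eq]
  exact card_le_card fun a ha => mem_filter.2 (h a (mem_filter.1 ha).1 (mem_filter.1 ha).2)

theorem cnt_le_of_subset {α : Type} {s t : Finset α} {p : α → Prop}
    (h : ∀ a ∈ s, p a → a ∈ t) : cnt s p ≤ t.card :=
  (cnt_mono (q := fun _ => True) fun a ha hp => ⟨h a ha hp, trivial⟩).trans (cnt_le_card _ _)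

theorem cnt_le_add {α : Type} {s t u : Finset α} {p q r : α → Prop}
    (h : ∀ a ∈ s, p a → (a ∈ t ∧ q a) ∨ (a ∈ u ∧ r a)) : cnt s p ≤ cnt t q + cnt u r := by
  classical
  rw [cnt_eq, cnt_eq, cnt_eq]
  refine le_trans (card_le_card fun a ha => ?_) (card_union_le _ _)
  rcases h a (mem_filter.1 ha).1 (mem_filter.1 ha).2 with h | h
  · exact mem_union_left _ (mem_filter.2 h)
  · exact mem_union_right _ (mem_filter.2 h)

theorem cnt_add_not {α : Type} (s : Finset α) (p : α → Prop) :
    cnt s p + cnt s (fun a => ¬ p a) = s.card := by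
  classical
  rw [cnt_eq, cnt_eq, card_filter_add_card_filter_not]

theorem exists_of_cnt_lt {α : Type} {s : Finset α} {p : α → Prop} (h : cnt s p < s.card) :
    ∃ a ∈ s, ¬ p a := by
  classical
  by_contra hn
  push Not at hn
  rw [cnt_eq, filter_true_of_mem hn] at h
  exact lt_irrefl _ h

section
variable {V : Type}

/-- a pair whose colour disagrees with the template -/
def Wr (π : V → Fin 6) (c : V → V → Bool) (u v : V) : Prop :=
  u ≠ v ∧ π u ≠ 5 ∧ π v ≠ 5 ∧ ¬ (π u = 0 ∧ π v = 0) ∧ c u v ≠ tc (π u) (π v)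

/-- two members of the family share at most one vertex -/
def Lin (M : Finset (Finset V)) : Prop :=
  ∀ K ∈ M, ∀ L ∈ M, ∀ x y, x ≠ y → x ∈ K → y ∈ K → x ∈ L → y ∈ L → K = L

/-- the pair `x y` lies in a member of the family -/
def Cv (M : Finset (Finset V)) (x y : V) : Prop := ∃ K ∈ M, x ∈ K ∧ y ∈ K

/-- dual weight of the pairs inside `K` -/
noncomputable def dK [DecidableEq V] (π : V → Fin 6) (K : Finset V) : ℝ :=
  (∑ p ∈ K.offDiag, (d0 (π p.1) (π p.2) : ℝ)) / 2

/-- deficiencies that cover all monochromatic cliques; tuples may repeat vertices -/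
structure Cov (c : V → V → Bool) (D : V → V → ℝ) : Prop where
  c_symm : ∀ u v, c u v = c v u
  D_symm : ∀ u v, D u v = D v u
  D_nonneg : ∀ u v, 0 ≤ D u v
  k3 : ∀ (s : Bool) (a b d : V), c a b = s → c a d = s → c b d = s → 2 ≤ D a b + D a d + D b d
  k4 : ∀ (s : Bool) (a b d e : V), c a b = s → c a d = s → c b d = s → c a e = s → c b e = s →
    c d e = s → 5 ≤ D a b + D a d + D b d + D a e + D b e + D d e
  k5 : ∀ (s : Bool) (a b d e f : V), c a b = s → c a d = s → c b d = s → c a e = s → c b e = s →
    c d e = s → c a f = s → c b f = s → c d f = s → c e f = s →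
    9 ≤ D a b + D a d + D b d + D a e + D b e + D d e + D a f + D b f + D d f + D e f

variable [Fintype V]

/-- number of ordered wrong pairs -/
noncomputable def wrN (π : V → Fin 6) (c : V → V → Bool) : ℕ :=
  cnt (univ : Finset (V × V)) fun p => Wr π c p.1 p.2

/-- size of a part -/
def ps (π : V → Fin 6) (i : Fin 6) : ℕ := (univ.filter fun v => π v = i).card

/-- the partition `π` has few wrong pairs and parts of nearly the ideal sizes -/
def Gd (ε : ℝ) (π : V → Fin 6) (c : V → V → Bool) : Prop :=
  (wrN π c : ℝ) ≤ ε * (Fintype.card V : ℝ) ^ 2 ∧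
    ∀ i, ((sz i : ℝ) / 14 - ε) * Fintype.card V ≤ ps π i

/-- the colouring is close to the balanced template -/
def Close (ε : ℝ) (c : V → V → Bool) : Prop := ∃ π : V → Fin 6, Gd ε π c

/-- total dual weight of a partition -/
def Fv (π : V → Fin 6) : ℕ := ∑ i, d0 i i * (ps π i).choose 2

/-- a packing by monochromatic cliques -/
def Pk [DecidableEq V] (c : V → V → Bool) (M : Finset (Finset V)) : Prop :=
  M ⊆ Cl c univ ∧ Lin M

end

/-- stability of nearly regular covers -/
def RC : Prop :=
  ∀ ε : ℝ, 0 < ε → ∃ δ : ℝ, 0 < δ ∧ ∀ (V : Type) [Fintype V] [Nonempty V] (c : V → V → Bool)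
    (D : V → V → ℝ), Cov c D → (∀ u v, D u v ≤ 3) →
    (∀ v, |∑ y, D v y - 3 / 7 * Fintype.card V| ≤ δ * Fintype.card V) → Close ε c

/-- the largest value of `cp G + cp Gᶜ` for large `n` -/
def Sn (n : ℕ) : ℕ := 2 * n * (n + 2) / 7 - if n % 14 ∈ ({2, 3, 7, 12} : Finset ℕ) then 1 else 0

/-- the correction for the residues where the two numbers cannot be equal -/
def en (n : ℕ) : ℕ := if n % 28 ∈ ({8, 10, 14, 15, 18, 19, 23, 25} : Finset ℕ) then 1 else 0

end Pool.Agent.P.MP_c18ddb_co.X
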