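import Pool.Agent.P.MP_c18ddb_co.X.Symm

/-! Fractional stability. -/

namespace Pool.Agent.P.MP_c18ddb_co.X

open Finset Q

/-- a lower bound for all covers gives a fractional packing -/
theorem FS_pack {V : Type} [DecidableEq V] (S : Finset V) (c : V → V → Bool) (L : ℝ)
    (h : ∀ D : V → V → ℝ, (∀ u v, D u v = D v u) → (∀ u v, 0 ≤ D u v) →
      (∀ K ∈ Cl c S, 2 * Q.val K ≤ ∑ p ∈ K.offDiag, D p.1 p.2) →
      2 * L < ∑ p ∈ S.offDiag, D p.1 p.2) :
    ∃ φ, FracPack c S φ ∧ L ≤ value c S φ := by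
  obtain ⟨φ, h0, h1, h2⟩ := lp_dual (ι := ↥(S.powersetCard 2)) (κ := ↥(Cl c S))
    (fun K e => if e.1 ⊆ K.1 then 1 else 0) (fun K => Q.val K.1) L (by
      intro D hD hK
      let G : Finset V → ℝ := fun e => if h : e ∈ S.powersetCard 2 then D ⟨e, h⟩ else 0
      have hG : ∀ e : ↥(S.powersetCard 2), D e = G e.1 := fun e => by simp only [G, dif_pos e.2]
      have key := h (fun u v => G {u, v}) (fun u v => by rw [pair_comm])
        (fun u v => by
          simp only [G]
          split_ifs
          exacts [hD _, le_rfl]) (fun K hKm => by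
          have hKS : K ⊆ S := by
            simp only [Cl, mem_filter, mem_powerset] at hKm
            exact hKm.1
          have := hK ⟨K, hKm⟩
          simp only [hG] at this
          rw [sum_coe_sort (S.powersetCard 2) (fun e => (if e ⊆ K then 1 else 0) * G e)] at this
          simp only [ite_mul, one_mul, zero_mul] at this
          rw [← sum_filter] at this
          have e1 : (S.powersetCard 2).filter (fun e => e ⊆ K) = K.powersetCard 2 := by
            ext e
            simp only [mem_filter, mem_powersetCard]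
            exact ⟨fun h => ⟨h.2, h.1.2⟩, fun h => ⟨⟨h.1.trans hKS, h.2⟩, h.1⟩⟩
          rw [e1] at this
          rw [frac_offDiag]
          linarith)
      rw [frac_offDiag] at key
      simp only [hG]
      rw [sum_coe_sort (S.powersetCard 2) G]
      linarith)
  classical
  let ψ : Finset V → ℝ := fun K => if h : K ∈ Cl c S then φ ⟨K, h⟩ else 0
  have hψ : ∀ K : ↥(Cl c S), φ K = ψ K.1 := fun K => by simp only [ψ, dif_pos K.2]
  refine ⟨ψ, ⟨fun K => ?_, fun e he => ?_⟩, ?_⟩
  · simp only [ψ]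
    split_ifs
    exacts [h0 _, le_rfl]
  · have := h1 ⟨e, he⟩
    simp only [hψ] at this
    rw [sum_coe_sort (Cl c S) (fun K => (if e ⊆ K then 1 else 0) * ψ K)] at this
    simp only [ite_mul, one_mul, zero_mul] at this
    rwa [sum_filter]
  · simp only [hψ] at h2
    rwa [sum_coe_sort (Cl c S) (fun K => Q.val K * ψ K)] at h2

theorem frac_stab (hRC : RC) (ε : ℝ) (hε : 0 < ε) : ∃ δ : ℝ, 0 < δ ∧ ∃ m0 : ℕ,
    ∀ (V : Type) [DecidableEq V] (c : V → V → Bool) (T : Finset V), (∀ u v, c u v = c v u) →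
      m0 ≤ T.card → (Close ε fun u v : T => c u v) ∨
        ∃ φ, FracPack c T φ ∧ (3 / 14 + δ) * (T.card : ℝ) ^ 2 ≤ value c T φ := by
  obtain ⟨δ, hδ, n0, H⟩ := symm_close hRC ε hε
  refine ⟨δ / 4, by positivity, max n0 ⌈6 / δ⌉₊, fun V _ c T hc hT => ?_⟩
  refine or_iff_not_imp_left.2 fun hn => FS_pack T c _ fun D hD h0 hK => ?_
  by_contra hle
  have hcov : Cov (fun u v : T => coverC c u v) (fun u v : T => coverD D u v) :=
    ⟨fun u v => coverC_symm hc u v, fun u v => coverD_symm hD u v,
      fun u v => coverD_nonneg h0 u v, fun s a b d => cover_k3 hc hD h0 hK s a.2 b.2 d.2,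
      fun s a b d e => cover_k4 hc hD h0 hK s a.2 b.2 d.2 e.2,
      fun s a b d e f => cover_k5 hc hD h0 hK s a.2 b.2 d.2 e.2 f.2⟩
  have e : ∑ u : ↥T, ∑ v : ↥T, coverD D u v = ∑ u ∈ T, ∑ v ∈ T, coverD D u v := by
    rw [← sum_coe_sort T]
    exact sum_congr rfl fun u _ => sum_coe_sort T fun v => coverD D u v
  have hm : 6 / δ ≤ (T.card : ℝ) := Nat.ceil_le.1 ((le_max_right _ _).trans hT)
  rw [div_le_iff₀ hδ] at hm
  have h1 := H T _ _ (by rw [Fintype.card_coe]; exact (le_max_left _ _).trans hT) hcov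
    (fun v => coverD_self D v) (by
      rw [e, cover_offDiag, Fintype.card_coe]
      have h2 := mul_le_mul_of_nonneg_right hm (Nat.cast_nonneg (α := ℝ) T.card)
      nlinarith [not_lt.1 hle])
  exact hn (h1.congr fun u v huv => (if_neg fun h => huv (Subtype.ext h)).symm)

end Pool.Agent.P.MP_c18ddb_co.X
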