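import Pool.Agent.P.MP_c18ddb_co.X.ArDefs
import Pool.Agent.P.MP_c18ddb_co.X.Acc
import Pool.Agent.P.MP_c18ddb_co.Lower

/-! Template graphs: lower bounds by duality, and their construction. -/

namespace Pool.Agent.P.MP_c18ddb_co.X

open Finset Q

theorem hE_even {V : Type} [Fintype V] (π : V → Fin 6) (G : SimpleGraph V) :
    ∃ h, hE π G = 2 * h := by
  classical
  have h0 : ∑ _p ∈ (univ : Finset (V × V)).filter
      (fun p => π p.1 = 0 ∧ π p.2 = 0 ∧ G.Adj p.1 p.2), (1 : ZMod 2) = 0 := by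
    refine sum_involution (fun p _ => p.swap) (fun _ _ => rfl) (fun p hp _ e => ?_)
      (fun p hp => ?_) fun _ _ => rfl
    · exact (mem_filter.1 hp).2.2.2.ne (congrArg Prod.snd e)
    · have h := (mem_filter.1 hp).2
      exact mem_filter.2 ⟨mem_univ _, h.2.1, h.1, h.2.2.symm⟩
  rw [sum_const, nsmul_eq_mul, mul_one, ZMod.natCast_eq_zero_iff] at h0
  rw [hE, cnt_eq]
  exact h0

theorem Fv_eq {V : Type} [Fintype V] (π : V → Fin 6) :
    Fv π = FF (ps π 0) (ps π 1) (ps π 2) (ps π 3) (ps π 4) := by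
  simp [Fv, FF, d0, Fin.sum_univ_six]

theorem Tmpl_compl {V : Type} [Fintype V] [DecidableEq V] (π : V → Fin 6) (G : SimpleGraph V) :
    hE π G + hE π Gᶜ = ps π 0 * ps π 0 - ps π 0 := by
  classical
  rw [ps, ← offDiag_card,
    ← card_filter_add_card_filter_not (fun p : V × V => G.Adj p.1 p.2), hE, hE, cnt_eq, cnt_eq]
  congr 2
  · ext p
    simp only [mem_filter, mem_univ, true_and, mem_offDiag]
    exact ⟨fun h => ⟨⟨h.1, h.2.1, h.2.2.ne⟩, h.2.2⟩, fun h => ⟨h.1.1, h.1.2.1, h.2⟩⟩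
  · ext p
    simp only [mem_filter, mem_univ, true_and, mem_offDiag, SimpleGraph.compl_adj, and_assoc]

theorem Tmpl_bound {V : Type} [Fintype V] [DecidableEq V] (π : V → Fin 6) (H : SimpleGraph V)
    (A : Fin 6 → Fin 6 → Bool) (w : Fin 6 → Fin 6 → ℤ)
    (hH : ∀ u v, u ≠ v → ¬ (π u = 0 ∧ π v = 0) → (H.Adj u v ↔ A (π u) (π v) = true))
    (h0 : A 0 0 = true) (hw0 : w 0 0 = 0) (hw : ∀ i j, A i j = false → w i j = 0)
    (hc : ∀ c : Fin 6 → ℕ, (∀ i j, i ≠ j → A i j = false → c i = 0 ∨ c j = 0) →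
      (∀ i, A i i = false → c i ≤ 1) →
      MP_c18ddb_co.Q (fun i j => w i j - if i = 0 ∧ j = 0 then 2 else 0) c ≤ 2) :
    MP_c18ddb_co.Q w (ps π) - 2 * hE π H ≤ 2 * cp H := by
  classical
  have hA : ∀ u v, H.Adj u v → A (π u) (π v) = true := fun u v h => by
    by_cases e : π u = 0 ∧ π v = 0
    · rw [e.1, e.2, h0]
    · exact (hH u v h.ne e).1 h
  have h := weight_le H (fun u v => w (π u) (π v) - if π u = 0 ∧ π v = 0 then 2 else 0) (by
    intro K hK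
    rw [sum_offDiag_eq π fun i j => w i j - if i = 0 ∧ j = 0 then 2 else 0]
    refine hc _ (fun i j hij h1 => ?_) fun i h1 => ?_
    · by_contra hcon
      push Not at hcon
      obtain ⟨u, hu⟩ := card_pos.1 (Nat.pos_of_ne_zero hcon.1)
      obtain ⟨v, hv⟩ := card_pos.1 (Nat.pos_of_ne_zero hcon.2)
      rw [mem_filter] at hu hv
      have h2 := hA u v (hK hu.1 hv.1 fun e => hij (hu.2.symm.trans (e ▸ hv.2)))
      rw [hu.2, hv.2, h1] at h2
      cases h2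
    · refine card_le_one.2 fun u hu v hv => by_contra fun hne => ?_
      rw [mem_filter] at hu hv
      have h2 := hA u v (hK hu.1 hv.1 hne)
      rw [hu.2, hv.2, h1] at h2
      cases h2)
  refine le_of_eq_of_le ?_ h
  rw [sum_sub_distrib]
  congr 1
  · refine (sum_offDiag_eq π w univ).symm.trans (sum_subset (fun p hp => ?_) fun p h1 h2 => ?_).symm
    · simpa using (mem_filter.1 hp).2.ne
    · simp only [mem_filter, mem_univ, true_and, mem_offDiag] at h1 h2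
      by_cases e : π p.1 = 0 ∧ π p.2 = 0
      · rw [e.1, e.2, hw0]
      · exact hw _ _ (Bool.eq_false_iff.2 fun h3 => h2 ((hH _ _ h1 e).2 h3))
  · rw [← sum_filter, sum_const, nsmul_eq_mul, mul_comm, hE, cnt_eq, filter_filter]
    congr 3
    ext p
    simp only [mem_filter, mem_univ, true_and]
    tauto

/-- template weights for the graph -/
def Tmpl_w1 : Fin 6 → Fin 6 → ℤ :=
  ![![0, 1, 0, 0, 1, 0], ![1, -1, 1, 0, 0, 0], ![0, 1, 0, 1, 0, 0], ![0, 0, 1, 0, 1, 0],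
    ![1, 0, 0, 1, -1, 0], ![0, 0, 0, 0, 0, 0]]

/-- template weights for the complement -/
def Tmpl_w2 : Fin 6 → Fin 6 → ℤ :=
  ![![0, 0, 1, 1, 0, 0], ![0, 0, 0, 1, 1, 0], ![1, 0, -1, 0, 1, 0], ![1, 1, 0, -1, 0, 0],
    ![0, 1, 1, 0, 0, 0], ![0, 0, 0, 0, 0, 0]]

/-- adjacency pattern of the complement -/
def Tmpl_A2 (i j : Fin 6) : Bool := !tc i j || (i = 0 && j = 0)

theorem Tmpl_Q (w : Fin 6 → Fin 6 → ℤ) (c : Fin 6 → ℕ) :
    MP_c18ddb_co.Q (fun i j => w i j - if i = 0 ∧ j = 0 then 2 else 0) c =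
      MP_c18ddb_co.Q w c - 2 * c 0 * (c 0 - 1) := by
  simp [MP_c18ddb_co.Q, Fin.sum_univ_six]
  ring

theorem Tmpl_Q1 (c : Fin 6 → ℕ) : MP_c18ddb_co.Q Tmpl_w1 c =
    2 * ((c 0 : ℤ) * c 1 + c 1 * c 2 + c 2 * c 3 + c 3 * c 4 + c 4 * c 0) - c 1 * (c 1 - 1) -
      c 4 * (c 4 - 1) := by
  simp [MP_c18ddb_co.Q, Tmpl_w1, Fin.sum_univ_six]
  ring

theorem Tmpl_Q2 (c : Fin 6 → ℕ) : MP_c18ddb_co.Q Tmpl_w2 c =
    2 * ((c 0 : ℤ) * c 2 + c 0 * c 3 + c 1 * c 3 + c 1 * c 4 + c 2 * c 4) - c 2 * (c 2 - 1) -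
      c 3 * (c 3 - 1) := by
  simp [MP_c18ddb_co.Q, Tmpl_w2, Fin.sum_univ_six]
  ring

theorem Tmpl_clique (e a b c d : ℕ) (hb : b ≤ 1) (hc : c ≤ 1) (h1 : e = 0 ∨ b = 0)
    (h2 : e = 0 ∨ c = 0) (h3 : a = 0 ∨ c = 0) (h4 : a = 0 ∨ d = 0) (h5 : b = 0 ∨ d = 0) :
    2 * ((e : ℤ) * a + a * b + b * c + c * d + d * e) - a * (a - 1) - d * (d - 1) -
      2 * e * (e - 1) ≤ 2 := by
  have k1 := key a e
  have k2 := key d e
  have k3 := key a 1
  have k4 := key d 1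
  interval_cases b <;> interval_cases c <;> rcases h4 with rfl | rfl <;> simp_all <;> nlinarith

theorem Tmpl_two (n : ℕ) : 2 * ((n.choose 2 : ℕ) : ℤ) = n * (n - 1) := by
  induction n with
  | zero => simp
  | succ n ih =>
    rw [Nat.choose_succ_succ', Nat.choose_one_right]
    push_cast
    linarith

theorem tmpl {V : Type} [Fintype V] [DecidableEq V] (π : V → Fin 6) (G : SimpleGraph V)
    (h5 : ∀ v, π v ≠ 5) (hw : ∀ u v, ¬ Wr π (col G) u v) (h : ℕ) (hh : hE π G = 2 * h) :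
    PP (ps π 0) (ps π 1) (ps π 2) (ps π 3) (ps π 4) h ≤ cp G ∧
      QQ (ps π 0) (ps π 1) (ps π 2) (ps π 3) (ps π 4) h ≤ cp Gᶜ := by
  have hG : ∀ u v, u ≠ v → ¬ (π u = 0 ∧ π v = 0) → (G.Adj u v ↔ tc (π u) (π v) = true) :=
    fun u v h1 h2 => by
      have h3 : col G u v = tc (π u) (π v) := by_contra fun h3 => hw u v ⟨h1, h5 u, h5 v, h2, h3⟩
      rw [← h3]
      simp [col]
  have b1 := Tmpl_bound π G tc Tmpl_w1 hG rfl rfl (by decide) fun c h1 h2 => by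
    rw [Tmpl_Q, Tmpl_Q1]
    exact Tmpl_clique _ _ _ _ _ (h2 2 rfl) (h2 3 rfl) (h1 0 2 (by decide) rfl)
      (h1 0 3 (by decide) rfl) (h1 1 3 (by decide) rfl) (h1 1 4 (by decide) rfl)
      (h1 2 4 (by decide) rfl)
  have b2 := Tmpl_bound π Gᶜ Tmpl_A2 Tmpl_w2 (fun u v h1 h2 => by
    rw [SimpleGraph.compl_adj, hG u v h1 h2]
    simpa [Tmpl_A2, h1] using fun a b => absurd ⟨a, b⟩ h2) rfl rfl (by decide) fun c h1 h2 => by
    rw [Tmpl_Q, Tmpl_Q2]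
    have h3 := Tmpl_clique (c 0) (c 2) (c 4) (c 1) (c 3) (h2 4 rfl) (h2 1 rfl)
      (h1 0 4 (by decide) rfl) (h1 0 1 (by decide) rfl) (h1 2 1 (by decide) rfl)
      (h1 2 3 (by decide) rfl) (h1 4 3 (by decide) rfl)
    linarith
  have h1 := Tmpl_compl π G
  have h2 : ((hE π Gᶜ : ℕ) : ℤ) = ps π 0 * (ps π 0 - 1) - 2 * h := by
    have h3 := Nat.le_mul_self (ps π 0)
    zify [h3] at h1 hh
    linarith
  rw [Tmpl_Q1, hh] at b1
  rw [Tmpl_Q2, h2] at b2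
  have t0 := Tmpl_two (ps π 0)
  have t1 := Tmpl_two (ps π 1)
  have t2 := Tmpl_two (ps π 2)
  have t3 := Tmpl_two (ps π 3)
  have t4 := Tmpl_two (ps π 4)
  push_cast at b1
  unfold PP QQ
  constructor <;> linarith

end Pool.Agent.P.MP_c18ddb_co.X
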