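import Pool.Agent.P.MP_c18ddb_co.X.Stab
import Pool.Agent.P.MP_c18ddb_co.X.Arith
import Pool.Agent.P.MP_c18ddb_co.X.Arith3
import Pool.Agent.P.MP_c18ddb_co.X.Tmpl
import Pool.Agent.P.MP_c18ddb_co.X.Cons

/-! The exact value from the stability of nearly regular covers. -/

namespace Pool.Agent.P.MP_c18ddb_co.X

open Finset Q

theorem Final_en_le (n : ℕ) : en n ≤ 1 := by
  unfold en
  split_ifs <;> omega

theorem Final_small {a b S k : ℕ} (h : a + b + 1 ≤ S) (hS : 3 ≤ S) (hk : k ≤ 1) :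
    a + b ≤ S ∧ a * b + k ≤ S ^ 2 / 4 := by
  refine ⟨by omega, (Nat.le_div_iff_mul_le (by norm_num)).2 ?_⟩
  obtain ⟨t, rfl⟩ : ∃ t, S = t + 1 := ⟨S - 1, by omega⟩
  have h1 : a + b ≤ t := by omega
  have h2 : (a + b) ^ 2 ≤ t ^ 2 := Nat.pow_le_pow_left h1 2
  have h3 : 4 * (a * b) ≤ (a + b) ^ 2 := by
    zify
    nlinarith [sq_nonneg ((a : ℤ) - b)]
  nlinarith

theorem Final_sum {n : ℕ} (π : Fin n → Fin 6) :
    ps π 0 + ps π 1 + ps π 2 + ps π 3 + ps π 4 + ps π 5 = n := by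
  have h := ps_sum π
  rw [Fin.sum_univ_six, Fintype.card_fin] at h
  exact h

theorem upper (hRC : RC) : ∃ n0 : ℕ, ∀ n, n0 ≤ n → ∀ G : SimpleGraph (Fin n),
    cp G + cp Gᶜ ≤ Sn n ∧ cp G * cp Gᶜ + en n ≤ Sn n ^ 2 / 4 := by
  obtain ⟨ε1, κ, hε1, hκ, n1, hq⟩ := ql
  obtain ⟨δ, hδ, n0, h0⟩ := stab hRC ε1 hε1
  obtain ⟨n2, hn2⟩ := exists_nat_ge (4 / κ)
  refine ⟨n0 + n1 + n2 + 6, fun n hn G => ?_⟩
  have hS := Sn_ge n
  have hn6 : (6 : ℝ) ≤ n := by exact_mod_cast (show 6 ≤ n by omega)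
  have hS3 : 3 ≤ Sn n := by
    have : (3 : ℝ) ≤ Sn n := by nlinarith
    exact_mod_cast this
  have hsm : (cp G : ℝ) + cp Gᶜ + 1 ≤ Sn n →
      cp G + cp Gᶜ ≤ Sn n ∧ cp G * cp Gᶜ + en n ≤ Sn n ^ 2 / 4 := fun h =>
    Final_small (by exact_mod_cast h) hS3 (Final_en_le n)
  rcases h0 n (by omega) G with h1 | h1
  swap
  · refine hsm ?_
    have : 0 ≤ δ * (n : ℝ) ^ 2 := by positivity
    linarith
  obtain ⟨π, M, hM, h2⟩ := hq (Fin n) (col G) (by rw [Fintype.card_fin]; omega) (col_symm G) h1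
  have h3 := hM.cp_le
  rw [Fintype.card_fin] at h2 h3
  rw [Fv_eq] at h2
  have h4 := Final_sum π
  have hw : (0 : ℝ) ≤ wrN π (col G) := Nat.cast_nonneg _
  rcases Nat.eq_zero_or_pos (ps π 5) with h5 | h5
  · rw [h5, add_zero] at h4
    rw [h5, Nat.cast_zero, mul_zero, add_zero] at h2
    have h6 := ar1 (ps π 0) (ps π 1) (ps π 2) (ps π 3) (ps π 4)
    rw [h4] at h6
    have h6' : ((n.choose 2 : ℕ) : ℝ) ≤
        (FF (ps π 0) (ps π 1) (ps π 2) (ps π 3) (ps π 4) : ℝ) + Sn n := by exact_mod_cast h6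
    by_cases h7 : cp G + cp Gᶜ + 1 ≤ Sn n
    · exact Final_small h7 hS3 (Final_en_le n)
    have h8 : (Sn n : ℝ) ≤ cp G + cp Gᶜ := by exact_mod_cast (show Sn n ≤ cp G + cp Gᶜ by omega)
    have h9 : wrN π (col G) = 0 := by
      have : (wrN π (col G) : ℝ) ≤ 0 := by linarith
      exact_mod_cast le_antisymm this hw
    have h10 : n.choose 2 = FF (ps π 0) (ps π 1) (ps π 2) (ps π 3) (ps π 4) + Sn n := by
      refine le_antisymm h6 ?_
      have : (FF (ps π 0) (ps π 1) (ps π 2) (ps π 3) (ps π 4) : ℝ) + Sn n ≤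
          ((n.choose 2 : ℕ) : ℝ) := by linarith
      exact_mod_cast this
    have h11 : cp G + cp Gᶜ ≤ Sn n := by
      have : (cp G : ℝ) + cp Gᶜ ≤ Sn n := by linarith
      exact_mod_cast this
    have h12 : ∀ v, π v ≠ 5 := fun v hv => by
      have : v ∈ (univ.filter fun v => π v = 5) := mem_filter.2 ⟨mem_univ v, hv⟩
      rw [ps, card_eq_zero] at h5
      rw [h5] at this
      exact notMem_empty v this
    have h13 : ∀ u v, ¬ Wr π (col G) u v := fun u v huv => by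
      classical
      rw [wrN, cnt_eq, card_eq_zero] at h9
      have : (u, v) ∈ (univ.filter fun p : Fin n × Fin n => Wr π (col G) p.1 p.2) :=
        mem_filter.2 ⟨mem_univ _, huv⟩
      rw [h9] at this
      exact notMem_empty _ this
    obtain ⟨h, hh⟩ := hE_even π G
    obtain ⟨h14, h15⟩ := tmpl π G h12 h13 h hh
    have h16 := PP_add_QQ (ps π 0) (ps π 1) (ps π 2) (ps π 3) (ps π 4) h
    have h17 := ar2 (ps π 0) (ps π 1) (ps π 2) (ps π 3) (ps π 4) h (by rw [h4]; exact h10)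
    rw [h4] at h16 h17
    rw [h10] at h16
    have h18 : PP (ps π 0) (ps π 1) (ps π 2) (ps π 3) (ps π 4) h = cp G := by
      push_cast at h16
      omega
    have h19 : QQ (ps π 0) (ps π 1) (ps π 2) (ps π 3) (ps π 4) h = cp Gᶜ := by
      push_cast at h16
      omega
    rw [h18, h19] at h17
    exact ⟨h11, by exact_mod_cast h17⟩
  · refine hsm ?_
    have h6 := ar0 (ps π 0) (ps π 1) (ps π 2) (ps π 3) (ps π 4)
    have h7 : (ps π 0 : ℝ) + ps π 1 + ps π 2 + ps π 3 + ps π 4 = n - ps π 5 := by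
      have : ((ps π 0 + ps π 1 + ps π 2 + ps π 3 + ps π 4 + ps π 5 : ℕ) : ℝ) = n := by rw [h4]
      push_cast at this
      linarith
    rw [h7] at h6
    rw [Nat.cast_choose_two] at h3
    have h8 : (1 : ℝ) ≤ ps π 5 := by exact_mod_cast h5
    have h9 : 4 ≤ κ * n := by
      have h10 : (n2 : ℝ) ≤ n := by exact_mod_cast (show n2 ≤ n by omega)
      rw [div_le_iff₀ hκ] at hn2
      nlinarith
    have h10 : 4 ≤ κ * n * ps π 5 := by nlinarith
    nlinarith [sq_nonneg (ps π 5 : ℝ)]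

theorem lower : ∃ n0 : ℕ, ∀ n, n0 ≤ n → ∃ G : SimpleGraph (Fin n),
    Sn n ≤ cp G + cp Gᶜ ∧ Sn n ^ 2 / 4 ≤ cp G * cp Gᶜ + en n := by
  obtain ⟨n0, h0⟩ := ar3
  refine ⟨n0, fun n hn => ?_⟩
  obtain ⟨e, a, b, c, d, h, h1, h2, h3, h4, h5, h6⟩ := h0 n hn
  obtain ⟨π, G, h7, h8, rfl, rfl, rfl, rfl, rfl, h9⟩ := cons e a b c d h h2 n h1
  obtain ⟨h10, h11⟩ := tmpl π G h7 h8 h h9
  refine ⟨G, by omega, ?_⟩
  have h12 := mul_le_mul h10 h11 h4 (Int.natCast_nonneg _)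
  have h13 : ((Sn n ^ 2 / 4 : ℕ) : ℤ) ≤ (cp G : ℤ) * cp Gᶜ + en n := by linarith
  exact_mod_cast h13

theorem exact (hRC : RC) : ∃ n0 : ℕ, ∀ n, n0 ≤ n → M n = Sn n ^ 2 / 4 - en n := by
  obtain ⟨n0, h0⟩ := upper hRC
  obtain ⟨n1, h1⟩ := lower
  refine ⟨n0 + n1, fun n hn => ?_⟩
  obtain ⟨G, hG⟩ := exists_M n
  obtain ⟨G', -, hG'⟩ := h1 n (by omega)
  have h2 := (h0 n (by omega) G).2
  have h3 := le_M G'
  omega

end Pool.Agent.P.MP_c18ddb_co.X
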