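import Pool.Agent.P.MP_c18ddb_co.X.Kind

/-! A vertex far from all types gains more than the marginal cost. -/

namespace Pool.Agent.P.MP_c18ddb_co.X

open Finset

/-- colour of the pure type `t` towards part `i` -/
def bt (t : Fin 32) (i : Fin 6) : Bool := t.val.testBit i.val

/-- twice an optimal packing for the pure type `t`, in units of `u` -/
def tb (t : Fin 32) (q : Fin 18) : ℕ :=
  ![![0, 0, 0, 0, 0, 0, 5, 0, 0, 0, 0, 0, 0, 0, 2, 1, 2, 1],
    ![0, 0, 0, 0, 0, 0, 3, 0, 0, 0, 0, 0, 0, 0, 0, 3, 0, 3],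
    ![0, 0, 2, 0, 0, 0, 0, 0, 6, 0, 0, 0, 0, 0, 0, 0, 2, 0],
    ![2, 0, 0, 0, 0, 0, 0, 0, 6, 0, 2, 0, 0, 0, 0, 0, 0, 0],
    ![0, 0, 2, 0, 0, 0, 6, 0, 0, 0, 0, 0, 0, 0, 0, 0, 2, 0],
    ![0, 0, 0, 0, 0, 0, 3, 0, 0, 0, 0, 0, 0, 0, 0, 0, 0, 3],
    ![0, 0, 2, 0, 6, 0, 0, 0, 0, 0, 0, 0, 0, 0, 0, 0, 2, 0],
    ![4, 0, 0, 0, 2, 0, 0, 0, 0, 0, 0, 0, 0, 0, 0, 0, 0, 0],
    ![0, 2, 0, 0, 0, 0, 6, 0, 0, 0, 0, 0, 0, 0, 2, 0, 0, 0],
    ![0, 0, 0, 0, 0, 0, 3, 0, 0, 0, 0, 0, 0, 0, 0, 3, 0, 0],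
    ![0, 4, 0, 0, 0, 0, 0, 0, 2, 0, 0, 0, 0, 0, 0, 0, 0, 0],
    ![2, 0, 0, 0, 0, 0, 0, 0, 6, 0, 2, 0, 0, 0, 0, 0, 0, 0],
    ![0, 0, 0, 0, 0, 0, 6, 6, 0, 0, 0, 0, 0, 0, 0, 0, 0, 0],
    ![0, 0, 0, 0, 0, 0, 6, 6, 0, 0, 0, 0, 0, 0, 0, 0, 0, 0],
    ![0, 0, 0, 0, 0, 0, 0, 3, 0, 0, 0, 3, 0, 0, 0, 0, 0, 0],
    ![2, 0, 0, 0, 0, 0, 0, 6, 0, 0, 2, 0, 0, 0, 0, 0, 0, 0],
    ![0, 2, 0, 0, 0, 6, 0, 0, 0, 0, 0, 0, 0, 0, 2, 0, 0, 0],
    ![0, 0, 0, 2, 0, 6, 0, 0, 0, 0, 0, 0, 2, 0, 0, 0, 0, 0],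
    ![0, 0, 0, 0, 0, 0, 0, 0, 0, 0, 0, 0, 0, 0, 3, 0, 1, 0],
    ![0, 0, 0, 0, 0, 0, 0, 0, 0, 0, 3, 0, 1, 0, 0, 0, 0, 0],
    ![0, 0, 4, 0, 0, 2, 0, 0, 0, 0, 0, 0, 0, 0, 0, 0, 0, 0],
    ![0, 0, 0, 2, 0, 6, 0, 0, 0, 0, 0, 0, 2, 0, 0, 0, 0, 0],
    ![0, 0, 2, 0, 6, 0, 0, 0, 0, 0, 0, 0, 0, 0, 0, 0, 2, 0],
    ![0, 0, 0, 2, 6, 0, 0, 0, 0, 0, 0, 0, 2, 0, 0, 0, 0, 0],
    ![0, 2, 0, 0, 0, 0, 0, 0, 0, 6, 0, 0, 0, 0, 2, 0, 0, 0],
    ![0, 0, 0, 4, 0, 0, 0, 0, 0, 2, 0, 0, 0, 0, 0, 0, 0, 0],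
    ![0, 2, 0, 0, 0, 0, 0, 0, 0, 6, 0, 0, 0, 0, 2, 0, 0, 0],
    ![2, 0, 0, 0, 0, 0, 0, 0, 0, 6, 2, 0, 0, 0, 0, 0, 0, 0],
    ![0, 0, 0, 0, 0, 0, 0, 3, 0, 0, 0, 0, 0, 3, 0, 0, 0, 0],
    ![0, 0, 0, 2, 0, 0, 0, 6, 0, 0, 0, 0, 2, 0, 0, 0, 0, 0],
    ![0, 0, 0, 0, 0, 0, 0, 3, 0, 0, 0, 3, 0, 3, 0, 0, 0, 0],
    ![0, 0, 0, 0, 0, 0, 0, 5, 0, 0, 2, 1, 2, 1, 0, 0, 0, 0]] t q

/-- the pure type `t` is the type of part `j` -/
def IsT (t : Fin 32) (j : Fin 6) : Prop :=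
  j ≠ 5 ∧ ∀ i, i ≠ 5 → ¬ (j = 0 ∧ i = 0) → bt t i = tc j i

instance (t : Fin 32) (j : Fin 6) : Decidable (IsT t j) := by
  unfold IsT
  infer_instance

theorem tb_us : ∀ t i s, us (tb t) i s ≤ if bt t i = s then 2 * sz i else 0 := by decide +kernel

theorem tb_gn : ∀ t, 12 ≤ gn (tb t) ∧ ((∀ j, ¬ IsT t j) → 15 ≤ gn (tb t)) := by decide +kernel

/-- a type of a part with one relevant coordinate flipped is not the type of a part -/
theorem flip_not : ∀ t t' j i, IsT t j → i ≠ 5 → ¬ (j = 0 ∧ i = 0) → bt t' i ≠ bt t i →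
    (∀ l, l ≠ 5 → l ≠ i → bt t' l = bt t l) → ∀ j', ¬ IsT t' j' := by decide +kernel

/-- the five relevant bits of a pure type -/
def Gain_e (t : Fin 32) : Bool × Bool × Bool × Bool × Bool :=
  (bt t 0, bt t 1, bt t 2, bt t 3, bt t 4)

theorem Gain_bij : Function.Bijective Gain_e := by decide +kernel

theorem Gain_surj (f : Fin 6 → Bool) : ∃ t, ∀ i, i ≠ 5 → bt t i = f i := by
  obtain ⟨t, ht⟩ := Gain_bij.2 (f 0, f 1, f 2, f 3, f 4)
  simp only [Gain_e, Prod.mk.injEq] at ht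
  refine ⟨t, fun i hi => ?_⟩
  fin_cases i
  · exact ht.1
  · exact ht.2.1
  · exact ht.2.2.1
  · exact ht.2.2.2.1
  · exact ht.2.2.2.2
  · exact absurd rfl hi

theorem Gain_sum (F : Bool → Bool → Bool → Bool → Bool → ℝ) :
    ∑ t, F (bt t 0) (bt t 1) (bt t 2) (bt t 3) (bt t 4) =
      ∑ a, ∑ b, ∑ c, ∑ d, ∑ e, F a b c d e := by
  rw [Fintype.sum_bijective Gain_e Gain_bij
    (fun t => F (bt t 0) (bt t 1) (bt t 2) (bt t 3) (bt t 4))
    (fun x => F x.1 x.2.1 x.2.2.1 x.2.2.2.1 x.2.2.2.2) (fun _ => rfl)]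
  simp only [Fintype.sum_prod_type]

/-- weight of a pure type -/
def Gain_w (q : Fin 6 → Bool → ℝ) (t : Fin 32) : ℝ := ∏ i ∈ univ.erase 5, q i (bt t i)

theorem Gain_w_eq (q : Fin 6 → Bool → ℝ) (t : Fin 32) : Gain_w q t =
    q 0 (bt t 0) * q 1 (bt t 1) * q 2 (bt t 2) * q 3 (bt t 3) * q 4 (bt t 4) := by
  have h : (univ.erase 5 : Finset (Fin 6)) = {0, 1, 2, 3, 4} := by decide
  rw [Gain_w, h, prod_insert (by decide), prod_insert (by decide), prod_insert (by decide),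
    prod_insert (by decide), prod_singleton]
  ring

theorem Gain_tot (q : Fin 6 → Bool → ℝ) (h : ∀ i, i ≠ 5 → q i false = 1 - q i true) :
    ∑ t, Gain_w q t = 1 := by
  simp only [Gain_w_eq]
  rw [Gain_sum fun a b c d e => q 0 a * q 1 b * q 2 c * q 3 d * q 4 e]
  simp only [Fintype.sum_bool, h 0 (by decide), h 1 (by decide), h 2 (by decide), h 3 (by decide),
    h 4 (by decide)]
  ring

theorem Gain_marg (q : Fin 6 → Bool → ℝ) (h : ∀ i, i ≠ 5 → q i false = 1 - q i true)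
    (i : Fin 6) (hi : i ≠ 5) (s : Bool) :
    ∑ t, (if bt t i = s then Gain_w q t else 0) = q i s := by
  have h0 := h 0 (by decide)
  have h1 := h 1 (by decide)
  have h2 := h 2 (by decide)
  have h3 := h 3 (by decide)
  have h4 := h 4 (by decide)
  simp only [Gain_w_eq]
  fin_cases i
  · refine (Gain_sum fun a b c d e =>
      if a = s then q 0 a * q 1 b * q 2 c * q 3 d * q 4 e else 0).trans ?_
    show _ = q 0 s
    cases s <;> simp only [Fintype.sum_bool, h0, h1, h2, h3, h4, reduceCtorEq, if_true, if_false] <;>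
      ring
  · refine (Gain_sum fun a b c d e =>
      if b = s then q 0 a * q 1 b * q 2 c * q 3 d * q 4 e else 0).trans ?_
    show _ = q 1 s
    cases s <;> simp only [Fintype.sum_bool, h0, h1, h2, h3, h4, reduceCtorEq, if_true, if_false] <;>
      ring
  · refine (Gain_sum fun a b c d e =>
      if c = s then q 0 a * q 1 b * q 2 c * q 3 d * q 4 e else 0).trans ?_
    show _ = q 2 s
    cases s <;> simp only [Fintype.sum_bool, h0, h1, h2, h3, h4, reduceCtorEq, if_true, if_false] <;>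
      ring
  · refine (Gain_sum fun a b c d e =>
      if d = s then q 0 a * q 1 b * q 2 c * q 3 d * q 4 e else 0).trans ?_
    show _ = q 3 s
    cases s <;> simp only [Fintype.sum_bool, h0, h1, h2, h3, h4, reduceCtorEq, if_true, if_false] <;>
      ring
  · refine (Gain_sum fun a b c d e =>
      if e = s then q 0 a * q 1 b * q 2 c * q 3 d * q 4 e else 0).trans ?_
    show _ = q 4 s
    cases s <;> simp only [Fintype.sum_bool, h0, h1, h2, h3, h4, reduceCtorEq, if_true, if_false] <;>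
      ring
  · exact absurd rfl hi

theorem Gain_low (q : Fin 6 → Bool → ℝ) (t : Fin 32) (i : Fin 6) (hi : i ≠ 5) (a : ℝ)
    (ha : 0 ≤ a) (h1 : a ≤ q i (bt t i)) (h2 : ∀ l, l ≠ 5 → l ≠ i → 1 / 2 ≤ q l (bt t l)) :
    a / 16 ≤ Gain_w q t := by
  have hm : i ∈ (univ.erase 5 : Finset (Fin 6)) := mem_erase.2 ⟨hi, mem_univ _⟩
  have hc : ((univ.erase 5 : Finset (Fin 6)).erase i).card = 4 := by
    rw [card_erase_of_mem hm]
    rfl
  have h3 : ∏ _l ∈ (univ.erase 5 : Finset (Fin 6)).erase i, (1 / 2 : ℝ) ≤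
      ∏ l ∈ (univ.erase 5 : Finset (Fin 6)).erase i, q l (bt t l) :=
    prod_le_prod (fun _ _ => by norm_num) fun l hl =>
      h2 l (mem_erase.1 (mem_erase.1 hl).2).1 (mem_erase.1 hl).1
  rw [prod_const, hc] at h3
  rw [Gain_w, ← mul_prod_erase _ _ hm]
  calc a / 16 = a * (1 / 2) ^ 4 := by ring
    _ ≤ _ := mul_le_mul h1 h3 (by norm_num) (ha.trans h1)

/-- usage of the class `i s` by one clique of kind `q` -/
def Gain_c (i : Fin 6) (s : Bool) (q : Fin 18) : ℕ :=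
  if ks q = s then (if ka q = i then km q else 0) + if kb q = i then 1 else 0 else 0

theorem Gain_us (k : Fin 18 → ℕ) (i : Fin 6) (s : Bool) :
    us k i s = ∑ q, Gain_c i s q * k q := by
  refine sum_congr rfl fun q _ => ?_
  unfold Gain_c
  split_ifs <;> simp

theorem Gain_mix (c : Fin 18 → ℕ) (w : Fin 32 → ℝ) (v : ℝ) :
    ∑ q, (c q : ℝ) * (v * ∑ t, w t * tb t q) = v * ∑ t, w t * ((∑ q, c q * tb t q : ℕ) : ℝ) := by
  simp only [Nat.cast_sum, Nat.cast_mul, mul_sum]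
  rw [sum_comm]
  exact sum_congr rfl fun t _ => sum_congr rfl fun q _ => by ring

theorem Gain_round (y : Fin 18 → ℝ) (hy : ∀ q, 0 ≤ y q) (σ : ℕ) :
    ∃ k : Fin 18 → ℕ, (∀ c : Fin 18 → ℕ, ∑ q, c q * k q = 0 ∨
      ((∑ q, c q * k q : ℕ) : ℝ) + σ ≤ ∑ q, (c q : ℝ) * y q) ∧
      ∑ q, ((km q + 1 : ℕ) : ℝ) * y q - 54 * (σ + 1) ≤ gn k := by
  have hσ : (0 : ℝ) ≤ σ := Nat.cast_nonneg _
  have a1 : ∀ q, ⌊y q - σ⌋₊ ≠ 0 → (⌊y q - σ⌋₊ : ℝ) + σ ≤ y q := fun q hq => by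
    have h0 : 0 ≤ y q - σ := by
      by_contra hn
      exact hq (Nat.floor_of_nonpos (not_le.1 hn).le)
    have := Nat.floor_le h0
    linarith
  have a2 : ∀ q, (⌊y q - σ⌋₊ : ℝ) ≤ y q := fun q => by
    by_cases hq : ⌊y q - σ⌋₊ = 0
    · rw [hq, Nat.cast_zero]
      exact hy q
    · have := a1 q hq
      linarith
  refine ⟨fun q => ⌊y q - σ⌋₊, fun c => ?_, ?_⟩
  · by_cases h0 : ∑ q, c q * ⌊y q - σ⌋₊ = 0
    · exact Or.inl h0
    · right
      obtain ⟨q0, -, hq0⟩ := exists_ne_zero_of_sum_ne_zero h0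
      have hc : (1 : ℝ) ≤ c q0 := by
        exact_mod_cast Nat.one_le_iff_ne_zero.2 (left_ne_zero_of_mul hq0)
      have hk := a1 q0 (right_ne_zero_of_mul hq0)
      have e : (σ : ℝ) = ∑ q, if q = q0 then (σ : ℝ) else 0 := by simp
      rw [Nat.cast_sum, e, ← sum_add_distrib, ← e]
      refine sum_le_sum fun q _ => ?_
      rw [Nat.cast_mul]
      split_ifs with hq
      · subst hq
        nlinarith
      · rw [add_zero]
        exact mul_le_mul_of_nonneg_left (a2 q) (Nat.cast_nonneg _)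
  · have e : (54 : ℝ) * (σ + 1) = ∑ _q : Fin 18, 3 * ((σ : ℝ) + 1) := by
      rw [sum_const, card_univ, Fintype.card_fin, nsmul_eq_mul]
      push_cast
      ring
    rw [gn, Nat.cast_sum, e, ← sum_sub_distrib]
    refine sum_le_sum fun q _ => ?_
    have h3 : ((km q + 1 : ℕ) : ℝ) ≤ 3 := by
      have : km q + 1 ≤ 3 := by
        unfold km
        split_ifs <;> omega
      exact_mod_cast this
    have h0 : (0 : ℝ) ≤ ((km q + 1 : ℕ) : ℝ) := Nat.cast_nonneg _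
    have h4 := Nat.lt_floor_add_one (y q - σ)
    rw [Nat.cast_mul]
    nlinarith

theorem gain (θ u n : ℝ) (hθ : 0 < θ) (hθ1 : θ ≤ 1) (N : Fin 6 → Bool → ℕ) (σ : ℕ)
    (h1 : ∀ i, (sz i : ℝ) * u ≤ N i true + N i false)
    (h2 : ∀ i, i ≠ 5 → 4 * ((N i true : ℝ) + N i false) ≤ n)
    (h3 : ∀ j, j ≠ 5 → θ * n ≤
      ∑ i, if i ≠ 5 ∧ ¬ (j = 0 ∧ i = 0) then (N i (!tc j i) : ℝ) else 0) :
    ∃ k : Fin 18 → ℕ, (∀ i s, us k i s = 0 ∨ us k i s + σ ≤ N i s) ∧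
      (6 + 3 * θ / 64) * u - 54 * (σ + 1) ≤ gn k := by
  have hσ : (0 : ℝ) ≤ σ := Nat.cast_nonneg _
  rcases le_or_gt u 0 with hu | hu
  · refine ⟨fun _ => 0, fun i s => Or.inl (by simp [Gain_us]), ?_⟩
    have : (0 : ℝ) ≤ gn fun _ => 0 := Nat.cast_nonneg _
    nlinarith
  have hM : ∀ i, i ≠ 5 → (0 : ℝ) < N i true + N i false := fun i hi => by
    have : ∀ i : Fin 6, i ≠ 5 → 0 < sz i := by decide
    have h : (0 : ℝ) < sz i := by exact_mod_cast this i hi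
    exact (mul_pos h hu).trans_le (h1 i)
  have hn : 0 < n := by
    have := hM 0 (by decide)
    have := h2 0 (by decide)
    linarith
  obtain ⟨q, hq⟩ : ∃ q : Fin 6 → Bool → ℝ, ∀ i s, q i s = N i s / (N i true + N i false) :=
    ⟨_, fun _ _ => rfl⟩
  have q0 : ∀ i s, 0 ≤ q i s := fun i s => by
    rw [hq]
    positivity
  have q1 : ∀ i, i ≠ 5 → q i false = 1 - q i true := fun i hi => by
    have := hM i hi
    rw [hq, hq]
    field_simp
    ring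
  have w0 : ∀ t, 0 ≤ Gain_w q t := fun t => prod_nonneg fun i _ => q0 _ _
  have ex : ∃ t, (∀ j, ¬ IsT t j) ∧ θ / 32 ≤ Gain_w q t := by
    obtain ⟨t, ht⟩ := Gain_surj fun i => decide (1 / 2 ≤ q i true)
    have hh : ∀ i, i ≠ 5 → 1 / 2 ≤ q i (bt t i) := fun i hi => by
      rw [ht i hi]
      by_cases hc : 1 / 2 ≤ q i true
      · rw [decide_eq_true hc]
        exact hc
      · rw [decide_eq_false hc, q1 i hi]
        linarith [not_le.1 hc]
    by_cases hT : ∀ j, ¬ IsT t j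
    · refine ⟨t, hT, ?_⟩
      have := Gain_low q t 0 (by decide) (1 / 2) (by norm_num) (hh 0 (by decide))
        fun l hl _ => hh l hl
      linarith
    · obtain ⟨j, hj⟩ := not_forall.1 hT
      have hj : IsT t j := not_not.1 hj
      have ei : ∃ i, i ≠ 5 ∧ ¬ (j = 0 ∧ i = 0) ∧ θ / 2 ≤ q i (!tc j i) := by
        by_contra hc
        have hb : ∀ i ∈ (univ : Finset (Fin 6)),
            (if i ≠ 5 ∧ ¬ (j = 0 ∧ i = 0) then (N i (!tc j i) : ℝ) else 0) ≤ θ * n / 8 := by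
          intro i _
          split_ifs with hi
          · have h4 : q i (!tc j i) < θ / 2 := not_le.1 fun h => hc ⟨i, hi.1, hi.2, h⟩
            rw [hq, div_lt_iff₀ (hM i hi.1)] at h4
            have := h2 i hi.1
            nlinarith
          · positivity
        have h5 := sum_le_card_nsmul _ _ _ hb
        rw [card_univ, Fintype.card_fin, nsmul_eq_mul] at h5
        have h6 := h3 j hj.1
        have h7 := mul_pos hθ hn
        push_cast at h5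
        linarith
      obtain ⟨i, hi, hji, hqi⟩ := ei
      obtain ⟨t', ht'⟩ := Gain_surj fun l => if l = i then !tc j i else bt t l
      have e1 : bt t' i = !tc j i := by rw [ht' i hi, if_pos rfl]
      have e2 : ∀ l, l ≠ 5 → l ≠ i → bt t' l = bt t l := fun l hl hli => by
        rw [ht' l hl, if_neg hli]
      refine ⟨t', flip_not t t' j i hj hi hji ?_ e2, ?_⟩
      · rw [e1, hj.2 i hi hji]
        exact Bool.not_ne_self _
      · have := Gain_low q t' i hi (θ / 2) (by positivity) (by rw [e1]; exact hqi)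
          fun l hl hli => by rw [e2 l hl hli]; exact hh l hl
        linarith
  obtain ⟨k, hk1, hk2⟩ := Gain_round (fun r => u / 2 * ∑ t, Gain_w q t * tb t r)
    (fun r => mul_nonneg (by positivity) (sum_nonneg fun t _ =>
      mul_nonneg (w0 t) (Nat.cast_nonneg _))) σ
  refine ⟨k, fun i s => ?_, ?_⟩
  · rw [Gain_us]
    refine (hk1 (Gain_c i s)).imp id fun h => ?_
    rw [Gain_mix] at h
    have hb : ∑ t, Gain_w q t * ((∑ r, Gain_c i s r * tb t r : ℕ) : ℝ) ≤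
        ∑ t, 2 * (sz i : ℝ) * if bt t i = s then Gain_w q t else 0 := by
      refine sum_le_sum fun t _ => ?_
      have h4 := tb_us t i s
      rw [Gain_us] at h4
      have h5 : ((∑ r, Gain_c i s r * tb t r : ℕ) : ℝ) ≤
          ((if bt t i = s then 2 * sz i else 0 : ℕ) : ℝ) := Nat.cast_le.2 h4
      refine (mul_le_mul_of_nonneg_left h5 (w0 t)).trans (le_of_eq ?_)
      split_ifs
      · push_cast
        ring
      · simp
    rw [← mul_sum] at hb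
    have hf : u / 2 * (2 * (sz i : ℝ) * ∑ t, if bt t i = s then Gain_w q t else 0) ≤ N i s := by
      by_cases hi : i = 5
      · subst hi
        have : sz 5 = 0 := rfl
        rw [this]
        simp
      · rw [Gain_marg q q1 i hi s]
        calc u / 2 * (2 * (sz i : ℝ) * q i s) = sz i * u * q i s := by ring
          _ ≤ (N i true + N i false) * q i s := mul_le_mul_of_nonneg_right (h1 i) (q0 i s)
          _ = N i s := by
            have := hM i hi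
            rw [hq]
            field_simp
    have := (h.trans (mul_le_mul_of_nonneg_left hb (by positivity))).trans hf
    exact_mod_cast this
  · refine le_trans (sub_le_sub_right ?_ _) hk2
    rw [Gain_mix fun r => km r + 1]
    obtain ⟨t', hT, hw⟩ := ex
    have hb : ∑ t, (12 * Gain_w q t + if t = t' then 3 * Gain_w q t' else 0) ≤
        ∑ t, Gain_w q t * ((∑ r, (km r + 1) * tb t r : ℕ) : ℝ) := by
      refine sum_le_sum fun t _ => ?_
      have := w0 t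
      split_ifs with ht
      · subst ht
        have h4 : ((15 : ℕ) : ℝ) ≤ ((∑ r, (km r + 1) * tb t r : ℕ) : ℝ) :=
          Nat.cast_le.2 ((tb_gn t).2 hT)
        push_cast at h4 ⊢
        nlinarith
      · have h4 : ((12 : ℕ) : ℝ) ≤ ((∑ r, (km r + 1) * tb t r : ℕ) : ℝ) :=
          Nat.cast_le.2 (tb_gn t).1
        push_cast at h4 ⊢
        nlinarith
    rw [sum_add_distrib, ← mul_sum, Gain_tot q q1, sum_ite_eq', if_pos (mem_univ _)] at hb
    refine le_trans ?_ (mul_le_mul_of_nonneg_left hb (by positivity))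
    nlinarith

end Pool.Agent.P.MP_c18ddb_co.X
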