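import Pool.Agent.P.MP_c18ddb_co.X.QL

/-! Consequences of the exact packing: a gap for covers of small weight. -/

namespace Pool.Agent.P.MP_c18ddb_co.X

open Finset Q

theorem Gap_alg (a b c d e x : ℝ) (hb : 0 ≤ b) (hc : 0 ≤ c) (hd : 0 ≤ d) (he : 0 ≤ e)
    (hx : 0 ≤ x) {n m : ℝ} (hn : a + b + c + d + e + x = n) (hm : m = n - x) :
    3 / 14 * n ^ 2 - 3 / 2 * n + (3 / 2 * (a - 2 / 14 * m) ^ 2 + (b - 3 / 14 * m) ^ 2 +
      (c - 3 / 14 * m) ^ 2 + (d - 3 / 14 * m) ^ 2 + (e - 3 / 14 * m) ^ 2) ≤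
      3 * (a * (a - 1) / 2) + 2 * (b * (b - 1) / 2) + 2 * (c * (c - 1) / 2) +
        2 * (d * (d - 1) / 2) + 2 * (e * (e - 1) / 2) + 3 / 7 * n * x := by
  subst hm hn
  nlinarith [sq_nonneg x]

/-- exact lower bound for the dual weight, with the deviations from the ideal sizes -/
theorem Fv_dev {V : Type} [Fintype V] (π : V → Fin 6) (i : Fin 6) (hi : i ≠ 5) :
    3 / 14 * (Fintype.card V : ℝ) ^ 2 - 3 / 2 * Fintype.card V +
      ((ps π i : ℝ) - (sz i : ℝ) / 14 * ((Fintype.card V : ℝ) - ps π 5)) ^ 2 ≤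
      (Fv π : ℝ) + 3 / 7 * Fintype.card V * ps π 5 := by
  classical
  have hs : (ps π 0 : ℝ) + ps π 1 + ps π 2 + ps π 3 + ps π 4 + ps π 5 = Fintype.card V := by
    have := ps_sum π
    rw [Fin.sum_univ_six] at this
    exact_mod_cast this
  have hF : (Fv π : ℝ) = 3 * ((ps π 0 : ℝ) * (ps π 0 - 1) / 2) +
      2 * ((ps π 1 : ℝ) * (ps π 1 - 1) / 2) + 2 * ((ps π 2 : ℝ) * (ps π 2 - 1) / 2) +
      2 * ((ps π 3 : ℝ) * (ps π 3 - 1) / 2) + 2 * ((ps π 4 : ℝ) * (ps π 4 - 1) / 2) := by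
    simp [Fv, Fin.sum_univ_six, d0, Nat.cast_choose_two]
  have h := Gap_alg _ _ _ _ _ _ (Nat.cast_nonneg (ps π 1)) (Nat.cast_nonneg (ps π 2))
    (Nat.cast_nonneg (ps π 3)) (Nat.cast_nonneg (ps π 4)) (Nat.cast_nonneg (ps π 5)) hs rfl
  rw [hF]
  refine le_trans (add_le_add le_rfl ?_) h
  generalize (Fintype.card V : ℝ) - ps π 5 = m
  have h0 := sq_nonneg ((ps π 0 : ℝ) - 2 / 14 * m)
  have h1 := sq_nonneg ((ps π 1 : ℝ) - 3 / 14 * m)
  have h2 := sq_nonneg ((ps π 2 : ℝ) - 3 / 14 * m)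
  have h3 := sq_nonneg ((ps π 3 : ℝ) - 3 / 14 * m)
  have h4 := sq_nonneg ((ps π 4 : ℝ) - 3 / 14 * m)
  have k : i = 0 ∨ i = 1 ∨ i = 2 ∨ i = 3 ∨ i = 4 := by
    revert i
    decide
  rcases k with rfl | rfl | rfl | rfl | rfl
  · rw [show ((sz 0 : ℕ) : ℝ) = 2 from Nat.cast_ofNat]
    linarith
  · rw [show ((sz 1 : ℕ) : ℝ) = 3 from Nat.cast_ofNat]
    linarith
  · rw [show ((sz 2 : ℕ) : ℝ) = 3 from Nat.cast_ofNat]
    linarith
  · rw [show ((sz 3 : ℕ) : ℝ) = 3 from Nat.cast_ofNat]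
    linarith
  · rw [show ((sz 4 : ℕ) : ℝ) = 3 from Nat.cast_ofNat]
    linarith

theorem gap {ε1 κ : ℝ} {n1 : ℕ} (hκ : 0 < κ) (h : QLs ε1 κ n1) (ε : ℝ) (hε : 0 < ε) :
    ∃ δ : ℝ, 0 < δ ∧ ∃ n2 : ℕ, ∀ (V : Type) [Fintype V] [DecidableEq V] (c : V → V → Bool)
      (D : V → V → ℝ), n2 ≤ Fintype.card V → Cov c D →
      ∑ u, ∑ v, D u v ≤ (3 / 7 + δ) * (Fintype.card V : ℝ) ^ 2 → Close ε1 c → Close ε c := by
  obtain ⟨δ, hδ, d1, d2, d3⟩ : ∃ δ : ℝ, 0 < δ ∧ δ ≤ ε / 2 ∧ δ ≤ (ε / 2) ^ 2 ∧ δ ≤ κ * (ε / 2) :=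
    ⟨min (ε / 2) (min ((ε / 2) ^ 2) (κ * (ε / 2))), by positivity, min_le_left _ _,
      (min_le_right _ _).trans (min_le_left _ _), (min_le_right _ _).trans (min_le_right _ _)⟩
  refine ⟨δ, hδ, max n1 ⌈3 / δ⌉₊, fun V _ _ c D hn hD hsum hcl => ?_⟩
  obtain ⟨π, M, hM, hv⟩ := h V c ((le_max_left _ _).trans hn) hD.c_symm hcl
  have h1 := hM.dual hD
  have h2 : 3 / δ ≤ (Fintype.card V : ℝ) := Nat.ceil_le.1 ((le_max_right _ _).trans hn)
  have hn0 : (0 : ℝ) < Fintype.card V := lt_of_lt_of_le (by positivity) h2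
  rw [div_le_iff₀ hδ] at h2
  have hw : (0 : ℝ) ≤ wrN π c := Nat.cast_nonneg _
  have hx : (0 : ℝ) ≤ ps π 5 := Nat.cast_nonneg _
  have key : ∀ i, i ≠ 5 → ((ps π i : ℝ) - (sz i : ℝ) / 14 * ((Fintype.card V : ℝ) - ps π 5)) ^ 2 +
      (wrN π c : ℝ) / 2 + κ * (Fintype.card V * ps π 5) ≤ δ * (Fintype.card V : ℝ) ^ 2 := by
    intro i hi
    have h3 := Fv_dev π i hi
    have h4 := mul_le_mul_of_nonneg_right h2 hn0.le
    linarith
  refine ⟨π, ?_, fun i => ?_⟩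
  · have h3 := key 0 (by decide)
    have h4 := mul_le_mul_of_nonneg_right d1 (sq_nonneg (Fintype.card V : ℝ))
    have h5 : 0 ≤ κ * ((Fintype.card V : ℝ) * ps π 5) := by positivity
    linarith [sq_nonneg ((ps π 0 : ℝ) - (sz 0 : ℝ) / 14 * ((Fintype.card V : ℝ) - ps π 5))]
  · by_cases hi : i = 5
    · subst hi
      rw [show ((sz 5 : ℕ) : ℝ) = 0 from Nat.cast_zero]
      nlinarith
    · have h3 := key i hi
      have h5 : 0 ≤ κ * ((Fintype.card V : ℝ) * ps π 5) := by positivity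
      have h6 : (sz i : ℝ) ≤ 3 := by
        exact_mod_cast (by decide : ∀ j, sz j ≤ 3) i
      generalize (Fintype.card V : ℝ) = n at *
      generalize (ps π 5 : ℝ) = x at *
      have h7 : ((ps π i : ℝ) - (sz i : ℝ) / 14 * (n - x)) ^ 2 ≤ (ε / 2 * n) ^ 2 := by
        have := mul_le_mul_of_nonneg_right d2 (sq_nonneg n)
        rw [mul_pow]
        linarith
      have h8 := (abs_le.1 (abs_le_of_sq_le_sq h7 (by positivity))).1
      have h9 : x ≤ ε / 2 * n := by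
        have k1 := mul_le_mul_of_nonneg_right d3 (sq_nonneg n)
        have k2 : κ * n * x ≤ κ * n * (ε / 2 * n) := by
          linarith [sq_nonneg ((ps π i : ℝ) - (sz i : ℝ) / 14 * (n - x))]
        exact le_of_mul_le_mul_left k2 (by positivity)
      have h0 := mul_le_mul_of_nonneg_right h6 hx
      linarith

/-- inside a vertex set that is close to the template there is a good fractional packing -/
theorem close_frac {ε1 κ : ℝ} {n1 : ℕ} (hκ : 0 < κ) (h : QLs ε1 κ n1) {V : Type} [DecidableEq V]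
    (c : V → V → Bool) (hc : ∀ u v, c u v = c v u) (T : Finset V) (hT : n1 ≤ T.card)
    (hcl : Close ε1 fun u v : T => c u v) :
    ∃ φ, FracPack c T φ ∧ 3 / 14 * (T.card : ℝ) ^ 2 - 3 / 2 * T.card ≤ value c T φ := by
  classical
  obtain ⟨π, M, hM, hv⟩ := h T (fun u v : T => c u v) (by rwa [Fintype.card_coe])
    (fun u v => hc u v) hcl
  let e : Finset T ↪ Finset V := ⟨Finset.map (Function.Embedding.subtype _), map_injective _⟩
  have hsub : M.map e ⊆ Cl c T := fun K' hK' => by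
    obtain ⟨K, hK, rfl⟩ := mem_map.1 hK'
    have h1 := hM.1 hK
    simp only [Cl, mem_filter, mem_powerset] at h1 ⊢
    obtain ⟨-, h2, h3, s, h4⟩ := h1
    refine ⟨fun x hx => ?_, by simpa [e] using h2, by simpa [e] using h3, s,
      fun u' hu' v' hv' huv => ?_⟩
    · obtain ⟨y, -, rfl⟩ := mem_map.1 hx
      exact y.2
    · obtain ⟨u, hu, rfl⟩ := mem_map.1 hu'
      obtain ⟨v, hv, rfl⟩ := mem_map.1 hv'
      exact h4 u hu v hv fun h => huv (congrArg _ h)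
  refine ⟨fun K => if K ∈ M.map e then 1 else 0, ⟨fun K => by positivity, fun p hp => ?_⟩, ?_⟩
  · rw [sum_boole]
    refine Nat.cast_le_one.2 (card_le_one.2 fun K' hK L' hL => ?_)
    obtain ⟨x, y, hxy, rfl⟩ := card_eq_two.1 (mem_powersetCard.1 hp).2
    simp only [mem_filter] at hK hL
    obtain ⟨⟨-, a1⟩, a2⟩ := hK
    obtain ⟨⟨-, b1⟩, b2⟩ := hL
    obtain ⟨K, hK, rfl⟩ := mem_map.1 a2
    obtain ⟨L, hL, rfl⟩ := mem_map.1 b2
    obtain ⟨x', x1, rfl⟩ := mem_map.1 (a1 (mem_insert_self _ _))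
    obtain ⟨y', y1, rfl⟩ := mem_map.1 (a1 (mem_insert_of_mem (mem_singleton_self _)))
    exact congrArg _ (hM.2 K hK L hL x' y' (fun h => hxy (congrArg _ h)) x1 y1
      ((mem_map' _).1 (b1 (mem_insert_self _ _)))
      ((mem_map' _).1 (b1 (mem_insert_of_mem (mem_singleton_self _)))))
  · have h1 : value c T (fun K => if K ∈ M.map e then 1 else 0) = ∑ K ∈ M, Q.val K := by
      simp only [value, mul_ite, mul_one, mul_zero]
      rw [sum_ite_mem, inter_eq_right.2 hsub, sum_map]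
      exact sum_congr rfl fun K _ => by simp [Q.val, e]
    have h2 := Fv_dev π 0 (by decide)
    rw [Fintype.card_coe] at h2 hv
    have h3 : (0 : ℝ) ≤ wrN π fun u v : T => c u v := Nat.cast_nonneg _
    have h4 : 0 ≤ κ * ((T.card : ℝ) * ps π 5) := by positivity
    rw [h1]
    linarith [sq_nonneg ((ps π 0 : ℝ) - (sz 0 : ℝ) / 14 * ((T.card : ℝ) - ps π 5))]

end Pool.Agent.P.MP_c18ddb_co.X
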