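import Pool.Agent.P.MP_c18ddb_co.X.Defs

/-! Greedy construction of edge disjoint cliques. A task `t` has base vertices `b t` and some
positions; every position receives a vertex from its pool. -/

namespace Pool.Agent.P.MP_c18ddb_co.X

open Finset

/-- the clique built for task `t` -/
def KK {V τ P : Type} [DecidableEq V] [DecidableEq τ] (S : Finset P) (tk : P → τ)
    (b : τ → Finset V) (z : P → V) (t : τ) : Finset V :=
  b t ∪ (S.filter fun q => tk q = t).image z

theorem Greedy_mem {V τ P : Type} [DecidableEq V] [DecidableEq τ] {S : Finset P} {tk : P → τ}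
    {b : τ → Finset V} {z : P → V} {t : τ} {x : V} :
    x ∈ KK S tk b z t ↔ x ∈ b t ∨ ∃ q ∈ S, tk q = t ∧ z q = x := by
  simp only [KK, mem_union, mem_image, mem_filter, and_assoc]

theorem Greedy_mem_insert {V τ P : Type} [DecidableEq V] [DecidableEq τ] [DecidableEq P]
    {T : Finset P} {tk : P → τ} {b : τ → Finset V} {z : P → V} {p : P} (hp : p ∉ T) {y : V}
    {s : τ} {x : V} (h : x ∈ KK (insert p T) tk b (Function.update z p y) s) :
    x ∈ KK T tk b z s ∨ (tk p = s ∧ y = x) := by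
  rcases Greedy_mem.1 h with h | ⟨q, hq, h1, h2⟩
  · exact .inl (Greedy_mem.2 (.inl h))
  · rcases mem_insert.1 hq with rfl | hq
    · rw [Function.update_self] at h2
      exact .inr ⟨h1, h2⟩
    · rw [Function.update_of_ne (ne_of_mem_of_not_mem hq hp)] at h2
      exact .inl (Greedy_mem.2 (.inr ⟨q, hq, h1, h2⟩))

theorem Greedy_card {V τ P : Type} [DecidableEq V] [DecidableEq τ] (T : Finset P) (tk : P → τ)
    (b : τ → Finset V) (z : P → V) (s : τ) :
    (KK T tk b z s).card ≤ (b s).card + (T.filter fun q => tk q = s).card :=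
  (card_union_le _ _).trans (Nat.add_le_add_left card_image_le _)

/-- few vertices have a large load -/
theorem Greedy_load {V P : Type} [DecidableEq V] (T : Finset P) (z : P → V) {L : ℕ} (hL : 0 < L)
    (A : Finset V) : cnt A (fun v => L ≤ cnt T fun q => z q = v) ≤ T.card / L := by
  classical
  rw [Nat.le_div_iff_mul_le hL, cnt_eq]
  set B := A.filter fun v => L ≤ cnt T fun q => z q = v
  calc B.card * L ≤ ∑ v ∈ B, (T.filter fun q => z q = v).card := by
        rw [← smul_eq_mul]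
        refine card_nsmul_le_sum _ _ _ fun v hv => ?_
        rw [← cnt_eq]
        exact (mem_filter.1 hv).2
    _ = (B.biUnion fun v => T.filter fun q => z q = v).card := by
        refine (card_biUnion fun v _ v' _ hv => disjoint_left.2 fun q h1 h2 => hv ?_).symm
        exact (mem_filter.1 h1).2.symm.trans (mem_filter.1 h2).2
    _ ≤ T.card := card_le_card (biUnion_subset.2 fun v _ => filter_subset _ _)

theorem Greedy_exists {α β : Type} (A : Finset α) (K : Finset β) (r : β → α → Prop) (c : ℕ)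
    (h : ∀ w ∈ K, cnt A (r w) ≤ c) : cnt A (fun y => ∃ w ∈ K, r w y) ≤ K.card * c := by
  classical
  refine (cnt_le_of_subset (t := K.biUnion fun w => A.filter (r w)) ?_).trans
    (card_biUnion_le_card_mul _ _ _ fun w hw => ?_)
  · rintro a ha ⟨w, hw, h1⟩
    exact mem_biUnion.2 ⟨w, hw, mem_filter.2 ⟨ha, h1⟩⟩
  · rw [← cnt_eq]
    exact h w hw

theorem Greedy_image {V P : Type} (A : Finset V) (S : Finset P) (z : P → V) (r : P → Prop) :
    cnt A (fun y => ∃ q ∈ S, r q ∧ z q = y) ≤ cnt S r := by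
  classical
  rw [cnt_eq S]
  refine (cnt_le_of_subset (t := (S.filter r).image z) ?_).trans card_image_le
  rintro a - ⟨q, hq, h1, h2⟩
  exact mem_image.2 ⟨q, mem_filter.2 ⟨hq, h1⟩, h2⟩

theorem Greedy_or {α : Type} (A : Finset α) (r r' : α → Prop) :
    cnt A (fun y => r y ∨ r' y) ≤ cnt A r + cnt A r' :=
  cnt_le_add fun _ ha h => h.imp (fun h => ⟨ha, h⟩) fun h => ⟨ha, h⟩

theorem greedy {V τ P : Type} [DecidableEq V] [DecidableEq τ] [DecidableEq P] [Nonempty V]
    (S : Finset P) (tk : P → τ) (b : τ → Finset V) (pool : P → Finset V) (rk : P → ℕ)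
    (ok : V → V → Prop) (t L Δ : ℕ) (hL : 0 < L)
    (hsym : ∀ x y, ok x y → ok y x) (hirr : ∀ x, ¬ ok x x)
    (hsz : ∀ p ∈ S, (b (tk p)).card + (S.filter fun q => tk q = tk p).card ≤ 4)
    (hb : ∀ p ∈ S, ∀ z ∈ pool p, ∀ v ∈ b (tk p), ok v z)
    (hbb : ∀ p ∈ S, ∀ u ∈ b (tk p), ∀ v ∈ b (tk p), ¬ ok u v)
    (ht : ∀ p ∈ S, ∀ q ∈ S, tk q = tk p → q ≠ p → ∀ z ∈ pool q,
      cnt (pool p) (fun y => ¬ ok z y) ≤ t)
    (hΔ : ∀ p ∈ S, ∀ z ∈ pool p, cnt S (fun q => z ∈ b (tk q)) ≤ Δ)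
    (hc : ∀ p ∈ S, cnt S (fun q => q ≠ p ∧ rk q ≤ rk p ∧ ¬ Disjoint (b (tk q)) (b (tk p)) ∧
      ¬ Disjoint (pool q) (pool p)) + S.card / L + 3 * (t + Δ + 3 * L) < (pool p).card) :
    ∃ z : P → V, (∀ p ∈ S, z p ∈ pool p) ∧
      (∀ p ∈ S, ∀ q ∈ S, tk q = tk p → q ≠ p → ok (z p) (z q)) ∧
      (∀ v, cnt S (fun p => z p = v) ≤ L) ∧
      ∀ p ∈ S, ∀ q ∈ S, ∀ x y, ok x y → x ∈ KK S tk b z (tk p) → y ∈ KK S tk b z (tk p) →
        x ∈ KK S tk b z (tk q) → y ∈ KK S tk b z (tk q) → tk p = tk q := by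
  suffices H : ∀ T : Finset P, T ⊆ S → ∃ z : P → V, (∀ p ∈ T, z p ∈ pool p) ∧
      (∀ p ∈ T, ∀ q ∈ T, tk q = tk p → q ≠ p → ok (z p) (z q)) ∧
      (∀ v, cnt T (fun p => z p = v) ≤ L) ∧
      ∀ p ∈ S, ∀ q ∈ S, ∀ x y, ok x y → x ∈ KK T tk b z (tk p) → y ∈ KK T tk b z (tk p) →
        x ∈ KK T tk b z (tk q) → y ∈ KK T tk b z (tk q) → tk p = tk q from H S Subset.rfl
  intro T
  induction T using Finset.induction_on_max_value rk with
  | empty =>
    refine fun _ => ⟨fun _ => Classical.arbitrary V, by simp, by simp,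
      fun v => (cnt_le_card _ _).trans (by simp), fun p hp q _ x y hxy hx hy _ _ => ?_⟩
    simp only [KK, filter_empty, image_empty, union_empty] at hx hy
    exact absurd hxy (hbb p hp x hx y hy)
  | insert p T hpT hrk ih =>
  intro hT
  have hp : p ∈ S := hT (mem_insert_self _ _)
  have hTS : T ⊆ S := (subset_insert _ _).trans hT
  obtain ⟨z, h1, h2, h3, h4⟩ := ih hTS
  have hne : ∀ q ∈ T, q ≠ p := fun q hq => ne_of_mem_of_not_mem hq hpT
  have k4 : ∀ q ∈ S, (KK T tk b z (tk q)).card ≤ 4 := fun q hq =>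
    (Greedy_card T tk b z _).trans ((Nat.add_le_add_left
      (card_le_card (filter_subset_filter _ hTS)) _).trans (hsz q hq))
  have k3 : (KK T tk b z (tk p)).card ≤ 3 := by
    have a1 := Greedy_card T tk b z (tk p)
    have a2 := hsz p hp
    have a3 : (T.filter fun q => tk q = tk p).card < (S.filter fun q => tk q = tk p).card :=
      card_lt_card ((ssubset_iff_of_subset (filter_subset_filter _ hTS)).2
        ⟨p, mem_filter.2 ⟨hp, rfl⟩, fun h => hpT (mem_filter.1 h).1⟩)
    omega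
  let r : V → V → Prop := fun w y => (¬ ok w y ∨
    (w ∉ b (tk p) ∧ ∃ q ∈ S, w ∈ b (tk q) ∧ z q = y)) ∨
    ∃ q ∈ T.filter fun q => z q = w, y ∈ (KK T tk b z (tk q)).erase w
  have hr : ∀ w ∈ KK T tk b z (tk p), cnt (pool p) (r w) ≤ t + Δ + 3 * L := by
    intro w hw
    refine (Greedy_or _ _ _).trans (Nat.add_le_add ((Greedy_or _ _ _).trans ?_) ?_)
    · rcases Greedy_mem.1 hw with hw | ⟨q, hq, a1, rfl⟩
      · refine Nat.add_le_add ?_ ?_
        · exact (cnt_le_of_subset (t := ∅) fun y hy h => absurd (hb p hp y hy w hw) h).trans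
            (by simp)
        · exact (cnt_le_of_subset (t := ∅) fun y _ h => absurd hw h.1).trans (by simp)
      · refine Nat.add_le_add (ht p hp q (hTS hq) a1 (hne q hq) _ (h1 q hq)) ?_
        exact (cnt_mono fun y hy h => ⟨hy, h.2⟩).trans
          ((Greedy_image _ S z _).trans (hΔ q (hTS hq) _ (h1 q hq)))
    · refine (Greedy_exists _ _ _ 3 fun q hq => ?_).trans ?_
      · obtain ⟨a1, a2⟩ := mem_filter.1 hq
        refine (cnt_le_of_subset fun y _ h => h).trans ?_
        have a3 := k4 q (hTS a1)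
        rw [card_erase_of_mem (Greedy_mem.2 (.inr ⟨q, a1, rfl, a2⟩))]
        omega
      · rw [mul_comm, ← cnt_eq]
        exact Nat.mul_le_mul_left _ (h3 w)
  let c : P → Prop := fun q => q ≠ p ∧ rk q ≤ rk p ∧ ¬ Disjoint (b (tk q)) (b (tk p)) ∧
    ¬ Disjoint (pool q) (pool p)
  have hlt : cnt (pool p) (fun y => ((∃ q ∈ S, c q ∧ z q = y) ∨ L ≤ cnt T fun q => z q = y) ∨
      ∃ w ∈ KK T tk b z (tk p), r w y) < (pool p).card := by
    refine lt_of_le_of_lt ?_ (hc p hp)
    refine (Greedy_or _ _ _).trans (Nat.add_le_add ((Greedy_or _ _ _).trans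
      (Nat.add_le_add (Greedy_image _ S z c) ?_)) ?_)
    · exact (Greedy_load T z hL _).trans (Nat.div_le_div_right (card_le_card hTS))
    · exact (Greedy_exists _ _ r _ hr).trans (Nat.mul_le_mul_right _ k3)
  obtain ⟨y, hy, hn⟩ := exists_of_cnt_lt hlt
  obtain ⟨hn, n3⟩ := not_or.1 hn
  obtain ⟨n1, n2⟩ := not_or.1 hn
  have hz : ∀ q ∈ T, Function.update z p y q = z q := fun q hq =>
    Function.update_of_ne (hne q hq) _ _
  have hok : ∀ w ∈ KK T tk b z (tk p), ok w y := fun w hw => by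
    by_contra h
    exact n3 ⟨w, hw, .inl (.inl h)⟩
  have key : ∀ q ∈ S, ∀ w, ok w y → w ∈ KK T tk b z (tk p) → w ∈ KK T tk b z (tk q) →
      y ∉ KK T tk b z (tk q) := by
    intro q hq w hwy a1 a2 a3
    have hyw : y ≠ w := fun e => hirr w (e ▸ hwy)
    rcases Greedy_mem.1 a2 with a2 | ⟨q', b1, b2, b3⟩
    · rcases Greedy_mem.1 a3 with a3 | ⟨q', b1, b2, b3⟩
      · exact hbb q hq w a2 y a3 hwy
      · by_cases hw : w ∈ b (tk p)
        · exact n1 ⟨q', hTS b1, ⟨hne q' b1, hrk q' b1,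
            not_disjoint_iff.2 ⟨w, b2 ▸ a2, hw⟩,
            not_disjoint_iff.2 ⟨y, b3 ▸ h1 q' b1, hy⟩⟩, b3⟩
        · exact n3 ⟨w, a1, .inl (.inr ⟨hw, q', hTS b1, b2 ▸ a2, b3⟩)⟩
    · exact n3 ⟨w, a1, .inr ⟨q', mem_filter.2 ⟨b1, b3⟩, mem_erase.2 ⟨hyw, b2 ▸ a3⟩⟩⟩
  have key2 : ∀ q ∈ S, tk p ≠ tk q → ∀ x x', ok x x' →
      x ∈ KK (insert p T) tk b (Function.update z p y) (tk p) →
      x' ∈ KK (insert p T) tk b (Function.update z p y) (tk p) →
      x ∈ KK (insert p T) tk b (Function.update z p y) (tk q) →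
      x' ∈ KK (insert p T) tk b (Function.update z p y) (tk q) → False := by
    intro q hq hpq x x' hxx a1 a2 a3 a4
    have a5 := (Greedy_mem_insert hpT a3).resolve_right fun h => hpq h.1
    have a6 := (Greedy_mem_insert hpT a4).resolve_right fun h => hpq h.1
    rcases Greedy_mem_insert hpT a1 with a1 | ⟨-, rfl⟩ <;>
      rcases Greedy_mem_insert hpT a2 with a2 | ⟨-, rfl⟩
    · exact hpq (h4 p hp q hq x x' hxx a1 a2 a5 a6)
    · exact key q hq x hxx a1 a5 a6
    · exact key q hq x' (hsym _ _ hxx) a2 a6 a5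
    · exact hirr _ hxx
  refine ⟨Function.update z p y, fun q hq => ?_, fun q hq q' hq' a1 a2 => ?_, fun v => ?_,
    fun q hq q' hq' x x' hxx a1 a2 a3 a4 => ?_⟩
  · rcases mem_insert.1 hq with rfl | hq
    · rwa [Function.update_self]
    · rw [hz q hq]
      exact h1 q hq
  · rcases mem_insert.1 hq with e | f <;> rcases mem_insert.1 hq' with e' | f'
    · exact absurd (e'.trans e.symm) a2
    · rw [e, Function.update_self, hz q' f']
      exact hsym _ _ (hok _ (Greedy_mem.2 (.inr ⟨q', f', e ▸ a1, rfl⟩)))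
    · rw [e', Function.update_self, hz q f]
      exact hok _ (Greedy_mem.2 (.inr ⟨q, f, e' ▸ a1.symm, rfl⟩))
    · rw [hz q f, hz q' f']
      exact h2 q f q' f' a1 a2
  · by_cases hv : y = v
    · subst hv
      have a1 : cnt (insert p T) (fun q => Function.update z p y q = y) ≤
          cnt T (fun q => z q = y) + cnt {p} fun _ => True := by
        refine cnt_le_add fun q hq h => ?_
        rcases mem_insert.1 hq with rfl | hq
        · exact .inr ⟨mem_singleton_self _, trivial⟩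
        · exact .inl ⟨hq, (hz q hq).symm.trans h⟩
      have a2 := cnt_le_card ({p} : Finset P) fun _ => True
      rw [card_singleton] at a2
      omega
    · refine (cnt_mono fun q hq h => ?_).trans (h3 v)
      rcases mem_insert.1 hq with rfl | hq
      · rw [Function.update_self] at h
        exact absurd h hv
      · exact ⟨hq, (hz q hq).symm.trans h⟩
  · by_contra hqq
    by_cases e1 : tk p = tk q
    · exact key2 q' hq' (e1 ▸ hqq) x x' hxx (e1 ▸ a1) (e1 ▸ a2) a3 a4
    by_cases e2 : tk p = tk q'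
    · exact key2 q hq e1 x x' hxx (e2 ▸ a3) (e2 ▸ a4) a1 a2
    exact hqq (h4 q hq q' hq' x x' hxx
      ((Greedy_mem_insert hpT a1).resolve_right fun h => e1 h.1)
      ((Greedy_mem_insert hpT a2).resolve_right fun h => e1 h.1)
      ((Greedy_mem_insert hpT a3).resolve_right fun h => e2 h.1)
      ((Greedy_mem_insert hpT a4).resolve_right fun h => e2 h.1))

end Pool.Agent.P.MP_c18ddb_co.X
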