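import Pool.Agent.P.MP_c18ddb_co.X.Acc
import Pool.Agent.P.MP_c18ddb_co.Q.Sum

/-! Averaging over small vertex sets. -/

namespace Pool.Agent.P.MP_c18ddb_co.X

open Finset Q

/-- the averaging lemma with a bound that depends on the subset -/
theorem avg_pack' {V : Type} [DecidableEq V] (S : Finset V) (c : V → V → Bool) (m : ℕ)
    (hm : 3 ≤ m) (hmS : m ≤ S.card) (L : ℝ) (f : Finset V → ℝ)
    (h : ∀ T ∈ S.powersetCard m, ∃ φ, FracPack c T φ ∧ f T ≤ value c T φ)
    (hL : L * (S.card.choose m : ℝ) ≤ ∑ T ∈ S.powersetCard m, f T) :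
    ∃ φ, FracPack c S φ ∧
      L * ((S.card : ℝ) * (S.card - 1) / (m * (m - 1))) ≤ value c S φ ∧
      ∀ e ∈ S.powersetCard 2, ∀ e' ∈ S.powersetCard 2, e ≠ e' →
        ∑ K ∈ (Cl c S).filter (fun K => e ⊆ K ∧ e' ⊆ K), φ K ≤ ((m : ℝ) - 2) / (S.card - 2) := by
  choose! φ h1 h2 using h
  obtain ⟨j, rfl⟩ := Nat.exists_eq_add_of_le' hm
  obtain ⟨k, hk⟩ := Nat.exists_eq_add_of_le' (hm.trans hmS)
  have hN : (0 : ℝ) < ((k + 1).choose (j + 1) : ℝ) := by
    exact_mod_cast Nat.choose_pos (by omega)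
  have c1 : ((k : ℝ) + 1) * k.choose j = (k + 1).choose (j + 1) * (j + 1) := by
    exact_mod_cast Nat.add_one_mul_choose_eq k j
  have c2 : ((k : ℝ) + 2) * (k + 1).choose (j + 1) = (k + 2).choose (j + 2) * (j + 2) := by
    exact_mod_cast Nat.add_one_mul_choose_eq (k + 1) (j + 1)
  have c3 : ((k : ℝ) + 3) * (k + 2).choose (j + 2) = (k + 3).choose (j + 3) * (j + 3) := by
    exact_mod_cast Nat.add_one_mul_choose_eq (k + 2) (j + 2)
  refine ⟨fun K => (∑ T ∈ (S.powersetCard (j + 3)).filter (fun T => K ∈ Cl c T), φ T K) /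
    ((k + 1).choose (j + 1) : ℝ), ⟨fun K => ?_, fun e he => ?_⟩, ?_, fun e he e' he' hne => ?_⟩
  · exact div_nonneg (sum_nonneg fun T hT => (h1 T (mem_filter.1 hT).1).1 K) hN.le
  · rw [← sum_div, avg_swap, div_le_one hN]
    obtain ⟨k1, k2⟩ := mem_powersetCard.1 he
    have := avg_count h1 k2 (Subset.refl e) k1 (by omega) (fun K => e ⊆ K) fun K hK => hK
    rwa [k2, hk] at this
  · have e1 := avg_swap c S (j + 3) (fun _ => True) fun T K => Q.val K * φ T K
    simp only [filter_true] at e1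
    simp only [value, ← mul_div_assoc, mul_sum]
    rw [← sum_div, e1, le_div_iff₀ hN]
    refine le_trans (le_of_eq ?_) (hL.trans (sum_le_sum h2))
    rw [hk]
    push_cast
    have p2 : (j : ℝ) + 3 - 1 ≠ 0 := by
      have : (0 : ℝ) ≤ j := by positivity
      linarith
    field_simp
    linear_combination L * ((k + 3) * c2 + (j + 2) * c3)
  · rw [← sum_div, avg_swap, div_le_iff₀ hN]
    obtain ⟨k1, k2⟩ := mem_powersetCard.1 he
    obtain ⟨k3, k4⟩ := mem_powersetCard.1 he'
    obtain ⟨a, ha, ha'⟩ : ∃ a ∈ e', a ∉ e := by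
      by_contra hn
      push Not at hn
      exact hne (eq_of_subset_of_card_le hn (by omega)).symm
    have k5 : (insert a e).card = 3 := by rw [card_insert_of_notMem ha', k2]
    have := avg_count h1 k2 (subset_insert a e) (insert_subset (k3 ha) k1) (by omega)
      (fun K => e ⊆ K ∧ e' ⊆ K) fun K hK => insert_subset (hK.2 ha) hK.1
    rw [k5, hk] at this
    refine this.trans (le_of_eq ?_)
    rw [hk, Nat.add_sub_cancel, Nat.add_sub_cancel]
    push_cast
    have p2 : (k : ℝ) + 3 - 2 ≠ 0 := by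
      have : (0 : ℝ) ≤ k := by positivity
      linarith
    field_simp
    linear_combination c1

theorem half (δ : ℝ) (hδ : 0 < δ) : ∃ m0 : ℕ, ∀ m, m0 ≤ m → ∃ n0 : ℕ, ∀ n, n0 ≤ n →
    ∀ (G : SimpleGraph (Fin n)) (p : Finset (Fin n) → Prop),
      (∀ T ∈ (univ : Finset (Fin n)).powersetCard m, ∃ φ, FracPack (col G) T φ ∧
        3 / 14 * (m : ℝ) ^ 2 - 3 / 2 * m ≤ value (col G) T φ) →
      (∀ T ∈ (univ : Finset (Fin n)).powersetCard m, p T ∨ ∃ φ, FracPack (col G) T φ ∧
        (3 / 14 + δ) * (m : ℝ) ^ 2 ≤ value (col G) T φ) →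
      n.choose m ≤ 2 * cnt ((univ : Finset (Fin n)).powersetCard m) p ∨
        (cp G : ℝ) + cp Gᶜ ≤ (2 / 7 - δ / 4) * (n : ℝ) ^ 2 := by
  obtain ⟨γ, hγ, hr⟩ := sum_round (δ / 100) (by positivity)
  obtain ⟨m1, hm1⟩ := exists_nat_ge (9 / 2 / δ)
  refine ⟨max 3 m1, fun m hm => ?_⟩
  have hm3' : 3 ≤ m := (le_max_left _ _).trans hm
  have hm3 : (3 : ℝ) ≤ m := by exact_mod_cast hm3'
  have hm8 : 9 / 2 ≤ δ * m := by
    have h1 : (m1 : ℝ) ≤ m := by exact_mod_cast (le_max_right _ _).trans hm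
    have := hm1.trans h1
    rwa [div_le_iff₀' hδ] at this
  obtain ⟨N, hN⟩ := exists_nat_ge (((m : ℝ) - 2) / γ + 2)
  refine ⟨max (max m N) 8, fun n hn G p ha hb => ?_⟩
  have hmn' : m ≤ n := (le_max_left _ _).trans ((le_max_left _ _).trans hn)
  have hmn : (m : ℝ) ≤ n := by exact_mod_cast hmn'
  have hNn : (N : ℝ) ≤ n := by exact_mod_cast (le_max_right _ _).trans ((le_max_left _ _).trans hn)
  have hn8 : (8 : ℝ) ≤ n := by exact_mod_cast (le_max_right _ _).trans hn
  refine or_iff_not_imp_left.2 fun hlt => ?_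
  classical
  set a : ℝ := 3 / 14 * (m : ℝ) ^ 2 - 3 / 2 * m with ha'
  set b : ℝ := (3 / 14 + δ) * (m : ℝ) ^ 2 with hb'
  have hab : a ≤ b := by
    have : 0 ≤ δ * (m : ℝ) ^ 2 := by positivity
    rw [ha', hb']; linarith
  have hc := cnt_add_not ((univ : Finset (Fin n)).powersetCard m) p
  rw [card_powersetCard, card_univ, Fintype.card_fin] at hc
  obtain ⟨φ, hφ, hv, hco⟩ := avg_pack' (univ : Finset (Fin n)) (col G) m hm3'
    (by rwa [card_univ, Fintype.card_fin]) ((a + b) / 2) (fun T => if p T then a else b)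
    (fun T hT => by
      by_cases h : p T
      · simpa only [if_pos h] using ha T hT
      · simpa only [if_neg h] using (hb T hT).resolve_left h)
    (by
      rw [sum_ite, sum_const, sum_const, ← cnt_eq, ← cnt_eq, card_univ, Fintype.card_fin, ← hc,
        nsmul_eq_mul, nsmul_eq_mul]
      have h1 : cnt ((univ : Finset (Fin n)).powersetCard m) p ≤
        cnt ((univ : Finset (Fin n)).powersetCard m) fun T => ¬ p T := by omega
      have h2 : (cnt ((univ : Finset (Fin n)).powersetCard m) p : ℝ) ≤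
        cnt ((univ : Finset (Fin n)).powersetCard m) fun T => ¬ p T := by exact_mod_cast h1
      push_cast
      nlinarith [mul_nonneg (sub_nonneg.2 h2) (sub_nonneg.2 hab)])
  rw [card_univ, Fintype.card_fin] at hv hco
  have hg : ((m : ℝ) - 2) / (n - 2) ≤ γ := by
    have h1 : ((m : ℝ) - 2) / γ ≤ n - 2 := by linarith
    rw [div_le_iff₀' hγ] at h1
    rw [div_le_iff₀ (by linarith)]
    exact h1
  have h1 := hr n G φ hφ fun e he e' he' hne => (hco e he e' he' hne).trans hg
  have hmm : 0 < (m : ℝ) * (m - 1) := mul_pos (by linarith) (by linarith)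
  have hnn : 0 ≤ (n : ℝ) * (n - 1) := mul_nonneg (by linarith) (by linarith)
  have h2 : (3 / 14 + δ / 3) * ((m : ℝ) * (m - 1)) ≤ (a + b) / 2 := by
    have h3 := mul_le_mul_of_nonneg_left hm8 (show (0 : ℝ) ≤ m by linarith)
    have h4 : 0 ≤ δ * m := by positivity
    rw [ha', hb']
    nlinarith
  have h3 := mul_le_mul_of_nonneg_right h2 (div_nonneg hnn hmm.le)
  rw [mul_assoc, mul_div_cancel₀ _ hmm.ne'] at h3
  have h4 : δ * n * 8 ≤ δ * n * n := mul_le_mul_of_nonneg_left hn8 (by positivity)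
  have h5 : 0 ≤ δ * n := by positivity
  nlinarith

theorem Half_desc {n m : ℕ} (h : 2 * m ^ 2 + 1 ≤ n) : n ^ m ≤ 2 * n.descFactorial m := by
  have hm : m ≤ n := by nlinarith
  have h0 : (0 : ℝ) < n := by exact_mod_cast (by omega : 0 < n)
  have h1 : (n - m) ^ m ≤ n.descFactorial m :=
    (Nat.pow_le_pow_left (by omega) m).trans (Nat.pow_sub_le_descFactorial n m)
  have h2 : ((n : ℝ) - m) ^ m ≤ n.descFactorial m := by exact_mod_cast h1
  have hm' : (m : ℝ) / n ≤ 1 := (div_le_one h0).2 (by exact_mod_cast hm)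
  have h3 := one_add_mul_le_pow (a := -((m : ℝ) / n)) (by linarith) m
  have h4 : ((n : ℝ) - m) ^ m = (n : ℝ) ^ m * (1 + -((m : ℝ) / n)) ^ m := by
    rw [← mul_pow]; congr 1; field_simp; ring
  have h5 : (m : ℝ) * ((m : ℝ) / n) ≤ 1 / 2 := by
    have h6 : 2 * (m : ℝ) ^ 2 + 1 ≤ n := by exact_mod_cast h
    rw [← mul_div_assoc, div_le_iff₀ h0]
    nlinarith
  have h6 : (n : ℝ) ^ m * (1 / 2) ≤ (n : ℝ) ^ m * (1 + -((m : ℝ) / n)) ^ m :=
    mul_le_mul_of_nonneg_left (by linarith) (by positivity)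
  have h7 : (n : ℝ) ^ m ≤ 2 * n.descFactorial m := by linarith
  exact_mod_cast h7

/-- from subsets to maps -/
theorem sets_maps (m : ℕ) : ∃ n0 : ℕ, ∀ (V : Type) [Fintype V] [DecidableEq V]
    (c : V → V → Bool) (ε : ℝ), n0 ≤ Fintype.card V →
      (Fintype.card V).choose m ≤ 2 * cnt ((univ : Finset V).powersetCard m)
        (fun T => Close ε fun u v : T => c u v) →
      Fintype.card V ^ m ≤ 4 * cnt (univ : Finset (Fin m → V))
        (fun g => Close ε fun i j => c (g i) (g j)) := by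
  refine ⟨2 * m ^ 2 + 1, fun V _ _ c ε hn h => ?_⟩
  classical
  have hV : Nonempty V := Fintype.card_pos_iff.1 (by omega)
  have key : ∀ T : Finset V, T.card = m → ∃ g : Fin m → V, Function.Injective g ∧
      (∀ v, v ∈ T ↔ ∃ i, g i = v) ∧ ((Close ε fun u v : T => c u v) →
        ∀ σ : Equiv.Perm (Fin m), Close ε fun i j => c (g (σ i)) (g (σ j))) := by
    intro T hT
    refine ⟨fun i => (T.equivFinOfCardEq hT).symm i,
      Subtype.val_injective.comp (Equiv.injective _), fun v => ⟨fun hv => ?_, ?_⟩,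
      fun hc σ => hc.equiv (σ.trans (T.equivFinOfCardEq hT).symm)⟩
    · exact ⟨T.equivFinOfCardEq hT ⟨v, hv⟩, by simp⟩
    · rintro ⟨i, rfl⟩
      exact Subtype.property _
  choose! g g1 g2 g3 using key
  have h1 : (((univ : Finset V).powersetCard m).filter
        (fun T : Finset V => Close ε fun u v : T => c u v) ×ˢ
        (univ : Finset (Equiv.Perm (Fin m)))).card ≤
      ((univ : Finset (Fin m → V)).filter fun g => Close ε fun i j => c (g i) (g j)).card := by
    refine card_le_card_of_injOn (fun x i => g x.1 (x.2 i)) (fun x hx => ?_) fun x hx y hy e => ?_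
    · obtain ⟨k1, k2⟩ := mem_filter.1 (mem_product.1 hx).1
      exact mem_filter.2 ⟨mem_univ _, g3 _ (mem_powersetCard.1 k1).2 k2 x.2⟩
    · have kx := (mem_powersetCard.1 (mem_filter.1 (mem_product.1 hx).1).1).2
      have ky := (mem_powersetCard.1 (mem_filter.1 (mem_product.1 hy).1).1).2
      have e' : ∀ i, g x.1 (x.2 i) = g y.1 (y.2 i) := fun i => congrFun e i
      have e1 : x.1 = y.1 := by
        refine eq_of_subset_of_card_le (fun v hv => ?_) (by omega)
        obtain ⟨i, rfl⟩ := (g2 _ kx v).1 hv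
        refine (g2 _ ky _).2 ⟨y.2 (x.2.symm i), ?_⟩
        rw [← e', Equiv.apply_symm_apply]
      refine Prod.ext e1 (Equiv.ext fun i => g1 _ ky ?_)
      rw [← e', e1]
  rw [card_product, card_univ, Fintype.card_perm, Fintype.card_fin, ← cnt_eq, ← cnt_eq] at h1
  have h2 := Half_desc hn
  rw [Nat.descFactorial_eq_factorial_mul_choose] at h2
  have h3 := Nat.mul_le_mul_left m.factorial h
  nlinarith

end Pool.Agent.P.MP_c18ddb_co.X
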