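import Pool.Agent.P.MP_c18ddb_co.X.Defs

/-! The eighteen kinds of cliques through an exceptional vertex, and the cleaned partitions. -/

namespace Pool.Agent.P.MP_c18ddb_co.X

open Finset

/-- first part of a kind -/
def ka (q : Fin 18) : Fin 6 := ![0, 0, 0, 0, 1, 1, 1, 2, 2, 3, 1, 1, 4, 4, 2, 2, 3, 3] q

/-- second part of a kind -/
def kb (q : Fin 18) : Fin 6 := ![1, 2, 3, 4, 2, 3, 4, 3, 4, 4, 0, 2, 0, 3, 0, 4, 0, 1] q

/-- number of vertices taken from the first part -/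
def km (q : Fin 18) : ℕ := if q.val < 10 then 1 else 2

/-- colour of a kind -/
def ks (q : Fin 18) : Bool := tc (ka q) (kb q)

/-- number of vertices of part `i` and colour `s` used by the cliques counted by `k` -/
def us (k : Fin 18 → ℕ) (i : Fin 6) (s : Bool) : ℕ :=
  ∑ q, if ks q = s then ((if ka q = i then km q else 0) + if kb q = i then 1 else 0) * k q else 0

/-- total gain -/
def gn (k : Fin 18 → ℕ) : ℕ := ∑ q, (km q + 1) * k q

theorem kind_ne : ∀ q, ka q ≠ kb q ∧ ka q ≠ 5 ∧ kb q ≠ 5 := by decide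

theorem kind_two : ∀ q, km q = 2 → ka q ≠ 0 ∧ tc (ka q) (ka q) = ks q ∧ d0 (ka q) (ka q) = 2 := by
  decide

/-- a cleaned partition with core `U` -/
structure Cln {V : Type} [Fintype V] [DecidableEq V] (θ α : ℝ) (c : V → V → Bool)
    (π : V → Fin 6) (U : Finset V) : Prop where
  ne5 : ∀ u ∈ U, π u ≠ 5
  out : ((univ \ U).card : ℝ) ≤ 6 * α * Fintype.card V
  wU : ∀ u ∈ U, (cnt U (Wr π c u) : ℝ) ≤ α * Fintype.card V
  wV : ∀ v, (cnt univ (Wr π c v) : ℝ) ≤ (θ + 7 * α) * Fintype.card V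
  far : ∀ x, π x = 5 → ∀ j, j ≠ 5 →
    θ * Fintype.card V ≤ cnt U fun u => ¬ (j = 0 ∧ π u = 0) ∧ c x u ≠ tc j (π u)
  lo : ∀ i, ((sz i : ℝ) / 14 - 7 * α) * Fintype.card V ≤ cnt U fun u => π u = i
  hi : ∀ i, (ps π i : ℝ) ≤ ((sz i : ℝ) / 14 + 35 * α) * Fintype.card V

end Pool.Agent.P.MP_c18ddb_co.X
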