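import Pool.Agent.P.MP_c18ddb_co.X.Acc

/-! Four roots determine the partition. -/

namespace Pool.Agent.P.MP_c18ddb_co.X

open Finset

/-- the part with a given colour pattern towards the parts `1, 2, 3, 4` -/
def pat (a b d e : Bool) : Fin 6 :=
  if a = tc 1 0 ∧ b = tc 2 0 ∧ d = tc 3 0 ∧ e = tc 4 0 then 0
  else if a = tc 1 1 ∧ b = tc 2 1 ∧ d = tc 3 1 ∧ e = tc 4 1 then 1
  else if a = tc 1 2 ∧ b = tc 2 2 ∧ d = tc 3 2 ∧ e = tc 4 2 then 2
  else if a = tc 1 3 ∧ b = tc 2 3 ∧ d = tc 3 3 ∧ e = tc 4 3 then 3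
  else if a = tc 1 4 ∧ b = tc 2 4 ∧ d = tc 3 4 ∧ e = tc 4 4 then 4 else 5

theorem pat_tc : ∀ i, i ≠ 5 → pat (tc 1 i) (tc 2 i) (tc 3 i) (tc 4 i) = i := by decide

/-- the partition defined by four roots -/
def rt {V : Type} (c : V → V → Bool) (r : Fin 4 → V) (v : V) : Fin 6 :=
  pat (c (r 0) v) (c (r 1) v) (c (r 2) v) (c (r 3) v)

theorem Roots_bad {V : Type} [Fintype V] [DecidableEq V] (α β : ℝ) (hα : 0 < α)
    (π : V → Fin 6) (c : V → V → Bool) (h0 : 0 < Fintype.card V)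
    (h : (wrN π c : ℝ) ≤ α * β * (Fintype.card V : ℝ) ^ 2) :
    (cnt univ (fun v => α * Fintype.card V < (cnt univ (Wr π c v) : ℝ)) : ℝ) ≤
      β * Fintype.card V := by
  classical
  have hn : (0 : ℝ) < Fintype.card V := by exact_mod_cast h0
  rw [cnt_eq]
  set B := univ.filter (fun v => α * Fintype.card V < (cnt univ (Wr π c v) : ℝ)) with hB
  have h1 : (B.card : ℝ) * (α * Fintype.card V) ≤ ∑ v ∈ B, (cnt univ (Wr π c v) : ℝ) := by
    have := card_nsmul_le_sum B (fun v => (cnt univ (Wr π c v) : ℝ)) (α * Fintype.card V)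
      (fun v hv => (mem_filter.1 hv).2.le)
    simpa [nsmul_eq_mul] using this
  have h2 : ∑ v ∈ B, (cnt univ (Wr π c v) : ℝ) ≤ ∑ v, (cnt univ (Wr π c v) : ℝ) :=
    sum_le_sum_of_subset_of_nonneg (subset_univ _) fun _ _ _ => Nat.cast_nonneg _
  have h3 : (wrN π c : ℝ) = ∑ v, (cnt univ (Wr π c v) : ℝ) := by
    rw [wrN_eq]
    push_cast
    rfl
  have h4 : (B.card : ℝ) * (α * Fintype.card V) ≤
      (β * Fintype.card V) * (α * Fintype.card V) := by
    nlinarith
  exact le_of_mul_le_mul_right h4 (mul_pos hα hn)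

theorem Roots_five {V : Type} [Fintype V] [DecidableEq V] (η : ℝ) (π : V → Fin 6)
    (h : ∀ i, ((sz i : ℝ) / 14 - η) * Fintype.card V ≤ ps π i) :
    (ps π 5 : ℝ) ≤ 5 * η * Fintype.card V := by
  have h1 : ∑ k, (ps π k : ℝ) = Fintype.card V := by
    rw [← ps_sum π]
    push_cast
    rfl
  have h0 := h 0
  have h1' := h 1
  have h2 := h 2
  have h3 := h 3
  have h4 := h 4
  rw [Fin.sum_univ_six] at h1
  have e0 : (sz 0 : ℝ) = 2 := by simp [sz]
  have e1 : (sz 1 : ℝ) = 3 := by simp [sz]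
  have e2 : (sz 2 : ℝ) = 3 := by simp [sz]
  have e3 : (sz 3 : ℝ) = 3 := by simp [sz]
  have e4 : (sz 4 : ℝ) = 3 := by simp [sz]
  rw [e0] at h0
  rw [e1] at h1'
  rw [e2] at h2
  rw [e3] at h3
  rw [e4] at h4
  linarith

/-- the part of the `k`-th root -/
def Roots_pt (k : Fin 4) : Fin 6 := ![1, 2, 3, 4] k

theorem Roots_pt_spec : ∀ k, sz (Roots_pt k) = 3 ∧ Roots_pt k ≠ 5 ∧ Roots_pt k ≠ 0 := by decide

theorem Roots_pt_inj : ∀ k l, Roots_pt k = Roots_pt l → k = l := by decide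

theorem Roots_gd {W : Type} [Fintype W] [DecidableEq W] (ε : ℝ) (hε : 0 < ε)
    (c : W → W → Bool) (π : W → Fin 6) (hm : 1 ≤ ε * Fintype.card W) (h : Gd ε π c)
    (r : Fin 4 → W) (hr : ∀ k, π (r k) = Roots_pt k)
    (hw : ∀ k, (cnt univ (Wr π c (r k)) : ℝ) ≤ 10 * ε * Fintype.card W) :
    Gd (100 * ε) (rt c r) c := by
  classical
  set B : Finset W := (univ.filter fun v => π v = 5) ∪
    ((univ.biUnion fun k : Fin 4 => univ.filter (Wr π c (r k))) ∪ univ.image r) with hB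
  have hc1 : B.card ≤ ps π 5 + (∑ k : Fin 4, cnt univ (Wr π c (r k)) + 4) := by
    refine le_trans (card_union_le _ _) (Nat.add_le_add le_rfl ?_)
    refine le_trans (card_union_le _ _) (Nat.add_le_add ?_ ?_)
    · refine le_trans card_biUnion_le (le_of_eq ?_)
      exact sum_congr rfl fun k _ => (cnt_eq _ _).symm
    · exact le_trans card_image_le (by simp)
  have hc2 : (B.card : ℝ) ≤ ps π 5 + (∑ k : Fin 4, (cnt univ (Wr π c (r k)) : ℝ) + 4) := by
    exact_mod_cast hc1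
  have h5 := Roots_five ε π h.2
  rw [Fin.sum_univ_four] at hc2
  have e : 100 * ε = ε + 99 * ε := by ring
  rw [e]
  refine h.change B (fun v hv => ?_) (fun _ _ _ _ _ => rfl) ?_
  · have hv5 : π v ≠ 5 := fun h1 =>
      hv (mem_union_left _ (mem_filter.2 ⟨mem_univ _, h1⟩))
    have hk : ∀ k, c (r k) v = tc (Roots_pt k) (π v) := by
      intro k
      by_contra h1
      refine hv (mem_union_right _ ?_)
      by_cases h2 : r k = v
      · exact mem_union_right _ (mem_image.2 ⟨k, mem_univ _, h2⟩)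
      · refine mem_union_left _ (mem_biUnion.2 ⟨k, mem_univ _, mem_filter.2 ⟨mem_univ _, ?_⟩⟩)
        refine ⟨h2, ?_, hv5, ?_, ?_⟩
        · rw [hr k]
          exact (Roots_pt_spec k).2.1
        · rw [hr k]
          exact fun h3 => (Roots_pt_spec k).2.2 h3.1
        · rw [hr k]
          exact h1
    unfold rt
    rw [hk 0, hk 1, hk 2, hk 3]
    exact pat_tc _ hv5
  · have := hw 0
    have := hw 1
    have := hw 2
    have := hw 3
    linarith

theorem roots (ε : ℝ) (hε : 0 < ε) (hε1 : ε ≤ 1 / 70) : ∃ m0 : ℕ,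
    ∀ (W : Type) [Fintype W] [DecidableEq W] (c : W → W → Bool), m0 ≤ Fintype.card W →
      Close ε c → ((Fintype.card W : ℝ) / 10) ^ 4 ≤
        cnt (univ : Finset (Fin 4 → W)) fun r => Function.Injective r ∧ Gd (100 * ε) (rt c r) c := by
  classical
  refine ⟨⌈1 / ε⌉₊, fun W _ _ c hm h => ?_⟩
  obtain ⟨π, h⟩ := h
  have hm1 : 1 / ε ≤ (Fintype.card W : ℝ) := le_trans (Nat.le_ceil _) (by exact_mod_cast hm)
  have hm2 : 1 ≤ ε * Fintype.card W := by
    rw [div_le_iff₀ hε] at hm1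
    linarith
  have hpos : 0 < Fintype.card W := by
    rcases Nat.eq_zero_or_pos (Fintype.card W) with h0 | h0
    · rw [h0] at hm2
      norm_num at hm2
    · exact h0
  have hn : (0 : ℝ) ≤ Fintype.card W := Nat.cast_nonneg _
  have hbad := Roots_bad (10 * ε) (1 / 10) (by linarith) π c hpos
    (le_trans h.1 (le_of_eq (by ring)))
  set G : Fin 4 → Finset W := fun k => univ.filter fun v => π v = Roots_pt k ∧
    (cnt univ (Wr π c v) : ℝ) ≤ 10 * ε * Fintype.card W with hG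
  have hGc : ∀ k, (Fintype.card W : ℝ) / 10 ≤ (G k).card := by
    intro k
    have h1 : ps π (Roots_pt k) ≤ (G k).card +
        cnt univ (fun v => 10 * ε * Fintype.card W < (cnt univ (Wr π c v) : ℝ)) := by
      rw [cnt_eq, ps]
      refine le_trans (card_le_card fun v hv => ?_) (card_union_le _ _)
      by_cases h2 : (cnt univ (Wr π c v) : ℝ) ≤ 10 * ε * Fintype.card W
      · exact mem_union_left _ (mem_filter.2 ⟨mem_univ _, (mem_filter.1 hv).2, h2⟩)
      · exact mem_union_right _ (mem_filter.2 ⟨mem_univ _, not_le.1 h2⟩)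
    have h2 : (ps π (Roots_pt k) : ℝ) ≤ (G k).card +
        cnt univ (fun v => 10 * ε * Fintype.card W < (cnt univ (Wr π c v) : ℝ)) := by
      exact_mod_cast h1
    have h3 := h.2 (Roots_pt k)
    rw [(Roots_pt_spec k).1] at h3
    push_cast at h3
    have h4 : ε * Fintype.card W ≤ 1 / 70 * Fintype.card W := mul_le_mul_of_nonneg_right hε1 hn
    linarith
  have h1 : (Fintype.piFinset G).card ≤
      cnt (univ : Finset (Fin 4 → W)) fun r => Function.Injective r ∧ Gd (100 * ε) (rt c r) c := by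
    rw [cnt_eq]
    refine card_le_card fun r hr => mem_filter.2 ⟨mem_univ _, ?_⟩
    have hr' : ∀ k, π (r k) = Roots_pt k ∧
        (cnt univ (Wr π c (r k)) : ℝ) ≤ 10 * ε * Fintype.card W :=
      fun k => (mem_filter.1 (Fintype.mem_piFinset.1 hr k)).2
    refine ⟨fun k l hkl => Roots_pt_inj k l ?_, ?_⟩
    · rw [← (hr' k).1, ← (hr' l).1, hkl]
    · exact Roots_gd ε hε c π hm2 h r (fun k => (hr' k).1) fun k => (hr' k).2
  have h2 : ((Fintype.card W : ℝ) / 10) ^ 4 ≤ (Fintype.piFinset G).card := by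
    rw [Fintype.card_piFinset]
    push_cast
    have h3 : ((Fintype.card W : ℝ) / 10) ^ 4 = ∏ _k : Fin 4, (Fintype.card W : ℝ) / 10 := by
      rw [prod_const, card_univ, Fintype.card_fin]
    rw [h3]
    exact prod_le_prod (fun _ _ => by positivity) fun k _ => hGc k
  exact le_trans h2 (by exact_mod_cast h1)

end Pool.Agent.P.MP_c18ddb_co.X
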