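import Pool.Agent.P.MP_c18ddb_co.X.Samp
import Pool.Agent.P.MP_c18ddb_co.X.Roots

/-! Closeness on many samples implies closeness. -/

namespace Pool.Agent.P.MP_c18ddb_co.X

open Finset

theorem Lift_prod {α β : Type} [Fintype α] [Fintype β] (p : α → β → Prop) :
    cnt (univ : Finset (α × β)) (fun x => p x.1 x.2) = ∑ a, cnt univ (p a) := by
  classical
  simp only [cnt_eq, card_filter]
  rw [← univ_product_univ, sum_product]

theorem Lift_swap {α β : Type} [Fintype α] [Fintype β] (p : α → β → Prop) :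
    ∑ a, cnt univ (p a) = ∑ b, cnt univ (fun a => p a b) := by
  classical
  simp only [cnt_eq, card_filter]
  exact sum_comm

theorem Lift_inj {α : Type} [Fintype α] {p q : α → Prop} (f : α → α)
    (hf : Function.Injective f) (h : ∀ a, p a → q (f a)) : cnt univ p ≤ cnt univ q := by
  classical
  rw [cnt_eq, cnt_eq]
  exact card_le_card_of_injOn f
    (fun a ha => mem_filter.2 ⟨mem_univ _, h a (mem_filter.1 ha).2⟩) hf.injOn

theorem Lift_fixed {V : Type} [Fintype V] [Nonempty V] (c : V → V → Bool) {ε : ℝ} (hε : 0 < ε)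
    {m : ℕ} (hm : 4 ≤ m) (hm' : 8 ≤ 100 * ε * m) (h : ¬ Close (400 * ε) c) (r : Fin 4 → Fin m) :
    (cnt (univ : Finset (Fin m → V)) (fun g => Function.Injective r ∧
      Gd (100 * ε) (rt (fun i j => c (g i) (g j)) r) fun i j => c (g i) (g j)) : ℝ) ≤
      64 / ((400 * ε) ^ 2 * m) * (Fintype.card V : ℝ) ^ m := by
  classical
  by_cases hr : Function.Injective r
  swap
  · have h0 : cnt (univ : Finset (Fin m → V)) (fun g => Function.Injective r ∧
        Gd (100 * ε) (rt (fun i j => c (g i) (g j)) r) fun i j => c (g i) (g j)) = 0 := by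
      rw [cnt_eq, card_eq_zero, filter_eq_empty_iff]
      exact fun g _ hg => hr hg.1
    rw [h0, Nat.cast_zero]
    positivity
  have hout : ∀ (ρ : Fin 4 → V) (g : Fin m → V) (v : Fin m), v ∉ univ.image r →
      Function.extend r ρ g v = g v := by
    intro ρ g v hv
    refine Function.extend_apply' _ _ _ ?_
    rintro ⟨a, ha⟩
    exact hv (mem_image.2 ⟨a, mem_univ _, ha⟩)
  have key : cnt (univ : Finset ((Fin 4 → V) × (Fin m → V))) (fun x => Function.Injective r ∧
      Gd (100 * ε) (rt (fun i j => c (x.2 i) (x.2 j)) r) fun i j => c (x.2 i) (x.2 j)) ≤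
      cnt (univ : Finset ((Fin 4 → V) × (Fin m → V))) (fun x =>
        Gd (400 * ε / 2) (fun i => rt c x.1 (x.2 i)) fun i j => c (x.2 i) (x.2 j)) := by
    refine Lift_inj (fun x => (fun k => x.2 (r k), Function.extend r x.1 x.2)) ?_ ?_
    · rintro ⟨ρ, g⟩ ⟨ρ', g'⟩ he
      obtain ⟨h1, h2⟩ := Prod.ext_iff.1 he
      refine Prod.ext (funext fun k => ?_) (funext fun v => ?_)
      · have h3 := congrFun h2 (r k)
        simpa only [hr.extend_apply] using h3
      · by_cases hv : v ∈ univ.image r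
        · obtain ⟨a, -, rfl⟩ := mem_image.1 hv
          exact congrFun h1 a
        · have h3 := congrFun h2 v
          simpa only [hout _ _ v hv] using h3
    · rintro ⟨ρ, g⟩ ⟨-, hg⟩
      have e : 400 * ε / 2 = 100 * ε + 100 * ε := by ring
      rw [e]
      refine hg.change (univ.image r) (fun v hv => ?_) (fun u v hu hv _ => ?_) ?_
      · simp only [hout _ _ v hv]
        rfl
      · simp only [hout _ _ v hv, hout _ _ u hu]
      · have h4 : (univ.image r).card ≤ 4 := card_image_le.trans (by simp)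
        have h5 : ((univ.image r).card : ℝ) ≤ 4 := by exact_mod_cast h4
        rw [Fintype.card_fin]
        linarith
  have k1 := Lift_prod (fun (_ : Fin 4 → V) (g : Fin m → V) => Function.Injective r ∧
      Gd (100 * ε) (rt (fun i j => c (g i) (g j)) r) fun i j => c (g i) (g j))
  have k2 := Lift_prod (fun (ρ : Fin 4 → V) (g : Fin m → V) =>
      Gd (400 * ε / 2) (fun i => rt c ρ (g i)) fun i j => c (g i) (g j))
  rw [k1, k2, sum_const, card_univ, smul_eq_mul] at key
  have k3 : ∑ ρ : Fin 4 → V, (cnt (univ : Finset (Fin m → V)) (fun g =>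
      Gd (400 * ε / 2) (fun i => rt c ρ (g i)) fun i j => c (g i) (g j)) : ℝ) ≤
      ∑ _ρ : Fin 4 → V, 64 / ((400 * ε) ^ 2 * m) * (Fintype.card V : ℝ) ^ m :=
    sum_le_sum fun ρ _ => samp (rt c ρ) c (400 * ε) (by positivity) m hm fun hg => h ⟨_, hg⟩
  rw [sum_const, card_univ, nsmul_eq_mul] at k3
  have hpos : (0 : ℝ) < Fintype.card (Fin 4 → V) := by exact_mod_cast Fintype.card_pos
  refine le_of_mul_le_mul_left (le_trans ?_ k3) hpos
  exact_mod_cast key

theorem lift (ε : ℝ) (hε : 0 < ε) (hε1 : ε ≤ 1 / 70) : ∃ m0 : ℕ, ∀ m, m0 ≤ m →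
    ∀ (V : Type) [Fintype V] [DecidableEq V] [Nonempty V] (c : V → V → Bool),
      Fintype.card V ^ m ≤ 4 * cnt (univ : Finset (Fin m → V))
        (fun g => Close ε fun i j => c (g i) (g j)) → Close (400 * ε) c := by
  obtain ⟨m1, h1⟩ := roots ε hε hε1
  refine ⟨max m1 (max 4 (⌈16 / ε ^ 2⌉₊ + 1)), fun m hm V _ _ _ c hc => ?_⟩
  classical
  by_contra h
  have hm1 : m1 ≤ m := le_trans (le_max_left _ _) hm
  have hm4 : 4 ≤ m := le_trans ((le_max_left _ _).trans (le_max_right _ _)) hm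
  have hm5 : ⌈16 / ε ^ 2⌉₊ + 1 ≤ m := le_trans ((le_max_right _ _).trans (le_max_right _ _)) hm
  have hm6 : 16 < ε ^ 2 * m := by
    have a1 : 16 / ε ^ 2 ≤ ⌈16 / ε ^ 2⌉₊ := Nat.le_ceil _
    have a2 : (⌈16 / ε ^ 2⌉₊ : ℝ) + 1 ≤ m := by exact_mod_cast hm5
    have a3 : 16 / ε ^ 2 < m := by linarith
    rw [div_lt_iff₀ (by positivity)] at a3
    linarith
  have hm0 : (0 : ℝ) < m := by
    have : (4 : ℝ) ≤ m := by exact_mod_cast hm4
    linarith
  have hm7 : 8 ≤ 100 * ε * m := by
    have a1 : ε * (ε * m) ≤ 1 / 70 * (ε * m) := mul_le_mul_of_nonneg_right hε1 (by positivity)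
    nlinarith
  have hn : (0 : ℝ) < (Fintype.card V : ℝ) ^ m := by
    have : (0 : ℝ) < Fintype.card V := by exact_mod_cast Fintype.card_pos
    positivity
  have up : ∑ r : Fin 4 → Fin m, (cnt (univ : Finset (Fin m → V)) (fun g => Function.Injective r ∧
      Gd (100 * ε) (rt (fun i j => c (g i) (g j)) r) fun i j => c (g i) (g j)) : ℝ) ≤
      ∑ _r : Fin 4 → Fin m, 64 / ((400 * ε) ^ 2 * m) * (Fintype.card V : ℝ) ^ m :=
    sum_le_sum fun r _ => Lift_fixed c hε hm4 hm7 h r
  have lo : (cnt (univ : Finset (Fin m → V)) (fun g => Close ε fun i j => c (g i) (g j)) : ℝ) *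
      ((m : ℝ) / 10) ^ 4 ≤ ∑ g : Fin m → V, (cnt (univ : Finset (Fin 4 → Fin m)) (fun r =>
        Function.Injective r ∧
          Gd (100 * ε) (rt (fun i j => c (g i) (g j)) r) fun i j => c (g i) (g j)) : ℝ) := by
    rw [cnt_eq, ← nsmul_eq_mul, ← sum_const]
    refine le_trans (sum_le_sum fun g hg => ?_)
      (sum_le_sum_of_subset_of_nonneg (filter_subset _ _) fun _ _ _ => Nat.cast_nonneg _)
    have h2 := h1 (Fin m) (fun i j => c (g i) (g j)) (by rwa [Fintype.card_fin])
      (mem_filter.1 hg).2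
    rwa [Fintype.card_fin] at h2
  have sw := Lift_swap (fun (g : Fin m → V) (r : Fin 4 → Fin m) => Function.Injective r ∧
      Gd (100 * ε) (rt (fun i j => c (g i) (g j)) r) fun i j => c (g i) (g j))
  have sw' := congrArg (Nat.cast : ℕ → ℝ) sw
  rw [Nat.cast_sum, Nat.cast_sum] at sw'
  rw [sw'] at lo
  rw [sum_const, card_univ, nsmul_eq_mul, Fintype.card_fun, Fintype.card_fin, Fintype.card_fin,
    Nat.cast_pow] at up
  have hc' : (Fintype.card V : ℝ) ^ m ≤ 4 * (cnt (univ : Finset (Fin m → V))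
      (fun g => Close ε fun i j => c (g i) (g j)) : ℝ) := by exact_mod_cast hc
  have f1 : (Fintype.card V : ℝ) ^ m / 4 * ((m : ℝ) / 10) ^ 4 ≤
      (m : ℝ) ^ 4 * (64 / ((400 * ε) ^ 2 * m) * (Fintype.card V : ℝ) ^ m) :=
    le_trans (mul_le_mul_of_nonneg_right (by linarith) (by positivity)) (lo.trans up)
  have f2 : 64 / ((400 * ε) ^ 2 * m) < 1 / 40000 := by
    rw [div_lt_div_iff₀ (by positivity) (by norm_num)]
    nlinarith
  have f3 : (0 : ℝ) < (m : ℝ) ^ 4 * (Fintype.card V : ℝ) ^ m := by positivity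
  nlinarith [mul_lt_mul_of_pos_left f2 f3]

end Pool.Agent.P.MP_c18ddb_co.X
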