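import Pool.Agent.P.MP_c18ddb_co.X.Defs
import Pool.Agent.P.MP_c18ddb_co.Q.Nibble
import Pool.Agent.P.MP_c18ddb_co.Q.Frac

/-! The nibble in covering form. -/

namespace Pool.Agent.P.MP_c18ddb_co.X

open Finset

theorem Nib_pair {V : Type} [DecidableEq V] {K : Finset V} {x y : V} (h : x ≠ y) :
    ({x, y} : Finset V) ∈ K.powersetCard 2 ↔ x ∈ K ∧ y ∈ K := by
  rw [mem_powersetCard, insert_subset_iff, singleton_subset_iff]
  exact ⟨fun a => a.1, fun a => ⟨a, card_pair h⟩⟩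

theorem Nib_three {V : Type} [DecidableEq V] {u v : Finset V} (hu : u.card = 2) (hv : v.card = 2)
    (h : u ≠ v) : ∃ x y z, x ≠ y ∧ x ≠ z ∧ y ≠ z ∧ x ∈ u ∧ y ∈ u ∧ z ∈ v := by
  obtain ⟨x, y, hxy, rfl⟩ := card_eq_two.1 hu
  have : ¬ v ⊆ {x, y} := fun hs => h (eq_of_subset_of_card_le hs (by rw [hu, hv])).symm
  obtain ⟨z, hz, hz'⟩ := not_subset.1 this
  simp only [mem_insert, mem_singleton, not_or] at hz'
  exact ⟨x, y, z, hxy, Ne.symm hz'.1, Ne.symm hz'.2, by simp, by simp, hz⟩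

theorem nib_cover (η : ℝ) (hη : 0 < η) : ∃ γ : ℝ, 0 < γ ∧
    ∀ (V ι : Type) [DecidableEq V] [DecidableEq ι] (U : Finset V) (H : Finset ι)
      (E : ι → Finset V) (R : V → V → Prop) (φ : ι → ℝ),
      (∀ f ∈ H, E f ⊆ U) → (∀ f ∈ H, 2 ≤ (E f).card ∧ (E f).card ≤ 4) →
      (∀ x y, R x y → R y x) → (∀ x, ¬ R x x) → (∀ f, 0 ≤ φ f) →
      (∀ x y, x ≠ y → ∑ f ∈ H.filter (fun f => x ∈ E f ∧ y ∈ E f), φ f ≤ 1) →
      (∀ x ∈ U, ∀ y ∈ U, R x y → 1 ≤ ∑ f ∈ H.filter (fun f => x ∈ E f ∧ y ∈ E f), φ f) →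
      (∀ x y z, x ≠ y → x ≠ z → y ≠ z →
        ∑ f ∈ H.filter (fun f => x ∈ E f ∧ y ∈ E f ∧ z ∈ E f), φ f ≤ γ) →
      ∃ M : Finset (Finset V), (∀ K ∈ M, ∃ f ∈ H, K = E f) ∧ Lin M ∧
        (cnt (U ×ˢ U) (fun p => R p.1 p.2 ∧ ¬ Cv M p.1 p.2) : ℝ) ≤ η * (U.card : ℝ) ^ 2 := by
  obtain ⟨γ, hγ, hn⟩ := Q.nibble 6 (η / 12) (by positivity)
  refine ⟨γ, hγ, fun V ι _ _ U H E R φ hE hk _ hirr hφ h1 h2 h3 => ?_⟩
  classical
  set P : Finset (V × V) := (U ×ˢ U).filter fun p => R p.1 p.2 with hP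
  have hne : ∀ p ∈ P, p.1 ≠ p.2 := fun p hp e => by
    have := (mem_filter.1 hp).2
    rw [e] at this
    exact hirr _ this
  have hsum : ∀ (T : Finset ι) (ψ : ι → ℝ),
      ∑ f ∈ T, ((P.filter fun p => p.1 ∈ E f ∧ p.2 ∈ E f).card : ℝ) * ψ f =
        ∑ p ∈ P, ∑ f ∈ T.filter (fun f => p.1 ∈ E f ∧ p.2 ∈ E f), ψ f := by
    intro T ψ
    simp only [sum_filter]
    rw [sum_comm]
    refine sum_congr rfl fun f _ => ?_
    rw [← sum_filter, sum_const, nsmul_eq_mul]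
  obtain ⟨M, hMH, hd, hM⟩ := hn (Finset V) ι (U.powersetCard 2) H (fun f => (E f).powersetCard 2)
    (fun f => ((P.filter fun p => p.1 ∈ E f ∧ p.2 ∈ E f).card : ℝ) / 12) φ
    (fun f hf => powersetCard_mono (hE f hf))
    (fun f hf => by
      rw [card_powersetCard]
      exact (Nat.choose_le_choose 2 (hk f hf).2).trans (by decide))
    (fun f hf => powersetCard_nonempty.2 (hk f hf).1)
    (fun f hf => by
      refine ⟨by positivity, (div_le_one (by norm_num)).2 ?_⟩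
      have a1 : (P.filter fun p => p.1 ∈ E f ∧ p.2 ∈ E f) ⊆ (E f).offDiag := fun p hp =>
        mem_offDiag.2 ⟨(mem_filter.1 hp).2.1, (mem_filter.1 hp).2.2, hne p (mem_filter.1 hp).1⟩
      have a2 := card_le_card a1
      rw [offDiag_card] at a2
      have a3 := (hk f hf).2
      have a4 : (E f).card * (E f).card - (E f).card ≤ 12 := by
        generalize (E f).card = k at a3
        interval_cases k <;> simp
      exact_mod_cast a2.trans a4)
    hφ
    (fun u hu => by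
      obtain ⟨x, y, hxy, rfl⟩ := card_eq_two.1 (mem_powersetCard.1 hu).2
      simp only [Nib_pair hxy]
      exact h1 x y hxy)
    (fun u hu v hv huv => by
      obtain ⟨x, y, z, a1, a2, a3, a4, a5, a6⟩ :=
        Nib_three (mem_powersetCard.1 hu).2 (mem_powersetCard.1 hv).2 huv
      refine le_trans (sum_le_sum_of_subset_of_nonneg (fun f hf => ?_) fun f _ _ => hφ f)
        (h3 x y z a1 a2 a3)
      obtain ⟨b1, b2, b3⟩ := mem_filter.1 hf
      exact mem_filter.2 ⟨b1, (mem_powersetCard.1 b2).1 a4, (mem_powersetCard.1 b2).1 a5,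
        (mem_powersetCard.1 b3).1 a6⟩)
  have huniq : ∀ f ∈ M, ∀ g ∈ M, ∀ x y, x ≠ y → x ∈ E f → y ∈ E f → x ∈ E g → y ∈ E g →
      f = g := by
    intro f hf g hg x y hxy a1 a2 a3 a4
    by_contra hfg
    exact disjoint_left.1 (hd f hf g hg hfg) ((Nib_pair hxy).2 ⟨a1, a2⟩) ((Nib_pair hxy).2 ⟨a3, a4⟩)
  refine ⟨M.image E, fun K hK => ?_, fun K hK L hL x y hxy a1 a2 a3 a4 => ?_, ?_⟩
  · obtain ⟨f, hf, rfl⟩ := mem_image.1 hK
    exact ⟨f, hMH hf, rfl⟩
  · obtain ⟨f, hf, rfl⟩ := mem_image.1 hK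
    obtain ⟨g, hg, rfl⟩ := mem_image.1 hL
    rw [huniq f hf g hg x y hxy a1 a2 a3 a4]
  · have c1 : (P.card : ℝ) ≤
        ∑ f ∈ H, ((P.filter fun p => p.1 ∈ E f ∧ p.2 ∈ E f).card : ℝ) * φ f := by
      rw [hsum, card_eq_sum_ones, Nat.cast_sum]
      refine sum_le_sum fun p hp => ?_
      obtain ⟨a1, a2⟩ := mem_filter.1 hp
      rw [Nat.cast_one]
      exact h2 _ (mem_product.1 a1).1 _ (mem_product.1 a1).2 a2
    have c2 : ∑ f ∈ M, ((P.filter fun p => p.1 ∈ E f ∧ p.2 ∈ E f).card : ℝ) * 1 ≤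
        (P.filter fun p => Cv (M.image E) p.1 p.2).card := by
      rw [hsum, ← sum_boole]
      refine sum_le_sum fun p hp => ?_
      rw [sum_const, nsmul_eq_mul, mul_one]
      split_ifs with hc
      · have : (M.filter fun f => p.1 ∈ E f ∧ p.2 ∈ E f).card ≤ 1 :=
          card_le_one.2 fun f hf g hg =>
            huniq f (mem_filter.1 hf).1 g (mem_filter.1 hg).1 _ _ (hne p hp) (mem_filter.1 hf).2.1
              (mem_filter.1 hf).2.2 (mem_filter.1 hg).2.1 (mem_filter.1 hg).2.2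
        exact_mod_cast this
      · rw [filter_false_of_mem fun f hf h => hc ⟨E f, mem_image_of_mem E hf, h⟩]
        simp
    have c3 : ((U.powersetCard 2).card : ℝ) ≤ (U.card : ℝ) ^ 2 := by
      rw [card_powersetCard]
      exact_mod_cast Nat.choose_le_pow _ _
    have c4 : ((P.filter fun p => Cv (M.image E) p.1 p.2).card : ℝ) +
        (P.filter fun p => ¬ Cv (M.image E) p.1 p.2).card = P.card := by
      exact_mod_cast card_filter_add_card_filter_not _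
    have c5 : cnt (U ×ˢ U) (fun p => R p.1 p.2 ∧ ¬ Cv (M.image E) p.1 p.2) =
        (P.filter fun p => ¬ Cv (M.image E) p.1 p.2).card := by
      rw [cnt_eq, hP, filter_filter]
    simp only [div_mul_eq_mul_div, ← sum_div] at hM
    simp only [mul_one] at c2
    have c6 := mul_le_mul_of_nonneg_left c3 hη.le
    rw [c5]
    linarith

end Pool.Agent.P.MP_c18ddb_co.X
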