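import Pool.Agent.P.MP_c18ddb_co.X.Sub

/-! The fractional solution of a completion problem: definitions. -/

namespace Pool.Agent.P.MP_c18ddb_co.X

open Finset

namespace Sub

variable {V : Type} [DecidableEq V] {t : ℕ} (s : Sub V t)

open Classical in
/-- all tuples of the first packing -/
noncomputable def GT : Finset (V × V × V × V) :=
  (s.P ×ˢ s.P ×ˢ (s.Q ∪ s.E) ×ˢ (s.Q ∪ s.E)).filter s.Good

/-- number of ordered pairs of `P` that complete `e e'` -/
noncomputable def AA (e e' : V) : ℕ := cnt (s.P ×ˢ s.P) fun p => s.Good (p.1, p.2, e, e')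

/-- number of available apexes in `W` -/
noncomputable def BB (u u' : V) (W : Finset V) : ℕ := cnt W fun w => s.av u w ∧ s.av u' w

open Classical in
/-- load of the four cliques on the pair `u u'` -/
noncomputable def rho (u u' : V) : ℝ :=
  ∑ p ∈ (s.E ×ˢ s.E).filter (fun p => s.H p.1 p.2 ∧ s.Good (u, u', p.1, p.2)),
    1 / (s.AA p.1 p.2 : ℝ)

/-- the weight of a tuple -/
noncomputable def phi (f : V × V × V × V) : ℝ :=
  if f.2.2.1 = f.2.2.2 then
    if f.2.2.1 ∈ s.E then 1 / (16 * (s.BB f.1 f.2.1 s.E : ℝ))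
    else (7 / 8 - s.rho f.1 f.2.1) / (2 * (s.BB f.1 f.2.1 s.Q : ℝ))
  else 1 / (2 * (s.AA f.2.2.1 f.2.2.2 : ℝ))

/-- total weight of the tuples through `x` and `y` -/
noncomputable def ld (x y : V) : ℝ :=
  ∑ f ∈ s.GT.filter (fun f => x ∈ vs f ∧ y ∈ vs f), s.phi f

end Sub

end Pool.Agent.P.MP_c18ddb_co.X
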