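import Pool.Agent.P.MP_c18ddb_co.X.Sub

/-! Sizes of unions of classes. -/

namespace Pool.Agent.P.MP_c18ddb_co.X

open Finset

theorem SubCnt_fib {V : Type} (A : Finset V) (p : V → Prop) (l : V → Fin 100) :
    cnt A p = ∑ b, cnt A (fun v => p v ∧ l v = b) := by
  classical
  rw [cnt_eq, card_eq_sum_card_fiberwise (f := l) (t := univ) (fun _ _ => mem_coe.2 (mem_univ _))]
  refine sum_congr rfl fun b _ => ?_
  rw [cnt_eq, filter_filter]

theorem SubCnt_congr {V : Type} (A : Finset V) {p q : V → Prop} (h : ∀ v, p v ↔ q v) :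
    cnt A p = cnt A q :=
  le_antisymm (cnt_mono fun a ha hp => ⟨ha, (h a).1 hp⟩) (cnt_mono fun a ha hp => ⟨ha, (h a).2 hp⟩)

theorem SubCnt_bnd (f : Fin 100 → ℕ) (m t : ℕ) (h : ∀ b, m ≤ f b + t ∧ f b ≤ m + t) :
    100 * m ≤ ∑ b, f b + 100 * t ∧ ∑ b, f b ≤ 100 * m + 100 * t := by
  have h1 : ∑ _b : Fin 100, m ≤ ∑ b, (f b + t) := sum_le_sum fun b _ => (h b).1
  have h2 : ∑ b, f b ≤ ∑ _b : Fin 100, (m + t) := sum_le_sum fun b _ => (h b).2
  rw [sum_add_distrib] at h1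
  simp only [sum_const, card_univ, Fintype.card_fin, smul_eq_mul] at h1 h2
  omega

theorem cnt_l1 {V : Type} (A : Finset V) (l1 l2 : V → Fin 100) (a : Fin 100) :
    cnt A (fun v => l1 v = a) = ∑ b, cnt A (fun v => l1 v = a ∧ l2 v = b) := by
  exact SubCnt_fib A _ l2

theorem cnt_l2 {V : Type} (A : Finset V) (l1 l2 : V → Fin 100) (b : Fin 100) :
    cnt A (fun v => l2 v = b) = ∑ a, cnt A (fun v => l1 v = a ∧ l2 v = b) := by
  rw [SubCnt_fib A _ l1]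
  exact sum_congr rfl fun a _ => SubCnt_congr A fun v => and_comm

theorem card_l12 {V : Type} (A : Finset V) (l1 l2 : V → Fin 100) :
    A.card = ∑ a, ∑ b, cnt A (fun v => l1 v = a ∧ l2 v = b) := by
  have h : A.card = cnt A (fun _ => True) := by
    rw [cnt_eq, filter_true]
  rw [h, SubCnt_fib A _ l1]
  refine sum_congr rfl fun a _ => ?_
  rw [← cnt_l1 A l1 l2 a]
  exact SubCnt_congr A fun v => by simp

namespace Sub

variable {V : Type} [DecidableEq V] {t : ℕ} (s : Sub V t)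

omit [DecidableEq V] in
theorem SubCnt_one (A : Finset V) (l1 l2 : V → Fin 100) (m : ℕ)
    (h : ∀ a b, m ≤ cnt A (fun v => l1 v = a ∧ l2 v = b) + t ∧
      cnt A (fun v => l1 v = a ∧ l2 v = b) ≤ m + t) (a : Fin 100) :
    100 * m ≤ cnt A (fun v => l1 v = a) + 100 * t ∧ cnt A (fun v => l1 v = a) ≤ 100 * m + 100 * t := by
  rw [cnt_l1 A l1 l2 a]
  exact SubCnt_bnd _ m t (h a)

omit [DecidableEq V] in
theorem SubCnt_two (A : Finset V) (l1 l2 : V → Fin 100) (m : ℕ)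
    (h : ∀ a b, m ≤ cnt A (fun v => l1 v = a ∧ l2 v = b) + t ∧
      cnt A (fun v => l1 v = a ∧ l2 v = b) ≤ m + t) (b : Fin 100) :
    cnt A (fun v => l2 v = b) ≤ 100 * m + 100 * t := by
  rw [cnt_l2 A l1 l2 b]
  exact (SubCnt_bnd _ m t fun a => h a b).2

omit [DecidableEq V] in
theorem SubCnt_all (A : Finset V) (l1 l2 : V → Fin 100) (m : ℕ)
    (h : ∀ a b, m ≤ cnt A (fun v => l1 v = a ∧ l2 v = b) + t ∧
      cnt A (fun v => l1 v = a ∧ l2 v = b) ≤ m + t) :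
    10000 * m ≤ A.card + 10000 * t ∧ A.card ≤ 10000 * m + 10000 * t := by
  rw [card_l12 A l1 l2]
  have := SubCnt_bnd (fun a => ∑ b, cnt A (fun v => l1 v = a ∧ l2 v = b)) (100 * m) (100 * t)
    fun a => SubCnt_bnd _ m t (h a)
  omega

omit [DecidableEq V] in
theorem SubCnt_or4 (A B : Finset V) (p q r1 r2 r3 : V → Prop)
    (h : ∀ a ∈ A, p a → (a ∈ B ∧ q a) ∨ r1 a ∨ r2 a ∨ r3 a) :
    cnt A p ≤ cnt B q + (cnt A r1 + (cnt A r2 + cnt A r3)) := by
  have h1 : cnt A p ≤ cnt B q + cnt A (fun a => r1 a ∨ r2 a ∨ r3 a) :=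
    cnt_le_add fun a ha hp => (h a ha hp).imp id fun h => ⟨ha, h⟩
  have h2 : cnt A (fun a => r1 a ∨ r2 a ∨ r3 a) ≤ cnt A r1 + cnt A (fun a => r2 a ∨ r3 a) :=
    cnt_le_add fun a ha hp => hp.imp (fun h => ⟨ha, h⟩) fun h => ⟨ha, h⟩
  have h3 : cnt A (fun a => r2 a ∨ r3 a) ≤ cnt A r2 + cnt A r3 :=
    cnt_le_add fun a ha hp => hp.imp (fun h => ⟨ha, h⟩) fun h => ⟨ha, h⟩
  omega

theorem P1 (a : Fin 100) : 300 * NN t ≤ cnt s.P (fun v => s.l1 v = a) + 100 * t ∧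
    cnt s.P (fun v => s.l1 v = a) ≤ 300 * NN t + 100 * t := by
  have := SubCnt_one s.P s.l1 s.l2 _ s.szP a
  omega

theorem Q1 (a : Fin 100) : 300 * NN t ≤ cnt s.Q (fun v => s.l1 v = a) + 100 * t ∧
    cnt s.Q (fun v => s.l1 v = a) ≤ 300 * NN t + 100 * t := by
  have := SubCnt_one s.Q s.l1 s.l2 _ s.szQ a
  omega

theorem E1 (a : Fin 100) : 200 * NN t ≤ cnt s.E (fun v => s.l1 v = a) + 100 * t ∧
    cnt s.E (fun v => s.l1 v = a) ≤ 200 * NN t + 100 * t := by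
  have := SubCnt_one s.E s.l1 s.l2 _ s.szE a
  omega

theorem cardP : 29999 * NN t ≤ s.P.card ∧ s.P.card ≤ 30001 * NN t := by
  have := SubCnt_all s.P s.l1 s.l2 _ s.szP
  unfold NN at *
  omega

theorem cardQ : 29999 * NN t ≤ s.Q.card ∧ s.Q.card ≤ 30001 * NN t := by
  have := SubCnt_all s.Q s.l1 s.l2 _ s.szQ
  unfold NN at *
  omega

theorem cardE : 19999 * NN t ≤ s.E.card ∧ s.E.card ≤ 20001 * NN t := by
  have := SubCnt_all s.E s.l1 s.l2 _ s.szE
  unfold NN at *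
  omega

theorem degH' (e : V) : cnt s.E (fun v => s.H e v) ≤ 10001 * NN t := by
  rw [SubCnt_fib s.E _ s.l1]
  have h : ∑ b, cnt s.E (fun v => s.H e v ∧ s.l1 v = b) ≤ ∑ _b : Fin 100, 100 * (NN t + t) :=
    sum_le_sum fun b _ => s.degH e b
  simp only [sum_const, card_univ, Fintype.card_fin, smul_eq_mul] at h
  unfold NN at *
  omega

theorem navP {w : V} (hw : w ∈ s.Q ∪ s.E) : cnt s.P (fun u => ¬ s.av u w) ≤ 902 * NN t := by
  have h := SubCnt_or4 s.P s.P (fun u => ¬ s.av u w) (fun u => ¬ s.ok u w)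
    (fun u => s.l1 u = s.l1 w) (fun u => s.l1 u = s.l2 w) (fun u => s.l2 u = s.l1 w)
    fun a ha hp => by
      by_cases hok : s.ok a w
      · right
        by_contra hn
        exact hp ⟨hok, hn⟩
      · exact Or.inl ⟨ha, hok⟩
  have h0 := s.nokW w hw
  have h1 := (s.P1 (s.l1 w)).2
  have h2 := (s.P1 (s.l2 w)).2
  have h3 := SubCnt_two s.P s.l1 s.l2 _ s.szP (s.l1 w)
  unfold NN at *
  omega

theorem navQ {u : V} (hu : u ∈ s.P) : cnt s.Q (fun w => ¬ s.av u w) ≤ 902 * NN t := by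
  have h := SubCnt_or4 s.Q (s.P ∪ s.Q ∪ s.E) (fun w => ¬ s.av u w) (fun w => ¬ s.ok u w)
    (fun w => s.l1 w = s.l1 u) (fun w => s.l2 w = s.l1 u) (fun w => s.l1 w = s.l2 u)
    fun a ha hp => by
      by_cases hok : s.ok u a
      · right
        by_contra hn
        refine hp ⟨hok, fun hr => hn ?_⟩
        exact hr.imp Eq.symm fun hr => hr.imp Eq.symm Eq.symm
      · exact Or.inl ⟨mem_union_left _ (mem_union_right _ ha), hok⟩
  have h0 := s.nokP u hu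
  have h1 := (s.Q1 (s.l1 u)).2
  have h2 := (s.Q1 (s.l2 u)).2
  have h3 := SubCnt_two s.Q s.l1 s.l2 _ s.szQ (s.l1 u)
  unfold NN at *
  omega

theorem navE {u : V} (hu : u ∈ s.P) : cnt s.E (fun w => ¬ s.av u w) ≤ 602 * NN t := by
  have h := SubCnt_or4 s.E (s.P ∪ s.Q ∪ s.E) (fun w => ¬ s.av u w) (fun w => ¬ s.ok u w)
    (fun w => s.l1 w = s.l1 u) (fun w => s.l2 w = s.l1 u) (fun w => s.l1 w = s.l2 u)
    fun a ha hp => by
      by_cases hok : s.ok u a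
      · right
        by_contra hn
        refine hp ⟨hok, fun hr => hn ?_⟩
        exact hr.imp Eq.symm fun hr => hr.imp Eq.symm Eq.symm
      · exact Or.inl ⟨mem_union_right _ ha, hok⟩
  have h0 := s.nokP u hu
  have h1 := (s.E1 (s.l1 u)).2
  have h2 := (s.E1 (s.l2 u)).2
  have h3 := SubCnt_two s.E s.l1 s.l2 _ s.szE (s.l1 u)
  unfold NN at *
  omega

end Sub

end Pool.Agent.P.MP_c18ddb_co.X
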