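import Pool.Agent.P.MP_c18ddb_co.X.Phi
import Pool.Agent.P.MP_c18ddb_co.X.SubCnt

/-! Bounds for the fractional solution. -/

namespace Pool.Agent.P.MP_c18ddb_co.X

open Finset

theorem Phi1_prod {α β : Type} (A : Finset α) (B : Finset β) (p : α × β → Prop) :
    cnt (A ×ˢ B) p = ∑ a ∈ A, cnt B fun b => p (a, b) := by
  classical
  simp only [cnt_eq, card_filter, sum_product]

theorem Phi1_or {α : Type} (A : Finset α) {p q r : α → Prop} (h : ∀ a ∈ A, ¬ p a → q a ∨ r a) :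
    A.card ≤ cnt A p + cnt A q + cnt A r := by
  have h1 := cnt_add_not A p
  have h2 : cnt A (fun a => ¬ p a) ≤ cnt A q + cnt A r :=
    cnt_le_add fun a ha hp => (h a ha hp).imp (fun h => ⟨ha, h⟩) fun h => ⟨ha, h⟩
  omega

theorem Phi1_pos {t : ℕ} (ht : 0 < t) : (0 : ℝ) < NN t := by
  unfold NN
  positivity

namespace Sub

variable {V : Type} [DecidableEq V] {t : ℕ} (s : Sub V t)

theorem mem_GT {f : V × V × V × V} : f ∈ s.GT ↔ s.Good f := by
  classical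
  unfold GT
  simp only [mem_filter, mem_product]
  refine ⟨fun h => h.2, fun h => ⟨⟨h.1, h.2.1, ?_⟩, h⟩⟩
  rcases h.2.2.2.2.2.2.2 with ⟨h1, h2⟩ | ⟨h1, -⟩
  · exact ⟨h2, h1 ▸ h2⟩
  · obtain ⟨h2, h3, -⟩ := s.H_mem _ _ h1
    exact ⟨mem_union_right _ h2, mem_union_right _ h3⟩

theorem good_swap1 {u u' w w' : V} (h : s.Good (u, u', w, w')) : s.Good (u', u, w, w') := by
  obtain ⟨h1, h2, h3, h4, h5, h6, h7, h8⟩ := h
  exact ⟨h2, h1, s.ok_symm _ _ h3, h5, h4, h7, h6, h8.imp id fun h => ⟨h.1, h.2.symm⟩⟩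

theorem good_swap2 {u u' w w' : V} (h : s.Good (u, u', w, w')) : s.Good (u, u', w', w) := by
  obtain ⟨h1, h2, h3, h4, h5, h6, h7, h8⟩ := h
  refine ⟨h1, h2, h3, h6, h7, h4, h5, h8.imp (fun h => ⟨h.1.symm, ?_⟩)
    fun h => ⟨s.H_symm _ _ h.1, h.2⟩⟩
  obtain ⟨h9, h0⟩ : w = w' ∧ w ∈ s.Q ∪ s.E := h
  exact h9 ▸ h0

/-- the two last coordinates of a good tuple lie in `Q ∪ E`, hence outside `P` -/
theorem good_mem {u u' w w' : V} (h : s.Good (u, u', w, w')) :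
    u ∈ s.P ∧ u' ∈ s.P ∧ u ≠ u' ∧ w ∈ s.Q ∪ s.E ∧ w' ∈ s.Q ∪ s.E ∧ w ∉ s.P ∧ w' ∉ s.P ∧
      (w ≠ w' → s.H w w' ∧ w ∈ s.E ∧ w' ∈ s.E ∧ s.l1 u ≠ s.l1 u') := by
  have hP : ∀ x ∈ s.Q ∪ s.E, x ∉ s.P := fun x hx hp => (mem_union.1 hx).elim
    (disjoint_left.1 s.dPQ hp) (disjoint_left.1 s.dPE hp)
  obtain ⟨h1, h2, h3, -, -, -, -, h8⟩ := h
  have hne : u ≠ u' := by
    rintro rfl
    exact s.ok_irr _ h3
  rcases h8 with ⟨h4, h5⟩ | ⟨h4, h5⟩
  · obtain rfl : w = w' := h4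
    exact ⟨h1, h2, hne, h5, h5, hP _ h5, hP _ h5, fun h => absurd rfl h⟩
  · obtain ⟨h6, h7, -⟩ := s.H_mem _ _ h4
    exact ⟨h1, h2, hne, mem_union_right _ h6, mem_union_right _ h7, hP _ (mem_union_right _ h6),
      hP _ (mem_union_right _ h7), fun _ => ⟨h4, h6, h7, h5⟩⟩

theorem vs_card {f : V × V × V × V} (h : s.Good f) : 3 ≤ (vs f).card ∧ (vs f).card ≤ 4 := by
  obtain ⟨u, u', w, w'⟩ := f
  obtain ⟨h1, h2, h3, -, -, h4, -, -⟩ := s.good_mem h
  refine ⟨?_, card_le_four⟩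
  have h5 : ({u, u', w} : Finset V).card = 3 :=
    card_eq_three.2 ⟨u, u', w, h3, fun e => h4 (e ▸ h1), fun e => h4 (e ▸ h2), rfl⟩
  rw [← h5]
  refine card_le_card fun x hx => ?_
  simp only [vs, mem_insert, mem_singleton] at hx ⊢
  tauto

theorem vs_sub {f : V × V × V × V} (h : s.Good f) : vs f ⊆ s.P ∪ s.Q ∪ s.E := by
  obtain ⟨u, u', w, w'⟩ := f
  obtain ⟨h1, h2, -, h3, h4, -⟩ := s.good_mem h
  intro x hx
  simp only [vs, mem_insert, mem_singleton] at hx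
  rw [union_assoc]
  rcases hx with rfl | rfl | rfl | rfl
  exacts [mem_union_left _ h1, mem_union_left _ h2, mem_union_right _ h3, mem_union_right _ h4]

theorem AA_symm (e e' : V) : s.AA e e' = s.AA e' e :=
  le_antisymm (cnt_mono fun _ ha h => ⟨ha, s.good_swap2 h⟩)
    (cnt_mono fun _ ha h => ⟨ha, s.good_swap2 h⟩)

theorem BB_symm (u u' : V) (W : Finset V) : s.BB u u' W = s.BB u' u W :=
  le_antisymm (cnt_mono fun _ ha h => ⟨ha, h.symm⟩) (cnt_mono fun _ ha h => ⟨ha, h.symm⟩)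

theorem rho_symm (u u' : V) : s.rho u u' = s.rho u' u := by
  classical
  unfold rho
  refine sum_congr ?_ fun _ _ => rfl
  ext p
  simp only [mem_filter]
  exact and_congr_right fun _ => and_congr_right fun _ => ⟨s.good_swap1, s.good_swap1⟩

theorem phi_swap1 (u u' w w' : V) : s.phi (u', u, w, w') = s.phi (u, u', w, w') := by
  simp only [phi, s.BB_symm u' u, s.rho_symm u' u]

theorem phi_swap2 (u u' w w' : V) : s.phi (u, u', w', w) = s.phi (u, u', w, w') := by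
  by_cases h : w = w'
  · rw [h]
  · simp only [phi, if_neg h, if_neg (Ne.symm h), s.AA_symm w' w]

theorem AA_ge {e e' : V} (h : s.H e e') : 28195 * NN t * (27893 * NN t) ≤ s.AA e e' := by
  classical
  obtain ⟨he, he', -⟩ := s.H_mem _ _ h
  have h1 := s.navP (mem_union_right _ he)
  have h2 := s.navP (mem_union_right _ he')
  have h3 := s.cardP.1
  have h4 := Phi1_or s.P (p := fun u => s.av u e ∧ s.av u e') (q := fun u => ¬ s.av u e)
    (r := fun u => ¬ s.av u e') fun _ _ => not_and_or.1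
  have h5 : 28195 * NN t ≤ (s.P.filter fun u => s.av u e ∧ s.av u e').card := by
    rw [← cnt_eq]
    omega
  rw [AA, Phi1_prod]
  refine le_trans ?_ (sum_le_sum_of_subset (filter_subset (fun u => s.av u e ∧ s.av u e') _))
  refine (Nat.mul_le_mul_right _ h5).trans (card_nsmul_le_sum _ _ _ fun u hu => ?_)
  obtain ⟨hu, a1, a2⟩ := mem_filter.1 hu
  have h6 : cnt s.P (fun v => ¬ s.ok u v) ≤ t :=
    (cnt_mono fun _ ha h => ⟨mem_union_left _ (mem_union_left _ ha), h⟩).trans (s.nokP u hu)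
  have h7 := (s.P1 (s.l1 u)).2
  have h8 : cnt s.P (fun v => s.av v e ∧ s.av v e') ≤ cnt s.P (fun v => s.Good (u, v, e, e')) +
      cnt s.P (fun v => ¬ s.ok u v ∨ s.l1 v = s.l1 u) := cnt_le_add fun v hv hp => by
    by_cases h9 : ¬ s.ok u v ∨ s.l1 v = s.l1 u
    · exact .inr ⟨hv, h9⟩
    · rw [not_or, not_not] at h9
      exact .inl ⟨hv, hu, hv, h9.1, a1, hp.1, a2, hp.2, .inr ⟨h, Ne.symm h9.2⟩⟩
  have h9 : cnt s.P (fun v => ¬ s.ok u v ∨ s.l1 v = s.l1 u) ≤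
      cnt s.P (fun v => ¬ s.ok u v) + cnt s.P (fun v => s.l1 v = s.l1 u) :=
    cnt_le_add fun v hv hp => hp.imp (fun h => ⟨hv, h⟩) fun h => ⟨hv, h⟩
  have h0 : NN t = 1000000000 * t := rfl
  change 27893 * NN t ≤ cnt s.P (fun v => s.Good (u, v, e, e'))
  omega

theorem BB_Q {u u' : V} (hu : u ∈ s.P) (hu' : u' ∈ s.P) : 28195 * NN t ≤ s.BB u u' s.Q := by
  have h1 := s.navQ hu
  have h2 := s.navQ hu'
  have h3 := s.cardQ.1
  have h4 := Phi1_or s.Q (p := fun w => s.av u w ∧ s.av u' w) (q := fun w => ¬ s.av u w)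
    (r := fun w => ¬ s.av u' w) fun _ _ => not_and_or.1
  unfold BB
  omega

theorem BB_E {u u' : V} (hu : u ∈ s.P) (hu' : u' ∈ s.P) : 18795 * NN t ≤ s.BB u u' s.E := by
  have h1 := s.navE hu
  have h2 := s.navE hu'
  have h3 := s.cardE.1
  have h4 := Phi1_or s.E (p := fun w => s.av u w ∧ s.av u' w) (q := fun w => ¬ s.av u w)
    (r := fun w => ¬ s.av u' w) fun _ _ => not_and_or.1
  unfold BB
  omega

theorem rho_nonneg (u u' : V) : 0 ≤ s.rho u u' :=
  sum_nonneg fun _ _ => by positivity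

theorem rho_le (ht : 0 < t) (u u' : V) : s.rho u u' ≤ 1 / 3 := by
  classical
  have hN := Phi1_pos ht
  have h1 : cnt (s.E ×ˢ s.E) (fun p => s.H p.1 p.2 ∧ s.Good (u, u', p.1, p.2)) ≤
      20001 * NN t * (10001 * NN t) := by
    refine (cnt_mono (q := fun p => s.H p.1 p.2) fun _ ha h => ⟨ha, h.1⟩).trans ?_
    rw [Phi1_prod]
    exact (sum_le_card_nsmul _ _ _ fun e _ => s.degH' e).trans
      (Nat.mul_le_mul_right _ s.cardE.2)
  rw [cnt_eq] at h1
  unfold rho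
  refine (sum_le_card_nsmul _ _ (1 / (28195 * (NN t : ℝ) * (27893 * (NN t : ℝ))))
    fun p hp => ?_).trans ?_
  · refine one_div_le_one_div_of_le (by positivity) ?_
    exact_mod_cast s.AA_ge (mem_filter.1 hp).2.1
  · rw [nsmul_eq_mul, mul_one_div, div_le_iff₀ (by positivity)]
    refine le_trans (b := 20001 * (NN t : ℝ) * (10001 * (NN t : ℝ))) ?_ (by nlinarith)
    exact_mod_cast h1

theorem phi_nonneg (ht : 0 < t) (f : V × V × V × V) : 0 ≤ s.phi f := by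
  have h := s.rho_le ht f.1 f.2.1
  unfold phi
  split_ifs
  · positivity
  · exact div_nonneg (by linarith) (by positivity)
  · positivity

theorem phi_Q (ht : 0 < t) {u u' w : V} (hu : u ∈ s.P) (hu' : u' ∈ s.P) (hw : w ∈ s.Q) :
    s.phi (u, u', w, w) ≤ 7 / (16 * (28195 * (NN t : ℝ))) := by
  have hN := Phi1_pos ht
  have h1 := s.rho_nonneg u u'
  have h2 : 28195 * (NN t : ℝ) ≤ s.BB u u' s.Q := by exact_mod_cast s.BB_Q hu hu'
  simp only [phi, if_true, if_neg (disjoint_left.1 s.dQE hw)]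
  calc _ ≤ (7 / 8) / (2 * (28195 * (NN t : ℝ))) :=
        div_le_div₀ (by norm_num) (by linarith) (by positivity) (by linarith)
    _ = _ := by field_simp; norm_num

theorem phi_E (ht : 0 < t) {u u' w : V} (hu : u ∈ s.P) (hu' : u' ∈ s.P) (hw : w ∈ s.E) :
    s.phi (u, u', w, w) ≤ 1 / (16 * (18795 * (NN t : ℝ))) := by
  have hN := Phi1_pos ht
  have h2 : 18795 * (NN t : ℝ) ≤ s.BB u u' s.E := by exact_mod_cast s.BB_E hu hu'
  simp only [phi, if_true, if_pos hw]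
  exact one_div_le_one_div_of_le (by positivity) (by linarith)

theorem phi_H (ht : 0 < t) (u u' : V) {e e' : V} (h : s.H e e') :
    s.phi (u, u', e, e') ≤ 1 / (2 * (28195 * (NN t : ℝ) * (27893 * (NN t : ℝ)))) := by
  have hN := Phi1_pos ht
  have h2 : 28195 * (NN t : ℝ) * (27893 * (NN t : ℝ)) ≤ s.AA e e' := by exact_mod_cast s.AA_ge h
  simp only [phi, if_neg (s.H_mem _ _ h).2.2]
  exact one_div_le_one_div_of_le (by positivity) (by linarith)

end Sub

end Pool.Agent.P.MP_c18ddb_co.X
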