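import Pool.Agent.P.MP_c18ddb_co.X.Phi1

/-! The pairs that must be covered have load exactly one. -/

namespace Pool.Agent.P.MP_c18ddb_co.X

open Finset

namespace Sub

variable {V : Type} [DecidableEq V] {t : ℕ} (s : Sub V t)

theorem ld_symm (x y : V) : s.ld x y = s.ld y x := by
  unfold ld
  rw [filter_congr fun f _ => and_comm]

theorem Phi2_mem_vs {x a b c d : V} : x ∈ vs (a, b, c, d) ↔ x = a ∨ x = b ∨ x = c ∨ x = d := by
  simp only [vs, mem_insert, mem_singleton]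

open Classical in
theorem Phi2_in {u u' : V} (hu : u ∈ s.P) (hu' : u' ∈ s.P) (hne : u ≠ u') :
    s.ld u u' = 2 * ∑ p ∈ ((s.Q ∪ s.E) ×ˢ (s.Q ∪ s.E)).filter
      (fun p => s.Good (u, u', p.1, p.2)), s.phi (u, u', p.1, p.2) := by
  set S := ((s.Q ∪ s.E) ×ˢ (s.Q ∪ s.E)).filter (fun p => s.Good (u, u', p.1, p.2)) with hS
  have e : s.GT.filter (fun f => u ∈ vs f ∧ u' ∈ vs f)
      = S.image (fun p => (u, u', p.1, p.2)) ∪ S.image (fun p => (u', u, p.1, p.2)) := by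
    ext ⟨a, b, c, d⟩
    simp only [mem_filter, mem_union, mem_image, mem_GT, Phi2_mem_vs, hS, mem_product,
      Prod.mk.injEq, Prod.exists]
    constructor
    · rintro ⟨hg, h1, h2⟩
      obtain ⟨-, -, -, m1, m2, n1, n2, -⟩ := s.good_mem hg
      rw [mem_union] at m1 m2
      rcases h1 with rfl | rfl | rfl | rfl
      · rcases h2 with rfl | rfl | rfl | rfl
        · exact absurd rfl hne
        · exact Or.inl ⟨c, d, ⟨⟨m1, m2⟩, hg⟩, rfl, rfl, rfl, rfl⟩
        · exact absurd hu' n1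
        · exact absurd hu' n2
      · rcases h2 with rfl | rfl | rfl | rfl
        · exact Or.inr ⟨c, d, ⟨⟨m1, m2⟩, s.good_swap1 hg⟩, rfl, rfl, rfl, rfl⟩
        · exact absurd rfl hne
        · exact absurd hu' n1
        · exact absurd hu' n2
      · exact absurd hu n1
      · exact absurd hu n2
    · rintro (⟨c', d', ⟨-, hg⟩, rfl, rfl, rfl, rfl⟩ | ⟨c', d', ⟨-, hg⟩, rfl, rfl, rfl, rfl⟩)
      · exact ⟨hg, Or.inl rfl, Or.inr (Or.inl rfl)⟩
      · exact ⟨s.good_swap1 hg, Or.inr (Or.inl rfl), Or.inl rfl⟩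
  have hd : Disjoint (S.image (fun p => (u, u', p.1, p.2)))
      (S.image (fun p => (u', u, p.1, p.2))) := by
    rw [disjoint_left]
    intro f h1 h2
    obtain ⟨p, -, rfl⟩ := mem_image.1 h1
    obtain ⟨q, -, hq⟩ := mem_image.1 h2
    exact hne (congrArg Prod.fst hq).symm
  have inj : ∀ a b : V, Set.InjOn (fun p : V × V => (a, b, p.1, p.2)) S := fun a b p _ q _ h =>
    congrArg (fun f : V × V × V × V => f.2.2) h
  unfold ld
  rw [e, sum_union hd, sum_image (inj u u'), sum_image (inj u' u), two_mul]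
  congr 1
  exact sum_congr rfl fun p _ => s.phi_swap1 _ _ _ _

open Classical in
theorem Phi2_out {w w' : V} (hw : w ∉ s.P) (hw' : w' ∉ s.P) (hne : w ≠ w') :
    s.ld w w' = 2 * ∑ p ∈ (s.P ×ˢ s.P).filter
      (fun p => s.Good (p.1, p.2, w, w')), s.phi (p.1, p.2, w, w') := by
  set S := (s.P ×ˢ s.P).filter (fun p => s.Good (p.1, p.2, w, w')) with hS
  have e : s.GT.filter (fun f => w ∈ vs f ∧ w' ∈ vs f)
      = S.image (fun p => (p.1, p.2, w, w')) ∪ S.image (fun p => (p.1, p.2, w', w)) := by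
    ext ⟨a, b, c, d⟩
    simp only [mem_filter, mem_union, mem_image, mem_GT, Phi2_mem_vs, hS, mem_product,
      Prod.mk.injEq, Prod.exists]
    constructor
    · rintro ⟨hg, h1, h2⟩
      obtain ⟨m1, m2, -⟩ := s.good_mem hg
      rcases h1 with rfl | rfl | rfl | rfl
      · exact absurd m1 hw
      · exact absurd m2 hw
      · rcases h2 with rfl | rfl | rfl | rfl
        · exact absurd m1 hw'
        · exact absurd m2 hw'
        · exact absurd rfl hne
        · exact Or.inl ⟨a, b, ⟨⟨m1, m2⟩, hg⟩, rfl, rfl, rfl, rfl⟩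
      · rcases h2 with rfl | rfl | rfl | rfl
        · exact absurd m1 hw'
        · exact absurd m2 hw'
        · exact Or.inr ⟨a, b, ⟨⟨m1, m2⟩, s.good_swap2 hg⟩, rfl, rfl, rfl, rfl⟩
        · exact absurd rfl hne
    · rintro (⟨c', d', ⟨-, hg⟩, rfl, rfl, rfl, rfl⟩ | ⟨c', d', ⟨-, hg⟩, rfl, rfl, rfl, rfl⟩)
      · exact ⟨hg, Or.inr (Or.inr (Or.inl rfl)), Or.inr (Or.inr (Or.inr rfl))⟩
      · exact ⟨s.good_swap2 hg, Or.inr (Or.inr (Or.inr rfl)), Or.inr (Or.inr (Or.inl rfl))⟩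
  have hd : Disjoint (S.image (fun p => (p.1, p.2, w, w')))
      (S.image (fun p => (p.1, p.2, w', w))) := by
    rw [disjoint_left]
    intro f h1 h2
    obtain ⟨p, -, rfl⟩ := mem_image.1 h1
    obtain ⟨q, -, hq⟩ := mem_image.1 h2
    exact hne (congrArg (fun f : V × V × V × V => f.2.2.2) hq)
  have inj : ∀ a b : V, Set.InjOn (fun p : V × V => (p.1, p.2, a, b)) S := fun a b p _ q _ h =>
    congrArg (fun f : V × V × V × V => (f.1, f.2.1)) h
  unfold ld
  rw [e, sum_union hd, sum_image (inj w w'), sum_image (inj w' w), two_mul]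
  congr 1
  exact sum_congr rfl fun p _ => s.phi_swap2 _ _ _ _

theorem Phi2_NN (ht : 0 < t) : 0 < NN t := by
  unfold NN
  omega

theorem ld_PP (ht : 0 < t) {u u' : V} (hu : u ∈ s.P) (hu' : u' ∈ s.P) (h : s.ok u u') :
    s.ld u u' = 1 := by
  classical
  have hne : u ≠ u' := fun e => s.ok_irr u' (e ▸ h)
  have hN := Phi2_NN ht
  have hQ : (s.BB u u' s.Q : ℝ) ≠ 0 := by
    have := s.BB_Q hu hu'
    exact_mod_cast (by omega : s.BB u u' s.Q ≠ 0)
  have hE : (s.BB u u' s.E : ℝ) ≠ 0 := by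
    have := s.BB_E hu hu'
    exact_mod_cast (by omega : s.BB u u' s.E ≠ 0)
  rw [s.Phi2_in hu hu' hne, ← sum_filter_add_sum_filter_not _ (fun p : V × V => p.1 = p.2)]
  have e1 : (((s.Q ∪ s.E) ×ˢ (s.Q ∪ s.E)).filter
      (fun p => s.Good (u, u', p.1, p.2))).filter (fun p : V × V => p.1 = p.2)
      = ((s.Q ∪ s.E).filter (fun w => s.av u w ∧ s.av u' w)).image (fun w => (w, w)) := by
    ext ⟨a, b⟩
    simp only [mem_filter, mem_image, mem_product, Prod.mk.injEq]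
    constructor
    · rintro ⟨⟨⟨m, -⟩, hg⟩, rfl⟩
      exact ⟨a, ⟨m, hg.2.2.2.1, hg.2.2.2.2.1⟩, rfl, rfl⟩
    · rintro ⟨w, ⟨m, h1, h2⟩, rfl, rfl⟩
      exact ⟨⟨⟨m, m⟩, hu, hu', h, h1, h2, h1, h2, Or.inl ⟨rfl, m⟩⟩, rfl⟩
  have e2 : (((s.Q ∪ s.E) ×ˢ (s.Q ∪ s.E)).filter
      (fun p => s.Good (u, u', p.1, p.2))).filter (fun p : V × V => ¬ p.1 = p.2)
      = (s.E ×ˢ s.E).filter (fun p => s.H p.1 p.2 ∧ s.Good (u, u', p.1, p.2)) := by
    ext ⟨a, b⟩
    simp only [mem_filter, mem_product]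
    constructor
    · rintro ⟨⟨-, hg⟩, hab⟩
      obtain ⟨h1, h2, h3, -⟩ := (s.good_mem hg).2.2.2.2.2.2.2 hab
      exact ⟨⟨h2, h3⟩, h1, hg⟩
    · rintro ⟨⟨h2, h3⟩, h1, hg⟩
      exact ⟨⟨⟨mem_union_right _ h2, mem_union_right _ h3⟩, hg⟩, (s.H_mem _ _ h1).2.2⟩
  have s2 : ∑ p ∈ (s.E ×ˢ s.E).filter (fun p => s.H p.1 p.2 ∧ s.Good (u, u', p.1, p.2)),
      s.phi (u, u', p.1, p.2) = s.rho u u' / 2 := by
    unfold rho
    rw [sum_div]
    refine sum_congr rfl fun p hp => ?_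
    have hab := (s.H_mem _ _ (mem_filter.1 hp).2.1).2.2
    unfold phi
    rw [if_neg hab, div_div, mul_comm]
  have sQ : ∑ w ∈ s.Q.filter (fun w => s.av u w ∧ s.av u' w), s.phi (u, u', w, w)
      = (7 / 8 - s.rho u u') / 2 := by
    rw [sum_congr rfl (g := fun _ => (7 / 8 - s.rho u u') / (2 * (s.BB u u' s.Q : ℝ)))
      (fun w hw => by
        unfold phi
        rw [if_pos rfl, if_neg (disjoint_left.1 s.dQE (mem_filter.1 hw).1)]),
      sum_const, nsmul_eq_mul, ← cnt_eq]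
    change (s.BB u u' s.Q : ℝ) * _ = _
    field_simp
  have sE : ∑ w ∈ s.E.filter (fun w => s.av u w ∧ s.av u' w), s.phi (u, u', w, w) = 1 / 16 := by
    rw [sum_congr rfl (g := fun _ => 1 / (16 * (s.BB u u' s.E : ℝ)))
      (fun w hw => by
        unfold phi
        rw [if_pos rfl, if_pos (mem_filter.1 hw).1]),
      sum_const, nsmul_eq_mul, ← cnt_eq]
    change (s.BB u u' s.E : ℝ) * _ = _
    field_simp
  rw [e1, e2, s2, sum_image (fun a _ b _ hab => congrArg Prod.fst hab), filter_union,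
    sum_union (disjoint_filter_filter s.dQE), sQ, sE]
  ring

theorem ld_PP' {u u' : V} (hu : u ∈ s.P) (hu' : u' ∈ s.P) (hne : u ≠ u') (h : ¬ s.ok u u') :
    s.ld u u' = 0 := by
  classical
  rw [s.Phi2_in hu hu' hne, sum_eq_zero, mul_zero]
  intro p hp
  exact absurd (mem_filter.1 hp).2.2.2.1 h

theorem ld_H (ht : 0 < t) {e e' : V} (h : s.H e e') : s.ld e e' = 1 := by
  classical
  obtain ⟨h1, h2, hne⟩ := s.H_mem _ _ h
  have hN := Phi2_NN ht
  have hA : (s.AA e e' : ℝ) ≠ 0 := by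
    have h3 := s.AA_ge h
    have h4 : 0 < 28195 * NN t * (27893 * NN t) := by positivity
    exact_mod_cast (by omega : s.AA e e' ≠ 0)
  rw [s.Phi2_out (disjoint_right.1 s.dPE h1) (disjoint_right.1 s.dPE h2) hne,
    sum_congr rfl (g := fun _ => 1 / (2 * (s.AA e e' : ℝ))) (fun p _ => by
      unfold phi
      rw [if_neg hne]),
    sum_const, nsmul_eq_mul, ← cnt_eq]
  change 2 * ((s.AA e e' : ℝ) * _) = _
  field_simp

theorem ld_H' {w w' : V} (hw : w ∉ s.P) (hw' : w' ∉ s.P) (hne : w ≠ w') (h : ¬ s.H w w') :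
    s.ld w w' = 0 := by
  classical
  rw [s.Phi2_out hw hw' hne, sum_eq_zero, mul_zero]
  intro p hp
  exact absurd ((s.good_mem (mem_filter.1 hp).2).2.2.2.2.2.2.2 hne).1 h

end Sub

end Pool.Agent.P.MP_c18ddb_co.X
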