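import Pool.Agent.P.MP_c18ddb_co.X.Phi1

/-! Loads of the cross pairs and of triples. -/

namespace Pool.Agent.P.MP_c18ddb_co.X

open Finset

theorem Phi3_sum_le {α : Type} {A B : Finset α} {φ : α → ℝ} {m : ℝ} {n : ℕ} (hm : 0 ≤ m)
    (hs : A ⊆ B) (hn : B.card ≤ n) (hφ : ∀ f ∈ A, φ f ≤ m) : ∑ f ∈ A, φ f ≤ n * m := by
  refine (sum_le_card_nsmul A φ m hφ).trans ?_
  rw [nsmul_eq_mul]
  exact mul_le_mul_of_nonneg_right (Nat.cast_le.2 ((card_le_card hs).trans hn)) hm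

theorem Phi3_N (t : ℕ) (ht : 0 < t) : (0 : ℝ) < NN t := by
  have : 0 < NN t := by unfold NN; omega
  exact_mod_cast this

theorem Phi3_mem_vs {V : Type} [DecidableEq V] {x a b c d : V} :
    x ∈ vs (a, b, c, d) ↔ x = a ∨ x = b ∨ x = c ∨ x = d := by
  simp only [vs, mem_insert, mem_singleton]

theorem Phi3_four {V : Type} [DecidableEq V] {f : V × V × V × V} {S : Finset V} (h : vs f ⊆ S) :
    f ∈ S ×ˢ S ×ˢ S ×ˢ S := by
  obtain ⟨a, b, c, d⟩ := f
  simp only [mem_product]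
  exact ⟨h (Phi3_mem_vs.2 (Or.inl rfl)), h (Phi3_mem_vs.2 (Or.inr (Or.inl rfl))),
    h (Phi3_mem_vs.2 (Or.inr (Or.inr (Or.inl rfl)))),
    h (Phi3_mem_vs.2 (Or.inr (Or.inr (Or.inr rfl))))⟩

theorem Phi3_card4 {V : Type} {S : Finset V} {k : ℕ} (h : S.card ≤ k) :
    (S ×ˢ S ×ˢ S ×ˢ S).card ≤ k * (k * (k * k)) := by
  simp only [card_product]
  exact Nat.mul_le_mul h (Nat.mul_le_mul h (Nat.mul_le_mul h h))

namespace Sub

variable {V : Type} [DecidableEq V] {t : ℕ} (s : Sub V t)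

theorem Phi3_tri {u w : V} (hu : u ∈ s.P) (hw : w ∉ s.P) {m : ℝ} (hm : 0 ≤ m)
    (h : ∀ a ∈ s.P, ∀ b ∈ s.P, w ∈ s.Q ∪ s.E → s.phi (a, b, w, w) ≤ m) :
    ∑ f ∈ (s.GT.filter (fun f => u ∈ vs f ∧ w ∈ vs f)).filter (fun f => f.2.2.1 = f.2.2.2),
      s.phi f ≤ (2 * (30001 * NN t) : ℕ) * m := by
  have key : ∀ f ∈ (s.GT.filter (fun f => u ∈ vs f ∧ w ∈ vs f)).filter
      (fun f => f.2.2.1 = f.2.2.2), ∃ a ∈ s.P, ∃ b ∈ s.P, f = (a, b, w, w) ∧ (u = a ∨ u = b) ∧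
        w ∈ s.Q ∪ s.E := by
    rintro ⟨a, b, c, d⟩ hf
    simp only [mem_filter, mem_GT, Phi3_mem_vs] at hf
    obtain ⟨⟨hg, h1, h2⟩, rfl⟩ := hf
    obtain ⟨a1, a2, -, a3, -, a4, -⟩ := s.good_mem hg
    have e : w = c := by
      rcases h2 with rfl | rfl | rfl | rfl
      exacts [absurd a1 hw, absurd a2 hw, rfl, rfl]
    subst e
    refine ⟨a, a1, b, a2, rfl, ?_, a3⟩
    rcases h1 with rfl | rfl | rfl | rfl
    exacts [Or.inl rfl, Or.inr rfl, absurd hu a4, absurd hu a4]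
  refine Phi3_sum_le (B := s.P.image (fun x => (u, x, w, w)) ∪ s.P.image (fun x => (x, u, w, w)))
    hm (fun f hf => ?_) ?_ fun f hf => ?_
  · obtain ⟨a, a1, b, a2, rfl, rfl | rfl, -⟩ := key f hf
    · exact mem_union_left _ (mem_image.2 ⟨b, a2, rfl⟩)
    · exact mem_union_right _ (mem_image.2 ⟨a, a1, rfl⟩)
  · refine (card_union_le _ _).trans ?_
    rw [two_mul]
    exact add_le_add (card_image_le.trans s.cardP.2) (card_image_le.trans s.cardP.2)
  · obtain ⟨a, a1, b, a2, rfl, -, a3⟩ := key f hf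
    exact h a a1 b a2 a3

theorem Phi3_quad_key {u w : V} (hu : u ∈ s.P) (hw : w ∉ s.P) {f : V × V × V × V}
    (hf : f ∈ (s.GT.filter (fun f => u ∈ vs f ∧ w ∈ vs f)).filter (fun f => ¬ f.2.2.1 = f.2.2.2)) :
    ∃ a ∈ s.P, ∃ e ∈ s.E, s.H w e ∧ w ∈ s.E ∧ (f = (u, a, w, e) ∨ f = (a, u, w, e) ∨
      f = (u, a, e, w) ∨ f = (a, u, e, w)) := by
  obtain ⟨a, b, c, d⟩ := f
  simp only [mem_filter, mem_GT, Phi3_mem_vs] at hf
  obtain ⟨⟨hg, h1, h2⟩, hne⟩ := hf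
  obtain ⟨a1, a2, -, -, -, a4, a5, a6⟩ := s.good_mem hg
  obtain ⟨b1, b2, b3, -⟩ := a6 hne
  rcases h2 with rfl | rfl | rfl | rfl
  · exact absurd a1 hw
  · exact absurd a2 hw
  · rcases h1 with rfl | rfl | rfl | rfl
    · exact ⟨b, a2, d, b3, b1, b2, Or.inl rfl⟩
    · exact ⟨a, a1, d, b3, b1, b2, Or.inr (Or.inl rfl)⟩
    · exact absurd hu a4
    · exact absurd hu a5
  · rcases h1 with rfl | rfl | rfl | rfl
    · exact ⟨b, a2, c, b2, s.H_symm _ _ b1, b3, Or.inr (Or.inr (Or.inl rfl))⟩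
    · exact ⟨a, a1, c, b2, s.H_symm _ _ b1, b3, Or.inr (Or.inr (Or.inr rfl))⟩
    · exact absurd hu a4
    · exact absurd hu a5

theorem Phi3_quad (ht : 0 < t) {u w : V} (hu : u ∈ s.P) (hw : w ∉ s.P) :
    ∑ f ∈ (s.GT.filter (fun f => u ∈ vs f ∧ w ∈ vs f)).filter (fun f => ¬ f.2.2.1 = f.2.2.2),
      s.phi f ≤ (4 * (30001 * NN t * (10001 * NN t)) : ℕ) *
        (1 / (2 * (28195 * (NN t : ℝ) * (27893 * (NN t : ℝ))))) := by
  classical
  obtain ⟨B, hB, hc⟩ : ∃ B : Finset (V × V), (∀ a ∈ s.P, ∀ e ∈ s.E, s.H w e → (a, e) ∈ B) ∧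
      B.card ≤ 30001 * NN t * (10001 * NN t) := by
    refine ⟨s.P ×ˢ s.E.filter (fun v => s.H w v),
      fun a h1 e h2 h3 => mem_product.2 ⟨h1, mem_filter.2 ⟨h2, h3⟩⟩, ?_⟩
    rw [card_product, ← cnt_eq]
    exact Nat.mul_le_mul s.cardP.2 (s.degH' w)
  refine Phi3_sum_le (B := (B.image (fun p => (u, p.1, w, p.2)) ∪
    B.image (fun p => (p.1, u, w, p.2))) ∪ (B.image (fun p => (u, p.1, p.2, w)) ∪
    B.image (fun p => (p.1, u, p.2, w)))) (by positivity) (fun f hf => ?_) ?_ fun f hf => ?_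
  · obtain ⟨a, a1, e, a2, a3, -, rfl | rfl | rfl | rfl⟩ := s.Phi3_quad_key hu hw hf
    · exact mem_union_left _ (mem_union_left _ (mem_image.2 ⟨_, hB a a1 e a2 a3, rfl⟩))
    · exact mem_union_left _ (mem_union_right _ (mem_image.2 ⟨_, hB a a1 e a2 a3, rfl⟩))
    · exact mem_union_right _ (mem_union_left _ (mem_image.2 ⟨_, hB a a1 e a2 a3, rfl⟩))
    · exact mem_union_right _ (mem_union_right _ (mem_image.2 ⟨_, hB a a1 e a2 a3, rfl⟩))
  · refine (card_union_le _ _).trans ((add_le_add ((card_union_le _ _).trans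
      (add_le_add (card_image_le.trans hc) (card_image_le.trans hc))) ((card_union_le _ _).trans
      (add_le_add (card_image_le.trans hc) (card_image_le.trans hc)))).trans (le_of_eq ?_))
    ring
  · obtain ⟨a, -, e, -, a3, -, rfl | rfl | rfl | rfl⟩ := s.Phi3_quad_key hu hw hf
    exacts [s.phi_H ht _ _ a3, s.phi_H ht _ _ a3, s.phi_H ht _ _ (s.H_symm _ _ a3),
      s.phi_H ht _ _ (s.H_symm _ _ a3)]

theorem ld_cross (ht : 0 < t) {u w : V} (hu : u ∈ s.P) (hw : w ∉ s.P) : s.ld u w ≤ 1 := by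
  have hN := Phi3_N t ht
  rw [ld, ← sum_filter_add_sum_filter_not _ (fun f : V × V × V × V => f.2.2.1 = f.2.2.2)]
  by_cases hQ : w ∈ s.Q
  · have h1 := s.Phi3_tri hu hw (m := 7 / (16 * (28195 * (NN t : ℝ)))) (by positivity)
      fun a a1 b a2 _ => s.phi_Q ht a1 a2 hQ
    rw [sum_eq_zero (s := filter (fun f : V × V × V × V => ¬ f.2.2.1 = f.2.2.2) _), add_zero]
    · refine h1.trans ?_
      push_cast
      rw [← mul_div_assoc, div_le_one (by positivity)]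
      linarith
    · intro f hf
      obtain ⟨-, -, -, -, -, a4, -⟩ := s.Phi3_quad_key hu hw hf
      exact absurd a4 (disjoint_left.1 s.dQE hQ)
  · have h1 := s.Phi3_tri hu hw (m := 1 / (16 * (18795 * (NN t : ℝ)))) (by positivity)
      fun a a1 b a2 a3 => s.phi_E ht a1 a2 ((mem_union.1 a3).resolve_left hQ)
    refine (add_le_add h1 (s.Phi3_quad ht hu hw)).trans ?_
    push_cast
    field_simp
    norm_num

theorem ld_three (ht : 0 < t) {x y z : V} (h1 : x ≠ y) (h2 : x ≠ z) (h3 : y ≠ z) :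
    ∑ f ∈ s.GT.filter (fun f => x ∈ vs f ∧ y ∈ vs f ∧ z ∈ vs f), s.phi f ≤ 1 / (NN t : ℝ) := by
  have hN := Phi3_N t ht
  have hS : ({x, y, z} : Finset V).card = 3 := card_eq_three.2 ⟨x, y, z, h1, h2, h3, rfl⟩
  have hsub : ∀ f ∈ s.GT.filter (fun f => x ∈ vs f ∧ y ∈ vs f ∧ z ∈ vs f),
      s.Good f ∧ ({x, y, z} : Finset V) ⊆ vs f := by
    intro f hf
    obtain ⟨a0, a1, a2, a3⟩ := mem_filter.1 hf
    exact ⟨s.mem_GT.1 a0, insert_subset a1 (insert_subset a2 (singleton_subset_iff.2 a3))⟩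
  rw [← sum_filter_add_sum_filter_not _ (fun f : V × V × V × V => f.2.2.1 = f.2.2.2)]
  have k1 : ∑ f ∈ (s.GT.filter (fun f => x ∈ vs f ∧ y ∈ vs f ∧ z ∈ vs f)).filter
      (fun f => f.2.2.1 = f.2.2.2), s.phi f ≤ (3 * (3 * (3 * 3)) : ℕ) * (1 / (60000 * (NN t : ℝ))) := by
    refine Phi3_sum_le (by positivity) (fun f hf => Phi3_four (S := {x, y, z}) ?_)
      (Phi3_card4 hS.le) fun f hf => ?_
    · obtain ⟨a, b, c, d⟩ := f
      obtain ⟨a1, a2⟩ := mem_filter.1 hf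
      obtain rfl : c = d := a2
      refine (eq_of_subset_of_card_le (hsub _ a1).2 ?_).ge
      rw [hS, vs, pair_eq_singleton]
      exact card_le_three
    · obtain ⟨a, b, c, d⟩ := f
      obtain ⟨a1, a2⟩ := mem_filter.1 hf
      obtain rfl : c = d := a2
      obtain ⟨b1, b2, -, b3, -⟩ := s.good_mem (hsub _ a1).1
      rcases mem_union.1 b3 with b3 | b3
      · refine (s.phi_Q ht b1 b2 b3).trans ?_
        rw [div_le_div_iff₀ (by positivity) (by positivity)]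
        linarith
      · refine (s.phi_E ht b1 b2 b3).trans ?_
        rw [div_le_div_iff₀ (by positivity) (by positivity)]
        linarith
  have k2 : ∑ f ∈ (s.GT.filter (fun f => x ∈ vs f ∧ y ∈ vs f ∧ z ∈ vs f)).filter
      (fun f => ¬ f.2.2.1 = f.2.2.2), s.phi f ≤ (80003 * NN t * (4 * (4 * (4 * 4))) : ℕ) *
        (1 / (2 * (28195 * (NN t : ℝ) * (27893 * (NN t : ℝ))))) := by
    refine Phi3_sum_le (B := (s.P ∪ s.Q ∪ s.E).biUnion fun v => insert v {x, y, z} ×ˢ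
      insert v {x, y, z} ×ˢ insert v {x, y, z} ×ˢ insert v {x, y, z}) (by positivity)
      (fun f hf => ?_) ?_ fun f hf => ?_
    · obtain ⟨a1, a2⟩ := hsub _ (mem_filter.1 hf).1
      have a3 : (vs f \ {x, y, z}).card ≤ 1 := by
        rw [card_sdiff_of_subset a2, hS]
        have := (s.vs_card a1).2
        omega
      rcases (vs f \ {x, y, z}).eq_empty_or_nonempty with a4 | ⟨v, hv⟩
      · exact mem_biUnion.2 ⟨x, s.vs_sub a1 (a2 (mem_insert_self _ _)),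
          Phi3_four ((sdiff_eq_empty_iff_subset.1 a4).trans (subset_insert _ _))⟩
      · refine mem_biUnion.2 ⟨v, s.vs_sub a1 (mem_sdiff.1 hv).1, Phi3_four fun a ha => ?_⟩
        by_cases a5 : a ∈ ({x, y, z} : Finset V)
        · exact mem_insert_of_mem a5
        · exact mem_insert.2 (Or.inl (card_le_one.1 a3 a (mem_sdiff.2 ⟨ha, a5⟩) v hv))
    · refine (card_biUnion_le_card_mul _ _ _ fun v _ => Phi3_card4 (k := 4) card_le_four).trans
        (Nat.mul_le_mul_right _ ?_)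
      have b1 := card_union_le (s.P ∪ s.Q) s.E
      have b2 := card_union_le s.P s.Q
      have b3 := s.cardP.2
      have b4 := s.cardQ.2
      have b5 := s.cardE.2
      omega
    · obtain ⟨a, b, c, d⟩ := f
      obtain ⟨a1, a2⟩ := mem_filter.1 hf
      exact s.phi_H ht a b ((s.good_mem (hsub _ a1).1).2.2.2.2.2.2.2 a2).1
  refine (add_le_add k1 k2).trans ?_
  push_cast
  field_simp
  norm_num

end Sub

end Pool.Agent.P.MP_c18ddb_co.X
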