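import Pool.Agent.P.MP_c18ddb_co.X.Kind
import Pool.Agent.P.MP_c18ddb_co.X.Greedy
import Pool.Agent.P.MP_c18ddb_co.X.Acc

/-! Cliques through the exceptional vertices. -/

namespace Pool.Agent.P.MP_c18ddb_co.X

open Finset Q

/-- the part from which position `j` of a clique of kind `q` is taken -/
def XStage_part (q : Fin 18) (j : Fin 3) : Fin 6 := if j = 1 then kb q else ka q

theorem XStage_km : ∀ q, km q = 1 ∨ km q = 2 := by decide

theorem XStage_pair : ∀ (q : Fin 18) (j j' : Fin 3), j ≠ j' → j.val ≤ km q → j'.val ≤ km q →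
    tc (XStage_part q j) (XStage_part q j') = ks q ∧
      ¬ (XStage_part q j = 0 ∧ XStage_part q j' = 0) := by decide

theorem XStage_ne5 : ∀ (q : Fin 18) (j : Fin 3), XStage_part q j ≠ 5 := by decide

theorem XStage_cnt3 : ∀ (q : Fin 18) (i : Fin 6),
    (∑ j : Fin 3, if XStage_part q j = i ∧ j.val ≤ km q then 1 else 0) =
      (if ka q = i then km q else 0) + if kb q = i then 1 else 0 := by decide

theorem XStage_d3 : ∀ q : Fin 18, d0 5 (XStage_part q 0) + d0 5 (XStage_part q 1) +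
    d0 (XStage_part q 0) (XStage_part q 1) = 0 := by decide

theorem XStage_d4 : ∀ q : Fin 18, km q = 2 → d0 5 (XStage_part q 0) + d0 5 (XStage_part q 1) +
    d0 (XStage_part q 0) (XStage_part q 1) + d0 5 (XStage_part q 2) +
    d0 (XStage_part q 0) (XStage_part q 2) + d0 (XStage_part q 1) (XStage_part q 2) = 2 := by
  decide

section
variable {V : Type} [Fintype V] [DecidableEq V]

/-- the tasks -/
def XStage_T (π : V → Fin 6) (k : V → Fin 18 → ℕ) : Finset (V × Fin 18 × ℕ) :=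
  (univ.filter fun x => π x = 5).biUnion fun x =>
    univ.biUnion fun q => (range (k x q)).image fun r => (x, q, r)

theorem XStage_mem_T {π : V → Fin 6} {k : V → Fin 18 → ℕ} {t : V × Fin 18 × ℕ} :
    t ∈ XStage_T π k ↔ π t.1 = 5 ∧ t.2.2 < k t.1 t.2.1 := by
  obtain ⟨x, q, r⟩ := t
  simp only [XStage_T, mem_biUnion, mem_filter, mem_univ, true_and, mem_image, mem_range,
    Prod.mk.injEq]
  constructor
  · rintro ⟨x', hx, q', r', hr, rfl, rfl, rfl⟩
    exact ⟨hx, hr⟩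
  · rintro ⟨hx, hr⟩
    exact ⟨x, hx, q, r, hr, rfl, rfl, rfl⟩

/-- the positions -/
def XStage_S (π : V → Fin 6) (k : V → Fin 18 → ℕ) : Finset ((V × Fin 18 × ℕ) × Fin 3) :=
  (XStage_T π k ×ˢ univ).filter fun p => p.2.val ≤ km p.1.2.1

theorem XStage_mem_S {π : V → Fin 6} {k : V → Fin 18 → ℕ} {p : (V × Fin 18 × ℕ) × Fin 3} :
    p ∈ XStage_S π k ↔ p.1 ∈ XStage_T π k ∧ p.2.val ≤ km p.1.2.1 := by
  simp [XStage_S]

theorem XStage_class (π : V → Fin 6) (k : V → Fin 18 → ℕ) (x : V) (i : Fin 6) (s : Bool) :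
    ((XStage_S π k).filter fun p =>
      p.1.1 = x ∧ XStage_part p.1.2.1 p.2 = i ∧ ks p.1.2.1 = s).card ≤ us (k x) i s := by
  have h1 : ((XStage_S π k).filter fun p =>
      p.1.1 = x ∧ XStage_part p.1.2.1 p.2 = i ∧ ks p.1.2.1 = s) ⊆
      (univ.filter fun w : Fin 18 × Fin 3 =>
        ks w.1 = s ∧ XStage_part w.1 w.2 = i ∧ w.2.val ≤ km w.1).biUnion
        fun w => (range (k x w.1)).image fun r => ((x, w.1, r), w.2) := by
    rintro ⟨⟨y, q, r⟩, j⟩ hp
    obtain ⟨hp', h0, h2, h3⟩ := mem_filter.1 hp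
    obtain ⟨hT, hj⟩ := XStage_mem_S.1 hp'
    obtain ⟨-, hr⟩ := XStage_mem_T.1 hT
    obtain rfl : y = x := h0
    exact mem_biUnion.2 ⟨(q, j), mem_filter.2 ⟨mem_univ _, h3, h2, hj⟩,
      mem_image.2 ⟨r, mem_range.2 hr, rfl⟩⟩
  refine (card_le_card h1).trans (card_biUnion_le.trans ?_)
  refine (sum_le_sum fun w _ => card_image_le.trans (card_range _).le).trans (le_of_eq ?_)
  rw [sum_filter, Fintype.sum_prod_type, us]
  refine sum_congr rfl fun q _ => ?_
  by_cases hs : ks q = s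
  · rw [if_pos hs, ← XStage_cnt3, sum_mul]
    refine sum_congr rfl fun j _ => ?_
    simp only [hs, true_and]
    split_ifs <;> simp
  · simp [hs]

theorem XStage_card (π : V → Fin 6) (c : V → V → Bool) (U : Finset V) (k : V → Fin 18 → ℕ)
    (hk : ∀ x, π x = 5 → ∀ i s, us (k x) i s ≤ cnt U fun u => π u = i ∧ c x u = s) :
    (XStage_S π k).card ≤ ps π 5 * Fintype.card V := by
  have h1 : (XStage_S π k).card = ∑ x ∈ univ.filter (fun x => π x = 5),
      ((XStage_S π k).filter fun p => p.1.1 = x).card :=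
    card_eq_sum_card_fiberwise fun p hp =>
      mem_coe.2 (mem_filter.2 ⟨mem_univ _, (XStage_mem_T.1 (XStage_mem_S.1 hp).1).1⟩)
  rw [h1, ps, ← smul_eq_mul, ← sum_const]
  refine sum_le_sum fun x hx => ?_
  have hx5 := (mem_filter.1 hx).2
  have h2 : ((XStage_S π k).filter fun p => p.1.1 = x).card =
      ∑ w : Fin 6 × Bool, (((XStage_S π k).filter fun p => p.1.1 = x).filter
        fun p => (XStage_part p.1.2.1 p.2, ks p.1.2.1) = w).card :=
    card_eq_sum_card_fiberwise fun p _ => mem_coe.2 (mem_univ _)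
  have h3 : U.card = ∑ w : Fin 6 × Bool, (U.filter fun u => (π u, c x u) = w).card :=
    card_eq_sum_card_fiberwise fun p _ => mem_coe.2 (mem_univ _)
  refine le_trans ?_ (card_le_univ U)
  rw [h2, h3]
  refine sum_le_sum fun w _ => ?_
  obtain ⟨i, s⟩ := w
  have h4 := (XStage_class π k x i s).trans (hk x hx5 i s)
  rw [cnt_eq] at h4
  simpa only [filter_filter, Prod.mk.injEq] using h4

theorem XStage_sum (π : V → Fin 6) (k : V → Fin 18 → ℕ) :
    ∑ t ∈ XStage_T π k, (km t.2.1 + 1) = ∑ x ∈ univ.filter (fun x => π x = 5), gn (k x) := by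
  rw [← sum_fiberwise_of_maps_to (s := XStage_T π k) (t := univ.filter fun x => π x = 5)
    (g := fun t => t.1) fun t ht => mem_filter.2 ⟨mem_univ _, (XStage_mem_T.1 ht).1⟩]
  refine sum_congr rfl fun x hx => ?_
  have hx5 := (mem_filter.1 hx).2
  rw [gn, ← sum_fiberwise_of_maps_to (s := (XStage_T π k).filter fun t => t.1 = x)
    (t := (univ : Finset (Fin 18))) (g := fun t => t.2.1) fun t _ => mem_univ _]
  refine sum_congr rfl fun q _ => ?_
  have h1 : ((XStage_T π k).filter fun t => t.1 = x).filter (fun t => t.2.1 = q) =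
      (range (k x q)).image fun r => (x, q, r) := by
    ext ⟨y, q', r⟩
    simp only [mem_filter, XStage_mem_T, mem_image, mem_range, Prod.mk.injEq]
    constructor
    · rintro ⟨⟨⟨-, hr⟩, rfl⟩, rfl⟩
      exact ⟨r, hr, rfl, rfl, rfl⟩
    · rintro ⟨r', hr, rfl, rfl, rfl⟩
      exact ⟨⟨⟨hx5, hr⟩, rfl⟩, rfl⟩
  rw [h1, sum_image fun r _ r' _ h => by simpa using h]
  simp [mul_comm]

end

theorem xstage {V : Type} [Fintype V] [DecidableEq V] [Nonempty V] (π : V → Fin 6)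
    (c : V → V → Bool) (hc : ∀ u v, c u v = c v u) (U : Finset V) (hU : ∀ u ∈ U, π u ≠ 5)
    (a L σ : ℕ) (hL : 0 < L) (hw : ∀ u ∈ U, cnt U (Wr π c u) ≤ a) (k : V → Fin 18 → ℕ)
    (hk : ∀ x, π x = 5 → ∀ i s, us (k x) i s = 0 ∨
      us (k x) i s + σ ≤ cnt U fun u => π u = i ∧ c x u = s)
    (hσ : ps π 5 * Fintype.card V / L + 3 * (a + 1 + 3 * L) ≤ σ) :
    ∃ M : Finset (Finset V), Pk c M ∧ (∀ K ∈ M, K.card ≤ 4) ∧
      (∀ K ∈ M, ∀ u ∈ K, ∀ v ∈ K, u ≠ v → ¬ Wr π c u v ∧ ¬ (π u = 0 ∧ π v = 0)) ∧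
      (∀ v, π v ≠ 5 → cnt M (fun K => v ∈ K) ≤ L) ∧
      ∑ x ∈ univ.filter (fun x => π x = 5), (gn (k x) : ℝ) ≤ ∑ K ∈ M, (Q.val K - dK π K) := by
  classical
  set S := XStage_S π k with hS
  set T := XStage_T π k with hT
  let b : V × Fin 18 × ℕ → Finset V := fun t => {t.1}
  let pool : (V × Fin 18 × ℕ) × Fin 3 → Finset V := fun p =>
    U.filter fun u => π u = XStage_part p.1.2.1 p.2 ∧ c p.1.1 u = ks p.1.2.1
  let ok : V → V → Prop := fun u v =>
    (u ∈ U ∧ v ∈ U ∧ u ≠ v ∧ ¬ Wr π c u v) ∨ (π u = 5 ∧ v ∈ U) ∨ (π v = 5 ∧ u ∈ U)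
  have hS5 : ∀ p ∈ S, π p.1.1 = 5 := fun p hp => (XStage_mem_T.1 (XStage_mem_S.1 hp).1).1
  have hsym : ∀ x y, ok x y → ok y x := by
    rintro x y (⟨h1, h2, h3, h4⟩ | h | h)
    · exact Or.inl ⟨h2, h1, h3.symm, fun h => h4 (h.symm hc)⟩
    · exact Or.inr (Or.inr h)
    · exact Or.inr (Or.inl h)
  have hirr : ∀ x, ¬ ok x x := by
    rintro x (⟨-, -, h3, -⟩ | h | h)
    · exact h3 rfl
    · exact hU x h.2 h.1
    · exact hU x h.2 h.1
  have hcard : S.card ≤ ps π 5 * Fintype.card V := by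
    refine XStage_card π c U k fun x hx i s => ?_
    rcases hk x hx i s with h | h <;> omega
  obtain ⟨z, hz1, hz2, hz3, hz4⟩ := greedy S Prod.fst b pool (fun _ => 0) ok (a + 1) L 0 hL
    hsym hirr
    (fun p _ => by
      have : (S.filter fun q => q.1 = p.1) ⊆ {p.1} ×ˢ univ := by
        intro q hq
        exact mem_product.2 ⟨mem_singleton.2 (mem_filter.1 hq).2, mem_univ _⟩
      have h2 := card_le_card this
      simp only [card_product, card_singleton, card_univ, Fintype.card_fin] at h2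
      simp only [b, card_singleton]
      omega)
    (fun p hp y hy v hv => by
      rw [mem_singleton.1 hv]
      exact Or.inr (Or.inl ⟨hS5 p hp, (mem_filter.1 hy).1⟩))
    (fun p _ u hu v hv => by
      rw [mem_singleton.1 hu, mem_singleton.1 hv]
      exact hirr _)
    (fun p _ q _ _ _ y hy => by
      have hyU := (mem_filter.1 hy).1
      have h1 : cnt (pool p) (fun w => ¬ ok y w) ≤
          cnt U (Wr π c y) + cnt {y} (fun _ => True) := by
        refine cnt_le_add fun w hw hno => ?_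
        have hwU := (mem_filter.1 hw).1
        by_cases h : y = w
        · exact Or.inr ⟨mem_singleton.2 h.symm, trivial⟩
        · refine Or.inl ⟨hwU, ?_⟩
          by_contra hn
          exact hno (Or.inl ⟨hyU, hwU, h, hn⟩)
      have h2 := cnt_le_card ({y} : Finset V) (fun _ => True)
      rw [card_singleton] at h2
      have h3 := hw y hyU
      omega)
    (fun p _ y hy => by
      have hyU := (mem_filter.1 hy).1
      refine (cnt_le_of_subset (t := ∅) fun q hq h => ?_).trans (by simp)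
      exact absurd ((mem_singleton.1 h).symm ▸ hS5 q hq : π y = 5) (hU y hyU))
    (fun p hp => by
      have h1 := XStage_class π k p.1.1 (XStage_part p.1.2.1 p.2) (ks p.1.2.1)
      set F := (XStage_S π k).filter fun q => q.1.1 = p.1.1 ∧
        XStage_part q.1.2.1 q.2 = XStage_part p.1.2.1 p.2 ∧ ks q.1.2.1 = ks p.1.2.1 with hF
      have hpF : p ∈ F := mem_filter.2 ⟨hp, rfl, rfl, rfl⟩
      have h2 : cnt S (fun q => q ≠ p ∧ (0 : ℕ) ≤ 0 ∧ ¬ Disjoint (b q.1) (b p.1) ∧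
          ¬ Disjoint (pool q) (pool p)) ≤ (F.erase p).card := by
        refine cnt_le_of_subset fun q hq h => ?_
        obtain ⟨h3, -, h4, h5⟩ := h
        have h6 : q.1.1 = p.1.1 := by
          by_contra hn
          exact h4 (disjoint_singleton.2 hn)
        obtain ⟨w, hw1, hw2⟩ := not_disjoint_iff.1 h5
        obtain ⟨-, e1, e2⟩ := mem_filter.1 hw1
        obtain ⟨-, e3, e4⟩ := mem_filter.1 hw2
        refine mem_erase.2 ⟨h3, mem_filter.2 ⟨hq, h6, e1.symm.trans e3, ?_⟩⟩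
        rw [← e2, ← e4, h6]
      rw [card_erase_of_mem hpF] at h2
      have h3 : 0 < F.card := card_pos.2 ⟨p, hpF⟩
      have h4 := hk p.1.1 (hS5 p hp) (XStage_part p.1.2.1 p.2) (ks p.1.2.1)
      rw [cnt_eq] at h4
      have h5 : S.card / L ≤ ps π 5 * Fintype.card V / L := Nat.div_le_div_right hcard
      have h6 : (pool p).card = (U.filter fun u =>
          π u = XStage_part p.1.2.1 p.2 ∧ c p.1.1 u = ks p.1.2.1).card := rfl
      omega)
  have hzU : ∀ p ∈ S, z p ∈ U := fun p hp => (mem_filter.1 (hz1 p hp)).1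
  have hzπ : ∀ p ∈ S, π (z p) = XStage_part p.1.2.1 p.2 := fun p hp =>
    (mem_filter.1 (hz1 p hp)).2.1
  have hzc : ∀ p ∈ S, c p.1.1 (z p) = ks p.1.2.1 := fun p hp => (mem_filter.1 (hz1 p hp)).2.2
  have hmem : ∀ t u, u ∈ KK S Prod.fst b z t ↔ u = t.1 ∨ ∃ j, (t, j) ∈ S ∧ z (t, j) = u := by
    intro t u
    simp only [KK, b, mem_union, mem_singleton, mem_image, mem_filter]
    refine or_congr Iff.rfl ⟨?_, ?_⟩
    · rintro ⟨⟨t', j⟩, ⟨h1, rfl⟩, h2⟩
      exact ⟨j, h1, h2⟩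
    · rintro ⟨j, h1, h2⟩
      exact ⟨(t, j), ⟨h1, rfl⟩, h2⟩
  have h0 : ∀ t ∈ T, (t, (0 : Fin 3)) ∈ S := fun t ht => XStage_mem_S.2 ⟨ht, Nat.zero_le _⟩
  have h1 : ∀ t ∈ T, (t, (1 : Fin 3)) ∈ S := fun t ht => XStage_mem_S.2 ⟨ht, by
    rcases XStage_km t.2.1 with h | h <;> simp [h]⟩
  have hxz : ∀ p ∈ S, p.1.1 ≠ z p := fun p hp h => hU _ (hzU p hp) (h ▸ hS5 p hp)
  have hzz : ∀ t j j', (t, j) ∈ S → (t, j') ∈ S → j ≠ j' →
      z (t, j) ≠ z (t, j') ∧ ¬ Wr π c (z (t, j)) (z (t, j')) := by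
    intro t j j' hj hj' hne
    rcases hz2 (t, j) hj (t, j') hj' rfl (fun h => hne (congrArg Prod.snd h).symm) with
      h | h | h
    · exact h.2.2
    · exact absurd h.1 (hU _ (hzU _ hj))
    · exact absurd h.1 (hU _ (hzU _ hj'))
  -- all pairs of a clique
  have hpair : ∀ t ∈ T, ∀ u ∈ KK S Prod.fst b z t, ∀ v ∈ KK S Prod.fst b z t, u ≠ v →
      ok u v ∧ c u v = ks t.2.1 ∧ ¬ Wr π c u v ∧ ¬ (π u = 0 ∧ π v = 0) := by
    intro t ht u hu v hv hne
    have h5 : π t.1 = 5 := (XStage_mem_T.1 ht).1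
    rcases (hmem t u).1 hu with rfl | ⟨j, hj, rfl⟩
    · rcases (hmem t v).1 hv with rfl | ⟨j', hj', rfl⟩
      · exact absurd rfl hne
      · refine ⟨Or.inr (Or.inl ⟨h5, hzU _ hj'⟩), hzc _ hj', fun h => h.2.1 h5, fun h => ?_⟩
        rw [h5] at h
        exact absurd h.1 (by decide)
    · rcases (hmem t v).1 hv with rfl | ⟨j', hj', rfl⟩
      · refine ⟨Or.inr (Or.inr ⟨h5, hzU _ hj⟩), (hc _ _).trans (hzc _ hj),
          fun h => h.2.2.1 h5, fun h => ?_⟩
        rw [h5] at h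
        exact absurd h.2 (by decide)
      · have hjj : j ≠ j' := fun h => hne (by rw [h])
        obtain ⟨e1, e2⟩ := hzz t j j' hj hj' hjj
        obtain ⟨e3, e4⟩ := XStage_pair t.2.1 j j' hjj (XStage_mem_S.1 hj).2 (XStage_mem_S.1 hj').2
        have e5 : ¬ (π (z (t, j)) = 0 ∧ π (z (t, j')) = 0) := by
          rw [hzπ _ hj, hzπ _ hj']
          exact e4
        refine ⟨Or.inl ⟨hzU _ hj, hzU _ hj', e1, e2⟩, ?_, e2, e5⟩
        by_contra hn
        refine e2 ⟨e1, hU _ (hzU _ hj), hU _ (hzU _ hj'), e5, ?_⟩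
        rw [hzπ _ hj, hzπ _ hj']
        exact fun h => hn (h.trans e3)
  have hlin : ∀ t ∈ T, ∀ t' ∈ T, ∀ x y, x ≠ y → x ∈ KK S Prod.fst b z t →
      y ∈ KK S Prod.fst b z t → x ∈ KK S Prod.fst b z t' → y ∈ KK S Prod.fst b z t' → t = t' :=
    fun t ht t' ht' x y hne a1 a2 a3 a4 =>
      hz4 (t, 0) (h0 t ht) (t', 0) (h0 t' ht') x y (hpair t ht x a1 y a2 hne).1 a1 a2 a3 a4
  -- shape and value of a clique
  have hshape : ∀ t ∈ T, 3 ≤ (KK S Prod.fst b z t).card ∧ (KK S Prod.fst b z t).card ≤ 4 ∧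
      Q.val (KK S Prod.fst b z t) - dK π (KK S Prod.fst b z t) = ((km t.2.1 + 1 : ℕ) : ℝ) := by
    intro t ht
    have h5 : π t.1 = 5 := (XStage_mem_T.1 ht).1
    have n0 : t.1 ≠ z (t, 0) := hxz (t, 0) (h0 t ht)
    have n1 : t.1 ≠ z (t, 1) := hxz (t, 1) (h1 t ht)
    have n01 := (hzz t 0 1 (h0 t ht) (h1 t ht) (by decide)).1
    rcases XStage_km t.2.1 with hq | hq
    · have hK : KK S Prod.fst b z t = {t.1, z (t, 0), z (t, 1)} := by
        ext u
        rw [hmem]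
        simp only [mem_insert, mem_singleton]
        refine or_congr Iff.rfl ⟨?_, ?_⟩
        · rintro ⟨j, hj, rfl⟩
          have h2 := (XStage_mem_S.1 hj).2
          rw [hq] at h2
          fin_cases j
          · exact Or.inl rfl
          · exact Or.inr rfl
          · simp at h2
        · rintro (rfl | rfl)
          · exact ⟨0, h0 t ht, rfl⟩
          · exact ⟨1, h1 t ht, rfl⟩
      have hcd : ({t.1, z (t, 0), z (t, 1)} : Finset V).card = 3 :=
        card_eq_three.2 ⟨_, _, _, n0, n1, n01, rfl⟩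
      rw [hK, hcd, dK_pair π n0 n1 n01, h5, hzπ _ (h0 t ht), hzπ _ (h1 t ht), Q.val, hcd, hq]
      refine ⟨le_rfl, by norm_num, ?_⟩
      have h6 := congrArg (Nat.cast : ℕ → ℝ) (XStage_d3 t.2.1)
      push_cast at h6
      norm_num [Nat.choose]
      linarith
    · have h2 : (t, (2 : Fin 3)) ∈ S := XStage_mem_S.2 ⟨ht, by simp [hq]⟩
      have n2 : t.1 ≠ z (t, 2) := hxz (t, 2) h2
      have n02 := (hzz t 0 2 (h0 t ht) h2 (by decide)).1
      have n12 := (hzz t 1 2 (h1 t ht) h2 (by decide)).1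
      have hK : KK S Prod.fst b z t = {t.1, z (t, 0), z (t, 1), z (t, 2)} := by
        ext u
        rw [hmem]
        simp only [mem_insert, mem_singleton]
        refine or_congr Iff.rfl ⟨?_, ?_⟩
        · rintro ⟨j, hj, rfl⟩
          fin_cases j
          · exact Or.inl rfl
          · exact Or.inr (Or.inl rfl)
          · exact Or.inr (Or.inr rfl)
        · rintro (rfl | rfl | rfl)
          · exact ⟨0, h0 t ht, rfl⟩
          · exact ⟨1, h1 t ht, rfl⟩
          · exact ⟨2, h2, rfl⟩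
      have hcd : ({t.1, z (t, 0), z (t, 1), z (t, 2)} : Finset V).card = 4 := by
        rw [card_insert_of_notMem (by simp [n0, n1, n2]),
          card_insert_of_notMem (by simp [n01, n02]), card_insert_of_notMem (by simp [n12]),
          card_singleton]
      rw [hK, hcd, dK_four π n0 n1 n01 n2 n02 n12, h5, hzπ _ (h0 t ht), hzπ _ (h1 t ht),
        hzπ _ h2, Q.val, hcd, hq]
      refine ⟨by norm_num, le_rfl, ?_⟩
      have h6 := congrArg (Nat.cast : ℕ → ℝ) (XStage_d4 t.2.1 hq)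
      push_cast at h6
      norm_num [Nat.choose]
      linarith
  refine ⟨T.image (KK S Prod.fst b z), ⟨?_, ?_⟩, ?_, ?_, ?_, ?_⟩
  · intro K hK
    obtain ⟨t, ht, rfl⟩ := mem_image.1 hK
    exact mem_Cl (hshape t ht).1 ((hshape t ht).2.1.trans (by norm_num)) (ks t.2.1)
      fun u hu v hv hne => (hpair t ht u hu v hv hne).2.1
  · intro K hK K' hK' x y hne a1 a2 a3 a4
    obtain ⟨t, ht, rfl⟩ := mem_image.1 hK
    obtain ⟨t', ht', rfl⟩ := mem_image.1 hK'
    rw [hlin t ht t' ht' x y hne a1 a2 a3 a4]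
  · intro K hK
    obtain ⟨t, ht, rfl⟩ := mem_image.1 hK
    exact (hshape t ht).2.1
  · intro K hK u hu v hv hne
    obtain ⟨t, ht, rfl⟩ := mem_image.1 hK
    exact (hpair t ht u hu v hv hne).2.2
  · intro v hv
    refine le_trans ?_ (hz3 v)
    rw [cnt_eq S]
    refine le_trans (cnt_le_of_subset fun K hK hvK => ?_)
      (card_image_le (f := fun p => KK S Prod.fst b z p.1))
    obtain ⟨t, ht, rfl⟩ := mem_image.1 hK
    rcases (hmem t v).1 hvK with rfl | ⟨j, hj, hjv⟩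
    · exact absurd (XStage_mem_T.1 ht).1 hv
    · exact mem_image.2 ⟨(t, j), mem_filter.2 ⟨hj, hjv⟩, rfl⟩
  · have hinj : Set.InjOn (KK S Prod.fst b z) T := by
      intro t ht t' ht' h
      have a1 : t.1 ∈ KK S Prod.fst b z t := (hmem _ _).2 (Or.inl rfl)
      have a2 : z (t, 0) ∈ KK S Prod.fst b z t := (hmem _ _).2 (Or.inr ⟨0, h0 t ht, rfl⟩)
      exact hlin t ht t' ht' t.1 (z (t, 0)) (hxz (t, 0) (h0 t ht)) a1 a2 (h ▸ a1) (h ▸ a2)
    rw [sum_image hinj, sum_congr rfl fun t ht => (hshape t ht).2.2, ← Nat.cast_sum, ← Nat.cast_sum, XStage_sum]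

end Pool.Agent.P.MP_c18ddb_co.X
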