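import Pool.Agent.P.MP_c18ddb_co.X.Gain
import Pool.Agent.P.MP_c18ddb_co.X.XStage

/-! The packing through the exceptional vertices, with real parameters. -/

namespace Pool.Agent.P.MP_c18ddb_co.X

open Finset Q

theorem QA_split {V : Type} (U : Finset V) (π : V → Fin 6) (f : V → Bool) (i : Fin 6) :
    cnt U (fun u => π u = i ∧ f u = true) + cnt U (fun u => π u = i ∧ f u = false) =
      cnt U fun u => π u = i := by
  classical
  rw [cnt_eq, cnt_eq, cnt_eq, ← card_filter_add_card_filter_not (s := U.filter fun u => π u = i)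
    (fun u => f u = true), filter_filter, filter_filter]
  congr 2
  exact filter_congr fun u _ => by simp

theorem QA_le_ps {V : Type} [Fintype V] (U : Finset V) (π : V → Fin 6) (i : Fin 6) :
    cnt U (fun u => π u = i) ≤ ps π i := by
  unfold ps
  exact cnt_le_of_subset fun a _ h => mem_filter.2 ⟨mem_univ _, h⟩

theorem QA_far {V : Type} (U : Finset V) (π : V → Fin 6) (f : V → Bool)
    (hU : ∀ u ∈ U, π u ≠ 5) (j : Fin 6) :
    cnt U (fun u => ¬ (j = 0 ∧ π u = 0) ∧ f u ≠ tc j (π u)) ≤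
      ∑ i, if i ≠ 5 ∧ ¬ (j = 0 ∧ i = 0) then cnt U (fun u => π u = i ∧ f u = !tc j i) else 0 := by
  classical
  rw [cnt_eq, card_eq_sum_card_fiberwise (f := π) (t := univ) fun _ _ => mem_univ _]
  refine sum_le_sum fun i _ => ?_
  split_ifs with h
  · rw [cnt_eq]
    refine card_le_card fun u hu => ?_
    rw [mem_filter, mem_filter] at hu
    obtain ⟨⟨h1, -, h3⟩, h4⟩ := hu
    refine mem_filter.2 ⟨h1, h4, ?_⟩
    rw [h4] at h3
    revert h3
    cases f u <;> cases tc j i <;> simp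
  · rw [Nat.le_zero, card_eq_zero, filter_eq_empty_iff]
    intro u hu h4
    obtain ⟨h1, h2, -⟩ := mem_filter.1 hu
    exact h ⟨h4 ▸ hU u h1, h4 ▸ h2⟩

theorem QA_sz (i : Fin 6) : (sz i = 0 ∨ 2 ≤ sz i) ∧ sz i ≤ 3 := by
  revert i
  decide

theorem QA_num (θ n σ : ℝ) (hθ : 0 < θ) (hθ1 : θ ≤ 1) (hn : 10 ^ 7 ≤ θ * n)
    (hσ : σ ≤ 47 * (θ / 10 ^ 7) * n + 12) :
    (3 / 7 + θ / 400) * n ≤
      (6 + 3 * θ / 64) * ((1 / 14 - 4 * (θ / 10 ^ 7) ^ 2) * n) - 54 * (σ + 1) := by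
  have hn0 : 0 < n := by
    by_contra h
    push Not at h
    nlinarith
  set w := θ * n with hw
  have h1 : θ * w ≤ w := by nlinarith
  have h0 : 0 ≤ θ * w := by nlinarith
  have h2 : θ * (θ * w) ≤ w := by nlinarith
  have e : (6 + 3 * θ / 64) * ((1 / 14 - 4 * (θ / 10 ^ 7) ^ 2) * n) =
      3 / 7 * n + 3 / 896 * w - 24 / 10 ^ 14 * (θ * w) - 12 / 64 / 10 ^ 14 * (θ * (θ * w)) := by
    rw [hw]
    ring
  have e2 : (3 / 7 + θ / 400) * n = 3 / 7 * n + w / 400 := by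
    rw [hw]
    ring
  have e3 : 47 * (θ / 10 ^ 7) * n = 47 / 10 ^ 7 * w := by
    rw [hw]
    ring
  rw [e, e2]
  rw [e3] at hσ
  linarith

theorem qa (θ : ℝ) (hθ : 0 < θ) (hθ1 : θ ≤ 1) : ∃ α : ℝ, 0 < α ∧ α ≤ θ / 100 ∧ ∃ n0 : ℕ,
    ∀ (V : Type) [Fintype V] [DecidableEq V] (c : V → V → Bool) (π : V → Fin 6) (U : Finset V),
      n0 ≤ Fintype.card V → (∀ u v, c u v = c v u) → Cln θ α c π U →
      ∃ M : Finset (Finset V), Pk c M ∧ (∀ K ∈ M, K.card ≤ 4) ∧
        (∀ K ∈ M, ∀ u ∈ K, ∀ v ∈ K, u ≠ v → ¬ Wr π c u v ∧ ¬ (π u = 0 ∧ π v = 0)) ∧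
        (∀ v, π v ≠ 5 → (cnt M (fun K => v ∈ K) : ℝ) ≤ θ / 100 * Fintype.card V) ∧
        (3 / 7 + θ / 400) * Fintype.card V * ps π 5 ≤ ∑ K ∈ M, (Q.val K - dK π K) := by
  classical
  set b : ℝ := θ / 10 ^ 7 with hb
  have hb0 : 0 < b := by positivity
  have hb1 : b ≤ 1 / 10 ^ 7 := by
    rw [hb]
    gcongr
  have hα1 : b ^ 2 ≤ b / 10 ^ 7 := by nlinarith
  refine ⟨b ^ 2, by positivity, by nlinarith, ⌈10 ^ 7 / θ⌉₊, ?_⟩
  intro V _ _ c π U hn hc h
  set n : ℝ := (Fintype.card V : ℝ) with hnd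
  have hn1 : 10 ^ 7 ≤ θ * n := by
    have h1 : 10 ^ 7 / θ ≤ n := (Nat.le_ceil _).trans (by rw [hnd]; exact_mod_cast hn)
    rw [div_le_iff₀ hθ] at h1
    linarith
  have hn0 : 0 < n := by
    by_contra h'
    push Not at h'
    nlinarith
  have hbn : 1 ≤ b * n := by
    rw [hb, div_mul_eq_mul_div, le_div_iff₀ (by norm_num)]
    linarith
  have : Nonempty V := by
    rw [← Fintype.card_pos_iff]
    have : (0 : ℝ) < (Fintype.card V : ℝ) := hn0
    exact_mod_cast this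
  set L : ℕ := ⌈b * n⌉₊ with hL
  set a : ℕ := ⌊b ^ 2 * n⌋₊ with ha
  have hL1 : b * n ≤ L := Nat.le_ceil _
  have hL2 : (L : ℝ) ≤ b * n + 1 := (Nat.ceil_lt_add_one (by positivity)).le
  have hL0 : 0 < L := by
    have : (0 : ℝ) < L := by linarith
    exact_mod_cast this
  have ha1 : (a : ℝ) ≤ b ^ 2 * n := Nat.floor_le (by positivity)
  set σ : ℕ := ps π 5 * Fintype.card V / L + 3 * (a + 1 + 3 * L) with hσ
  have hp5 : (ps π 5 : ℝ) ≤ 35 * b ^ 2 * n := by
    have := h.hi 5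
    have e : sz 5 = 0 := rfl
    rw [e] at this
    simpa using this
  have hσ1 : (σ : ℝ) ≤ 47 * b * n + 12 := by
    have h1 : ((ps π 5 * Fintype.card V / L : ℕ) : ℝ) ≤ 35 * b * n := by
      refine Nat.cast_div_le.trans ?_
      rw [div_le_iff₀ (by exact_mod_cast hL0), Nat.cast_mul]
      calc (ps π 5 : ℝ) * n ≤ 35 * b ^ 2 * n * n := by gcongr
        _ = 35 * b * n * (b * n) := by ring
        _ ≤ 35 * b * n * L := by gcongr
    have h2 : b ^ 2 * n ≤ b * n := by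
      have : b ^ 2 ≤ b := by nlinarith
      gcongr
    rw [hσ]
    push_cast
    linarith
  have hk : ∀ x, ∃ k : Fin 18 → ℕ, π x = 5 →
      (∀ i s, us k i s = 0 ∨ us k i s + σ ≤ cnt U fun u => π u = i ∧ c x u = s) ∧
        (3 / 7 + θ / 400) * n ≤ gn k := by
    intro x
    by_cases hx : π x = 5
    swap
    · exact ⟨fun _ => 0, fun h' => absurd h' hx⟩
    have hs : ∀ i, ((cnt U fun u => π u = i ∧ c x u = true : ℕ) : ℝ) +
        (cnt U fun u => π u = i ∧ c x u = false : ℕ) = (cnt U fun u => π u = i : ℕ) := by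
      intro i
      exact_mod_cast QA_split U π (c x) i
    obtain ⟨k, hk1, hk2⟩ := gain θ ((1 / 14 - 4 * b ^ 2) * n) n hθ hθ1
      (fun i s => cnt U fun u => π u = i ∧ c x u = s) σ
      (fun i => by
        rw [hs i]
        rcases (QA_sz i).1 with h0 | h0
        · rw [h0]
          simp
        · refine le_trans ?_ (h.lo i)
          have h0' : (2 : ℝ) ≤ sz i := by exact_mod_cast h0
          have hq : 0 ≤ b ^ 2 * n := by positivity
          have e1 : (sz i : ℝ) * ((1 / 14 - 4 * b ^ 2) * n) =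
              sz i / 14 * n - 4 * (sz i * (b ^ 2 * n)) := by ring
          have e2 : ((sz i : ℝ) / 14 - 7 * b ^ 2) * n = sz i / 14 * n - 7 * (b ^ 2 * n) := by ring
          rw [e1, e2]
          nlinarith)
      (fun i _ => by
        rw [hs i]
        have h1 : ((cnt U fun u => π u = i : ℕ) : ℝ) ≤ ps π i := by
          exact_mod_cast QA_le_ps U π i
        have h2 := h.hi i
        have h3 : (sz i : ℝ) ≤ 3 := by exact_mod_cast (QA_sz i).2
        have h4 : (sz i : ℝ) / 14 + 35 * b ^ 2 ≤ 1 / 4 := by nlinarith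
        have h5 : ((sz i : ℝ) / 14 + 35 * b ^ 2) * n ≤ 1 / 4 * n := by gcongr
        linarith)
      (fun j hj => by
        refine (h.far x hx j hj).trans ?_
        have := QA_far U π (c x) h.ne5 j
        have h2 : ((cnt U fun u => ¬ (j = 0 ∧ π u = 0) ∧ c x u ≠ tc j (π u) : ℕ) : ℝ) ≤
            ((∑ i, if i ≠ 5 ∧ ¬ (j = 0 ∧ i = 0) then
              cnt U (fun u => π u = i ∧ c x u = !tc j i) else 0 : ℕ) : ℝ) := by
          exact_mod_cast this
        refine h2.trans (le_of_eq ?_)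
        rw [Nat.cast_sum]
        exact sum_congr rfl fun i _ => by split_ifs <;> simp)
    exact ⟨k, fun _ => ⟨hk1, (QA_num θ n σ hθ hθ1 hn1 hσ1).trans hk2⟩⟩
  choose k hk using hk
  obtain ⟨M, h1, h2, h3, h4, h5⟩ := xstage π c hc U h.ne5 a L σ hL0
    (fun u hu => Nat.le_floor (h.wU u hu)) k (fun x hx => (hk x hx).1) le_rfl
  refine ⟨M, h1, h2, h3, fun v hv => ?_, le_trans ?_ h5⟩
  · have h6 : ((cnt M fun K => v ∈ K : ℕ) : ℝ) ≤ L := by exact_mod_cast h4 v hv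
    have h7 : b * n = θ * n / 10 ^ 7 := by
      rw [hb]
      ring
    have h8 : θ / 100 * n = θ * n / 100 := by ring
    rw [h8]
    linarith
  · have h6 := card_nsmul_le_sum (univ.filter fun x => π x = 5) (fun x => (gn (k x) : ℝ))
      ((3 / 7 + θ / 400) * n) fun x hx => (hk x (mem_filter.1 hx).2).2
    rw [nsmul_eq_mul, mul_comm] at h6
    exact h6

end Pool.Agent.P.MP_c18ddb_co.X
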