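import Pool.Agent.P.MP_c18ddb_co.X.Greedy
import Pool.Agent.P.MP_c18ddb_co.X.Acc

/-! Every wrong pair gains at least one. -/

namespace Pool.Agent.P.MP_c18ddb_co.X

open Finset Q

theorem WStage_ex : ∀ i j : Fin 6, ∃ l : Fin 6, i ≠ 5 → j ≠ 5 → ¬ (i = 0 ∧ j = 0) →
    l ≠ 5 ∧ l ≠ i ∧ l ≠ j ∧ tc i l = !tc i j ∧ tc j l = !tc i j ∧ d0 i l = 0 ∧ d0 j l = 0 ∧
      (i ≠ j → d0 i j = 0) ∧ (i = j → l ≠ 0 ∧ tc l l = !tc i j ∧ d0 i j = 2 ∧ d0 l l = 2) := by
  intro i j
  refine ⟨⟨(if i = j then 3 * i.val else 3 * (i.val + j.val)) % 5, by omega⟩, ?_⟩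
  fin_cases i <;> fin_cases j <;> simp [tc, d0]

theorem WStage_cnt_le_of_inj {α β : Type} {s : Finset α} {p : α → Prop} (t : Finset β)
    (f : α → β) (h1 : ∀ a ∈ s, p a → f a ∈ t)
    (h2 : ∀ a ∈ s, p a → ∀ b ∈ s, p b → f a = f b → a = b) : cnt s p ≤ t.card := by
  classical
  rw [cnt_eq]
  refine card_le_card_of_injOn f (fun a ha => ?_) (fun a ha b hb hab => ?_)
  · have := mem_filter.1 (mem_coe.1 ha)
    exact mem_coe.2 (h1 a this.1 this.2)
  · have h := mem_filter.1 (mem_coe.1 ha)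
    have h' := mem_filter.1 (mem_coe.1 hb)
    exact h2 a h.1 h.2 b h'.1 h'.2 hab

theorem WStage_cnt_image {α β : Type} [DecidableEq β] (s : Finset α) (f : α → β)
    (p : β → Prop) : cnt (s.image f) p ≤ cnt s (fun a => p (f a)) := by
  classical
  rw [cnt_eq, cnt_eq, filter_image]
  exact card_image_le

theorem wstage {V : Type} [Fintype V] [DecidableEq V] (π : V → Fin 6)
    (c : V → V → Bool) (hc : ∀ u v, c u v = c v u) (fb : V → V → Prop)
    (hs : ∀ u v, fb u v → fb v u) (hw : ∀ u v, Wr π c u v → fb u v) (a L s0 : ℕ) (hL : 0 < L)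
    (ha : ∀ v, π v ≠ 5 → cnt univ (fb v) ≤ a) (hs0 : ∀ i, i ≠ 5 → s0 ≤ ps π i)
    (hn : Fintype.card V * a / L + 15 * a + 9 * L + 5 < s0) :
    ∃ M : Finset (Finset V), Pk c M ∧ (∀ K ∈ M, K.card ≤ 4) ∧
      (∀ K ∈ M, ∀ u ∈ K, ∀ v ∈ K, u ≠ v → (Wr π c u v ∨ ¬ fb u v) ∧ ¬ (π u = 0 ∧ π v = 0)) ∧
      (∀ u v, Wr π c u v → Cv M u v) ∧ (∀ v, cnt M (fun K => v ∈ K) ≤ L + a) ∧
      (wrN π c : ℝ) / 2 ≤ ∑ K ∈ M, (Q.val K - dK π K) := by
  classical
  choose l hl using WStage_ex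
  have hne : Nonempty V := by
    have h1 := hs0 0 (by decide)
    have h2 : 0 < ps π 0 := lt_of_lt_of_le (lt_of_le_of_lt (Nat.zero_le _) hn) h1
    obtain ⟨v, -⟩ := card_pos.1 h2
    exact ⟨v⟩
  let e := Fintype.equivFin V
  let ok : V → V → Prop := fun x y => x ≠ y ∧ π x ≠ 5 ∧ π y ≠ 5 ∧ ¬ fb x y
  let T : Finset (V × V) := univ.filter fun t => Wr π c t.1 t.2 ∧ e t.1 < e t.2
  let S : Finset ((V × V) × Bool) :=
    univ.filter fun p => p.1 ∈ T ∧ (p.2 = true → π p.1.1 = π p.1.2)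
  let b : V × V → Finset V := fun t => {t.1, t.2}
  let pool : (V × V) × Bool → Finset V := fun p =>
    univ.filter fun y => π y = l (π p.1.1) (π p.1.2) ∧ ok p.1.1 y ∧ ok p.1.2 y
  have hT : ∀ t, t ∈ T ↔ Wr π c t.1 t.2 ∧ e t.1 < e t.2 := fun t => by simp [T]
  have hS : ∀ p, p ∈ S ↔ p.1 ∈ T ∧ (p.2 = true → π p.1.1 = π p.1.2) := fun p => by
    simp only [S, mem_filter, mem_univ, true_and]
  have hpool : ∀ p y, y ∈ pool p ↔
      π y = l (π p.1.1) (π p.1.2) ∧ ok p.1.1 y ∧ ok p.1.2 y := fun p y => by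
    simp only [pool, mem_filter, mem_univ, true_and]
  have hsym : ∀ x y, ok x y → ok y x := fun x y h =>
    ⟨h.1.symm, h.2.2.1, h.2.1, fun h' => h.2.2.2 (hs _ _ h')⟩
  have hb5 : ∀ t ∈ T, ∀ z ∈ b t, π z ≠ 5 := by
    intro t ht z hz
    have h := ((hT t).1 ht).1
    rcases mem_insert.1 hz with rfl | hz
    · exact h.2.1
    · rw [mem_singleton.1 hz]
      exact h.2.2.1
  have hnok : ∀ (z : V) (s : Finset V), π z ≠ 5 → (∀ y ∈ s, π y ≠ 5) →
      cnt s (fun y => ¬ ok z y) ≤ a + 1 := by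
    intro z s hz hs5
    have h1 : cnt s (fun y => ¬ ok z y) ≤ cnt univ (fb z) + cnt {z} (fun _ => True) := by
      refine cnt_le_add fun y hy hy' => ?_
      by_cases hyz : z = y
      · exact Or.inr ⟨mem_singleton.2 hyz.symm, trivial⟩
      · refine Or.inl ⟨mem_univ _, ?_⟩
        by_contra hf
        exact hy' ⟨hyz, hz, hs5 y hy, hf⟩
    have h2 := cnt_le_card ({z} : Finset V) (fun _ => True)
    have h3 := ha z hz
    rw [card_singleton] at h2
    omega
  have hpart : ∀ t ∈ T, ∀ t' ∈ T, ∀ z, z ∈ b t → z ∈ b t' →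
      (if t.1 = z then t.2 else t.1) = (if t'.1 = z then t'.2 else t'.1) → t = t' := by
    rintro ⟨u, v⟩ ht ⟨u', v'⟩ ht' z hz hz' h
    have h1 := ((hT _).1 ht).2
    have h2 := ((hT _).1 ht').2
    simp only [b, mem_insert, mem_singleton] at hz hz' h h1 h2
    by_cases g1 : u = z
    · by_cases g2 : u' = z
      · rw [if_pos g1, if_pos g2] at h
        rw [g1, g2, h]
      · rw [if_pos g1, if_neg g2] at h
        have g3 : z = v' := hz'.resolve_left fun h => g2 h.symm
        subst g1 h g3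
        exact absurd h1 (lt_asymm h2)
    · have g3 : z = v := hz.resolve_left fun h => g1 h.symm
      by_cases g2 : u' = z
      · rw [if_neg g1, if_pos g2] at h
        subst g2 h g3
        exact absurd h1 (lt_asymm h2)
      · rw [if_neg g1, if_neg g2] at h
        have g4 : z = v' := hz'.resolve_left fun h => g2 h.symm
        rw [h, ← g3, ← g4]
  have hpfb : ∀ t ∈ T, ∀ z, z ∈ b t → fb z (if t.1 = z then t.2 else t.1) := by
    rintro ⟨u, v⟩ ht z hz
    have h1 := hw _ _ ((hT _).1 ht).1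
    simp only [b, mem_insert, mem_singleton] at hz h1 ⊢
    by_cases g1 : u = z
    · rw [if_pos g1, ← g1]
      exact h1
    · rw [if_neg g1, hz.resolve_left fun h => g1 h.symm]
      exact hs _ _ h1
  have hTa : ∀ z, cnt T (fun t => z ∈ b t) ≤ a := by
    intro z
    by_cases hz : π z = 5
    · have : cnt T (fun t => z ∈ b t) ≤ (∅ : Finset (V × V)).card :=
        cnt_le_of_subset fun t ht h => absurd hz (hb5 t ht z h)
      rw [card_empty] at this
      omega
    · refine le_trans ?_ (ha z hz)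
      rw [cnt_eq univ]
      exact WStage_cnt_le_of_inj _ (fun t => if t.1 = z then t.2 else t.1)
        (fun t ht h => mem_filter.2 ⟨mem_univ _, hpfb t ht z h⟩)
        (fun t ht h t' ht' h' hh => hpart t ht t' ht' z h h' hh)
  have hSa : ∀ z, cnt S (fun q => z ∈ b q.1) ≤ 2 * a := by
    intro z
    have h1 : cnt S (fun q => z ∈ b q.1) ≤
        ((T.filter fun t => z ∈ b t) ×ˢ (univ : Finset Bool)).card :=
      cnt_le_of_subset fun q hq h =>
        mem_product.2 ⟨mem_filter.2 ⟨((hS q).1 hq).1, h⟩, mem_univ _⟩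
    rw [card_product, ← cnt_eq, card_univ, Fintype.card_bool] at h1
    have := hTa z
    omega
  have hwr : wrN π c ≤ Fintype.card V * a := by
    rw [wrN_eq]
    have : ∀ u ∈ (univ : Finset V), cnt univ (Wr π c u) ≤ a := by
      intro u _
      by_cases hu : π u = 5
      · have : cnt univ (Wr π c u) ≤ (∅ : Finset V).card :=
          cnt_le_of_subset fun v _ h => absurd hu h.2.1
        rw [card_empty] at this
        omega
      · exact (cnt_mono fun v hv h => ⟨hv, hw _ _ h⟩).trans (ha u hu)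
    have h2 := sum_le_card_nsmul _ _ _ this
    rwa [card_univ, smul_eq_mul] at h2
  have hScard : S.card ≤ Fintype.card V * a := by
    refine le_trans ?_ hwr
    unfold wrN
    rw [cnt_eq]
    refine card_le_card_of_injOn (fun p => if p.2 = true then p.1.swap else p.1)
      (fun p hp => ?_) (fun p hp q hq hpq => ?_)
    · have h := ((hT _).1 ((hS p).1 (mem_coe.1 hp)).1).1
      refine mem_coe.2 (mem_filter.2 ⟨mem_univ _, ?_⟩)
      by_cases g : p.2 = true
      · simp only [if_pos g]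
        exact h.symm hc
      · simp only [if_neg g]
        exact h
    · have h1 := ((hT _).1 ((hS p).1 (mem_coe.1 hp)).1).2
      have h2 := ((hT _).1 ((hS q).1 (mem_coe.1 hq)).1).2
      obtain ⟨⟨u, v⟩, j⟩ := p
      obtain ⟨⟨u', v'⟩, j'⟩ := q
      cases j <;> cases j' <;>
        simp only [Bool.false_eq_true, if_true, if_false, Prod.swap_prod_mk, Prod.mk.injEq]
          at hpq h1 h2 <;> obtain ⟨rfl, rfl⟩ := hpq
      · rfl
      · exact absurd h1 (lt_asymm h2)
      · exact absurd h1 (lt_asymm h2)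
      · rfl
  have hpc : ∀ p ∈ S, s0 ≤ (pool p).card + 2 * a + 2 := by
    intro p hp
    have h := ((hT _).1 ((hS p).1 hp).1).1
    obtain ⟨l5, -⟩ := hl _ _ h.2.1 h.2.2.1 h.2.2.2.1
    refine (hs0 _ l5).trans ?_
    set A := univ.filter fun v => π v = l (π p.1.1) (π p.1.2) with hA
    have hA5 : ∀ y ∈ A, π y ≠ 5 := fun y hy => by
      rw [(mem_filter.1 hy).2]
      exact l5
    have h1 := cnt_add_not A (fun y => ok p.1.1 y ∧ ok p.1.2 y)
    have h2 : cnt A (fun y => ok p.1.1 y ∧ ok p.1.2 y) ≤ (pool p).card :=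
      cnt_le_of_subset fun y hy hy' => (hpool p y).2 ⟨(mem_filter.1 hy).2, hy'⟩
    have h3 : cnt A (fun y => ¬ (ok p.1.1 y ∧ ok p.1.2 y)) ≤
        cnt A (fun y => ¬ ok p.1.1 y) + cnt A (fun y => ¬ ok p.1.2 y) :=
      cnt_le_add fun y hy hy' => by
        rcases not_and_or.1 hy' with g | g
        · exact Or.inl ⟨hy, g⟩
        · exact Or.inr ⟨hy, g⟩
    have h4 := hnok p.1.1 A h.2.1 hA5
    have h5 := hnok p.1.2 A h.2.2.1 hA5
    show A.card ≤ _
    omega
  have hbb : ∀ t ∈ T, ∀ u ∈ b t, ∀ v ∈ b t, u ≠ v → Wr π c u v := by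
    rintro ⟨x, y⟩ ht u hu v hv huv
    have h := ((hT _).1 ht).1
    simp only [b, mem_insert, mem_singleton] at hu hv h
    rcases hu with rfl | rfl <;> rcases hv with rfl | rfl
    · exact absurd rfl huv
    · exact h
    · exact h.symm hc
    · exact absurd rfl huv
  obtain ⟨z, hz1, hz2, hz3, hz4⟩ := greedy S Prod.fst b pool (fun _ => 0) ok (a + 1) L (2 * a) hL
    hsym (fun x h => h.1 rfl)
    (fun p _ => by
      have h1 : (b p.1).card ≤ 2 := card_le_two
      have h2 : (S.filter fun q => q.1 = p.1).card ≤ 2 := by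
        refine le_trans (card_le_card (t := {(p.1, false), (p.1, true)}) ?_) card_le_two
        rintro ⟨t, j⟩ hq
        have := (mem_filter.1 hq).2
        simp only at this
        subst this
        cases j <;> simp
      omega)
    (fun p _ y hy v hv => by
      have h := (hpool p y).1 hy
      rcases mem_insert.1 hv with rfl | hv
      · exact h.2.1
      · rw [mem_singleton.1 hv]
        exact h.2.2)
    (fun p hp u hu v hv h => h.2.2.2 (hw _ _ (hbb _ ((hS p).1 hp).1 u hu v hv h.1)))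
    (fun p _ q _ _ _ y hy => hnok y _ ((hpool q y).1 hy).2.1.2.2.1
      fun w hw' => ((hpool p w).1 hw').2.1.2.2.1)
    (fun p _ y _ => hSa y)
    (fun p hp => by
      have h1 : cnt S (fun q => q ≠ p ∧ (0 : ℕ) ≤ 0 ∧ ¬ Disjoint (b q.1) (b p.1) ∧
          ¬ Disjoint (pool q) (pool p)) ≤
          cnt S (fun q => p.1.1 ∈ b q.1) + cnt S (fun q => p.1.2 ∈ b q.1) := by
        refine cnt_le_add fun q hq h => ?_
        obtain ⟨y, hy1, hy2⟩ := not_disjoint_iff.1 h.2.2.1
        rcases mem_insert.1 hy2 with rfl | hy2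
        · exact Or.inl ⟨hq, hy1⟩
        · rw [mem_singleton.1 hy2] at hy1
          exact Or.inr ⟨hq, hy1⟩
      have h2 := hSa p.1.1
      have h3 := hSa p.1.2
      have h4 := hpc p hp
      have h5 : S.card / L ≤ Fintype.card V * a / L := Nat.div_le_div_right hScard
      omega)
  let K : V × V → Finset V := KK S Prod.fst b z
  have hS0 : ∀ t ∈ T, (t, false) ∈ S := fun t ht => (hS _).2 ⟨ht, fun h => absurd h (by simp)⟩
  have hK : ∀ t x, x ∈ K t ↔ x ∈ b t ∨ ∃ j, (t, j) ∈ S ∧ z (t, j) = x := by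
    intro t x
    simp only [K, KK, mem_union, mem_image, mem_filter]
    refine or_congr Iff.rfl ⟨?_, ?_⟩
    · rintro ⟨⟨t', j⟩, ⟨h1, h2⟩, h3⟩
      simp only at h2
      subst h2
      exact ⟨j, h1, h3⟩
    · rintro ⟨j, h1, h2⟩
      exact ⟨(t, j), ⟨h1, rfl⟩, h2⟩
  have hcol : ∀ x y, ok x y → ¬ (π x = 0 ∧ π y = 0) → c x y = tc (π x) (π y) := by
    intro x y h h0
    by_contra hcon
    exact h.2.2.2 (hw _ _ ⟨h.1, h.2.1, h.2.2.1, h0, hcon⟩)
  have hcb : ∀ t ∈ T, c t.1 t.2 = !tc (π t.1) (π t.2) := by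
    intro t ht
    have h := ((hT _).1 ht).1.2.2.2.2
    revert h
    cases c t.1 t.2 <;> cases tc (π t.1) (π t.2) <;> simp
  have hbz : ∀ t ∈ T, ∀ x ∈ b t, ∀ j, (t, j) ∈ S → ok x (z (t, j)) ∧
      ¬ (π x = 0 ∧ π (z (t, j)) = 0) ∧ c x (z (t, j)) = !tc (π t.1) (π t.2) := by
    intro t ht x hx j hj
    have h := ((hT _).1 ht).1
    obtain ⟨-, l1, l2, l3, l4, -⟩ := hl _ _ h.2.1 h.2.2.1 h.2.2.2.1
    obtain ⟨p1, p2, p3⟩ := (hpool _ _).1 (hz1 _ hj)
    simp only at p1 p2 p3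
    rcases mem_insert.1 hx with rfl | hx
    · have h0 : ¬ (π t.1 = 0 ∧ π (z (t, j)) = 0) := fun g => l1 (by rw [← p1, g.1, g.2])
      exact ⟨p2, h0, by rw [hcol _ _ p2 h0, p1, l3]⟩
    · rw [mem_singleton.1 hx]
      have h0 : ¬ (π t.2 = 0 ∧ π (z (t, j)) = 0) := fun g => l2 (by rw [← p1, g.1, g.2])
      exact ⟨p3, h0, by rw [hcol _ _ p3 h0, p1, l4]⟩
  have hzz : ∀ t ∈ T, ∀ j j', (t, j) ∈ S → (t, j') ∈ S → j ≠ j' → ok (z (t, j)) (z (t, j')) ∧
      ¬ (π (z (t, j)) = 0 ∧ π (z (t, j')) = 0) ∧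
      c (z (t, j)) (z (t, j')) = !tc (π t.1) (π t.2) := by
    intro t ht j j' hj hj' hjj
    have h := ((hT _).1 ht).1
    have hi : π t.1 = π t.2 := by
      cases j
      · cases j'
        · exact absurd rfl hjj
        · exact ((hS _).1 hj').2 rfl
      · exact ((hS _).1 hj).2 rfl
    obtain ⟨-, -, -, -, -, -, -, -, l9⟩ := hl _ _ h.2.1 h.2.2.1 h.2.2.2.1
    obtain ⟨m1, m2, -⟩ := l9 hi
    have p1 := ((hpool _ _).1 (hz1 _ hj)).1
    have p2 := ((hpool _ _).1 (hz1 _ hj')).1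
    simp only at p1 p2
    have hok := hz2 _ hj _ hj' rfl (fun g => hjj (Prod.ext_iff.1 g).2.symm)
    have h0 : ¬ (π (z (t, j)) = 0 ∧ π (z (t, j')) = 0) := fun g => m1 (by rw [← p1, g.1])
    exact ⟨hok, h0, by rw [hcol _ _ hok h0, p1, p2, m2]⟩
  have hpair : ∀ t ∈ T, ∀ x ∈ K t, ∀ y ∈ K t, x ≠ y → ((x ∈ b t ∧ y ∈ b t) ∨ ok x y) ∧
      ¬ (π x = 0 ∧ π y = 0) ∧ c x y = !tc (π t.1) (π t.2) := by
    intro t ht x hx y hy hxy
    rcases (hK t x).1 hx with hx | ⟨j, hj, rfl⟩ <;> rcases (hK t y).1 hy with hy | ⟨j', hj', rfl⟩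
    · refine ⟨Or.inl ⟨hx, hy⟩, (hbb t ht x hx y hy hxy).2.2.2.1, ?_⟩
      have := hcb t ht
      simp only [b, mem_insert, mem_singleton] at hx hy
      rcases hx with rfl | rfl <;> rcases hy with rfl | rfl
      · exact absurd rfl hxy
      · exact this
      · rw [hc]
        exact this
      · exact absurd rfl hxy
    · obtain ⟨h1, h2, h3⟩ := hbz t ht x hx j' hj'
      exact ⟨Or.inr h1, h2, h3⟩
    · obtain ⟨h1, h2, h3⟩ := hbz t ht y hy j hj
      exact ⟨Or.inr (hsym _ _ h1), fun g => h2 ⟨g.2, g.1⟩, by rw [hc, h3]⟩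
    · obtain ⟨h1, h2, h3⟩ := hzz t ht j j' hj hj' (fun g => hxy (by rw [g]))
      exact ⟨Or.inr h1, h2, h3⟩
  have hlin : ∀ t ∈ T, ∀ t' ∈ T, ∀ x y, x ≠ y → x ∈ K t → y ∈ K t → x ∈ K t' → y ∈ K t' →
      t = t' := by
    intro t ht t' ht' x y hxy h1 h2 h3 h4
    by_cases hok : ok x y
    · exact hz4 _ (hS0 t ht) _ (hS0 t' ht') x y hok h1 h2 h3 h4
    · obtain ⟨g1, g2⟩ := (hpair t ht x h1 y h2 hxy).1.resolve_right hok
      obtain ⟨g3, g4⟩ := (hpair t' ht' x h3 y h4 hxy).1.resolve_right hok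
      refine hpart t ht t' ht' x g1 g3 ?_
      have key : ∀ s : V × V, x ∈ b s → y ∈ b s → (if s.1 = x then s.2 else s.1) = y := by
        rintro ⟨u, v⟩ k1 k2
        simp only [b, mem_insert, mem_singleton] at k1 k2 ⊢
        by_cases g : u = x
        · rw [if_pos g]
          exact (k2.resolve_left fun h => hxy (by rw [← g, h])).symm
        · rw [if_neg g]
          have := k1.resolve_left fun h => g h.symm
          exact (k2.resolve_right fun h => hxy (by rw [this, h])).symm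
      rw [key t g1 g2, key t' g3 g4]
  have hb1 : ∀ t, t.1 ∈ K t := fun t => (hK _ _).2 (Or.inl (mem_insert_self _ _))
  have hb2 : ∀ t, t.2 ∈ K t := fun t =>
    (hK _ _).2 (Or.inl (mem_insert_of_mem (mem_singleton_self _)))
  have hshape : ∀ t ∈ T, 3 ≤ (K t).card ∧ (K t).card ≤ 4 ∧ 1 ≤ Q.val (K t) - dK π (K t) := by
    intro t ht
    have h := ((hT _).1 ht).1
    obtain ⟨-, -, -, -, -, l6, l7, l8, l9⟩ := hl _ _ h.2.1 h.2.2.1 h.2.2.2.1
    obtain ⟨p1, p2, p3⟩ := (hpool _ _).1 (hz1 _ (hS0 t ht))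
    simp only at p1 p2 p3
    by_cases hi : π t.1 = π t.2
    · have hS1 : (t, true) ∈ S := (hS _).2 ⟨ht, fun _ => hi⟩
      obtain ⟨q1, q2, q3⟩ := (hpool _ _).1 (hz1 _ hS1)
      simp only at q1 q2 q3
      have hzz' := (hzz t ht false true (hS0 t ht) hS1 (by simp)).1.1
      obtain ⟨-, -, m3, m4⟩ := l9 hi
      have hKe : K t = {t.1, t.2, z (t, false), z (t, true)} := by
        ext x
        rw [hK]
        simp only [b, mem_insert, mem_singleton]
        constructor
        · rintro ((g | g) | ⟨j, -, g⟩)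
          · exact Or.inl g
          · exact Or.inr (Or.inl g)
          · cases j
            · exact Or.inr (Or.inr (Or.inl g.symm))
            · exact Or.inr (Or.inr (Or.inr g.symm))
        · rintro (g | g | g | g)
          · exact Or.inl (Or.inl g)
          · exact Or.inl (Or.inr g)
          · exact Or.inr ⟨false, hS0 t ht, g.symm⟩
          · exact Or.inr ⟨true, hS1, g.symm⟩
      have hcard : (K t).card = 4 := by
        rw [hKe, card_insert_of_notMem, card_insert_of_notMem, card_pair hzz']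
        · simp [p3.1, q3.1]
        · simp [h.1, p2.1, q2.1]
      refine ⟨by omega, by omega, ?_⟩
      unfold Q.val
      rw [hcard, hKe, dK_four π h.1 p2.1 p3.1 q2.1 q3.1 hzz', p1, q1, l6, l7, m3, m4]
      norm_num [Nat.choose]
    · have hKe : K t = {t.1, t.2, z (t, false)} := by
        ext x
        rw [hK]
        simp only [b, mem_insert, mem_singleton]
        constructor
        · rintro ((g | g) | ⟨j, hj, g⟩)
          · exact Or.inl g
          · exact Or.inr (Or.inl g)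
          · cases j
            · exact Or.inr (Or.inr g.symm)
            · exact absurd (((hS _).1 hj).2 rfl) hi
        · rintro (g | g | g)
          · exact Or.inl (Or.inl g)
          · exact Or.inl (Or.inr g)
          · exact Or.inr ⟨false, hS0 t ht, g.symm⟩
      have hcard : (K t).card = 3 := by
        rw [hKe, card_insert_of_notMem, card_pair p3.1]
        simp [h.1, p2.1]
      refine ⟨by omega, by omega, ?_⟩
      unfold Q.val
      rw [hcard, hKe, dK_pair π h.1 p2.1 p3.1, p1, l6, l7, l8 hi]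
      norm_num [Nat.choose]
  refine ⟨T.image K, ⟨?_, ?_⟩, ?_, ?_, ?_, ?_, ?_⟩
  · intro K' hK'
    obtain ⟨t, ht, rfl⟩ := mem_image.1 hK'
    obtain ⟨h1, h2, -⟩ := hshape t ht
    exact mem_Cl h1 (by omega) _ fun u hu v hv huv => (hpair t ht u hu v hv huv).2.2
  · intro K1 hK1 K2 hK2 x y hxy h1 h2 h3 h4
    obtain ⟨t, ht, rfl⟩ := mem_image.1 hK1
    obtain ⟨t', ht', rfl⟩ := mem_image.1 hK2
    rw [hlin t ht t' ht' x y hxy h1 h2 h3 h4]
  · intro K' hK'
    obtain ⟨t, ht, rfl⟩ := mem_image.1 hK'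
    exact (hshape t ht).2.1
  · intro K' hK' u hu v hv huv
    obtain ⟨t, ht, rfl⟩ := mem_image.1 hK'
    obtain ⟨h1, h2, -⟩ := hpair t ht u hu v hv huv
    refine ⟨?_, h2⟩
    rcases h1 with h1 | h1
    · exact Or.inl (hbb t ht u h1.1 v h1.2 huv)
    · exact Or.inr h1.2.2.2
  · intro u v h
    rcases lt_trichotomy (e u) (e v) with g | g | g
    · exact ⟨K (u, v), mem_image_of_mem _ ((hT _).2 ⟨h, g⟩), hb1 (u, v), hb2 (u, v)⟩
    · exact absurd (e.injective g) h.1
    · exact ⟨K (v, u), mem_image_of_mem _ ((hT _).2 ⟨h.symm hc, g⟩), hb2 (v, u), hb1 (v, u)⟩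
  · intro v
    refine (WStage_cnt_image T K _).trans ?_
    have h1 : cnt T (fun t => v ∈ K t) ≤ cnt T (fun t => v ∈ b t) +
        cnt ((S.filter fun p => z p = v).image Prod.fst) (fun _ => True) := by
      refine cnt_le_add fun t ht h => ?_
      rcases (hK t v).1 h with h | ⟨j, hj, h⟩
      · exact Or.inl ⟨ht, h⟩
      · exact Or.inr ⟨mem_image.2 ⟨(t, j), mem_filter.2 ⟨hj, h⟩, rfl⟩, trivial⟩
    have h2 := (cnt_le_card ((S.filter fun p => z p = v).image Prod.fst) (fun _ => True)).trans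
      card_image_le
    have h3 := hz3 v
    rw [cnt_eq] at h3
    have h4 := hTa v
    omega
  · have hinj : Set.InjOn K T := fun t ht t' ht' h =>
      hlin t ht t' ht' t.1 t.2 ((hT _).1 ht).1.1 (hb1 t) (hb2 t) (h ▸ hb1 t) (h ▸ hb2 t)
    rw [sum_image hinj]
    have h1 : wrN π c ≤ 2 * T.card := by
      have h2 : wrN π c ≤ cnt T (fun _ => True) + cnt (T.image Prod.swap) (fun _ => True) := by
        unfold wrN
        refine cnt_le_add fun p _ h => ?_
        rcases lt_trichotomy (e p.1) (e p.2) with g | g | g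
        · exact Or.inl ⟨(hT _).2 ⟨h, g⟩, trivial⟩
        · exact absurd (e.injective g) h.1
        · exact Or.inr ⟨mem_image.2 ⟨p.swap, (hT _).2 ⟨h.symm hc, g⟩, Prod.swap_swap p⟩, trivial⟩
      have h3 := cnt_le_card T (fun _ => True)
      have h4 := (cnt_le_card (T.image Prod.swap) (fun _ => True)).trans card_image_le
      omega
    have h2 := card_nsmul_le_sum T (fun t => Q.val (K t) - dK π (K t)) 1
      fun t ht => (hshape t ht).2.2
    rw [nsmul_eq_mul, mul_one] at h2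
    have h3 : (wrN π c : ℝ) ≤ 2 * T.card := by exact_mod_cast h1
    linarith

end Pool.Agent.P.MP_c18ddb_co.X
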