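import Pool.Agent.P.MP_c18ddb_co.X.QA
import Pool.Agent.P.MP_c18ddb_co.X.WStage
import Pool.Agent.P.MP_c18ddb_co.X.Clean
import Pool.Agent.P.MP_c18ddb_co.X.CL4

/-! The exact packing near the template. -/

namespace Pool.Agent.P.MP_c18ddb_co.X

open Finset Q

/-- near the template there is a packing that beats the dual weights -/
def QLs (ε κ : ℝ) (n1 : ℕ) : Prop :=
  ∀ (V : Type) [Fintype V] [DecidableEq V] (c : V → V → Bool), n1 ≤ Fintype.card V →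
    (∀ u v, c u v = c v u) → Close ε c → ∃ (π : V → Fin 6) (M : Finset (Finset V)), Pk c M ∧
      (Fv π : ℝ) + (wrN π c : ℝ) / 2 + (3 / 7 + κ) * Fintype.card V * ps π 5 ≤ ∑ K ∈ M, Q.val K

theorem QL_cv_symm {V : Type} {M : Finset (Finset V)} {x y : V} (h : Cv M x y) : Cv M y x := by
  obtain ⟨K, hK, hx, hy⟩ := h
  exact ⟨K, hK, hy, hx⟩

theorem QL_cv_union {V : Type} [DecidableEq V] {M N : Finset (Finset V)} {x y : V} :
    Cv (M ∪ N) x y ↔ Cv M x y ∨ Cv N x y := by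
  constructor
  · rintro ⟨K, hK, hx, hy⟩
    rcases mem_union.1 hK with h | h
    · exact Or.inl ⟨K, h, hx, hy⟩
    · exact Or.inr ⟨K, h, hx, hy⟩
  · rintro (⟨K, hK, hx, hy⟩ | ⟨K, hK, hx, hy⟩)
    · exact ⟨K, mem_union_left _ hK, hx, hy⟩
    · exact ⟨K, mem_union_right _ hK, hx, hy⟩

theorem QL_deg {V : Type} [Fintype V] [DecidableEq V] (fb : V → V → Prop)
    {M : Finset (Finset V)} (h4 : ∀ K ∈ M, K.card ≤ 4) (v : V) :
    cnt univ (fun y => fb v y ∨ (v ≠ y ∧ Cv M v y)) ≤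
      cnt univ (fb v) + 3 * cnt M fun K => v ∈ K := by
  refine le_trans (cnt_le_add (t := univ) (u := univ) (q := fb v)
    (r := fun y => y ≠ v ∧ Cv M v y) ?_) (Nat.add_le_add_left (cnt_Cv_le h4 v univ) _)
  rintro y - (h | h)
  · exact Or.inl ⟨mem_univ _, h⟩
  · exact Or.inr ⟨mem_univ _, h.1.symm, h.2⟩

theorem QL_cnt_ps {V : Type} [Fintype V] [DecidableEq V] (π : V → Fin 6) (U : Finset V)
    (i : Fin 6) : cnt U (fun u => π u = i) ≤ ps π i :=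
  cnt_le_of_subset fun _ _ h => mem_filter.2 ⟨mem_univ _, h⟩

theorem QL_sz : ∀ i : Fin 6, i ≠ 5 → 2 ≤ sz i := by decide

theorem QL_num {β : ℝ} (hβ : 0 < β) (hβ1 : β ≤ 1 / 100000) {n : ℕ}
    (hn : 20 * (1 / β + 30) ≤ (n : ℝ)) :
    n * ⌈2 * β ^ 2 * n⌉₊ / ⌈β * n⌉₊ + 15 * ⌈2 * β ^ 2 * n⌉₊ + 9 * ⌈β * n⌉₊ + 5 < n / 10 := by
  have hb : 0 < 1 / β := by positivity
  have hn0 : (0 : ℝ) < n := by linarith
  have ha : (⌈2 * β ^ 2 * n⌉₊ : ℝ) < 2 * β ^ 2 * n + 1 := Nat.ceil_lt_add_one (by positivity)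
  have hL : (⌈β * n⌉₊ : ℝ) < β * n + 1 := Nat.ceil_lt_add_one (by positivity)
  have hL' : β * n ≤ (⌈β * n⌉₊ : ℝ) := Nat.le_ceil _
  generalize ⌈2 * β ^ 2 * n⌉₊ = a at ha
  generalize ⌈β * n⌉₊ = L at hL hL'
  have hLp : (0 : ℝ) < L := lt_of_lt_of_le (by positivity) hL'
  have h1 : ((n * a / L : ℕ) : ℝ) ≤ 2 * β * n + 1 / β := by
    refine le_trans Nat.cast_div_le ?_
    rw [div_le_iff₀ hLp]
    push_cast
    have e : (2 * β * n + 1 / β) * (β * n) = n * (2 * β ^ 2 * n + 1) := by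
      field_simp
    calc (n : ℝ) * a ≤ n * (2 * β ^ 2 * n + 1) := mul_le_mul_of_nonneg_left ha.le hn0.le
      _ = (2 * β * n + 1 / β) * (β * n) := e.symm
      _ ≤ (2 * β * n + 1 / β) * L := mul_le_mul_of_nonneg_left hL' (by positivity)
  have h2 : (n : ℝ) < 10 * ((n / 10 : ℕ) : ℝ) + 10 := by
    have : n < 10 * (n / 10) + 10 := by omega
    exact_mod_cast this
  have h3 : β * n ≤ 1 / 100000 * n := mul_le_mul_of_nonneg_right hβ1 hn0.le
  have h4 : β ^ 2 * n ≤ β * n := by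
    refine mul_le_mul_of_nonneg_right ?_ hn0.le
    nlinarith
  have : ((n * a / L + 15 * a + 9 * L + 5 : ℕ) : ℝ) < ((n / 10 : ℕ) : ℝ) := by
    rw [Nat.cast_add, Nat.cast_add, Nat.cast_add, Nat.cast_mul 15, Nat.cast_mul 9]
    simp only [Nat.cast_ofNat]
    linarith
  exact_mod_cast this

theorem ql : ∃ ε κ : ℝ, 0 < ε ∧ 0 < κ ∧ ∃ n1 : ℕ, QLs ε κ n1 := by
  obtain ⟨τ, hτ, n0, hcl⟩ := cl4
  obtain ⟨β, hβ, hβτ, hβ1⟩ : ∃ β : ℝ, 0 < β ∧ 100 * β ≤ τ ∧ β ≤ 1 / 100000 :=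
    ⟨min τ (1 / 1000) / 100, by positivity, by linarith [min_le_left τ (1 / 1000)],
      by linarith [min_le_right τ (1 / 1000)]⟩
  have hθβ : β ^ 2 ≤ β := by nlinarith
  have hθ : 0 < β ^ 2 := by positivity
  obtain ⟨α, hα, hαθ, nq, hqa⟩ := qa (β ^ 2) hθ (by linarith)
  refine ⟨α ^ 2, β ^ 2 / 400, by positivity, by positivity,
    max (max n0 nq) ⌈20 * (1 / β + 30)⌉₊, ?_⟩
  intro V _ _ c hn hc hcls
  have hn0 : n0 ≤ Fintype.card V := le_trans (le_trans (le_max_left _ _) (le_max_left _ _)) hn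
  have hnq : nq ≤ Fintype.card V := le_trans (le_trans (le_max_right _ _) (le_max_left _ _)) hn
  have hnb : 20 * (1 / β + 30) ≤ (Fintype.card V : ℝ) :=
    Nat.ceil_le.1 (le_trans (le_max_right _ _) hn)
  have hb : 0 < 1 / β := by positivity
  have hnp : (0 : ℝ) < Fintype.card V := by linarith
  have hβn : 1 ≤ β * Fintype.card V := by
    have h1 : 1 / β ≤ (Fintype.card V : ℝ) := by linarith
    rw [div_le_iff₀ hβ] at h1
    linarith
  obtain ⟨π, U, hU⟩ := clean (β ^ 2) α hθ.le hα (by linarith) c hc hcls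
  obtain ⟨MX, hX, hX4, hXw, hXd, hXb⟩ := hqa V c π U hnq hc hU
  have hαn : α * Fintype.card V ≤ β ^ 2 / 100 * Fintype.card V :=
    mul_le_mul_of_nonneg_right hαθ hnp.le
  have hθn : β ^ 2 * Fintype.card V ≤ β * Fintype.card V :=
    mul_le_mul_of_nonneg_right hθβ hnp.le
  have hβn1 : β * Fintype.card V ≤ 1 / 100000 * Fintype.card V :=
    mul_le_mul_of_nonneg_right hβ1 hnp.le
  have hτn : 100 * β * Fintype.card V ≤ τ * Fintype.card V :=
    mul_le_mul_of_nonneg_right hβτ hnp.le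
  have hlo : ∀ i, ((sz i : ℝ) / 14 - 7 * α) * Fintype.card V ≤ ps π i := fun i =>
    (hU.lo i).trans (by exact_mod_cast QL_cnt_ps π U i)
  have hd1 : ∀ v, π v ≠ 5 → cnt univ (fun y => Wr π c v y ∨ (v ≠ y ∧ Cv MX v y)) ≤
      ⌈2 * β ^ 2 * Fintype.card V⌉₊ := by
    intro v hv
    have h1 : ((cnt univ (fun y => Wr π c v y ∨ (v ≠ y ∧ Cv MX v y)) : ℕ) : ℝ) ≤
        cnt univ (Wr π c v) + 3 * (cnt MX fun K => v ∈ K : ℕ) := by
      exact_mod_cast QL_deg (Wr π c) hX4 v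
    have h2 := hU.wV v
    have h3 := hXd v hv
    have h4 : 2 * β ^ 2 * Fintype.card V ≤ (⌈2 * β ^ 2 * Fintype.card V⌉₊ : ℝ) := Nat.le_ceil _
    have h5 : 0 ≤ β ^ 2 * Fintype.card V := by positivity
    have : ((cnt univ (fun y => Wr π c v y ∨ (v ≠ y ∧ Cv MX v y)) : ℕ) : ℝ) ≤
        (⌈2 * β ^ 2 * Fintype.card V⌉₊ : ℝ) := by linarith
    exact_mod_cast this
  have hs1 : ∀ u v, (Wr π c u v ∨ (u ≠ v ∧ Cv MX u v)) → (Wr π c v u ∨ (v ≠ u ∧ Cv MX v u)) := by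
    rintro u v (h | h)
    · exact Or.inl (h.symm hc)
    · exact Or.inr ⟨h.1.symm, QL_cv_symm h.2⟩
  obtain ⟨MW, hW, hW4, hWw, hWc, hWd, hWb⟩ := wstage π c hc
    (fun u v => Wr π c u v ∨ (u ≠ v ∧ Cv MX u v)) hs1 (fun u v h => Or.inl h)
    ⌈2 * β ^ 2 * Fintype.card V⌉₊ ⌈β * Fintype.card V⌉₊ (Fintype.card V / 10)
    (Nat.ceil_pos.2 (by linarith)) hd1 (fun i hi => by
      have h1 := hlo i
      have h2 : (2 : ℝ) ≤ sz i := by exact_mod_cast QL_sz i hi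
      have h3 : ((Fintype.card V / 10 : ℕ) : ℝ) ≤ (Fintype.card V : ℝ) / 10 := by
        simpa using (Nat.cast_div_le (α := ℝ) (m := Fintype.card V) (n := 10))
      have h4 : 2 * (Fintype.card V : ℝ) ≤ sz i * Fintype.card V :=
        mul_le_mul_of_nonneg_right h2 hnp.le
      have : ((Fintype.card V / 10 : ℕ) : ℝ) ≤ ps π i := by nlinarith
      exact_mod_cast this) (QL_num hβ hβ1 hnb)
  obtain ⟨MC, hC, hCf, hCv, hCc⟩ := hcl V π c
    (fun u v => (Wr π c u v ∨ (u ≠ v ∧ Cv MX u v)) ∨ (u ≠ v ∧ Cv MW u v)) hn0 hc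
    (by
      rintro u v (h | h)
      · exact Or.inl (hs1 u v h)
      · exact Or.inr ⟨h.1.symm, QL_cv_symm h.2⟩)
    (fun u v h => Or.inl (Or.inl h))
    (by
      rintro u v hu hv ((h | ⟨h, K, hK, h1, h2⟩) | ⟨h, K, hK, h1, h2⟩)
      · exact h.2.2.2.1 ⟨hu, hv⟩
      · exact (hXw K hK u h1 v h2 h).2 ⟨hu, hv⟩
      · exact (hWw K hK u h1 v h2 h).2 ⟨hu, hv⟩)
    (by
      intro v hv
      have h1 := QL_deg (fun u v => Wr π c u v ∨ (u ≠ v ∧ Cv MX u v)) hW4 v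
      have h2 := hd1 v hv
      have h3 := hWd v
      have h4 : cnt univ (fun y => (Wr π c v y ∨ (v ≠ y ∧ Cv MX v y)) ∨ (v ≠ y ∧ Cv MW v y)) ≤
          4 * ⌈2 * β ^ 2 * Fintype.card V⌉₊ + 3 * ⌈β * Fintype.card V⌉₊ := by omega
      have h5 : ((cnt univ (fun y => (Wr π c v y ∨ (v ≠ y ∧ Cv MX v y)) ∨
          (v ≠ y ∧ Cv MW v y)) : ℕ) : ℝ) ≤
          4 * (⌈2 * β ^ 2 * Fintype.card V⌉₊ : ℝ) + 3 * (⌈β * Fintype.card V⌉₊ : ℝ) := by
        exact_mod_cast h4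
      have ha : (⌈2 * β ^ 2 * Fintype.card V⌉₊ : ℝ) < 2 * β ^ 2 * Fintype.card V + 1 :=
        Nat.ceil_lt_add_one (by positivity)
      have hL : (⌈β * Fintype.card V⌉₊ : ℝ) < β * Fintype.card V + 1 :=
        Nat.ceil_lt_add_one (by positivity)
      exact h5.trans (by linarith))
    (by
      intro i _
      have h1 := hlo i
      have h2 := hU.hi i
      have h5 : 0 ≤ α * Fintype.card V := by positivity
      rw [abs_le]
      constructor <;> nlinarith)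
  obtain ⟨hXW, hdXW⟩ := hX.union hW (by
    rintro K hK x hx y hy hxy ⟨K', hK', h1, h2⟩
    rcases (hWw K hK x hx y hy hxy).1 with h | h
    · exact (hXw K' hK' x h1 y h2 hxy).1 h
    · exact h (Or.inr ⟨hxy, K', hK', h1, h2⟩))
  obtain ⟨hM, hdM⟩ := hXW.union hC (by
    intro K hK x hx y hy hxy h
    rcases QL_cv_union.1 h with h | h
    · exact hCf K hK x hx y hy hxy (Or.inl (Or.inr ⟨hxy, h⟩))
    · exact hCf K hK x hx y hy hxy (Or.inr ⟨hxy, h⟩))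
  refine ⟨π, MX ∪ MW ∪ MC, hM, ?_⟩
  have hF := acc_Fv π (M := MX ∪ MW ∪ MC) (by
    intro x y hxy hp h5
    by_cases h : (Wr π c x y ∨ (x ≠ y ∧ Cv MX x y)) ∨ (x ≠ y ∧ Cv MW x y)
    · rcases h with (h | h) | h
      · exact QL_cv_union.2 (Or.inl (QL_cv_union.2 (Or.inr (hWc x y h))))
      · exact QL_cv_union.2 (Or.inl (QL_cv_union.2 (Or.inl h.2)))
      · exact QL_cv_union.2 (Or.inl (QL_cv_union.2 (Or.inr h.2)))
    · exact QL_cv_union.2 (Or.inr (hCc x y hxy hp h5 h)))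
  rw [sum_union hdM, sum_union hdXW] at hF ⊢
  rw [sum_sub_distrib] at hXb hWb
  have hCb : ∑ K ∈ MC, dK π K ≤ ∑ K ∈ MC, Q.val K := sum_le_sum hCv
  linarith

end Pool.Agent.P.MP_c18ddb_co.X
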