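import Pool.Agent.P.MP_c18ddb_co.X.Acc
import Pool.Agent.P.MP_c18ddb_co.Cov

/-! A bad partition stays bad on most samples. -/

namespace Pool.Agent.P.MP_c18ddb_co.X

open Finset

theorem Samp_card {V : Type} [Fintype V] (m : ℕ) :
    (Fintype.card (Fin m → V) : ℝ) = (Fintype.card V : ℝ) ^ m := by
  classical
  simp

/-- Chebyshev bound for functions with bounded differences -/
theorem cheb {V : Type} [Fintype V] [Nonempty V] (m : ℕ) (F : (Fin m → V) → ℝ) (b a : ℝ)
    (ha : 0 < a) (hF : ∀ g g' i, (∀ j, j ≠ i → g j = g' j) → F g - F g' ≤ b) :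
    (cnt univ (fun g => a ≤ |F g - (∑ h, F h) / (Fintype.card V : ℝ) ^ m|) : ℝ) ≤
      m * b ^ 2 / a ^ 2 * (Fintype.card V : ℝ) ^ m := by
  classical
  have hn : (0 : ℝ) < Fintype.card V := by exact_mod_cast Fintype.card_pos
  set N : ℝ := (Fintype.card V : ℝ) ^ m with hN
  have hNpos : 0 < N := pow_pos hn m
  have hcard : ((univ : Finset (Fin m → V)).card : ℝ) = N := by
    rw [card_univ]; exact Samp_card m
  have hc := cov_bound b m F (fun g => - F g) hF (fun g g' i h => by
    have := hF g' g i (fun j hj => (h j hj).symm)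
    linarith)
  rw [expect_eq_sum_div_card, expect_eq_sum_div_card, expect_eq_sum_div_card, hcard] at hc
  set μ : ℝ := (∑ h, F h) / N with hμ
  have hS : ∑ h, F h = μ * N := by rw [hμ]; field_simp
  have h1 : ∑ g, - F g = - (μ * N) := by rw [sum_neg_distrib, hS]
  have h2 : ∑ g, F g * - F g = - ∑ g, F g ^ 2 := by
    rw [← sum_neg_distrib]; exact sum_congr rfl fun g _ => by ring
  rw [h1, h2] at hc
  have h3 : ∑ g, F g ^ 2 ≤ (μ ^ 2 + m * b ^ 2) * N := by
    have e1 : -(μ * N) / N = - μ := by field_simp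
    rw [e1] at hc
    have e2 : (∑ g, F g ^ 2) / N ≤ μ ^ 2 + m * b ^ 2 := by
      have : (-∑ g, F g ^ 2) / N = - ((∑ g, F g ^ 2) / N) := by ring
      rw [this] at hc
      nlinarith
    rwa [div_le_iff₀ hNpos] at e2
  have h4 : ∑ g, (F g - μ) ^ 2 ≤ m * b ^ 2 * N := by
    have : ∑ g, (F g - μ) ^ 2 = ∑ g, F g ^ 2 - 2 * μ * ∑ g, F g + μ ^ 2 * N := by
      rw [mul_sum, ← sum_sub_distrib, ← hcard, mul_comm (μ ^ 2), ← nsmul_eq_mul, ← sum_const,
        ← sum_add_distrib]
      exact sum_congr rfl fun g _ => by ring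
    rw [this, hS]
    nlinarith
  have h5 : (cnt univ (fun g => a ≤ |F g - μ|) : ℝ) * a ^ 2 ≤ ∑ g, (F g - μ) ^ 2 := by
    rw [cnt_eq, ← nsmul_eq_mul, ← sum_const]
    calc ∑ _g ∈ univ.filter (fun g => a ≤ |F g - μ|), a ^ 2
        ≤ ∑ g ∈ univ.filter (fun g => a ≤ |F g - μ|), (F g - μ) ^ 2 := by
          refine sum_le_sum fun g hg => ?_
          have := (mem_filter.1 hg).2
          rw [← sq_abs (F g - μ)]
          exact pow_le_pow_left₀ ha.le this 2
      _ ≤ ∑ g, (F g - μ) ^ 2 :=
          sum_le_sum_of_subset_of_nonneg (filter_subset _ _) fun g _ _ => sq_nonneg _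
  have ha2 : 0 < a ^ 2 := by positivity
  rw [div_mul_eq_mul_div, le_div_iff₀ ha2]
  linarith

/-- resampling one coordinate -/
theorem Samp_update {V : Type} [Fintype V] {m : ℕ} (i : Fin m) (Ψ : (Fin m → V) → ℝ) :
    (Fintype.card V : ℝ) * ∑ g, Ψ g = ∑ g : Fin m → V, ∑ u, Ψ (Function.update g i u) := by
  classical
  let f : (Fin m → V) × V → (Fin m → V) × V := fun p => (Function.update p.1 i p.2, p.1 i)
  have hf : Function.Involutive f := by
    intro p
    ext1
    · simp [f]
    · simp [f]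
  have h1 : ∑ p : (Fin m → V) × V, Ψ p.1 = ∑ p : (Fin m → V) × V, Ψ (f p).1 :=
    (Equiv.sum_comp hf.toPerm (fun p => Ψ p.1)).symm
  rw [Fintype.sum_prod_type, Fintype.sum_prod_type] at h1
  simp only [sum_const, card_univ, nsmul_eq_mul] at h1
  rw [mul_sum]
  exact h1

theorem Samp_one {V : Type} [Fintype V] {m : ℕ} (i : Fin m) (φ : V → ℝ) :
    (Fintype.card V : ℝ) * ∑ g : Fin m → V, φ (g i) = (Fintype.card V : ℝ) ^ m * ∑ u, φ u := by
  classical
  rw [Samp_update i]
  simp only [Function.update_self, sum_const, card_univ, nsmul_eq_mul]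
  rw [Samp_card]

theorem Samp_two {V : Type} [Fintype V] {m : ℕ} {i j : Fin m} (hij : i ≠ j) (φ : V → V → ℝ) :
    (Fintype.card V : ℝ) ^ 2 * ∑ g : Fin m → V, φ (g i) (g j) =
      (Fintype.card V : ℝ) ^ m * ∑ u, ∑ v, φ u v := by
  classical
  have h1 := Samp_update (V := V) i (fun g => φ (g i) (g j))
  simp only [Function.update_self, Function.update_of_ne hij.symm] at h1
  rw [pow_two, mul_assoc, h1, sum_comm, mul_sum, mul_sum]
  exact sum_congr rfl fun u _ => Samp_one j (φ u)

theorem samp {V : Type} [Fintype V] [Nonempty V] (π : V → Fin 6) (c : V → V → Bool) (ε : ℝ)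
    (hε : 0 < ε) (m : ℕ) (hm : 4 ≤ m) (h : ¬ Gd ε π c) :
    (cnt (univ : Finset (Fin m → V))
      (fun g => Gd (ε / 2) (fun i => π (g i)) fun i j => c (g i) (g j)) : ℝ) ≤
      64 / (ε ^ 2 * m) * (Fintype.card V : ℝ) ^ m := by
  classical
  have hn : (0 : ℝ) < Fintype.card V := by exact_mod_cast Fintype.card_pos
  have hm4 : (4 : ℝ) ≤ m := by exact_mod_cast hm
  have hm0 : (0 : ℝ) < m := by linarith
  set n : ℝ := (Fintype.card V : ℝ) with hndef
  have hNpos : 0 < n ^ m := pow_pos hn m
  by_cases hw : (wrN π c : ℝ) ≤ ε * n ^ 2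
  · have : ∃ i, (ps π i : ℝ) < ((sz i : ℝ) / 14 - ε) * n := by
      by_contra hcon
      push Not at hcon
      exact h ⟨hw, hcon⟩
    obtain ⟨i, hi⟩ := this
    let φ : V → ℝ := fun v => if π v = i then 1 else 0
    let F : (Fin m → V) → ℝ := fun g => ∑ j, φ (g j)
    have hφ : ∑ v, φ v = ps π i := by
      simp only [φ, ps, sum_boole]
    have hFg : ∀ g : Fin m → V, F g = ps (fun j => π (g j)) i := by
      intro g
      simp only [F, φ, ps, sum_boole]
    have hdiff : ∀ g g' k, (∀ j, j ≠ k → g j = g' j) → F g - F g' ≤ 1 := by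
      intro g g' k hk
      simp only [F]
      rw [← sum_sub_distrib, sum_eq_single k]
      · simp only [φ]
        split_ifs <;> norm_num
      · intro j _ hj
        rw [hk j hj, sub_self]
      · intro hk'
        exact absurd (mem_univ k) hk'
    have hmean : n * ∑ g, F g = n ^ m * (m * ps π i) := by
      simp only [F]
      rw [sum_comm, mul_sum, sum_congr rfl fun j _ => Samp_one j φ, hφ]
      simp only [sum_const, card_univ, Fintype.card_fin, nsmul_eq_mul]
      ring
    have hμ : (∑ g, F g) / n ^ m ≤ ((sz i : ℝ) / 14 - ε) * m := by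
      rw [div_le_iff₀ hNpos]
      have h1 : n ^ m * (m * ps π i) ≤ n ^ m * (m * (((sz i : ℝ) / 14 - ε) * n)) := by
        gcongr
      have h2 : n * ∑ g, F g ≤ n * (((sz i : ℝ) / 14 - ε) * m * n ^ m) := by
        rw [hmean]; linarith
      exact le_of_mul_le_mul_left h2 hn
    have hch := cheb m F 1 (ε * m / 2) (by positivity) hdiff
    have hle : cnt (univ : Finset (Fin m → V))
        (fun g => Gd (ε / 2) (fun i => π (g i)) fun i j => c (g i) (g j)) ≤
        cnt univ (fun g => ε * m / 2 ≤ |F g - (∑ h, F h) / n ^ m|) := by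
      refine cnt_mono fun g hg hG => ⟨hg, ?_⟩
      have h1 := hG.2 i
      rw [Fintype.card_fin, ← hFg] at h1
      refine le_trans ?_ (le_abs_self _)
      linarith
    have hle' : (cnt (univ : Finset (Fin m → V))
        (fun g => Gd (ε / 2) (fun i => π (g i)) fun i j => c (g i) (g j)) : ℝ) ≤
        cnt univ (fun g => ε * m / 2 ≤ |F g - (∑ h, F h) / n ^ m|) := by exact_mod_cast hle
    refine hle'.trans (hch.trans ?_)
    refine mul_le_mul_of_nonneg_right ?_ hNpos.le
    rw [div_le_div_iff₀ (by positivity) (by positivity)]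
    have : 0 < ε ^ 2 * m ^ 2 := by positivity
    nlinarith
  · push Not at hw
    let φ : V → V → ℝ := fun u v => if Wr π c u v then 1 else 0
    have hφ0 : ∀ u v, 0 ≤ φ u v := fun u v => by simp only [φ]; split_ifs <;> norm_num
    have hφ1 : ∀ u v, φ u v ≤ 1 := fun u v => by simp only [φ]; split_ifs <;> norm_num
    let F : (Fin m → V) → ℝ := fun g => ∑ p : Fin m × Fin m, φ (g p.1) (g p.2)
    have hφ : ∑ u, ∑ v, φ u v = wrN π c := by
      rw [← Fintype.sum_prod_type' , wrN, cnt_eq]
      simp only [φ, sum_boole]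
    have hFg : ∀ g : Fin m → V,
        F g ≤ wrN (fun j => π (g j)) (fun i j => c (g i) (g j)) := by
      intro g
      have : F g = cnt (univ : Finset (Fin m × Fin m)) fun p => Wr π c (g p.1) (g p.2) := by
        rw [cnt_eq]
        simp only [F, φ, sum_boole]
      rw [this, wrN]
      refine Nat.cast_le.2 (cnt_mono fun p hp hW => ⟨hp, ?_⟩)
      exact ⟨fun e => hW.1 (by rw [e]), hW.2.1, hW.2.2.1, hW.2.2.2.1, hW.2.2.2.2⟩
    have hdiff : ∀ g g' k, (∀ j, j ≠ k → g j = g' j) → F g - F g' ≤ 2 * m := by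
      intro g g' k hk
      simp only [F]
      rw [← sum_sub_distrib]
      calc ∑ p : Fin m × Fin m, (φ (g p.1) (g p.2) - φ (g' p.1) (g' p.2))
          ≤ ∑ p : Fin m × Fin m,
            ((if p.1 = k then (1 : ℝ) else 0) + if p.2 = k then (1 : ℝ) else 0) := by
            refine sum_le_sum fun p _ => ?_
            have a1 := hφ1 (g p.1) (g p.2)
            have a0 := hφ0 (g' p.1) (g' p.2)
            by_cases h1 : p.1 = k
            · by_cases h2 : p.2 = k
              · rw [if_pos h1, if_pos h2]; linarith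
              · rw [if_pos h1, if_neg h2]; linarith
            · by_cases h2 : p.2 = k
              · rw [if_neg h1, if_pos h2]; linarith
              · rw [if_neg h1, if_neg h2, hk _ h1, hk _ h2]; linarith
        _ = 2 * m := by
            rw [sum_add_distrib, Fintype.sum_prod_type_right,
              Fintype.sum_prod_type (fun p : Fin m × Fin m => if p.2 = k then (1 : ℝ) else 0)]
            simp only [sum_ite_eq', mem_univ, if_true, sum_const, card_univ, Fintype.card_fin,
              nsmul_eq_mul]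
            ring
    have hmean : n ^ m * (m * (m - 1) * wrN π c) ≤ n ^ 2 * ∑ g, F g := by
      simp only [F]
      rw [sum_comm, mul_sum]
      calc n ^ m * (m * (m - 1) * wrN π c)
          = ∑ _p ∈ (univ : Finset (Fin m)).offDiag, n ^ m * wrN π c := by
            rw [sum_const, offDiag_card, card_univ, Fintype.card_fin, nsmul_eq_mul,
              Nat.cast_sub (Nat.le_mul_self m)]
            push_cast
            ring
        _ = ∑ p ∈ (univ : Finset (Fin m)).offDiag, n ^ 2 * ∑ g : Fin m → V, φ (g p.1) (g p.2) := by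
            refine sum_congr rfl fun p hp => ?_
            rw [Samp_two (mem_offDiag.1 hp).2.2 φ, hφ]
        _ ≤ ∑ p : Fin m × Fin m, n ^ 2 * ∑ g : Fin m → V, φ (g p.1) (g p.2) :=
            sum_le_sum_of_subset_of_nonneg (subset_univ _) fun p _ _ =>
              mul_nonneg (by positivity) (sum_nonneg fun g _ => hφ0 _ _)
    have hμ : 3 / 4 * ε * m ^ 2 ≤ (∑ g, F g) / n ^ m := by
      rw [le_div_iff₀ hNpos]
      have h0 : 3 / 4 * (m : ℝ) ^ 2 ≤ m * (m - 1) := by nlinarith
      have h1 : n ^ m * (3 / 4 * m ^ 2 * (ε * n ^ 2)) ≤ n ^ m * (m * (m - 1) * wrN π c) := by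
        refine mul_le_mul_of_nonneg_left ?_ hNpos.le
        exact mul_le_mul h0 hw.le (by positivity) (by nlinarith)
      have h2 : n ^ 2 * (3 / 4 * ε * m ^ 2 * n ^ m) ≤ n ^ 2 * ∑ g, F g := by linarith
      exact le_of_mul_le_mul_left h2 (by positivity)
    have hch := cheb m F (2 * m) (ε * m ^ 2 / 4) (by positivity) hdiff
    have hle : cnt (univ : Finset (Fin m → V))
        (fun g => Gd (ε / 2) (fun i => π (g i)) fun i j => c (g i) (g j)) ≤
        cnt univ (fun g => ε * m ^ 2 / 4 ≤ |F g - (∑ h, F h) / n ^ m|) := by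
      refine cnt_mono fun g hg hG => ⟨hg, ?_⟩
      have h1 := hG.1
      rw [Fintype.card_fin] at h1
      have h2 := hFg g
      refine le_trans ?_ (neg_le_abs _)
      linarith
    have hle' : (cnt (univ : Finset (Fin m → V))
        (fun g => Gd (ε / 2) (fun i => π (g i)) fun i j => c (g i) (g j)) : ℝ) ≤
        cnt univ (fun g => ε * m ^ 2 / 4 ≤ |F g - (∑ h, F h) / n ^ m|) := by exact_mod_cast hle
    refine hle'.trans (hch.trans ?_)
    refine mul_le_mul_of_nonneg_right (le_of_eq ?_) hNpos.le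
    field_simp
    ring

end Pool.Agent.P.MP_c18ddb_co.X
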