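import Pool.Agent.P.MP_c18ddb_co.X.FS
import Pool.Agent.P.MP_c18ddb_co.X.Half
import Pool.Agent.P.MP_c18ddb_co.X.Lift

/-! Stability. -/

namespace Pool.Agent.P.MP_c18ddb_co.X

open Finset Q

theorem stab (hRC : RC) (ε : ℝ) (hε : 0 < ε) : ∃ δ : ℝ, 0 < δ ∧ ∃ n0 : ℕ, ∀ n, n0 ≤ n →
    ∀ G : SimpleGraph (Fin n),
      Close ε (col G) ∨ (cp G : ℝ) + cp Gᶜ ≤ (2 / 7 - δ) * (n : ℝ) ^ 2 := by
  obtain ⟨ε1, κ, hε1, hκ, n1, hq⟩ := ql
  have he : 0 < min (ε / 400) (min (1 / 70) ε1) := by positivity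
  obtain ⟨δ, hδ, mA, hA⟩ := frac_stab hRC _ he
  obtain ⟨mB, hB⟩ := half δ hδ
  obtain ⟨mC, hC⟩ := lift _ he ((min_le_right _ _).trans (min_le_left _ _))
  obtain ⟨m, hmA, hmB, hmC, hm1⟩ : ∃ m, mA ≤ m ∧ mB ≤ m ∧ mC ≤ m ∧ n1 ≤ m :=
    ⟨mA + mB + mC + n1, by omega, by omega, by omega, by omega⟩
  obtain ⟨nB, hnB⟩ := hB m hmB
  obtain ⟨nS, hS⟩ := sets_maps m
  refine ⟨δ / 4, by positivity, nB + nS + 1, fun n hn G => ?_⟩
  have h2 : ∀ T ∈ (univ : Finset (Fin n)).powersetCard m,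
      (Close (min (ε / 400) (min (1 / 70) ε1)) fun u v : T => col G u v) ∨
        ∃ φ, FracPack (col G) T φ ∧ (3 / 14 + δ) * (m : ℝ) ^ 2 ≤ value (col G) T φ := by
    intro T hT
    have h3 := (mem_powersetCard.1 hT).2
    have h4 := hA (Fin n) (col G) T (col_symm G) (h3 ▸ hmA)
    rwa [h3] at h4
  have h1 : ∀ T ∈ (univ : Finset (Fin n)).powersetCard m, ∃ φ, FracPack (col G) T φ ∧
      3 / 14 * (m : ℝ) ^ 2 - 3 / 2 * m ≤ value (col G) T φ := by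
    intro T hT
    have h3 := (mem_powersetCard.1 hT).2
    rcases h2 T hT with h4 | ⟨φ, h4, h5⟩
    · have h5 := close_frac hκ hq (col G) (col_symm G) T (h3 ▸ hm1)
        (h4.mono ((min_le_right _ _).trans (min_le_right _ _)))
      rwa [h3] at h5
    · refine ⟨φ, h4, le_trans ?_ h5⟩
      have h6 : (0 : ℝ) ≤ m := Nat.cast_nonneg m
      have h7 : 0 ≤ δ * (m : ℝ) ^ 2 := by positivity
      linarith
  rcases hnB n (by omega) G _ h1 h2 with h3 | h3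
  · left
    have : Nonempty (Fin n) := ⟨⟨0, by omega⟩⟩
    have h4 := hS (Fin n) (col G) _ (by rw [Fintype.card_fin]; omega)
      (by rw [Fintype.card_fin]; exact h3)
    refine (hC m hmC (Fin n) (col G) h4).mono ?_
    have := min_le_left (ε / 400) (min (1 / 70) ε1)
    linarith
  · exact Or.inr h3

end Pool.Agent.P.MP_c18ddb_co.X
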