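import Pool.Agent.P.MP_c18ddb_co.X.Defs

/-! One of the four completion problems: cover all allowed pairs inside `P` and all pairs of `H`
by triangles with apex in `Q ∪ E` and by four cliques with two vertices in `P`, two in `E`. -/

namespace Pool.Agent.P.MP_c18ddb_co.X

open Finset

/-- the unit: classes have about `3 * NN t` or `2 * NN t` elements -/
def NN (t : ℕ) : ℕ := 1000000000 * t

/-- the load bound -/
def LL (t : ℕ) : ℕ := 10000000 * t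

structure Sub (V : Type) [DecidableEq V] (t : ℕ) where
  P : Finset V
  Q : Finset V
  E : Finset V
  ok : V → V → Prop
  H : V → V → Prop
  l1 : V → Fin 100
  l2 : V → Fin 100
  dPQ : Disjoint P Q
  dPE : Disjoint P E
  dQE : Disjoint Q E
  ok_symm : ∀ x y, ok x y → ok y x
  ok_irr : ∀ x, ¬ ok x x
  H_symm : ∀ x y, H x y → H y x
  H_mem : ∀ x y, H x y → x ∈ E ∧ y ∈ E ∧ x ≠ y
  szP : ∀ a b, 3 * NN t ≤ cnt P (fun v => l1 v = a ∧ l2 v = b) + t ∧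
    cnt P (fun v => l1 v = a ∧ l2 v = b) ≤ 3 * NN t + t
  szQ : ∀ a b, 3 * NN t ≤ cnt Q (fun v => l1 v = a ∧ l2 v = b) + t ∧
    cnt Q (fun v => l1 v = a ∧ l2 v = b) ≤ 3 * NN t + t
  szE : ∀ a b, 2 * NN t ≤ cnt E (fun v => l1 v = a ∧ l2 v = b) + t ∧
    cnt E (fun v => l1 v = a ∧ l2 v = b) ≤ 2 * NN t + t
  nokP : ∀ u ∈ P, cnt (P ∪ Q ∪ E) (fun v => ¬ ok u v) ≤ t
  nokW : ∀ w ∈ Q ∪ E, cnt P (fun u => ¬ ok u w) ≤ t
  degH : ∀ e a, cnt E (fun v => H e v ∧ l1 v = a) ≤ 100 * (NN t + t)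

/-- vertex set of a tuple -/
def vs {V : Type} [DecidableEq V] (f : V × V × V × V) : Finset V := {f.1, f.2.1, f.2.2.1, f.2.2.2}

namespace Sub

variable {V : Type} [DecidableEq V] {t : ℕ} (s : Sub V t)

/-- reserved pairs -/
def res (u w : V) : Prop := s.l1 u = s.l1 w ∨ s.l1 u = s.l2 w ∨ s.l2 u = s.l1 w

/-- pairs that the first packing may use -/
def av (u w : V) : Prop := s.ok u w ∧ ¬ s.res u w

/-- pairs that have to be covered -/
def Must (x y : V) : Prop := (x ∈ s.P ∧ y ∈ s.P ∧ s.ok x y) ∨ s.H x y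

/-- cliques of the first packing; a triangle has equal last coordinates -/
def Good (f : V × V × V × V) : Prop :=
  f.1 ∈ s.P ∧ f.2.1 ∈ s.P ∧ s.ok f.1 f.2.1 ∧ s.av f.1 f.2.2.1 ∧ s.av f.2.1 f.2.2.1 ∧
    s.av f.1 f.2.2.2 ∧ s.av f.2.1 f.2.2.2 ∧
    ((f.2.2.1 = f.2.2.2 ∧ f.2.2.1 ∈ s.Q ∪ s.E) ∨ (s.H f.2.2.1 f.2.2.2 ∧ s.l1 f.1 ≠ s.l1 f.2.1))

/-- vertex sets of the cliques of the first packing -/
def Fst (K : Finset V) : Prop := ∃ f, s.Good f ∧ K = vs f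

/-- cliques of the final packing -/
def Shape (K : Finset V) : Prop :=
  ∃ u u' w w', K = {u, u', w, w'} ∧ u ∈ s.P ∧ u' ∈ s.P ∧ s.ok u u' ∧ s.ok u w ∧ s.ok u' w ∧
    s.ok u w' ∧ s.ok u' w' ∧ ((w = w' ∧ w ∈ s.Q ∪ s.E) ∨ s.H w w')

/-- pairs that are free after the cliques through `Y` are removed -/
def fr (Y : Finset V) (u w : V) : Prop := s.ok u w ∧ (s.res u w ∨ u ∈ Y ∨ w ∈ Y)

end Sub

end Pool.Agent.P.MP_c18ddb_co.X
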