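import Pool.Agent.P.MP_c18ddb_co.X.Phi2
import Pool.Agent.P.MP_c18ddb_co.X.Phi3
import Pool.Agent.P.MP_c18ddb_co.X.Nib

/-! The first packing and the removal of the badly covered vertices. -/

namespace Pool.Agent.P.MP_c18ddb_co.X

open Finset

theorem SubFrac_ne {V : Type} [DecidableEq V] {t : ℕ} (s : Sub V t) {x y : V} (h : s.Must x y) :
    x ≠ y ∧ x ∈ s.P ∪ s.E := by
  rcases h with ⟨h1, -, h2⟩ | h
  · refine ⟨?_, mem_union_left _ h1⟩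
    rintro rfl
    exact s.ok_irr x h2
  · exact ⟨(s.H_mem x y h).2.2, mem_union_right _ (s.H_mem x y h).1⟩

theorem SubFrac_prod {V : Type} (A B : Finset V) (r : V → V → Prop) :
    cnt (A ×ˢ B) (fun p => r p.1 p.2) = ∑ x ∈ A, cnt B (r x) := by
  classical
  simp only [cnt_eq, card_filter, sum_product]

theorem SubFrac_ld {V : Type} [DecidableEq V] {t : ℕ} (s : Sub V t) (ht : 0 < t) {x y : V}
    (h : x ≠ y) : s.ld x y ≤ 1 := by
  by_cases hx : x ∈ s.P <;> by_cases hy : y ∈ s.P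
  · by_cases ho : s.ok x y
    · exact (s.ld_PP ht hx hy ho).le
    · rw [s.ld_PP' hx hy h ho]
      exact zero_le_one
  · exact s.ld_cross ht hx hy
  · rw [s.ld_symm]
    exact s.ld_cross ht hy hx
  · by_cases ho : s.H x y
    · exact (s.ld_H ht ho).le
    · rw [s.ld_H' hx hy h ho]
      exact zero_le_one

theorem sub_frac : ∃ t0 : ℕ, ∀ t, t0 ≤ t → ∀ (V : Type) [DecidableEq V] (s : Sub V t),
    ∃ M : Finset (Finset V), (∀ K ∈ M, s.Fst K) ∧ Lin M ∧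
      cnt ((s.P ∪ s.E) ×ˢ (s.P ∪ s.E)) (fun p => s.Must p.1 p.2 ∧ ¬ Cv M p.1 p.2) ≤ t ^ 2 := by
  obtain ⟨γ, hγ, hn⟩ := nib_cover (1 / 10 ^ 28) (by positivity)
  obtain ⟨t1, ht1⟩ := exists_nat_ge (1 / γ)
  refine ⟨t1 + 1, fun t ht V _ s => ?_⟩
  have ht0 : 0 < t := by omega
  have hγ' : 1 / (NN t : ℝ) ≤ γ := by
    have h1 : (t1 : ℝ) ≤ NN t := by
      have : t1 ≤ NN t := by
        unfold NN
        omega
      exact_mod_cast this
    have h2 : (0 : ℝ) < NN t := by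
      have : 0 < NN t := by
        unfold NN
        omega
      exact_mod_cast this
    rw [div_le_iff₀ h2]
    rw [div_le_iff₀ hγ] at ht1
    nlinarith
  obtain ⟨M, h1, h2, h3⟩ := hn V (V × V × V × V) (s.P ∪ s.Q ∪ s.E) s.GT vs s.Must s.phi
    (fun f hf => s.vs_sub (s.mem_GT.1 hf))
    (fun f hf => ⟨le_trans (by norm_num) (s.vs_card (s.mem_GT.1 hf)).1,
      (s.vs_card (s.mem_GT.1 hf)).2⟩)
    (fun x y h => by
      rcases h with ⟨g1, g2, g3⟩ | h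
      · exact Or.inl ⟨g2, g1, s.ok_symm x y g3⟩
      · exact Or.inr (s.H_symm x y h))
    (fun x h => (SubFrac_ne s h).1 rfl) (s.phi_nonneg ht0)
    (fun x y h => SubFrac_ld s ht0 h)
    (fun x _ y _ h => by
      rcases h with ⟨g1, g2, g3⟩ | h
      · exact (s.ld_PP ht0 g1 g2 g3).ge
      · exact (s.ld_H ht0 h).ge)
    (fun x y z g1 g2 g3 => (s.ld_three ht0 g1 g2 g3).trans hγ')
  refine ⟨M, fun K hK => ?_, h2, ?_⟩
  · obtain ⟨f, hf, rfl⟩ := h1 K hK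
    exact ⟨f, s.mem_GT.1 hf, rfl⟩
  · have g1 : cnt ((s.P ∪ s.E) ×ˢ (s.P ∪ s.E)) (fun p => s.Must p.1 p.2 ∧ ¬ Cv M p.1 p.2) ≤
        cnt ((s.P ∪ s.Q ∪ s.E) ×ˢ (s.P ∪ s.Q ∪ s.E))
          (fun p => s.Must p.1 p.2 ∧ ¬ Cv M p.1 p.2) := by
      have hsub : s.P ∪ s.E ⊆ s.P ∪ s.Q ∪ s.E :=
        union_subset_union_left subset_union_left
      refine cnt_mono fun p hp h => ⟨?_, h⟩
      exact mem_product.2 ⟨hsub (mem_product.1 hp).1, hsub (mem_product.1 hp).2⟩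
    have g2 : (s.P ∪ s.Q ∪ s.E).card ≤ 100000000000000 * t := by
      have e1 := card_union_le (s.P ∪ s.Q) s.E
      have e2 := card_union_le s.P s.Q
      have e3 := s.cardP.2
      have e4 := s.cardQ.2
      have e5 := s.cardE.2
      unfold NN at e3 e4 e5
      omega
    have g3 : ((s.P ∪ s.Q ∪ s.E).card : ℝ) ≤ 100000000000000 * t := by exact_mod_cast g2
    have g4 : ((s.P ∪ s.Q ∪ s.E).card : ℝ) ^ 2 ≤ (100000000000000 * t) ^ 2 :=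
      pow_le_pow_left₀ (Nat.cast_nonneg _) g3 2
    have g5 : (cnt ((s.P ∪ s.Q ∪ s.E) ×ˢ (s.P ∪ s.Q ∪ s.E))
        (fun p => s.Must p.1 p.2 ∧ ¬ Cv M p.1 p.2) : ℝ) ≤ (t : ℝ) ^ 2 := by
      refine h3.trans ?_
      calc (1 / 10 ^ 28 : ℝ) * ((s.P ∪ s.Q ∪ s.E).card : ℝ) ^ 2
          ≤ 1 / 10 ^ 28 * (100000000000000 * t) ^ 2 :=
            mul_le_mul_of_nonneg_left g4 (by positivity)
        _ = (t : ℝ) ^ 2 := by ring
    exact g1.trans (by exact_mod_cast g5)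

theorem sub_Y {V : Type} [DecidableEq V] {t : ℕ} (s : Sub V t) (M : Finset (Finset V))
    (h1 : ∀ K ∈ M, s.Fst K) (h2 : Lin M)
    (h3 : cnt ((s.P ∪ s.E) ×ˢ (s.P ∪ s.E)) (fun p => s.Must p.1 p.2 ∧ ¬ Cv M p.1 p.2) ≤ t ^ 2) :
    ∃ (Y : Finset V) (M1 : Finset (Finset V)), Y.card ≤ t ∧ (∀ K ∈ M1, s.Fst K ∧ Disjoint K Y) ∧
      Lin M1 ∧ ∀ x, x ∉ Y →
        cnt (s.P ∪ s.E) (fun y => y ∉ Y ∧ s.Must x y ∧ ¬ Cv M1 x y) ≤ 3 * t := by
  classical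
  have h4 : ∀ K ∈ M, K.card ≤ 4 := by
    intro K hK
    obtain ⟨f, hf, rfl⟩ := h1 K hK
    exact (s.vs_card hf).2
  obtain ⟨Y, hY⟩ : ∃ Y : Finset V, Y = (s.P ∪ s.E).filter fun x =>
      t < cnt (s.P ∪ s.E) fun y => s.Must x y ∧ ¬ Cv M x y := ⟨_, rfl⟩
  have hYc : Y.card ≤ t := by
    rw [SubFrac_prod (s.P ∪ s.E) (s.P ∪ s.E) fun x y => s.Must x y ∧ ¬ Cv M x y] at h3
    have g1 : ∑ x ∈ Y, cnt (s.P ∪ s.E) (fun y => s.Must x y ∧ ¬ Cv M x y) ≤ t ^ 2 :=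
      (sum_le_sum_of_subset (by rw [hY]; exact filter_subset _ _)).trans h3
    have g2 : Y.card • (t + 1) ≤ ∑ x ∈ Y, cnt (s.P ∪ s.E) (fun y => s.Must x y ∧ ¬ Cv M x y) :=
      card_nsmul_le_sum _ _ _ fun x hx => by
        rw [hY] at hx
        exact (mem_filter.1 hx).2
    rw [smul_eq_mul] at g2
    by_contra hcon
    have g3 : (t + 1) * (t + 1) ≤ Y.card * (t + 1) := Nat.mul_le_mul_right _ (by omega)
    nlinarith
  refine ⟨Y, M.filter fun K => Disjoint K Y, hYc,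
    fun K hK => ⟨h1 K (mem_filter.1 hK).1, (mem_filter.1 hK).2⟩,
    fun K hK L hL => h2 K (mem_filter.1 hK).1 L (mem_filter.1 hL).1, fun x hx => ?_⟩
  have g1 : cnt (s.P ∪ s.E) (fun y => s.Must x y ∧ ¬ Cv M x y) ≤ t := by
    by_cases hxA : x ∈ s.P ∪ s.E
    · by_contra hcon
      exact hx (by rw [hY]; exact mem_filter.2 ⟨hxA, not_le.1 hcon⟩)
    · exact (cnt_le_of_subset (t := ∅) fun y _ h => absurd (SubFrac_ne s h.1).2 hxA).trans
        (Nat.zero_le _)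
  obtain ⟨S, hS⟩ : ∃ S : V → Finset V, ∀ z, S z = (s.P ∪ s.E).filter fun y =>
      y ∉ Y ∧ y ≠ x ∧ ∃ K ∈ M, x ∈ K ∧ z ∈ K ∧ y ∈ K := ⟨_, fun _ => rfl⟩
  have g2 : ∀ z ∈ Y, (S z).card ≤ 2 := by
    intro z hz
    have hxz : x ≠ z := fun h => hx (h ▸ hz)
    by_cases hK : ∃ K ∈ M, x ∈ K ∧ z ∈ K
    · obtain ⟨K, hK, e1, e2⟩ := hK
      have e3 : S z ⊆ (K.erase x).erase z := by
        intro y hy
        rw [hS] at hy
        obtain ⟨-, e4, e5, L, hL, e6, e7, e8⟩ := mem_filter.1 hy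
        rw [h2 K hK L hL x z hxz e1 e2 e6 e7]
        exact mem_erase.2 ⟨fun h => e4 (h ▸ hz), mem_erase.2 ⟨e5, e8⟩⟩
      have e4 := card_le_card e3
      rw [card_erase_of_mem (mem_erase.2 ⟨hxz.symm, e2⟩), card_erase_of_mem e1] at e4
      have e5 := h4 K hK
      omega
    · have e3 : S z = ∅ := by
        rw [hS]
        refine filter_eq_empty_iff.2 ?_
        rintro y - ⟨-, -, L, hL, e6, e7, -⟩
        exact hK ⟨L, hL, e6, e7⟩
      rw [e3]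
      exact Nat.zero_le _
  have g3 : (Y.biUnion S).card ≤ Y.card * 2 := card_biUnion_le_card_mul _ _ _ g2
  have g4 : cnt (s.P ∪ s.E)
      (fun y => y ∉ Y ∧ s.Must x y ∧ ¬ Cv (M.filter fun K => Disjoint K Y) x y) ≤
      cnt (s.P ∪ s.E) (fun y => s.Must x y ∧ ¬ Cv M x y) + cnt (Y.biUnion S) fun _ => True := by
    refine cnt_le_add fun y hy ⟨e1, e2, e3⟩ => ?_
    by_cases hc : Cv M x y
    · obtain ⟨K, hK, e4, e5⟩ := hc
      have e6 : ¬ Disjoint K Y := fun h => e3 ⟨K, mem_filter.2 ⟨hK, h⟩, e4, e5⟩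
      obtain ⟨z, e7, e8⟩ := not_disjoint_iff.1 e6
      refine Or.inr ⟨mem_biUnion.2 ⟨z, e8, ?_⟩, trivial⟩
      rw [hS]
      exact mem_filter.2 ⟨hy, e1, (SubFrac_ne s e2).1.symm, K, hK, e4, e7, e5⟩
    · exact Or.inl ⟨hy, e2, hc⟩
  have g5 := cnt_le_card (Y.biUnion S) fun _ => True
  omega

end Pool.Agent.P.MP_c18ddb_co.X
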