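import Pool.Agent.P.MP_c18ddb_co.X.SubCnt
import Pool.Agent.P.MP_c18ddb_co.X.Greedy

/-! Covering the remaining pairs of `H`. -/

namespace Pool.Agent.P.MP_c18ddb_co.X

open Finset

theorem SubH_two {τ : Type} (T : Finset τ) (c : τ → Prop) :
    cnt (T ×ˢ (univ : Finset Bool)) (fun q => c q.1) = cnt T c * 2 := by
  classical
  rw [cnt_eq, cnt_eq, filter_product_left c, card_product, card_univ, Fintype.card_bool]

theorem SubH_pool {V : Type} [DecidableEq V] {t : ℕ} (s : Sub V t) {Y : Finset V}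
    (hY : Y.card ≤ t) (c : V → Prop) {e e' : V} (he : e ∈ s.E) (he' : e' ∈ s.E) :
    cnt s.P c ≤ cnt s.P (fun u => u ∉ Y ∧ s.ok u e ∧ s.ok u e' ∧ c u) + 3 * t := by
  have h₁ : cnt s.P c ≤ cnt s.P (fun u => u ∉ Y ∧ s.ok u e ∧ s.ok u e' ∧ c u) +
      cnt s.P (fun u => u ∈ Y ∨ ¬ s.ok u e ∨ ¬ s.ok u e') := cnt_le_add fun a ha h => by tauto
  have h₂ : cnt s.P (fun u => u ∈ Y ∨ ¬ s.ok u e ∨ ¬ s.ok u e') ≤ cnt Y (fun _ => True) +
      cnt s.P (fun u => ¬ s.ok u e ∨ ¬ s.ok u e') := cnt_le_add fun a ha h => by tauto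
  have h₃ : cnt s.P (fun u => ¬ s.ok u e ∨ ¬ s.ok u e') ≤ cnt s.P (fun u => ¬ s.ok u e) +
      cnt s.P (fun u => ¬ s.ok u e') := cnt_le_add fun a ha h => by tauto
  have h₄ := cnt_le_card Y fun _ => True
  have h₅ := s.nokW e (mem_union_right _ he)
  have h₆ := s.nokW e' (mem_union_right _ he')
  omega

/-- one orientation of every pair -/
def SubH_O {V : Type} (Y : Finset V) (R : V → V → Prop) (e e' : V) : Prop :=
  R e e' ∧ ((e ∈ Y ∧ e' ∉ Y) ∨ ((e ∈ Y ↔ e' ∈ Y) ∧ WellOrderingRel e e'))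

theorem SubH_asymm {V : Type} {Y : Finset V} {R : V → V → Prop} {e e' : V} (h : SubH_O Y R e e')
    (h' : SubH_O Y R e' e) : False := by
  have := asymm_of WellOrderingRel (a := e) (b := e')
  unfold SubH_O at h h'
  tauto

theorem SubH_total {V : Type} {Y : Finset V} {R : V → V → Prop} {e e' : V} (h : R e e')
    (h' : R e' e) (hn : e ≠ e') : SubH_O Y R e e' ∨ SubH_O Y R e' e := by
  have := trichotomous_of WellOrderingRel e e'
  unfold SubH_O
  tauto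

theorem sub_H {V : Type} [DecidableEq V] {t : ℕ} (s : Sub V t) (ht : 0 < t) (Y : Finset V)
    (hY : Y.card ≤ t) (R : V → V → Prop) (hs : ∀ x y, R x y → R y x) (hR : ∀ x y, R x y → s.H x y)
    (hd : ∀ x, x ∉ Y → cnt s.E (fun y => y ∉ Y ∧ R x y) ≤ 3 * t) :
    ∃ M : Finset (Finset V),
      (∀ K ∈ M, ∃ u u' e e', K = {u, u', e, e'} ∧ u ∈ s.P ∧ u' ∈ s.P ∧ u ∉ Y ∧ u' ∉ Y ∧
        s.ok u u' ∧ s.l1 u = s.l1 u' ∧ R e e' ∧ s.fr Y u e ∧ s.fr Y u' e ∧ s.fr Y u e' ∧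
        s.fr Y u' e') ∧
      Lin M ∧ (∀ x y, R x y → Cv M x y) ∧ ∀ u ∈ s.P, cnt M (fun K => u ∈ K) ≤ LL t := by
  classical
  have hE := s.cardE
  unfold NN at hE
  have : Nonempty V := ⟨(card_pos.1 (by omega : 0 < s.E.card)).choose⟩
  obtain ⟨T, hT⟩ : ∃ T : Finset (V × V), ∀ τ, τ ∈ T ↔ SubH_O Y R τ.1 τ.2 :=
    ⟨(s.E ×ˢ s.E).filter fun τ => SubH_O Y R τ.1 τ.2, fun τ => mem_filter.trans (and_iff_right_of_imp
      fun h => mem_product.2 ⟨(s.H_mem _ _ (hR _ _ h.1)).1, (s.H_mem _ _ (hR _ _ h.1)).2.1⟩)⟩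
  have hTE : ∀ τ ∈ T, τ.1 ∈ s.E ∧ τ.2 ∈ s.E ∧ τ.1 ≠ τ.2 := fun τ h =>
    s.H_mem _ _ (hR _ _ ((hT τ).1 h).1)
  have hPE : ∀ x ∈ s.E, x ∉ s.P := fun x h => disjoint_right.1 s.dPE h
  obtain ⟨S, hS'⟩ : ∃ S : Finset ((V × V) × Bool), S = T ×ˢ univ := ⟨_, rfl⟩
  have hS : ∀ p, p ∈ S ↔ p.1 ∈ T := fun p => by simp [hS']
  obtain ⟨A, hA, hA'⟩ : ∃ A : V → Finset V, (∀ x, (A x).card ≤ 3 * t) ∧
      ∀ x y, R x y → (x ∈ Y ↔ y ∈ Y) → y ∈ A x := by
    refine ⟨fun x => if x ∈ Y then Y else s.E.filter fun y => y ∉ Y ∧ R x y, fun x => ?_,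
      fun x y h h' => ?_⟩ <;> dsimp only <;> split_ifs with hx
    · omega
    · exact (cnt_eq _ _).symm.trans_le (hd x hx)
    · exact h'.1 hx
    · exact mem_filter.2 ⟨(s.H_mem _ _ (hR _ _ h)).2.1, fun e => hx (h'.2 e), h⟩
  have hcard : S.card / LL t ≤ 16000800 * t := by
    have h₁ : T ⊆ Y ×ˢ s.E ∪ s.E.biUnion fun x => (A x).image fun y => (x, y) := by
      intro τ h
      by_cases hx : τ.1 ∈ Y
      · exact mem_union_left _ (mem_product.2 ⟨hx, (hTE τ h).2.1⟩)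
      · exact mem_union_right _ (mem_biUnion.2 ⟨τ.1, (hTE τ h).1, mem_image.2
          ⟨τ.2, hA' _ _ ((hT τ).1 h).1 (((hT τ).1 h).2.resolve_left fun e => hx e.1).1, rfl⟩⟩)
    have h₂ := (card_le_card h₁).trans ((card_union_le _ _).trans (add_le_add (card_product _ _).le
      (card_biUnion_le_card_mul _ _ _ fun x _ => card_image_le.trans (hA x))))
    refine Nat.div_le_of_le_mul ?_
    rw [hS', card_product, card_univ, Fintype.card_bool, LL]
    nlinarith [Nat.mul_le_mul hY hE.2, Nat.mul_le_mul_right (3 * t) hE.2]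
  let D : V → Finset (V × V) := fun x =>
    ((A x).image fun y => (x, y)) ∪ (A x).image fun y => (y, x)
  have hD : ∀ x, (D x).card ≤ 6 * t := fun x => (card_union_le _ _).trans
    ((add_le_add (card_image_le.trans (hA x)) (card_image_le.trans (hA x))).trans (by omega))
  have hD' : ∀ τ ∈ T, ¬ (τ.1 ∈ Y ∧ τ.2 ∉ Y) → ∀ σ : V × V,
      ¬ Disjoint ({τ.1, τ.2} : Finset V) {σ.1, σ.2} → τ ∈ D σ.1 ∪ D σ.2 := by
    intro τ h h' σ hσ
    obtain ⟨x, h₁, h₂⟩ := not_disjoint_iff.1 hσ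
    have h₃ := (((hT τ).1 h).2.resolve_left h').1
    have h₄ : τ ∈ D x := by
      rcases mem_insert.1 h₁ with rfl | h₁
      · exact mem_union_left _ (mem_image.2 ⟨τ.2, hA' _ _ ((hT τ).1 h).1 h₃, rfl⟩)
      · rw [mem_singleton.1 h₁]
        exact mem_union_right _ (mem_image.2 ⟨τ.1, hA' _ _ (hs _ _ ((hT τ).1 h).1) h₃.symm, rfl⟩)
    rcases mem_insert.1 h₂ with rfl | h₂
    · exact mem_union_left _ h₄
    · exact mem_union_right _ (mem_singleton.1 h₂ ▸ h₄)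
  let lab : V × V → V → Prop := fun τ u =>
    if τ.1 ∈ Y ∧ τ.2 ∉ Y then s.l1 u = s.l1 τ.2 else s.l1 u = s.l1 τ.1 ∧ s.l2 u = s.l1 τ.2
  let pool : V × V → Finset V := fun τ =>
    s.P.filter fun u => u ∉ Y ∧ s.ok u τ.1 ∧ s.ok u τ.2 ∧ lab τ u
  let rk : V × V → ℕ := fun τ => if τ.1 ∈ Y ∧ τ.2 ∉ Y then 1 else 0
  have hbE : ∀ τ ∈ T, ∀ x ∈ ({τ.1, τ.2} : Finset V), x ∉ s.P := fun τ h x hx => by
    rcases mem_insert.1 hx with rfl | hx
    · exact hPE _ (hTE τ h).1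
    · exact mem_singleton.1 hx ▸ hPE _ (hTE τ h).2.1
  obtain ⟨z, hz, hzz, hload, hlin⟩ := greedy S Prod.fst (fun τ => {τ.1, τ.2}) (fun p => pool p.1)
    (fun p => rk p.1) (fun x y => s.ok x y ∧ (x ∈ s.P ∨ y ∈ s.P)) t (LL t) 0
    (by unfold LL; omega) (fun x y h => ⟨s.ok_symm _ _ h.1, h.2.symm⟩)
    (fun x h => s.ok_irr x h.1)
    (fun p _ => by
      have h₁ : (S.filter fun q => q.1 = p.1) ⊆ {(p.1, false), (p.1, true)} := by
        rintro ⟨τ, c⟩ h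
        obtain rfl : τ = p.1 := (mem_filter.1 h).2
        cases c <;> simp
      exact (add_le_add card_le_two ((card_le_card h₁).trans card_le_two)))
    (fun p _ z hz v hv => by
      obtain ⟨h₁, -, h₂, h₃, -⟩ := mem_filter.1 hz
      refine ⟨s.ok_symm _ _ ?_, Or.inr h₁⟩
      rcases mem_insert.1 hv with rfl | hv
      exacts [h₂, mem_singleton.1 hv ▸ h₃])
    (fun p hp u hu v hv h => h.2.elim (hbE _ ((hS p).1 hp) u hu) (hbE _ ((hS p).1 hp) v hv))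
    (fun p _ q _ _ _ z hz => (cnt_mono fun y hy h => ⟨mem_union_left _ (mem_union_left _
      (mem_filter.1 hy).1), fun e => h ⟨e, Or.inl (mem_filter.1 hz).1⟩⟩).trans
        (s.nokP z (mem_filter.1 hz).1))
    (fun p _ z hz => cnt_le_of_subset (t := ∅) fun q hq h =>
      absurd (mem_filter.1 hz).1 (hbE _ ((hS q).1 hq) z h))
    (fun p hp => by
      obtain ⟨h₁, h₂, -⟩ := hTE _ ((hS p).1 hp)
      have h₃ : cnt s.P (lab p.1) ≤ (pool p.1).card + 3 * t :=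
        (SubH_pool s hY (lab p.1) h₁ h₂).trans_eq (by rw [cnt_eq])
      have h₄ := hD p.1.1
      have h₅ := hD p.1.2
      have h₆ := card_union_le (D p.1.1) (D p.1.2)
      have key : ∀ X : Finset (V × V), (∀ τ ∈ T, τ.1 ∈ Y ∧ τ.2 ∉ Y → rk τ ≤ rk p.1 →
          ¬ Disjoint ({τ.1, τ.2} : Finset V) {p.1.1, p.1.2} → ¬ Disjoint (pool τ) (pool p.1) →
          τ ∈ X) → cnt S (fun q => q ≠ p ∧ rk q.1 ≤ rk p.1 ∧
            ¬ Disjoint ({q.1.1, q.1.2} : Finset V) {p.1.1, p.1.2} ∧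
            ¬ Disjoint (pool q.1) (pool p.1)) ≤ (12 * t + X.card) * 2 := by
        intro X hX
        refine (cnt_mono (t := T ×ˢ univ) (q := fun q => q.1 ∈ D p.1.1 ∪ D p.1.2 ∪ X)
          fun q hq h => ⟨hS' ▸ hq, ?_⟩).trans ?_
        · by_cases hy : q.1.1 ∈ Y ∧ q.1.2 ∉ Y
          · exact mem_union_right _ (hX _ ((hS q).1 hq) hy h.2.1 h.2.2.1 h.2.2.2)
          · exact mem_union_left _ (hD' _ ((hS q).1 hq) hy _ h.2.2.1)
        · rw [SubH_two T (· ∈ D p.1.1 ∪ D p.1.2 ∪ X)]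
          exact Nat.mul_le_mul_right 2 ((cnt_le_of_subset fun a _ h => h).trans
            ((card_union_le _ X).trans (by omega)))
      change _ < (pool p.1).card
      by_cases hy : p.1.1 ∈ Y ∧ p.1.2 ∉ Y
      · have h₇ := key ((Y.image fun y => (y, p.1.2)) ∪ (s.E.filter fun v =>
            s.H p.1.1 v ∧ s.l1 v = s.l1 p.1.2).image fun y => (p.1.1, y)) fun τ hτ hy' _ h h' => by
          obtain ⟨x, a₁, a₂⟩ := not_disjoint_iff.1 h
          obtain ⟨u, a₃, a₄⟩ := not_disjoint_iff.1 h'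
          have a₅ := (mem_filter.1 a₃).2.2.2.2
          have a₆ := (mem_filter.1 a₄).2.2.2.2
          simp only [lab, if_pos hy, if_pos hy'] at a₅ a₆
          simp only [mem_insert, mem_singleton] at a₁ a₂
          rcases a₁ with rfl | rfl <;> rcases a₂ with a₂ | a₂
          · exact mem_union_right _ (mem_image.2 ⟨τ.2, mem_filter.2 ⟨(hTE τ hτ).2.1,
              a₂ ▸ hR _ _ ((hT τ).1 hτ).1, a₅.symm.trans a₆⟩, by rw [← a₂]⟩)
          · exact absurd (a₂ ▸ hy'.1) hy.2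
          · exact absurd (a₂ ▸ hy.1) hy'.2
          · exact mem_union_left _ (mem_image.2 ⟨τ.1, hy'.1, by rw [← a₂]⟩)
        have h₈ := (card_union_le (Y.image fun y => (y, p.1.2)) _).trans (add_le_add
          (card_image_le.trans hY) ((card_image_le (f := fun y => (p.1.1, y))).trans
            ((cnt_eq _ _).symm.trans_le (s.degH p.1.1 (s.l1 p.1.2)))))
        have h₉ := (s.P1 (s.l1 p.1.2)).1
        rw [show lab p.1 = fun u => s.l1 u = s.l1 p.1.2 from funext fun u => if_pos hy] at h₃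
        unfold NN LL at *
        omega
      · have h₇ := key ∅ fun τ _ hy' h _ _ => by simp [rk, hy, hy'] at h
        have h₉ := (s.szP (s.l1 p.1.1) (s.l1 p.1.2)).1
        rw [show lab p.1 = fun u => s.l1 u = s.l1 p.1.1 ∧ s.l2 u = s.l1 p.1.2 from
          funext fun u => if_neg hy] at h₃
        rw [card_empty] at h₇
        unfold NN LL at *
        omega)
  have hK : ∀ τ ∈ T, KK S Prod.fst (fun τ => {τ.1, τ.2}) z τ =
      {z (τ, false), z (τ, true), τ.1, τ.2} := by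
    intro τ h
    have : (S.filter fun q => q.1 = τ) = {(τ, false), (τ, true)} := by
      ext ⟨σ, c⟩
      rw [mem_filter, hS]
      cases c <;> simp <;> rintro rfl <;> exact h
    rw [KK, this, image_insert, image_singleton, union_comm, insert_union, ← insert_eq]
  have hp : ∀ τ ∈ T, ∀ c, z (τ, c) ∈ s.P ∧ z (τ, c) ∉ Y ∧ s.ok (z (τ, c)) τ.1 ∧
      s.ok (z (τ, c)) τ.2 ∧ lab τ (z (τ, c)) := fun τ h c => mem_filter.1 (hz _ ((hS _).2 h))
  have hq : ∀ τ ∈ T, s.ok (z (τ, false)) (z (τ, true)) := fun τ h =>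
    (hzz (τ, false) ((hS _).2 h) (τ, true) ((hS _).2 h) rfl (by simp)).1
  refine ⟨T.image (KK S Prod.fst (fun τ => {τ.1, τ.2}) z), fun K hK' => ?_, ?_, fun x y h => ?_,
    fun u hu => ?_⟩
  · obtain ⟨τ, h, rfl⟩ := mem_image.1 hK'
    obtain ⟨a₁, a₂, a₃, a₄, a₅⟩ := hp τ h false
    obtain ⟨b₁, b₂, b₃, b₄, b₅⟩ := hp τ h true
    refine ⟨_, _, _, _, hK τ h, a₁, b₁, a₂, b₂, hq τ h, ?_⟩
    by_cases hy : τ.1 ∈ Y ∧ τ.2 ∉ Y
    · simp only [lab, if_pos hy] at a₅ b₅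
      exact ⟨a₅.trans b₅.symm, ((hT τ).1 h).1, ⟨a₃, .inr (.inr hy.1)⟩, ⟨b₃, .inr (.inr hy.1)⟩,
        ⟨a₄, .inl (.inl a₅)⟩, b₄, .inl (.inl b₅)⟩
    · simp only [lab, if_neg hy] at a₅ b₅
      exact ⟨a₅.1.trans b₅.1.symm, ((hT τ).1 h).1, ⟨a₃, .inl (.inl a₅.1)⟩, ⟨b₃, .inl (.inl b₅.1)⟩,
        ⟨a₄, .inl (.inr (.inr a₅.2))⟩, b₄, .inl (.inr (.inr b₅.2))⟩
  · intro K hK' L hL x y hxy a₁ a₂ a₃ a₄
    obtain ⟨τ, h, rfl⟩ := mem_image.1 hK'
    obtain ⟨σ, h', rfl⟩ := mem_image.1 hL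
    congr 1
    by_cases hP : x ∈ s.P ∨ y ∈ s.P
    · refine hlin (τ, false) ((hS _).2 h) (σ, false) ((hS _).2 h') x y ⟨?_, hP⟩ a₁ a₂ a₃ a₄
      rw [hK τ h] at a₁ a₂
      simp only [mem_insert, mem_singleton] at a₁ a₂
      obtain ⟨-, -, b₁, b₂, -⟩ := hp τ h false
      obtain ⟨-, -, b₃, b₄, -⟩ := hp τ h true
      have b₅ := hq τ h
      have b₆ := hPE _ (hTE τ h).1
      have b₇ := hPE _ (hTE τ h).2.1
      rcases a₁ with rfl | rfl | rfl | rfl <;> rcases a₂ with rfl | rfl | rfl | rfl <;>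
        first | assumption | exact s.ok_symm _ _ ‹_› | exact absurd rfl hxy | tauto
    · rw [hK τ h] at a₁ a₂
      rw [hK σ h'] at a₃ a₄
      have key : ∀ τ ∈ T, ∀ x ∉ s.P, x ∈ ({z (τ, false), z (τ, true), τ.1, τ.2} : Finset V) →
          x = τ.1 ∨ x = τ.2 := fun τ h x hx hx' => by
        simp only [mem_insert, mem_singleton] at hx'
        rcases hx' with rfl | rfl | e
        exacts [absurd (hp τ h _).1 hx, absurd (hp τ h _).1 hx, e]
      rw [not_or] at hP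
      have b₁ := (hT τ).1 h
      have b₂ := (hT σ).1 h'
      have b₃ : τ.1 = σ.2 → τ.2 = σ.1 → False := fun e e' => SubH_asymm b₁ (by rwa [e, e'])
      have c₁ := key _ h x hP.1 a₁
      have c₂ := key _ h y hP.2 a₂
      have c₃ := key _ h' x hP.1 a₃
      have c₄ := key _ h' y hP.2 a₄
      clear * - hxy b₃ c₁ c₂ c₃ c₄
      refine Prod.ext ?_ ?_ <;> grind
  · rcases SubH_total (Y := Y) h (hs _ _ h) (s.H_mem _ _ (hR _ _ h)).2.2 with h' | h'
    · have := (hT (x, y)).2 h'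
      exact ⟨_, mem_image_of_mem _ this, by rw [hK _ this]; simp, by rw [hK _ this]; simp⟩
    · have := (hT (y, x)).2 h'
      exact ⟨_, mem_image_of_mem _ this, by rw [hK _ this]; simp, by rw [hK _ this]; simp⟩
  · refine (cnt_le_of_subset (t := (S.filter fun p => z p = u).image fun p =>
      KK S Prod.fst (fun τ => {τ.1, τ.2}) z p.1) fun K hK' h => ?_).trans
        (card_image_le.trans ((cnt_eq _ _).symm.trans_le (hload u)))
    obtain ⟨τ, h', rfl⟩ := mem_image.1 hK'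
    rcases mem_union.1 h with h | h
    · exact absurd hu (hbE τ h' u h)
    · obtain ⟨q, hq, e⟩ := mem_image.1 h
      exact mem_image.2 ⟨q, mem_filter.2 ⟨(mem_filter.1 hq).1, e⟩, by rw [(mem_filter.1 hq).2]⟩

end Pool.Agent.P.MP_c18ddb_co.X
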