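import Pool.Agent.P.MP_c18ddb_co.X.SubCnt
import Pool.Agent.P.MP_c18ddb_co.X.Greedy

/-! Covering the remaining pairs of `P`. -/

namespace Pool.Agent.P.MP_c18ddb_co.X

open Finset

theorem SubP_or {V : Type} (Y : Finset V) : ∃ o : V → V → Prop,
    (∀ x y, x ≠ y → o x y ∨ o y x) ∧ (∀ x y, o x y → ¬ o y x) ∧
      ∀ x y, o x y → (x ∈ Y ∧ y ∉ Y) ∨ (x ∈ Y ↔ y ∈ Y) := by
  obtain ⟨lo, -⟩ := exists_wellFoundedLT (α := V)
  refine ⟨fun x y => (x ∈ Y ∧ y ∉ Y) ∨ ((x ∈ Y ↔ y ∈ Y) ∧ x < y), fun x y h => ?_,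
    fun x y h h' => ?_, fun x y h => h.imp id And.left⟩
  · rcases lt_or_gt_of_ne h with h | h <;> tauto
  · rcases h with h | h <;> rcases h' with h' | h'
    · exact h.2 h'.1
    · exact h.2 (h'.1.2 h.1)
    · exact h'.2 (h.1.2 h'.1)
    · exact lt_asymm h.2 h'.2

theorem SubP_fst {V : Type} (S : Finset (V × V)) (C : V × V → Prop) (x : V) (A : Finset V)
    (D : V → Prop) (h : ∀ q ∈ S, C q → q.1 = x ∧ q.2 ∈ A ∧ D q.2) : cnt S C ≤ cnt A D := by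
  classical
  rw [cnt_eq, cnt_eq]
  refine card_le_card_of_injOn Prod.snd (fun q hq => ?_) fun q hq q' hq' e => ?_
  · have hq := mem_filter.1 (mem_coe.1 hq)
    exact mem_coe.2 (mem_filter.2 (h q hq.1 hq.2).2)
  · have hq := mem_filter.1 (mem_coe.1 hq)
    have hq' := mem_filter.1 (mem_coe.1 hq')
    exact Prod.ext ((h q hq.1 hq.2).1.trans (h q' hq'.1 hq'.2).1.symm) e

theorem SubP_snd {V : Type} (S : Finset (V × V)) (C : V × V → Prop) (x : V) (A : Finset V)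
    (D : V → Prop) (h : ∀ q ∈ S, C q → q.2 = x ∧ q.1 ∈ A ∧ D q.1) : cnt S C ≤ cnt A D := by
  classical
  rw [cnt_eq, cnt_eq]
  refine card_le_card_of_injOn Prod.fst (fun q hq => ?_) fun q hq q' hq' e => ?_
  · have hq := mem_filter.1 (mem_coe.1 hq)
    exact mem_coe.2 (mem_filter.2 (h q hq.1 hq.2).2)
  · have hq := mem_filter.1 (mem_coe.1 hq)
    have hq' := mem_filter.1 (mem_coe.1 hq')
    exact Prod.ext e ((h q hq.1 hq.2).1.trans (h q' hq'.1 hq'.2).1.symm)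

theorem SubP_or_le {α : Type} (S : Finset α) (p q : α → Prop) :
    cnt S (fun a => p a ∨ q a) ≤ cnt S p + cnt S q :=
  cnt_le_add fun _ ha h => h.imp (fun h => ⟨ha, h⟩) fun h => ⟨ha, h⟩

/-- tasks of rank zero that meet a vertex -/
theorem SubP_zero {V : Type} {t : ℕ} (P Y : Finset V) (hY : Y.card ≤ t) (R : V → V → Prop)
    (hs : ∀ x y, R x y → R y x) (hd : ∀ x, x ∉ Y → cnt P (fun y => y ∉ Y ∧ R x y) ≤ 3 * t)
    (S : Finset (V × V)) (hS : ∀ q ∈ S, q.1 ∈ P ∧ q.2 ∈ P ∧ R q.1 q.2) (x : V) :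
    cnt S (fun q => (q.1 ∈ Y ↔ q.2 ∈ Y) ∧ (q.1 = x ∨ q.2 = x)) ≤ 6 * t := by
  have h0 : cnt P (fun y => (x ∈ Y ↔ y ∈ Y) ∧ R x y) ≤ 3 * t := by
    by_cases hx : x ∈ Y
    · exact (cnt_le_of_subset fun a _ h => h.1.1 hx).trans (by omega)
    · exact (cnt_mono fun a ha h => ⟨ha, fun h' => hx (h.1.2 h'), h.2⟩).trans (hd x hx)
  have h1 := SubP_fst S (fun q => (q.1 ∈ Y ↔ q.2 ∈ Y) ∧ q.1 = x) x P
    (fun y => (x ∈ Y ↔ y ∈ Y) ∧ R x y) fun q hq h =>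
      ⟨h.2, (hS q hq).2.1, h.2 ▸ h.1, h.2 ▸ (hS q hq).2.2⟩
  have h2 := SubP_snd S (fun q => (q.1 ∈ Y ↔ q.2 ∈ Y) ∧ q.2 = x) x P
    (fun y => (x ∈ Y ↔ y ∈ Y) ∧ R x y) fun q hq h =>
      ⟨h.2, (hS q hq).1, h.2 ▸ h.1.symm, h.2 ▸ hs _ _ (hS q hq).2.2⟩
  have h3 : cnt S (fun q => (q.1 ∈ Y ↔ q.2 ∈ Y) ∧ (q.1 = x ∨ q.2 = x)) ≤
      cnt S (fun q => (q.1 ∈ Y ↔ q.2 ∈ Y) ∧ q.1 = x) +
        cnt S (fun q => (q.1 ∈ Y ↔ q.2 ∈ Y) ∧ q.2 = x) :=
    cnt_le_add fun q hq h => h.2.imp (fun h' => ⟨hq, h.1, h'⟩) fun h' => ⟨hq, h.1, h'⟩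
  omega

theorem SubP_card {V : Type} {t : ℕ} (P Y : Finset V) (hY : Y.card ≤ t) (R : V → V → Prop)
    (hd : ∀ x, x ∉ Y → cnt P (fun y => y ∉ Y ∧ R x y) ≤ 3 * t) (S : Finset (V × V))
    (hS : ∀ q ∈ S, q.1 ∈ P ∧ q.2 ∈ P ∧ R q.1 q.2 ∧ (q.1 ∉ Y → q.2 ∉ Y)) :
    S.card ≤ 4 * t * P.card := by
  classical
  have h1 : (S.filter fun q => q.1 ∈ Y).card ≤ t * P.card := by
    refine (card_le_card (t := Y ×ˢ P) fun q hq => ?_).trans ?_
    · exact mem_product.2 ⟨(mem_filter.1 hq).2, (hS q (mem_filter.1 hq).1).2.1⟩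
    · rw [card_product]
      exact Nat.mul_le_mul_right _ hY
  have h2 : (S.filter fun q => ¬ q.1 ∈ Y).card ≤ 3 * t * P.card := by
    refine card_le_mul_card_image_of_maps_to (f := Prod.fst)
      (fun q hq => (hS q (mem_filter.1 hq).1).1) _ fun x _ => ?_
    by_cases hx : x ∈ Y
    · rw [filter_eq_empty_iff.2, card_empty]
      · exact Nat.zero_le _
      · intro q hq e
        exact (mem_filter.1 hq).2 (e ▸ hx)
    · rw [← cnt_eq]
      refine (SubP_fst _ _ x P (fun y => y ∉ Y ∧ R x y) fun q hq e => ?_).trans (hd x hx)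
      obtain ⟨-, k2, k3, k4⟩ := hS q (mem_filter.1 hq).1
      exact ⟨e, k2, k4 (mem_filter.1 hq).2, e ▸ k3⟩
  have h3 := card_filter_add_card_filter_not (s := S) fun q => q.1 ∈ Y
  nlinarith

theorem SubP_pool0 {V : Type} [DecidableEq V] {t : ℕ} (s : Sub V t) {u u' : V} (hu : u ∈ s.P)
    (hu' : u' ∈ s.P) : 3 * NN t ≤ cnt s.Q (fun w => s.l1 w = s.l1 u ∧ s.l2 w = s.l1 u' ∧
      s.ok u w ∧ s.ok u' w) + 3 * t := by
  have h0 := (s.szQ (s.l1 u) (s.l1 u')).1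
  have h1 := s.nokP u hu
  have h2 := s.nokP u' hu'
  have h3 := SubP_or_le (s.P ∪ s.Q ∪ s.E) (fun v => ¬ s.ok u v) fun v => ¬ s.ok u' v
  have h4 : cnt s.Q (fun v => s.l1 v = s.l1 u ∧ s.l2 v = s.l1 u') ≤
      cnt s.Q (fun w => s.l1 w = s.l1 u ∧ s.l2 w = s.l1 u' ∧ s.ok u w ∧ s.ok u' w) +
        cnt (s.P ∪ s.Q ∪ s.E) (fun v => ¬ s.ok u v ∨ ¬ s.ok u' v) := by
    refine cnt_le_add fun w hw h => ?_
    by_cases c : s.ok u w ∧ s.ok u' w
    · exact Or.inl ⟨hw, h.1, h.2, c⟩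
    · exact Or.inr ⟨mem_union_left _ (mem_union_right _ hw), not_and_or.1 c⟩
  omega

theorem SubP_pool1 {V : Type} [DecidableEq V] {t : ℕ} (s : Sub V t) {u u' : V} (hu : u ∈ s.P)
    (hu' : u' ∈ s.P) (bad : V → Prop) (hb : ∀ w, bad w → w ∈ s.E) :
    500 * NN t ≤ cnt (s.Q ∪ s.E) (fun w => s.l1 w = s.l1 u' ∧ s.ok u w ∧ s.ok u' w ∧ ¬ bad w) +
      202 * t + cnt s.E bad := by
  classical
  have h0 := (s.Q1 (s.l1 u')).1
  have h0' := (s.E1 (s.l1 u')).1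
  have h1 := s.nokP u hu
  have h2 := s.nokP u' hu'
  have h3 := SubP_or_le (s.P ∪ s.Q ∪ s.E) (fun v => ¬ s.ok u v) fun v => ¬ s.ok u' v
  have h4 : cnt (s.Q ∪ s.E) (fun v => s.l1 v = s.l1 u') ≤
      cnt (s.Q ∪ s.E) (fun w => s.l1 w = s.l1 u' ∧ s.ok u w ∧ s.ok u' w) +
        cnt (s.P ∪ s.Q ∪ s.E) (fun v => ¬ s.ok u v ∨ ¬ s.ok u' v) := by
    refine cnt_le_add fun w hw h => ?_
    by_cases c : s.ok u w ∧ s.ok u' w
    · exact Or.inl ⟨hw, h, c⟩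
    · exact Or.inr ⟨by rw [union_assoc]; exact mem_union_right _ hw, not_and_or.1 c⟩
  have h5 : cnt (s.Q ∪ s.E) (fun w => s.l1 w = s.l1 u' ∧ s.ok u w ∧ s.ok u' w) ≤
      cnt (s.Q ∪ s.E) (fun w => s.l1 w = s.l1 u' ∧ s.ok u w ∧ s.ok u' w ∧ ¬ bad w) +
        cnt s.E bad := by
    refine cnt_le_add fun w hw h => ?_
    by_cases c : bad w
    · exact Or.inr ⟨hb w c, c⟩
    · exact Or.inl ⟨hw, h.1, h.2.1, h.2.2, c⟩
  have h6 : cnt (s.Q ∪ s.E) (fun v => s.l1 v = s.l1 u') =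
      cnt s.Q (fun v => s.l1 v = s.l1 u') + cnt s.E (fun v => s.l1 v = s.l1 u') := by
    rw [cnt_eq, cnt_eq, cnt_eq, filter_union,
      card_union_of_disjoint (disjoint_filter_filter s.dQE)]
  omega

theorem sub_P {V : Type} [DecidableEq V] {t : ℕ} (s : Sub V t) (ht : 0 < t) (Y : Finset V)
    (hY : Y.card ≤ t) (R bad : V → V → Prop) (hs : ∀ x y, R x y → R y x)
    (hR : ∀ x y, R x y → x ∈ s.P ∧ y ∈ s.P ∧ s.ok x y)
    (hd : ∀ x, x ∉ Y → cnt s.P (fun y => y ∉ Y ∧ R x y) ≤ 3 * t)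
    (hb : ∀ u w, bad u w → u ∉ Y ∧ w ∈ s.E)
    (hb' : ∀ u ∈ s.P, cnt s.E (bad u) ≤ 3 * LL t) :
    ∃ M : Finset (Finset V),
      (∀ K ∈ M, ∃ u u' w, K = {u, u', w} ∧ R u u' ∧ w ∈ s.Q ∪ s.E ∧ s.fr Y u w ∧ s.fr Y u' w ∧
        ¬ bad u w ∧ ¬ bad u' w) ∧
      Lin M ∧ ∀ x y, R x y → Cv M x y := by
  classical
  rcases isEmpty_or_nonempty V with hV | hV
  · exact ⟨∅, fun _ h => absurd h (notMem_empty _), fun _ h => absurd h (notMem_empty _),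
      fun x => hV.elim x⟩
  obtain ⟨o, o1, o2, o3⟩ := SubP_or Y
  obtain ⟨S, hS⟩ : ∃ S : Finset (V × V), ∀ p, p ∈ S ↔ R p.1 p.2 ∧ o p.1 p.2 :=
    ⟨(s.P ×ˢ s.P).filter fun p => R p.1 p.2 ∧ o p.1 p.2, fun p => by
      rw [mem_filter, mem_product]
      exact ⟨And.right, fun h => ⟨⟨(hR _ _ h.1).1, (hR _ _ h.1).2.1⟩, h⟩⟩⟩
  have hP1 : ∀ p ∈ S, p.1 ∈ s.P := fun p hp => (hR _ _ ((hS p).1 hp).1).1
  have hP2 : ∀ p ∈ S, p.2 ∈ s.P := fun p hp => (hR _ _ ((hS p).1 hp).1).2.1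
  have hPW : ∀ v ∈ s.P, v ∉ s.Q ∪ s.E := fun v hv h => by
    rcases mem_union.1 h with h | h
    · exact disjoint_left.1 s.dPQ hv h
    · exact disjoint_left.1 s.dPE hv h
  obtain ⟨pool, pl1, pl0⟩ : ∃ pool : V × V → Finset V,
      (∀ p : V × V, p.1 ∈ Y ∧ p.2 ∉ Y → pool p = (s.Q ∪ s.E).filter fun w =>
        s.l1 w = s.l1 p.2 ∧ s.ok p.1 w ∧ s.ok p.2 w ∧ ¬ bad p.2 w) ∧
      ∀ p : V × V, ¬ (p.1 ∈ Y ∧ p.2 ∉ Y) → pool p = s.Q.filter fun w =>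
        s.l1 w = s.l1 p.1 ∧ s.l2 w = s.l1 p.2 ∧ s.ok p.1 w ∧ s.ok p.2 w :=
    ⟨fun p => if p.1 ∈ Y ∧ p.2 ∉ Y then _ else _, fun p h => if_pos h, fun p h => if_neg h⟩
  obtain ⟨G, hG⟩ : ∃ G : V → V → Prop, ∀ x y,
      G x y ↔ x ∈ s.P ∧ y ∈ s.Q ∪ s.E ∧ s.fr Y x y ∧ ¬ bad x y := ⟨_, fun _ _ => Iff.rfl⟩
  have hpl : ∀ p ∈ S, ∀ z ∈ pool p, G p.1 z ∧ G p.2 z := by
    intro p hp z hz
    rw [hG, hG]
    by_cases c : p.1 ∈ Y ∧ p.2 ∉ Y
    · rw [pl1 p c, mem_filter] at hz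
      obtain ⟨k0, k1, k2, k3, k4⟩ := hz
      exact ⟨⟨hP1 p hp, k0, ⟨k2, Or.inr (Or.inl c.1)⟩, fun h => (hb _ _ h).1 c.1⟩,
        hP2 p hp, k0, ⟨k3, Or.inl (Or.inl k1.symm)⟩, k4⟩
    · rw [pl0 p c, mem_filter] at hz
      obtain ⟨k0, k1, k2, k3, k4⟩ := hz
      have k5 : ∀ u, ¬ bad u z := fun u h => disjoint_left.1 s.dQE k0 (hb _ _ h).2
      exact ⟨⟨hP1 p hp, mem_union_left _ k0, ⟨k3, Or.inl (Or.inl k1.symm)⟩, k5 _⟩,
        hP2 p hp, mem_union_left _ k0, ⟨k4, Or.inl (Or.inr (Or.inl k2.symm))⟩, k5 _⟩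
  have hbP : ∀ p ∈ S, ∀ v ∈ ({p.1, p.2} : Finset V), v ∈ s.P := by
    intro p hp v hv
    rcases mem_insert.1 hv with rfl | hv
    · exact hP1 p hp
    · rw [mem_singleton.1 hv]
      exact hP2 p hp
  have hbG : ∀ p ∈ S, ∀ z ∈ pool p, ∀ v ∈ ({p.1, p.2} : Finset V), G v z := by
    intro p hp z hz v hv
    rcases mem_insert.1 hv with rfl | hv
    · exact (hpl p hp z hz).1
    · rw [mem_singleton.1 hv]
      exact (hpl p hp z hz).2
  have hcard : S.card / LL t ≤ 20000000 * t := by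
    have h1 := SubP_card s.P Y hY R hd S fun q hq =>
      ⟨hP1 q hq, hP2 q hq, ((hS q).1 hq).1, fun h h' => by
        rcases o3 _ _ ((hS q).1 hq).2 with k | k
        · exact h k.1
        · exact h (k.2 h')⟩
    have h2 := s.cardP.2
    refine Nat.div_le_of_le_mul (h1.trans ((Nat.mul_le_mul_left _ h2).trans ?_))
    unfold NN LL
    nlinarith [Nat.zero_le (t * t)]
  have hz0 := SubP_zero s.P Y hY R hs hd S fun q hq => ⟨hP1 q hq, hP2 q hq, ((hS q).1 hq).1⟩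
  have hmeet : ∀ p q : V × V, ¬ Disjoint ({q.1, q.2} : Finset V) {p.1, p.2} →
      (q.1 = p.1 ∨ q.2 = p.1) ∨ (q.1 = p.2 ∨ q.2 = p.2) := by
    intro p q h
    obtain ⟨v, h1, h2⟩ := not_disjoint_iff.1 h
    simp only [mem_insert, mem_singleton] at h1 h2
    rcases h1 with rfl | rfl <;> tauto
  have hz1 : ∀ p : V × V, cnt S (fun q => ¬ (q.1 ∈ Y ∧ q.2 ∉ Y) ∧
      ¬ Disjoint ({q.1, q.2} : Finset V) {p.1, p.2}) ≤ 12 * t := by
    intro p
    have h1 := hz0 p.1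
    have h2 := hz0 p.2
    have h3 : cnt S (fun q => ¬ (q.1 ∈ Y ∧ q.2 ∉ Y) ∧
        ¬ Disjoint ({q.1, q.2} : Finset V) {p.1, p.2}) ≤ _ + _ :=
      cnt_le_add (q := fun q => (q.1 ∈ Y ↔ q.2 ∈ Y) ∧ (q.1 = p.1 ∨ q.2 = p.1))
        (r := fun q => (q.1 ∈ Y ↔ q.2 ∈ Y) ∧ (q.1 = p.2 ∨ q.2 = p.2)) fun q hq h => by
          have k := (o3 _ _ ((hS q).1 hq).2).resolve_left h.1
          exact (hmeet p q h.2).imp (fun h' => ⟨hq, k, h'⟩) fun h' => ⟨hq, k, h'⟩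
    omega
  obtain ⟨z, z1, -, -, z4⟩ := greedy S id (fun p => {p.1, p.2}) pool
    (fun p => if p.1 ∈ Y ∧ p.2 ∉ Y then 1 else 0) (fun x y => G x y ∨ G y x) 0 (LL t) 0
    (by unfold LL; omega) (fun _ _ h => h.symm)
    (fun x h => hPW x ((hG _ _).1 (h.elim id id)).1 ((hG _ _).1 (h.elim id id)).2.1)
    (fun p _ => by
      have h1 : ({p.1, p.2} : Finset V).card ≤ 2 := card_le_two
      have h2 : (S.filter fun q => id q = id p).card ≤ 1 :=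
        card_le_one.2 fun a ha b hb => (mem_filter.1 ha).2.trans (mem_filter.1 hb).2.symm
      exact (add_le_add h1 h2).trans (by norm_num))
    (fun p hp z hz v hv => Or.inl (hbG p hp z hz v hv))
    (fun p hp u hu v hv h => h.elim (fun h => hPW v (hbP p hp v hv) ((hG _ _).1 h).2.1)
      fun h => hPW u (hbP p hp u hu) ((hG _ _).1 h).2.1)
    (fun p _ q _ h h' => absurd h h')
    (fun p hp z hz => (cnt_le_of_subset (t := ∅) fun q hq h =>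
      absurd ((hG _ _).1 (hpl p hp z hz).1).2.1 (hPW z (hbP q hq z h))).trans card_empty.le)
    (fun p hp => by
      have h0 := hz1 p
      by_cases c : p.1 ∈ Y ∧ p.2 ∉ Y
      · have h1 := SubP_pool1 s (hP1 p hp) (hP2 p hp) (bad p.2) fun w h => (hb _ _ h).2
        rw [cnt_eq (s.Q ∪ s.E), ← pl1 p c] at h1
        have h2 := hb' _ (hP2 p hp)
        have h3 := (s.P1 (s.l1 p.2)).2
        have h4 := SubP_fst S (fun q => q.1 = p.1 ∧ s.l1 q.2 = s.l1 p.2) p.1 s.P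
          (fun v => s.l1 v = s.l1 p.2) fun q hq h => ⟨h.1, hP2 q hq, h.2⟩
        have h5 := SubP_snd S (fun q => q.2 = p.2 ∧ q.1 ∈ Y) p.2 Y (fun _ => True)
          fun q hq h => ⟨h.1, h.2, trivial⟩
        have h6 := cnt_le_card Y fun _ => True
        have h7 := SubP_or_le S (fun q => q.1 = p.1 ∧ s.l1 q.2 = s.l1 p.2)
          fun q => q.2 = p.2 ∧ q.1 ∈ Y
        refine lt_of_le_of_lt (Nat.add_le_add_right (Nat.add_le_add
          (cnt_le_add (t := S) (u := S)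
            (q := fun q => ¬ (q.1 ∈ Y ∧ q.2 ∉ Y) ∧ ¬ Disjoint ({q.1, q.2} : Finset V) {p.1, p.2})
            (r := fun q => (q.1 = p.1 ∧ s.l1 q.2 = s.l1 p.2) ∨ (q.2 = p.2 ∧ q.1 ∈ Y))
            fun q hq h => ?_) hcard) _) ?_
        · obtain ⟨-, -, k3, k4⟩ := h
          by_cases c' : q.1 ∈ Y ∧ q.2 ∉ Y
          · refine Or.inr ⟨hq, ?_⟩
            obtain ⟨w, w1, w2⟩ := not_disjoint_iff.1 k4
            rw [pl1 q c', mem_filter] at w1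
            rw [pl1 p c, mem_filter] at w2
            rcases hmeet p q k3 with (e | e) | (e | e)
            · exact Or.inl ⟨e, w1.2.1.symm.trans w2.2.1⟩
            · exact absurd (e ▸ c.1) c'.2
            · exact absurd (e ▸ c'.1) c.2
            · exact Or.inr ⟨e, c'.1⟩
          · exact Or.inl ⟨hq, c', k3⟩
        · unfold NN LL at *
          omega
      · have h1 := SubP_pool0 s (hP1 p hp) (hP2 p hp)
        rw [cnt_eq s.Q, ← pl0 p c] at h1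
        refine lt_of_le_of_lt (Nat.add_le_add_right (Nat.add_le_add
          ((cnt_mono (t := S) fun q hq h => ?_).trans h0) hcard) _) ?_
        · refine ⟨hq, fun c' => ?_, h.2.2.1⟩
          have k := h.2.1
          simp only [if_pos c', if_neg c] at k
          omega
        · unfold NN LL at *
          omega)
  have hK : ∀ p ∈ S, KK S id (fun p : V × V => ({p.1, p.2} : Finset V)) z (id p) =
      {p.1, p.2, z p} := by
    intro p hp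
    ext v
    simp only [KK, id, mem_union, mem_insert, mem_singleton, mem_image, mem_filter]
    constructor
    · rintro ((h | h) | ⟨q, ⟨-, rfl⟩, h⟩)
      · exact Or.inl h
      · exact Or.inr (Or.inl h)
      · exact Or.inr (Or.inr h.symm)
    · rintro (h | h | h)
      · exact Or.inl (Or.inl h)
      · exact Or.inl (Or.inr h)
      · exact Or.inr ⟨p, ⟨hp, rfl⟩, h.symm⟩
  have hbase : ∀ p ∈ S, ∀ x y, x ≠ y → ¬ (G x y ∨ G y x) → x ∈ ({p.1, p.2, z p} : Finset V) →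
      y ∈ ({p.1, p.2, z p} : Finset V) → p = (x, y) ∨ p = (y, x) := by
    intro p hp x y hxy hn hx hy
    obtain ⟨g1, g2⟩ := hpl p hp _ (z1 p hp)
    simp only [mem_insert, mem_singleton] at hx hy
    rcases hx with rfl | rfl | rfl <;> rcases hy with rfl | rfl | rfl <;> tauto
  refine ⟨S.image fun p => {p.1, p.2, z p}, fun K hK' => ?_, fun K hK' L hL x y hxy h1 h2 h3 h4 => ?_,
    fun x y h => ?_⟩
  · obtain ⟨p, hp, rfl⟩ := mem_image.1 hK'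
    obtain ⟨g1, g2⟩ := hpl p hp _ (z1 p hp)
    rw [hG] at g1 g2
    exact ⟨p.1, p.2, z p, rfl, ((hS p).1 hp).1, g1.2.1, g1.2.2.1, g2.2.2.1, g1.2.2.2, g2.2.2.2⟩
  · obtain ⟨p, hp, rfl⟩ := mem_image.1 hK'
    obtain ⟨q, hq, rfl⟩ := mem_image.1 hL
    have e : p = q := by
      by_cases c : G x y ∨ G y x
      · exact z4 p hp q hq x y c (by rwa [hK p hp]) (by rwa [hK p hp]) (by rwa [hK q hq])
          (by rwa [hK q hq])
      · have k1 := ((hS p).1 hp).2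
        have k2 := ((hS q).1 hq).2
        rcases hbase p hp x y hxy c h1 h2 with rfl | rfl <;>
          rcases hbase q hq x y hxy c h3 h4 with rfl | rfl
        · rfl
        · exact absurd k2 (o2 _ _ k1)
        · exact absurd k2 (o2 _ _ k1)
        · rfl
    rw [e]
  · have hxy : x ≠ y := by
      rintro rfl
      exact s.ok_irr x (hR _ _ h).2.2
    rcases o1 x y hxy with k | k
    · exact ⟨_, mem_image_of_mem _ ((hS (x, y)).2 ⟨h, k⟩), by simp, by simp⟩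
    · exact ⟨_, mem_image_of_mem _ ((hS (y, x)).2 ⟨hs _ _ h, k⟩), by simp, by simp⟩

end Pool.Agent.P.MP_c18ddb_co.X
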