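import Pool.Agent.P.MP_c18ddb_co.X.SubFrac
import Pool.Agent.P.MP_c18ddb_co.X.SubH
import Pool.Agent.P.MP_c18ddb_co.X.SubP
import Pool.Agent.P.MP_c18ddb_co.X.Acc

/-! Solution of a completion problem. -/

namespace Pool.Agent.P.MP_c18ddb_co.X

open Finset

section
variable {V : Type} [DecidableEq V] {M N : Finset (Finset V)} {P : Finset V} {x y u u' w w' : V}

omit [DecidableEq V] in
theorem SubMain_symm (h : Cv M x y) : Cv M y x := h.imp fun _ h => ⟨h.1, h.2.2, h.2.1⟩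

omit [DecidableEq V] in
theorem SubMain_mono (h : Cv M x y) (h' : M ⊆ N) : Cv N x y := h.imp fun _ h => ⟨h' h.1, h.2⟩

theorem SubMain_lin (P : Finset V) (hM : Lin M) (hN : Lin N)
    (h : ∀ x y, x ≠ y → (y ∈ P → x ∈ P) → Cv M x y → ¬ Cv N x y) : Lin (M ∪ N) := by
  have h' : ∀ x y, x ≠ y → Cv M x y → ¬ Cv N x y := fun x y hn h1 h2 => by
    by_cases hx : x ∈ P
    · exact h x y hn (fun _ => hx) h1 h2
    · exact h y x hn.symm (fun e => absurd e hx) (SubMain_symm h1) (SubMain_symm h2)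
  intro K hK L hL x y hn a b c d
  rcases mem_union.1 hK with hK | hK <;> rcases mem_union.1 hL with hL | hL
  · exact hM K hK L hL x y hn a b c d
  · exact absurd ⟨L, hL, c, d⟩ (h' x y hn ⟨K, hK, a, b⟩)
  · exact absurd ⟨K, hK, a, b⟩ (h' x y hn ⟨L, hL, c, d⟩)
  · exact hN K hK L hL x y hn a b c d

theorem SubMain_in (hw : w ∉ P) (hw' : w' ∉ P) (h : x ∈ ({u, u', w, w'} : Finset V))
    (hx : x ∈ P) : x = u ∨ x = u' := by
  simp only [mem_insert, mem_singleton] at h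
  rcases h with h | h | rfl | rfl
  exacts [.inl h, .inr h, absurd hx hw, absurd hx hw']

theorem SubMain_out (hu : u ∈ P) (hu' : u' ∈ P) (h : x ∈ ({u, u', w, w'} : Finset V))
    (hx : x ∉ P) : x = w ∨ x = w' := by
  simp only [mem_insert, mem_singleton] at h
  rcases h with rfl | rfl | h | h
  exacts [absurd hu hx, absurd hu' hx, .inl h, .inr h]

omit [DecidableEq V] in
theorem SubMain_pair {r : V → V → Prop} (h : r u u') (h' : r u' u) (hn : x ≠ y)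
    (hx : x = u ∨ x = u') (hy : y = u ∨ y = u') : r x y := by
  rcases hx with rfl | rfl <;> rcases hy with rfl | rfl
  exacts [absurd rfl hn, h, h', absurd rfl hn]

omit [DecidableEq V] in
theorem SubMain_cross {r : V → V → Prop} (h1 : r u w) (h2 : r u' w) (h3 : r u w') (h4 : r u' w')
    (hx : x = u ∨ x = u') (hy : y = w ∨ y = w') : r x y := by
  rcases hx with rfl | rfl <;> rcases hy with rfl | rfl
  exacts [h1, h3, h2, h4]

variable {t : ℕ} (s : Sub V t)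

theorem SubMain_E (h : x ∈ s.E) : x ∉ s.P := disjoint_right.1 s.dPE h

theorem SubMain_QE (h : x ∈ s.Q ∪ s.E) : x ∉ s.P :=
  (mem_union.1 h).elim (fun h => disjoint_right.1 s.dPQ h) (SubMain_E s)

theorem SubMain_fst {K : Finset V} (h : s.Fst K) : ∃ u u' w w', K = {u, u', w, w'} ∧ u ∈ s.P ∧
    u' ∈ s.P ∧ w ∉ s.P ∧ w' ∉ s.P ∧ s.av u w ∧ s.av u' w ∧ s.av u w' ∧ s.av u' w' ∧
    (w = w' ∨ s.l1 u ≠ s.l1 u') := by
  obtain ⟨⟨u, u', w, w'⟩, ⟨h1, h2, -, h4, h5, h6, h7, h8⟩, rfl⟩ := h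
  rcases h8 with ⟨e, h8⟩ | ⟨h8, h9⟩
  · obtain rfl : w = w' := e
    exact ⟨u, u', w, w, rfl, h1, h2, SubMain_QE s h8, SubMain_QE s h8, h4, h5, h6, h7, .inl rfl⟩
  · exact ⟨u, u', w, w', rfl, h1, h2, SubMain_E s (s.H_mem _ _ h8).1,
      SubMain_E s (s.H_mem _ _ h8).2.1, h4, h5, h6, h7, .inr h9⟩

end

theorem sub_main : ∃ t0 : ℕ, ∀ t, t0 ≤ t → ∀ (V : Type) [Fintype V] [DecidableEq V] (s : Sub V t),
    ∃ M : Finset (Finset V), (∀ K ∈ M, s.Shape K) ∧ Lin M ∧ ∀ x y, s.Must x y → Cv M x y := by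
  classical
  obtain ⟨t0, H⟩ := sub_frac
  refine ⟨t0 + 1, fun t ht V _ _ s => ?_⟩
  obtain ⟨M0, a1, a2, a3⟩ := H t (by omega) V s
  obtain ⟨Y, M1, hY, b1, b2, b3⟩ := sub_Y s M0 a1 a2 a3
  obtain ⟨MH, c1, c2, c3, c4⟩ := sub_H s (by omega) Y hY (fun e e' => s.H e e' ∧ ¬ Cv M1 e e')
    (fun x y h => ⟨s.H_symm _ _ h.1, fun e => h.2 (SubMain_symm e)⟩) (fun x y h => h.1)
    fun x hx => (cnt_mono fun y hy h =>
      ⟨mem_union_right _ hy, h.1, .inr h.2.1, h.2.2⟩).trans (b3 x hx)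
  have hH : ∀ x y, x ≠ y → Cv MH x y → (x ∈ s.P → y ∈ s.P → s.l1 x = s.l1 y) ∧
      (x ∉ s.P → y ∉ s.P → ¬ Cv M1 x y) ∧
      (x ∈ s.P → y ∉ s.P → x ∉ Y ∧ y ∈ s.E ∧ s.fr Y x y) := by
    rintro x y hn ⟨K, hK, hx, hy⟩
    obtain ⟨u, u', e, e', rfl, h1, h2, h3, h4, -, h5, ⟨h6, h7⟩, h8, h9, h10, h11⟩ := c1 K hK
    obtain ⟨m1, m2, -⟩ := s.H_mem _ _ h6
    have n1 := SubMain_E s m1
    have n2 := SubMain_E s m2
    exact ⟨fun p q => SubMain_pair (r := fun a b => s.l1 a = s.l1 b) h5 h5.symm hn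
        (SubMain_in n1 n2 hx p) (SubMain_in n1 n2 hy q),
      fun p q => SubMain_pair (r := fun a b => ¬ Cv M1 a b) h7 (fun e => h7 (SubMain_symm e)) hn
        (SubMain_out h1 h2 hx p) (SubMain_out h1 h2 hy q),
      fun p q => SubMain_cross (r := fun a b => a ∉ Y ∧ b ∈ s.E ∧ s.fr Y a b) ⟨h3, m1, h8⟩
        ⟨h4, m1, h9⟩ ⟨h3, m2, h10⟩ ⟨h4, m2, h11⟩ (SubMain_in n1 n2 hx p)
        (SubMain_out h1 h2 hy q)⟩
  obtain ⟨MP, d1, d2, d3⟩ := sub_P s (by omega) Y hY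
    (fun u u' => (u ∈ s.P ∧ u' ∈ s.P ∧ s.ok u u') ∧ ¬ Cv M1 u u' ∧ ¬ Cv MH u u')
    (fun u w => u ∈ s.P ∧ w ∈ s.E ∧ Cv MH u w)
    (fun x y h => ⟨⟨h.1.2.1, h.1.1, s.ok_symm _ _ h.1.2.2⟩, fun e => h.2.1 (SubMain_symm e),
      fun e => h.2.2 (SubMain_symm e)⟩) (fun x y h => h.1)
    (fun x hx => (cnt_mono fun y hy h =>
      ⟨mem_union_left _ hy, h.1, .inl h.2.1, h.2.2.1⟩).trans (b3 x hx))
    (fun u w h => ⟨((hH u w (fun e => SubMain_E s h.2.1 (e ▸ h.1)) h.2.2).2.2 h.1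
      (SubMain_E s h.2.1)).1, h.2.1⟩)
    fun u hu => (cnt_mono fun w hw h => ⟨hw, fun e => SubMain_E s hw (e ▸ hu), h.2.2⟩).trans
      ((cnt_Cv_le (fun K hK => by
        obtain ⟨u, u', e, e', rfl, -⟩ := c1 K hK
        exact card_le_four) u s.E).trans (Nat.mul_le_mul_left 3 (c4 u hu)))
  have hP : ∀ x y, x ≠ y → (y ∈ s.P → x ∈ s.P) → Cv MP x y → x ∈ s.P ∧
      (y ∈ s.P → ¬ Cv M1 x y ∧ ¬ Cv MH x y) ∧
      (y ∉ s.P → s.fr Y x y ∧ ¬ (x ∈ s.P ∧ y ∈ s.E ∧ Cv MH x y)) := by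
    rintro x y hn hxy ⟨K, hK, hx, hy⟩
    obtain ⟨u, u', w, rfl, ⟨⟨h1, h2, -⟩, h3⟩, h4, h5, h6, h7, h8⟩ := d1 K hK
    have n1 := SubMain_QE s h4
    rw [← pair_eq_singleton w] at hx hy
    have p : x ∈ s.P := by
      by_contra p
      exact hn (((or_self_iff.1 (SubMain_out h1 h2 hx p))).trans
        (or_self_iff.1 (SubMain_out h1 h2 hy fun q => p (hxy q))).symm)
    exact ⟨p, fun q => SubMain_pair (r := fun a b => ¬ Cv M1 a b ∧ ¬ Cv MH a b) h3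
        ⟨fun e => h3.1 (SubMain_symm e), fun e => h3.2 (SubMain_symm e)⟩ hn
        (SubMain_in n1 n1 hx p) (SubMain_in n1 n1 hy q),
      fun q => SubMain_cross (r := fun a b => s.fr Y a b ∧ ¬ (a ∈ s.P ∧ b ∈ s.E ∧ Cv MH a b))
        ⟨h5, h7⟩ ⟨h6, h8⟩ ⟨h5, h7⟩ ⟨h6, h8⟩ (SubMain_in n1 n1 hx p) (SubMain_out h1 h2 hy q)⟩
  obtain ⟨M2, e1⟩ : ∃ M2 : Finset (Finset V), ∀ K, K ∈ M2 ↔ K ∈ M1 ∧
      ∀ x ∈ K, ∀ y ∈ K, x ≠ y → x ∈ s.P → y ∈ s.P → ¬ Cv MH x y :=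
    ⟨M1.filter _, fun K => mem_filter⟩
  have e2 : M2 ⊆ M1 := fun K hK => ((e1 K).1 hK).1
  have h1 : ∀ x y, Cv M1 x y → x ∈ s.P → y ∉ s.P → ¬ s.fr Y x y := by
    rintro x y ⟨K, hK, hx, hy⟩ p q h
    obtain ⟨u, u', w, w', rfl, h1, h2, h3, h4, h5, h6, h7, h8, -⟩ := SubMain_fst s (b1 K hK).1
    rcases h.2 with h | h | h
    · exact (SubMain_cross h5 h6 h7 h8 (SubMain_in h3 h4 hx p) (SubMain_out h1 h2 hy q)).2 h
    · exact disjoint_left.1 (b1 _ hK).2 hx h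
    · exact disjoint_left.1 (b1 _ hK).2 hy h
  refine ⟨M2 ∪ MH ∪ MP, fun K hK => ?_, SubMain_lin s.P (SubMain_lin s.P
    (fun K hK L hL => b2 K (e2 hK) L (e2 hL)) c2 fun x y hn hxy p q => ?_) d2
    fun x y hn hxy p q => ?_, fun x y h => ?_⟩
  · rcases mem_union.1 hK with hK | hK
    · rcases mem_union.1 hK with hK | hK
      · obtain ⟨⟨u, u', w, w'⟩, ⟨h1, h2, h3, h4, h5, h6, h7, h8⟩, rfl⟩ := (b1 K (e2 hK)).1
        exact ⟨u, u', w, w', rfl, h1, h2, h3, h4.1, h5.1, h6.1, h7.1, h8.imp_right And.left⟩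
      · obtain ⟨u, u', e, e', rfl, h1, h2, -, -, h3, -, h4, h5, h6, h7, h8⟩ := c1 K hK
        exact ⟨u, u', e, e', rfl, h1, h2, h3, h5.1, h6.1, h7.1, h8.1, .inr h4.1⟩
    · obtain ⟨u, u', w, rfl, ⟨⟨h1, h2, h3⟩, -⟩, h4, h5, h6, -⟩ := d1 K hK
      exact ⟨u, u', w, w, by rw [pair_eq_singleton], h1, h2, h3, h5.1, h6.1, h5.1, h6.1,
        .inl ⟨rfl, h4⟩⟩
  · by_cases hx : x ∈ s.P
    · by_cases hy : y ∈ s.P
      · obtain ⟨K, hK, a, b⟩ := p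
        exact ((e1 K).1 hK).2 x a y b hn hx hy q
      · exact h1 x y (SubMain_mono p e2) hx hy ((hH x y hn q).2.2 hx hy).2.2
    · exact (hH x y hn q).2.1 hx (fun hy => hx (hxy hy)) (SubMain_mono p e2)
  · obtain ⟨hx, f1, f2⟩ := hP x y hn hxy q
    obtain ⟨K, hK, a, b⟩ := p
    by_cases hy : y ∈ s.P
    · rcases mem_union.1 hK with hK | hK
      exacts [(f1 hy).1 ⟨K, e2 hK, a, b⟩, (f1 hy).2 ⟨K, hK, a, b⟩]
    · rcases mem_union.1 hK with hK | hK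
      · exact h1 x y ⟨K, e2 hK, a, b⟩ hx hy (f2 hy).1
      · exact (f2 hy).2 ⟨hx, ((hH x y hn ⟨K, hK, a, b⟩).2.2 hx hy).2.1, K, hK, a, b⟩
  · have s1 : M2 ⊆ M2 ∪ MH ∪ MP := subset_union_left.trans subset_union_left
    have s2 : MH ⊆ M2 ∪ MH ∪ MP := subset_union_right.trans subset_union_left
    by_cases p : Cv MH x y
    · exact SubMain_mono p s2
    by_cases q : Cv M1 x y
    · obtain ⟨K, hK, hx, hy⟩ := q
      refine ⟨K, s1 ((e1 K).2 ⟨hK, fun a ha b hb hn pa pb hc => ?_⟩), hx, hy⟩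
      obtain ⟨u, u', w, w', rfl, h1, h2, h3, h4, -, -, -, -, h5⟩ := SubMain_fst s (b1 K hK).1
      have f1 := SubMain_in h3 h4 ha pa
      have f2 := SubMain_in h3 h4 hb pb
      rcases h with ⟨px, py, h⟩ | h
      · have f3 : Cv MH u u' := by
          rcases f1 with rfl | rfl <;> rcases f2 with rfl | rfl
          exacts [absurd rfl hn, hc, SubMain_symm hc, absurd rfl hn]
        exact p (SubMain_pair f3 (SubMain_symm f3) (fun e => s.ok_irr y (e ▸ h))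
          (SubMain_in h3 h4 hx px) (SubMain_in h3 h4 hy py))
      · obtain ⟨m1, m2, m3⟩ := s.H_mem _ _ h
        rcases h5 with rfl | h5
        · exact m3 ((or_self_iff.1 (SubMain_out h1 h2 hx (SubMain_E s m1))).trans
            (or_self_iff.1 (SubMain_out h1 h2 hy (SubMain_E s m2))).symm)
        · exact SubMain_pair (r := fun a b => s.l1 a ≠ s.l1 b) h5 h5.symm hn f1 f2
            ((hH a b hn hc).1 pa pb)
    · rcases h with h | h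
      · exact SubMain_mono (d3 x y ⟨h, q, p⟩) subset_union_right
      · exact absurd (c3 x y ⟨h, q⟩) p

end Pool.Agent.P.MP_c18ddb_co.X
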