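import Pool.Agent.P.MP_c18ddb_co.X.Gap

/-! Symmetrisation: every cover of small weight is close to the template. -/

namespace Pool.Agent.P.MP_c18ddb_co.X

open Finset Q

theorem Symm_deg {V : Type} [Fintype V] {D : V → V → ℝ}
    (h : ∀ u v, ∑ y, D u y ≤ ∑ y, D v y + 3) (v : V) :
    |Fintype.card V * ∑ y, D v y - ∑ u, ∑ y, D u y| ≤ 3 * Fintype.card V := by
  have h1 : ∑ u, ∑ y, D u y ≤ ∑ _u : V, (∑ y, D v y + 3) := sum_le_sum fun u _ => h u v
  have h2 : ∑ _u : V, (∑ y, D v y - 3) ≤ ∑ u, ∑ y, D u y :=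
    sum_le_sum fun u _ => by linarith [h v u]
  rw [sum_const, card_univ, nsmul_eq_mul] at h1 h2
  rw [abs_le]
  constructor <;> linarith

theorem Symm_mix {V : Type} {c : V → V → Bool} {D : V → V → ℝ} (h : Cov c D) {s : ℝ}
    (h0 : 0 ≤ s) (h1 : s ≤ 1) : Cov c fun u v => (1 - s) * D u v + 3 * s := by
  have h2 : 0 ≤ 1 - s := by linarith
  refine ⟨h.c_symm, fun u v => by rw [h.D_symm], fun u v => ?_, fun t a b d k1 k2 k3 => ?_,
    fun t a b d e k1 k2 k3 k4 k5 k6 => ?_, fun t a b d e f k1 k2 k3 k4 k5 k6 k7 k8 k9 k10 => ?_⟩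
  · have := mul_nonneg h2 (h.D_nonneg u v)
    linarith
  · have := mul_le_mul_of_nonneg_left (h.k3 t a b d k1 k2 k3) h2
    linarith
  · have := mul_le_mul_of_nonneg_left (h.k4 t a b d e k1 k2 k3 k4 k5 k6) h2
    linarith
  · have := mul_le_mul_of_nonneg_left (h.k5 t a b d e f k1 k2 k3 k4 k5 k6 k7 k8 k9 k10) h2
    linarith

/-- a cover of small weight whose degrees differ by at most three is close to the template -/
theorem rc_min (hRC : RC) (ε : ℝ) (hε : 0 < ε) : ∃ δ : ℝ, 0 < δ ∧ ∃ n0 : ℕ,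
    ∀ (V : Type) [Fintype V] (c : V → V → Bool) (D : V → V → ℝ), n0 ≤ Fintype.card V →
      Cov c D → (∀ u v, D u v ≤ 3) → (∀ u v, ∑ y, D u y ≤ ∑ y, D v y + 3) →
      ∑ u, ∑ v, D u v ≤ (3 / 7 + δ) * (Fintype.card V : ℝ) ^ 2 → Close ε c := by
  obtain ⟨δ, hδ, H⟩ := hRC ε hε
  obtain ⟨N, hN⟩ := exists_nat_ge (6 / δ)
  refine ⟨δ / 2, by positivity, N + 1, fun V _ c D hn hc h3 hd ht => ?_⟩
  have hV : Nonempty V := Fintype.card_pos_iff.1 (by omega)
  have hn' : (N : ℝ) + 1 ≤ Fintype.card V := by exact_mod_cast hn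
  have hN0 : (0 : ℝ) ≤ N := Nat.cast_nonneg _
  have hn0 : (0 : ℝ) < Fintype.card V := by linarith
  have h6 : 6 ≤ δ * Fintype.card V := by
    rw [div_le_iff₀' hδ] at hN
    nlinarith
  have key : ∀ D : V → V → ℝ, Cov c D → (∀ u v, D u v ≤ 3) →
      (∀ u v, ∑ y, D u y ≤ ∑ y, D v y + 3) → 3 / 7 * (Fintype.card V : ℝ) ^ 2 ≤ ∑ u, ∑ v, D u v →
      ∑ u, ∑ v, D u v ≤ (3 / 7 + δ / 2) * (Fintype.card V : ℝ) ^ 2 → Close ε c := by
    intro D hc h3 hd hl ht
    refine H V c D hc h3 fun v => ?_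
    obtain ⟨k1, k2⟩ := abs_le.1 (Symm_deg hd v)
    have k3 := mul_le_mul_of_nonneg_left h6 hn0.le
    rw [abs_le]
    constructor
    · refine le_of_mul_le_mul_left ?_ hn0
      nlinarith
    · refine le_of_mul_le_mul_left ?_ hn0
      nlinarith
  rcases le_total (3 / 7 * (Fintype.card V : ℝ) ^ 2) (∑ u, ∑ v, D u v) with hl | hl
  · exact key D hc h3 hd hl ht
  · have hp : 0 < (Fintype.card V : ℝ) ^ 2 := by positivity
    set T := ∑ u, ∑ v, D u v with hT
    have hq : 0 < 3 * (Fintype.card V : ℝ) ^ 2 - T := by linarith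
    set s := (3 / 7 * (Fintype.card V : ℝ) ^ 2 - T) / (3 * (Fintype.card V : ℝ) ^ 2 - T) with hs
    have s0 : 0 ≤ s := div_nonneg (by linarith) hq.le
    have s1 : s ≤ 1 := (div_le_one hq).2 (by linarith)
    have s2 : s * (3 * (Fintype.card V : ℝ) ^ 2 - T) = 3 / 7 * (Fintype.card V : ℝ) ^ 2 - T :=
      div_mul_cancel₀ _ hq.ne'
    have e1 : ∀ u, ∑ y, ((1 - s) * D u y + 3 * s) =
        (1 - s) * ∑ y, D u y + Fintype.card V * (3 * s) := fun u => by
      rw [sum_add_distrib, ← mul_sum, sum_const, card_univ, nsmul_eq_mul]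
    have e2 : ∑ u, ∑ y, ((1 - s) * D u y + 3 * s) = 3 / 7 * (Fintype.card V : ℝ) ^ 2 := by
      simp only [e1]
      rw [sum_add_distrib, ← mul_sum, sum_const, card_univ, nsmul_eq_mul, ← hT]
      linarith
    refine key _ (Symm_mix hc s0 s1) (fun u v => ?_) (fun u v => ?_) e2.ge ?_
    · nlinarith [mul_le_mul_of_nonneg_left (h3 u v) (sub_nonneg.2 s1)]
    · rw [e1, e1]
      nlinarith [mul_le_mul_of_nonneg_left (hd u v) (sub_nonneg.2 s1)]
    · rw [e2]
      exact mul_le_mul_of_nonneg_right (by linarith) hp.le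

theorem Symm_comp {V : Type} {c : V → V → Bool} {D : V → V → ℝ} (h : Cov c D) (g : V → V) :
    Cov (fun u v => c (g u) (g v)) fun u v => D (g u) (g v) :=
  ⟨fun _ _ => h.c_symm _ _, fun _ _ => h.D_symm _ _, fun _ _ => h.D_nonneg _ _,
    fun s _ _ _ => h.k3 s _ _ _, fun s _ _ _ _ => h.k4 s _ _ _ _,
    fun s _ _ _ _ _ => h.k5 s _ _ _ _ _⟩

theorem Symm_split {V : Type} [Fintype V] [DecidableEq V] {D : V → V → ℝ}
    (hs : ∀ u v, D u v = D v u) (g : V → V) (i : V) :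
    ∑ u, ∑ v, D (g u) (g v) = ∑ u ∈ univ.erase i, ∑ v ∈ univ.erase i, D (g u) (g v) +
      2 * ∑ v ∈ univ.erase i, D (g i) (g v) + D (g i) (g i) := by
  have e : ∀ u, ∑ v, D (g u) (g v) = D (g i) (g u) + ∑ v ∈ univ.erase i, D (g u) (g v) :=
    fun u => by rw [← add_sum_erase _ _ (mem_univ i), hs]
  simp only [e]
  rw [← add_sum_erase _ _ (mem_univ i), sum_add_distrib]
  ring

theorem Symm_update {V : Type} [Fintype V] [DecidableEq V] {D : V → V → ℝ}
    (hs : ∀ u v, D u v = D v u) (h3 : ∀ v, D v v = 3) (g : V → V) (i j : V) :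
    ∑ u, ∑ v, D (Function.update g i (g j) u) (Function.update g i (g j) v) =
      ∑ u, ∑ v, D (g u) (g v) +
        2 * (∑ v, D (g j) (g v) - D (g j) (g i) - ∑ v, D (g i) (g v) + 3) := by
  have e : ∀ v ∈ univ.erase i, Function.update g i (g j) v = g v := fun v hv =>
    Function.update_of_ne (ne_of_mem_erase hv) _ _
  have e1 : ∑ u ∈ univ.erase i, ∑ v ∈ univ.erase i,
      D (Function.update g i (g j) u) (Function.update g i (g j) v) =
      ∑ u ∈ univ.erase i, ∑ v ∈ univ.erase i, D (g u) (g v) :=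
    sum_congr rfl fun u hu => sum_congr rfl fun v hv => by rw [e u hu, e v hv]
  have e2 : ∑ v ∈ univ.erase i, D (g j) (Function.update g i (g j) v) =
      ∑ v ∈ univ.erase i, D (g j) (g v) := sum_congr rfl fun v hv => by rw [e v hv]
  rw [Symm_split hs _ i, Symm_split hs g i, Function.update_self, e1, e2,
    ← add_sum_erase _ (fun v => D (g j) (g v)) (mem_univ i),
    ← add_sum_erase _ (fun v => D (g i) (g v)) (mem_univ i), h3, h3]
  ring

theorem symm_close (hRC : RC) (ε : ℝ) (hε : 0 < ε) : ∃ δ : ℝ, 0 < δ ∧ ∃ n0 : ℕ,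
    ∀ (V : Type) [Fintype V] [DecidableEq V] (c : V → V → Bool) (D : V → V → ℝ),
      n0 ≤ Fintype.card V → Cov c D → (∀ v, D v v = 3) →
      ∑ u, ∑ v, D u v ≤ (3 / 7 + δ) * (Fintype.card V : ℝ) ^ 2 → Close ε c := by
  obtain ⟨ε1, κ, h1, hκ, n1, hq⟩ := ql
  obtain ⟨δ1, hδ1, n2, hg⟩ := gap hκ hq (min ε (ε1 / 2)) (lt_min hε (by positivity))
  obtain ⟨δ2, hδ2, n3, hr⟩ := rc_min hRC ε1 h1
  obtain ⟨N, hN⟩ := exists_nat_ge (4 / ε1)
  refine ⟨min δ1 δ2, lt_min hδ1 hδ2, max (max n2 n3) N, fun V _ _ c D hn hc h3 ht => ?_⟩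
  have hn2 : n2 ≤ Fintype.card V := (le_max_left _ _).trans ((le_max_left _ _).trans hn)
  have hn3 : n3 ≤ Fintype.card V := (le_max_right _ _).trans ((le_max_left _ _).trans hn)
  have hnN : (N : ℝ) ≤ Fintype.card V := by exact_mod_cast (le_max_right _ _).trans hn
  have h4 : 4 ≤ ε1 * Fintype.card V := by
    have := hN.trans hnN
    rwa [div_le_iff₀' h1] at this
  have b1 : (3 / 7 + min δ1 δ2) * (Fintype.card V : ℝ) ^ 2 ≤
      (3 / 7 + δ1) * (Fintype.card V : ℝ) ^ 2 :=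
    mul_le_mul_of_nonneg_right (by linarith [min_le_left δ1 δ2]) (sq_nonneg _)
  have b2 : (3 / 7 + min δ1 δ2) * (Fintype.card V : ℝ) ^ 2 ≤
      (3 / 7 + δ2) * (Fintype.card V : ℝ) ^ 2 :=
    mul_le_mul_of_nonneg_right (by linarith [min_le_right δ1 δ2]) (sq_nonneg _)
  by_contra hcon
  obtain ⟨g, ⟨g1, g2⟩, g3⟩ := Set.exists_min_image
    {g : V → V | ∑ u, ∑ v, D (g u) (g v) ≤ (3 / 7 + min δ1 δ2) * (Fintype.card V : ℝ) ^ 2 ∧
      ¬ Close (min ε (ε1 / 2)) fun u v => c (g u) (g v)}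
    (fun g => ∑ u, ∑ v, D (g u) (g v)) (Set.toFinite _)
    ⟨id, ht, fun h => hcon (h.mono (min_le_left _ _))⟩
  refine g2 (hg V _ _ hn2 (Symm_comp hc g) (g1.trans b1) ?_)
  by_cases hlt : ∃ i j, ∑ u, ∑ v, D (Function.update g i (g j) u) (Function.update g i (g j) v) <
      ∑ u, ∑ v, D (g u) (g v)
  · obtain ⟨i, j, hij⟩ := hlt
    obtain ⟨π, hπ⟩ : Close (min ε (ε1 / 2))
        fun u v => c (Function.update g i (g j) u) (Function.update g i (g j) v) := by
      by_contra h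
      exact absurd (g3 _ ⟨hij.le.trans g1, h⟩) (not_le.2 hij)
    refine ⟨π, (hπ.change (η := ε1 / 2) {i} (fun _ _ => rfl) (fun u v hu hv _ => ?_) ?_).mono ?_⟩
    · rw [Function.update_of_ne (notMem_singleton.1 hu),
        Function.update_of_ne (notMem_singleton.1 hv)]
    · rw [card_singleton, Nat.cast_one]
      linarith
    · linarith [min_le_right ε (ε1 / 2)]
  · push Not at hlt
    have k : ∀ i j, ∑ v, D (g i) (g v) + D (g j) (g i) ≤ ∑ v, D (g j) (g v) + 3 := fun i j => by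
      have := hlt i j
      rw [Symm_update hc.D_symm h3] at this
      linarith
    refine hr V _ _ hn3 (Symm_comp hc g) (fun u v => ?_) (fun u v => ?_) (g1.trans b2)
    · have k1 := k u v
      have k2 := k v u
      rw [hc.D_symm] at k1
      linarith
    · linarith [k u v, hc.D_nonneg (g v) (g u)]

end Pool.Agent.P.MP_c18ddb_co.X
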